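import Pool.Agent.H547.Base

set_option autoImplicit false
set_option linter.unusedSectionVars false

/-!
Relations between the power sums `∑_{i<p} i^{-r}` and `∑_{i<p/2} i^{-r}` modulo powers of `p`.
-/

namespace Pool.Agent.H547

open Finset Pool.Agent.R439.PL

variable {p : ℕ} [hp : Fact p.Prime]

theorem H_one (n r : ℕ) (h : n = 1) : H n r = 1 := by subst h; simp [H]

theorem split1 {y : ℕ} (hy : p = 2 * y + 1) (r : ℕ) :
    H (2 * y) r = H y r + ∑ i ∈ range y, 1 / ((p : ℚ) - ((i : ℚ) + 1)) ^ r := by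
  unfold H
  rw [two_mul, sum_range_add]
  congr 1
  rw [← sum_range_reflect]
  refine sum_congr rfl fun i hi => ?_
  have hi' := mem_range.1 hi
  have e : ((y + (y - 1 - i) : ℕ) : ℚ) + 1 = (p : ℚ) - ((i : ℚ) + 1) := by
    have : ((y + (y - 1 - i) : ℕ) : ℚ) + 1 + ((i : ℚ) + 1) = (p : ℚ) := by
      have h2 : y + (y - 1 - i) + 1 + (i + 1) = p := by omega
      exact_mod_cast h2
    linarith
  rw [← e]

theorem refl1 {y : ℕ} (hy : p = 2 * y + 1) (r : ℕ) :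
    H (2 * y) r = ∑ i ∈ range (2 * y), 1 / ((p : ℚ) - ((i : ℚ) + 1)) ^ r := by
  unfold H
  rw [← sum_range_reflect]
  refine sum_congr rfl fun i hi => ?_
  have hi' := mem_range.1 hi
  have e : ((2 * y - 1 - i : ℕ) : ℚ) + 1 = (p : ℚ) - ((i : ℚ) + 1) := by
    have : ((2 * y - 1 - i : ℕ) : ℚ) + 1 + ((i : ℚ) + 1) = (p : ℚ) := by
      have h2 : 2 * y - 1 - i + 1 + (i + 1) = p := by omega
      exact_mod_cast h2
    linarith
  rw [← e]

theorem evenodd (g : ℕ → ℚ) (y : ℕ) : ∑ i ∈ range (2 * y), g i =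
    ∑ i ∈ range y, g (2 * i + 1) + ∑ i ∈ range y, g (2 * i) := by
  induction y with
  | zero => simp
  | succ y ih =>
    rw [show 2 * (y + 1) = 2 * y + 1 + 1 by ring, sum_range_succ, sum_range_succ, ih,
      sum_range_succ, sum_range_succ]
    ring

theorem split2 {y : ℕ} (hy : p = 2 * y + 1) (r : ℕ) :
    H (2 * y) r = 1 / 2 ^ r * H y r + ∑ i ∈ range y, 1 / ((p : ℚ) - 2 * ((i : ℚ) + 1)) ^ r := by
  unfold H
  rw [evenodd (fun i => 1 / ((i : ℚ) + 1) ^ r) y]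
  congr 1
  · rw [mul_sum]
    refine sum_congr rfl fun i _ => ?_
    push_cast
    rw [div_mul_div_comm, one_mul, ← mul_pow]
    congr 2
    ring
  · rw [← sum_range_reflect]
    refine sum_congr rfl fun i hi => ?_
    have hi' := mem_range.1 hi
    have e : ((2 * (y - 1 - i) : ℕ) : ℚ) + 1 = (p : ℚ) - 2 * ((i : ℚ) + 1) := by
      have : ((2 * (y - 1 - i) : ℕ) : ℚ) + 1 + 2 * ((i : ℚ) + 1) = (p : ℚ) := by
        have h2 : 2 * (y - 1 - i) + 1 + 2 * (i + 1) = p := by omega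
        exact_mod_cast h2
      linarith
    rw [← e]

/-- `p - u` is a unit if `u` is -/
theorem psub {u : ℚ} (hu : U p u) : U p ((p : ℚ) - u) := by
  apply U_of_not_I (sub_mem p_mem hu.2.1)
  intro h
  have := (I_p (p := p)).sub h
  rw [sub_sub_cancel] at this
  exact hu.not_I one_pos this

theorem ex1 {u : ℚ} (hu : U p u) : I p 4 (1 / ((p : ℚ) - u) -
    (-(1 / u) - p * (1 / u ^ 2) - p ^ 2 * (1 / u ^ 3) - p ^ 3 * (1 / u ^ 4))) := by
  have h2 := psub hu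
  refine ⟨1 / (u ^ 4 * ((p : ℚ) - u)), dmem (one_mem _) ((hu.pow 4).mul h2), ?_⟩
  have e1 := hu.1
  have e2 := h2.1
  field_simp
  ring

theorem ex2 {u : ℚ} (hu : U p u) : I p 3 (1 / ((p : ℚ) - u) ^ 2 -
    (1 / u ^ 2 + 2 * p * (1 / u ^ 3) + 3 * p ^ 2 * (1 / u ^ 4))) := by
  have h2 := psub hu
  refine ⟨(4 * u - 3 * p) / (u ^ 4 * ((p : ℚ) - u) ^ 2), dmem (sub_mem
    (mul_mem (nm 4) hu.2.1) (mul_mem (nm 3) p_mem)) ((hu.pow 4).mul (h2.pow 2)), ?_⟩
  have e1 := hu.1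
  have e2 := h2.1
  field_simp
  ring

theorem ex3 {u : ℚ} (hu : U p u) : I p 2 (1 / ((p : ℚ) - u) ^ 3 -
    (-(1 / u ^ 3) - 3 * p * (1 / u ^ 4))) := by
  have h2 := psub hu
  refine ⟨(6 * u ^ 2 - 8 * u * p + 3 * p ^ 2) / (u ^ 4 * ((p : ℚ) - u) ^ 3), dmem ?_
    ((hu.pow 4).mul (h2.pow 3)), ?_⟩
  · exact add_mem (sub_mem (mul_mem (nm 6) (pow_mem hu.2.1 2))
      (mul_mem (mul_mem (nm 8) hu.2.1) p_mem)) (mul_mem (nm 3) (pow_mem p_mem 2))
  · have e1 := hu.1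
    have e2 := h2.1
    field_simp
    ring

theorem ex4 {u : ℚ} (hu : U p u) : I p 1 (1 / ((p : ℚ) - u) ^ 4 - 1 / u ^ 4) := by
  have h2 := psub hu
  refine ⟨(4 * u ^ 3 - 6 * u ^ 2 * p + 4 * u * p ^ 2 - p ^ 3) / (u ^ 4 * ((p : ℚ) - u) ^ 4), dmem ?_
    ((hu.pow 4).mul (h2.pow 4)), ?_⟩
  · exact sub_mem (add_mem (sub_mem (mul_mem (nm 4) (pow_mem hu.2.1 3))
      (mul_mem (mul_mem (nm 6) (pow_mem hu.2.1 2)) p_mem))
      (mul_mem (mul_mem (nm 4) hu.2.1) (pow_mem p_mem 2))) (pow_mem p_mem 3)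
  · have e1 := hu.1
    have e2 := h2.1
    field_simp
    ring

/-- sums of a congruence -/
theorem Isum_sub {k n : ℕ} {f g : ℕ → ℚ} {a b : ℚ} (h : ∀ i ∈ range n, I p k (f i - g i))
    (ha : a = ∑ i ∈ range n, f i) (hb : b = ∑ i ∈ range n, g i) : I p k (a - b) := by
  rw [ha, hb, ← sum_sub_distrib]
  exact I.sum h

section rel

variable {y : ℕ} (hy : p = 2 * y + 1)
include hy

theorem relA2 : I p 3 (H (2 * y) 2 - (2 * H y 2 + 2 * p * H y 3 + 3 * p ^ 2 * H y 4)) := by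
  rw [split1 hy]
  have h : I p 3 (∑ i ∈ range y, 1 / ((p : ℚ) - ((i : ℚ) + 1)) ^ 2 -
      (H y 2 + 2 * p * H y 3 + 3 * p ^ 2 * H y 4)) :=
    Isum_sub (fun i hi => ex2 (uSucc (p := p) (mem_range.1 hi) (by omega))) rfl (by
      unfold H; rw [mul_sum, mul_sum, ← sum_add_distrib, ← sum_add_distrib])
  exact icg h (by ring)

theorem relB2 : I p 3 (H (2 * y) 2 - (1 / 2 * H y 2 + 1 / 4 * p * H y 3 + 3 / 16 * p ^ 2 * H y 4)) := by
  rw [split2 hy]
  have h : I p 3 (∑ i ∈ range y, 1 / ((p : ℚ) - 2 * ((i : ℚ) + 1)) ^ 2 -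
      (1 / 4 * H y 2 + 1 / 4 * p * H y 3 + 3 / 16 * p ^ 2 * H y 4)) := by
    refine Isum_sub (fun i hi => ex2 ((uSucc (p := p) (mem_range.1 hi) (by omega)).mul
      (uNat (k := 2) (by norm_num) ?_) |> fun h => by
        have e : ((i : ℚ) + 1) * ((2 : ℕ) : ℚ) = 2 * ((i : ℚ) + 1) := by push_cast; ring
        rwa [e] at h)) rfl ?_
    · have := mem_range.1 hi
      omega
    · unfold H
      rw [mul_sum, mul_sum, mul_sum, ← sum_add_distrib, ← sum_add_distrib]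
      refine sum_congr rfl fun i _ => ?_
      have : (i : ℚ) + 1 ≠ 0 := by positivity
      field_simp
      ring
  exact icg h (by ring)

theorem relA4 : I p 1 (H (2 * y) 4 - 2 * H y 4) := by
  rw [split1 hy]
  have h : I p 1 (∑ i ∈ range y, 1 / ((p : ℚ) - ((i : ℚ) + 1)) ^ 4 - H y 4) :=
    Isum_sub (fun i hi => ex4 (uSucc (p := p) (mem_range.1 hi) (by omega))) rfl rfl
  exact icg h (by ring)

theorem relB4 : I p 1 (H (2 * y) 4 - 1 / 8 * H y 4) := by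
  rw [split2 hy]
  have h : I p 1 (∑ i ∈ range y, 1 / ((p : ℚ) - 2 * ((i : ℚ) + 1)) ^ 4 - 1 / 16 * H y 4) := by
    refine Isum_sub (fun i hi => ex4 ((uSucc (p := p) (mem_range.1 hi) (by omega)).mul
      (uNat (k := 2) (by norm_num) ?_) |> fun h => by
        have e : ((i : ℚ) + 1) * ((2 : ℕ) : ℚ) = 2 * ((i : ℚ) + 1) := by push_cast; ring
        rwa [e] at h)) rfl ?_
    · have := mem_range.1 hi
      omega
    · unfold H
      rw [mul_sum]
      refine sum_congr rfl fun i _ => ?_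
      have : (i : ℚ) + 1 ≠ 0 := by positivity
      field_simp
      ring
  exact icg h (by ring)

theorem relC1 : I p 4 (2 * H (2 * y) 1 + p * H (2 * y) 2 + p ^ 2 * H (2 * y) 3 +
    p ^ 3 * H (2 * y) 4) := by
  have h : I p 4 (∑ i ∈ range (2 * y), 1 / ((p : ℚ) - ((i : ℚ) + 1)) ^ 1 -
      (-(H (2 * y) 1) - p * H (2 * y) 2 - p ^ 2 * H (2 * y) 3 - p ^ 3 * H (2 * y) 4)) :=
    Isum_sub (fun i hi => by
      simpa only [pow_one] using ex1 (uSucc (p := p) (mem_range.1 hi) (by omega))) rfl (by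
      unfold H; rw [← sum_neg_distrib, mul_sum, mul_sum, mul_sum, ← sum_sub_distrib,
        ← sum_sub_distrib, ← sum_sub_distrib]; simp only [pow_one])
  rw [← refl1 hy 1] at h
  exact icg h (by ring)

theorem relC3 : I p 2 (2 * H (2 * y) 3 + 3 * p * H (2 * y) 4) := by
  have h : I p 2 (∑ i ∈ range (2 * y), 1 / ((p : ℚ) - ((i : ℚ) + 1)) ^ 3 -
      (-(H (2 * y) 3) - 3 * p * H (2 * y) 4)) :=
    Isum_sub (fun i hi => ex3 (uSucc (p := p) (mem_range.1 hi) (by omega))) rfl (by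
      unfold H; rw [← sum_neg_distrib, mul_sum, ← sum_sub_distrib])
  rw [← refl1 hy 3] at h
  exact icg h (by ring)

end rel

end Pool.Agent.H547
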