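import Pool.Agent.H547.ZC

set_option autoImplicit false

/-!
# The common expansion as a power series with integral coefficients
-/

namespace Pool.Agent.H547

open Finset PowerSeries

/-- the common coefficients -/
def gz (j : ℕ) : ℤ := ∑ k ∈ range (j + 1), (An k : ℤ) * ((j + k).choose (2 * k) : ℤ) * (-8) ^ (j - k)

theorem gz_c (j : ℕ) : (gz j : ℚ) = gc j := by
  unfold gz gc cc'
  push_cast
  refine sum_congr rfl fun k hk => ?_
  have hk' : k ≤ j := by have := mem_range.mp hk; omega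
  have e : (-8 : ℚ) ^ ((j : ℤ) - k) = (-8) ^ (j - k) := by
    rw [← Nat.cast_sub hk', zpow_natCast]
  rw [e]
  ring

theorem gz_a (j : ℕ) : gz j = ∑ k ∈ range (j + 1), if 2 * k ≤ j then (ak k : ℤ) * ((j + k).choose (3 * k) : ℤ) *
    (-4) ^ (j - 2 * k) else 0 := by
  have h : (gz j : ℚ) = ((∑ k ∈ range (j + 1), if 2 * k ≤ j then (ak k : ℤ) * ((j + k).choose (3 * k) : ℤ) *
    (-4) ^ (j - 2 * k) else 0 : ℤ) : ℚ) := by
    rw [gz_c, ← (three_eq j).1]
    unfold ga ca'
    push_cast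
    refine sum_congr rfl fun k hk => ?_
    split_ifs with hk'
    · have e : (-4 : ℚ) ^ ((j : ℤ) - 2 * k) = (-4) ^ (j - 2 * k) := by
        have : (j : ℤ) - 2 * k = ((j - 2 * k : ℕ) : ℤ) := by omega
        rw [this, zpow_natCast]
      rw [e]
      push_cast
      ring
    · rw [Nat.choose_eq_zero_of_lt (show j + k < 3 * k by omega)]
      simp
  exact_mod_cast h

theorem gz_b (j : ℕ) : gz j = ∑ k ∈ range (j + 1), (ak k : ℤ) * ((j + 2 * k).choose (3 * k) : ℤ) * (-16) ^ (j - k) := by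
  have h : (gz j : ℚ) = ((∑ k ∈ range (j + 1), (ak k : ℤ) * ((j + 2 * k).choose (3 * k) : ℤ) *
    (-16) ^ (j - k) : ℤ) : ℚ) := by
    rw [gz_c, ← (three_eq j).2]
    unfold gb cb'
    push_cast
    refine sum_congr rfl fun k hk => ?_
    have hk' : k ≤ j := by have := mem_range.mp hk; omega
    have e : (-16 : ℚ) ^ ((j : ℤ) - k) = (-16) ^ (j - k) := by
      rw [← Nat.cast_sub hk', zpow_natCast]
    rw [e]
    ring
  exact_mod_cast h

section ser

variable {R : Type*} [CommRing R]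

/-- the inverse of `1 + c X` -/
noncomputable def ic (c : R) : R⟦X⟧ := PowerSeries.rescale (-c) (PowerSeries.mk 1)

theorem ic_mul (c : R) : (1 + C c * X) * ic c = 1 := by
  have h := PowerSeries.mk_one_mul_one_sub_eq_one R
  have h2 := congrArg (PowerSeries.rescale (-c)) h
  rw [map_mul, map_sub, map_one, rescale_X] at h2
  unfold ic
  rw [map_neg] at h2
  linear_combination h2

theorem ic_pow (c : R) (d n : ℕ) : coeff n (ic c ^ (d + 1)) = (-c) ^ n * ((d + n).choose d : R) := by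
  unfold ic
  rw [← map_pow, PowerSeries.mk_one_pow_eq_mk_choose_add, coeff_rescale, coeff_mk]

/-- the three series, truncated after `N` terms -/
noncomputable def Sa (N : ℕ) : R⟦X⟧ := ∑ k ∈ range N, C ((ak k : ℕ) : R) * (X ^ (2 * k) * ic (4 : R) ^ (3 * k + 1))
noncomputable def Sb (N : ℕ) : R⟦X⟧ := ∑ k ∈ range N, C ((ak k : ℕ) : R) * (X ^ k * ic (16 : R) ^ (3 * k + 1))
noncomputable def Sc (N : ℕ) : R⟦X⟧ := ∑ k ∈ range N, C ((An k : ℕ) : R) * (X ^ k * ic (8 : R) ^ (2 * k + 1))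

theorem sum_ext'' {M : Type*} [AddCommMonoid M] (f : ℕ → M) (n N : ℕ) (h : n ≤ N) (h0 : ∀ k, n ≤ k → k < N → f k = 0) :
    ∑ k ∈ range N, f k = ∑ k ∈ range n, f k := by
  symm
  refine sum_subset (fun k hk => ?_) (fun k hk' hk => ?_)
  · rw [mem_range] at hk ⊢
    omega
  · rw [mem_range, not_lt] at hk
    exact h0 k hk (mem_range.mp hk')

theorem Sa_coeff (N j : ℕ) (h : j < N) : coeff j (Sa N : R⟦X⟧) = (gz j : R) := by
  unfold Sa
  rw [map_sum, sum_ext'' _ (j + 1) N (by omega), gz_a]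
  · push_cast
    refine sum_congr rfl fun k _ => ?_
    rw [coeff_C_mul, coeff_X_pow_mul']
    split_ifs with hk
    · rw [ic_pow, show 3 * k + (j - 2 * k) = j + k by omega]
      push_cast
      ring
    · simp
  · intro k hk _
    rw [coeff_C_mul, coeff_X_pow_mul', if_neg (by omega), mul_zero]

theorem Sb_coeff (N j : ℕ) (h : j < N) : coeff j (Sb N : R⟦X⟧) = (gz j : R) := by
  unfold Sb
  rw [map_sum, sum_ext'' _ (j + 1) N (by omega), gz_b]
  · push_cast
    refine sum_congr rfl fun k hk => ?_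
    have hk' := mem_range.mp hk
    rw [coeff_C_mul, coeff_X_pow_mul', if_pos (by omega), ic_pow, show 3 * k + (j - k) = j + 2 * k by omega]
    push_cast
    ring
  · intro k hk _
    rw [coeff_C_mul, coeff_X_pow_mul', if_neg (by omega), mul_zero]

theorem Sc_coeff (N j : ℕ) (h : j < N) : coeff j (Sc N : R⟦X⟧) = (gz j : R) := by
  unfold Sc
  rw [map_sum, sum_ext'' _ (j + 1) N (by omega), gz]
  · push_cast
    refine sum_congr rfl fun k hk => ?_
    have hk' := mem_range.mp hk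
    rw [coeff_C_mul, coeff_X_pow_mul', if_pos (by omega), ic_pow, show 2 * k + (j - k) = j + k by omega]
    push_cast
    ring
  · intro k hk _
    rw [coeff_C_mul, coeff_X_pow_mul', if_neg (by omega), mul_zero]

/-- the common series -/
noncomputable def Gs : R⟦X⟧ := PowerSeries.mk fun j => (gz j : R)

theorem Sa_dvd (N : ℕ) : X ^ N ∣ (Sa N : R⟦X⟧) - Gs := by
  rw [X_pow_dvd_iff]
  intro m hm
  rw [map_sub, Sa_coeff N m hm, Gs, coeff_mk, sub_self]

theorem Sb_dvd (N : ℕ) : X ^ N ∣ (Sb N : R⟦X⟧) - Gs := by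
  rw [X_pow_dvd_iff]
  intro m hm
  rw [map_sub, Sb_coeff N m hm, Gs, coeff_mk, sub_self]

theorem Sc_dvd (N : ℕ) : X ^ N ∣ (Sc N : R⟦X⟧) - Gs := by
  rw [X_pow_dvd_iff]
  intro m hm
  rw [map_sub, Sc_coeff N m hm, Gs, coeff_mk, sub_self]

end ser

end Pool.Agent.H547
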