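import Pool.Agent.H547.ZI
import Pool.Agent.H546.Util

set_option autoImplicit false
set_option linter.unusedSectionVars false

/-!
# Consequences of the relation
-/

namespace Pool.Agent.H547

open Finset

section fin

variable {A : Type*} [CommRing A] {p : ℕ} [hp : Fact p.Prime]

theorem unit_add_p (hp2 : (p : A) ^ 2 = 0) {u d : A} (hu : IsUnit u) : IsUnit (u + p * d) := by
  obtain ⟨v, hv⟩ := hu.exists_right_inv
  refine IsUnit.of_mul_eq_one (v - p * d * v ^ 2) ?_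
  linear_combination (1 - p * d * v) * hv - (d ^ 2 * v ^ 2) * hp2

/-- the final relation -/
theorem club_fin (hp2 : (p : A) ^ 2 = 0) (hp3 : 3 < p) {s s' δ i4 i8 i16 : A} (h4 : (1 + 4 * s) * i4 = 1)
    (h8 : (1 + 8 * s) * i8 = 1) (h16 : (1 + 16 * s) * i16 = 1) (hs : s ^ p = s' + p * δ)
    (u8 : IsUnit (1 + 8 * s')) (u3 : IsUnit (3 : A))
    (hrel : i16 * (1 + 16 * s') * SS p (s * i16 ^ 3) = i4 * (1 + 4 * s') * SS p (s ^ 2 * i4 ^ 3)) :
    i8 * (1 + 8 * s') * AA p (s * i8 ^ 2) = i4 * (1 + 4 * s') * SS p (s ^ 2 * i4 ^ 3) := by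
  have h := club hp2 hp3 h4 h8 h16
  rw [hs] at h
  have hu : IsUnit (3 * ((1 + 8 * s') + p * (16 * δ))) := u3.mul (unit_add_p hp2 u8)
  apply hu.mul_left_cancel
  set S1 := SS p (s ^ 2 * i4 ^ 3)
  set S2 := SS p (s * i16 ^ 3)
  set T := AA p (s * i8 ^ 2)
  linear_combination (-1 : A) * h + ((1 + 16 * s') + 32 * p * δ) * hrel +
    (32 * i4 * δ ^ 2 * S1 + 256 * i16 * δ ^ 2 * S2 - 192 * i8 * δ ^ 2 * T) * hp2

theorem club_same (hp2 : (p : A) ^ 2 = 0) (hp3 : 3 < p) {s δ i4 i8 i16 : A} (h4 : (1 + 4 * s) * i4 = 1)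
    (h8 : (1 + 8 * s) * i8 = 1) (h16 : (1 + 16 * s) * i16 = 1) (hs : s ^ p = s + p * δ)
    (u3 : IsUnit (3 : A)) (hrel : SS p (s * i16 ^ 3) = SS p (s ^ 2 * i4 ^ 3)) :
    AA p (s * i8 ^ 2) = SS p (s ^ 2 * i4 ^ 3) := by
  have := club_fin hp2 hp3 h4 h8 h16 hs (IsUnit.of_mul_eq_one _ h8) u3
    (by rw [hrel]; linear_combination SS p (s ^ 2 * i4 ^ 3) * h16 - SS p (s ^ 2 * i4 ^ 3) * h4)
  linear_combination this - AA p (s * i8 ^ 2) * h8 + SS p (s ^ 2 * i4 ^ 3) * h4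

theorem club_zero (hp2 : (p : A) ^ 2 = 0) (hp3 : 3 < p) {s i4 i8 i16 : A} (h4 : (1 + 4 * s) * i4 = 1)
    (h8 : (1 + 8 * s) * i8 = 1) (h16 : (1 + 16 * s) * i16 = 1) (u3 : IsUnit (3 : A))
    (h1 : SS p (s * i16 ^ 3) = 0) (h2 : SS p (s ^ 2 * i4 ^ 3) = 0) : AA p (s * i8 ^ 2) = 0 := by
  have h := club hp2 hp3 h4 h8 h16
  rw [h1, h2, mul_zero, mul_zero, mul_zero, add_zero] at h
  obtain ⟨r, hr⟩ := ML_dvd (p := p) 8 s
  rw [Nat.cast_ofNat] at hr
  have u : IsUnit (1 + 8 * s ^ p) := by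
    have : 1 + 8 * s ^ p = (1 + 8 * s) ^ p + p * r := by linear_combination hr
    rw [this]
    exact unit_add_p hp2 ((IsUnit.of_mul_eq_one _ h8).pow p)
  have ui : IsUnit i8 := IsUnit.of_mul_eq_one (1 + 8 * s) (by linear_combination h8)
  have uu : IsUnit (3 * (i8 * (1 + 8 * s ^ p) ^ 2)) := u3.mul (ui.mul (u.pow 2))
  apply uu.mul_left_cancel
  rw [mul_zero]
  linear_combination -h

end fin

section trf

open Pool.Agent.Q267.CDE (R)
open Pool.Agent.H546 (QO)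
open Pool.Agent.Q267.MW (u3)

variable {p : ℕ} [hp : Fact p.Prime]

theorem SS_map {A B : Type*} [CommRing A] [CommRing B] (f : A →+* B) (x : A) : f (SS p x) = SS p (f x) := by
  simp [SS]

theorem AA_map {A B : Type*} [CommRing A] [CommRing B] (f : A →+* B) (x : A) : f (AA p x) = AA p (f x) := by
  simp [AA]

theorem SS_u3 (wi : R p) : ∑ k ∈ range p, (k.centralBinom : R p) * ((u3 k : ℕ) : R p) * wi ^ k = SS p wi := by
  unfold SS ak
  refine sum_congr rfl fun k _ => ?_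
  unfold Pool.Agent.Q267.MW.u3
  push_cast
  ring

/-- transfer of the Franel sum to rational numbers -/
theorem trA {M : ℤ} (hM : ¬ (p : ℤ) ∣ M) {wi : R p} (hwi : (M : R p) * wi = 1)
    (E : ℤ) (h : AA p wi = (E : R p)) :
    ¬ p ∣ (((∑ k ∈ range p, ((k.centralBinom : ℚ) * (fr k : ℚ)) / (M : ℚ) ^ k) - (E : ℚ)) / (p : ℚ) ^ 2).den := by
  have := Pool.Agent.H546.den_of_R (fun k => (An k : ℤ)) M hM wi hwi E (by rw [← h]; simp [AA])
  have e : ∑ k ∈ range p, ((k.centralBinom : ℚ) * (fr k : ℚ)) / (M : ℚ) ^ k =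
      ∑ k ∈ range p, (((An k : ℤ) : ℚ)) / (M : ℚ) ^ k := by
    refine sum_congr rfl fun k _ => ?_
    rw [An]; push_cast; ring
  rw [e]
  exact this

end trf

end Pool.Agent.H547
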