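import Pool.Agent.H547.Dbl

set_option autoImplicit false
set_option linter.unusedSectionVars false

/-!
Depth one relations to higher precision, `p = 2y+1`.
-/

namespace Pool.Agent.H547

open Finset Pool.Agent.R439.PL

variable {p : ℕ} [hp : Fact p.Prime]

theorem fx1 {u : ℚ} (hu : U p u) : I p 5 (1 / ((p : ℚ) - u) -
    (-(1 / u) - p * (1 / u ^ 2) - p ^ 2 * (1 / u ^ 3) - p ^ 3 * (1 / u ^ 4) - p ^ 4 * (1 / u ^ 5))) := by
  have h2 := psub hu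
  refine ⟨1 / (u ^ 5 * ((p : ℚ) - u)), dmem (one_mem _) ((hu.pow 5).mul h2), ?_⟩
  have e1 := hu.1
  have e2 := h2.1
  field_simp
  ring

theorem fx2 {u : ℚ} (hu : U p u) : I p 4 (1 / ((p : ℚ) - u) ^ 2 -
    (1 / u ^ 2 + 2 * p * (1 / u ^ 3) + 3 * p ^ 2 * (1 / u ^ 4) + 4 * p ^ 3 * (1 / u ^ 5))) := by
  have h2 := psub hu
  refine ⟨(5 * u - 4 * p) / (u ^ 5 * ((p : ℚ) - u) ^ 2), dmem (sub_mem
    (mul_mem (nm 5) hu.2.1) (mul_mem (nm 4) p_mem)) ((hu.pow 5).mul (h2.pow 2)), ?_⟩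
  have e1 := hu.1
  have e2 := h2.1
  field_simp
  ring

theorem fx3 {u : ℚ} (hu : U p u) : I p 3 (1 / ((p : ℚ) - u) ^ 3 -
    (-(1 / u ^ 3) - 3 * p * (1 / u ^ 4) - 6 * p ^ 2 * (1 / u ^ 5))) := by
  have h2 := psub hu
  refine ⟨(10 * u ^ 2 - 15 * u * p + 6 * p ^ 2) / (u ^ 5 * ((p : ℚ) - u) ^ 3), dmem ?_
    ((hu.pow 5).mul (h2.pow 3)), ?_⟩
  · exact add_mem (sub_mem (mul_mem (nm 10) (pow_mem hu.2.1 2))
      (mul_mem (mul_mem (nm 15) hu.2.1) p_mem)) (mul_mem (nm 6) (pow_mem p_mem 2))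
  · have e1 := hu.1
    have e2 := h2.1
    field_simp
    ring

theorem fx4 {u : ℚ} (hu : U p u) : I p 2 (1 / ((p : ℚ) - u) ^ 4 -
    (1 / u ^ 4 + 4 * p * (1 / u ^ 5))) := by
  have h2 := psub hu
  refine ⟨(10 * u ^ 3 - 20 * u ^ 2 * p + 15 * u * p ^ 2 - 4 * p ^ 3) / (u ^ 5 * ((p : ℚ) - u) ^ 4),
    dmem ?_ ((hu.pow 5).mul (h2.pow 4)), ?_⟩
  · exact sub_mem (add_mem (sub_mem (mul_mem (nm 10) (pow_mem hu.2.1 3))
      (mul_mem (mul_mem (nm 20) (pow_mem hu.2.1 2)) p_mem))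
      (mul_mem (mul_mem (nm 15) hu.2.1) (pow_mem p_mem 2))) (mul_mem (nm 4) (pow_mem p_mem 3))
  · have e1 := hu.1
    have e2 := h2.1
    field_simp
    ring

section rel

variable {y : ℕ} (hy : p = 2 * y + 1)
include hy

theorem u2i {i : ℕ} (hi : i < y) : U p (2 * ((i : ℚ) + 1)) := by
  have h := uSucc (p := p) hi (by omega)
  have h2 := u2 (p := p) (by omega)
  exact h2.mul h

theorem rA2 : I p 4 (H (2 * y) 2 - (2 * H y 2 + 2 * p * H y 3 + 3 * p ^ 2 * H y 4 +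
    4 * p ^ 3 * H y 5)) := by
  rw [split1 hy]
  have h : I p 4 (∑ i ∈ range y, 1 / ((p : ℚ) - ((i : ℚ) + 1)) ^ 2 -
      (H y 2 + 2 * p * H y 3 + 3 * p ^ 2 * H y 4 + 4 * p ^ 3 * H y 5)) :=
    Isum_sub (fun i hi => fx2 (uSucc (p := p) (mem_range.1 hi) (by omega))) rfl (by
      unfold H; rw [mul_sum, mul_sum, mul_sum, ← sum_add_distrib, ← sum_add_distrib,
        ← sum_add_distrib])
  exact icg h (by ring)

theorem rB2 : I p 4 (H (2 * y) 2 - (1 / 2 * H y 2 + 1 / 4 * p * H y 3 + 3 / 16 * p ^ 2 * H y 4 +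
    1 / 8 * p ^ 3 * H y 5)) := by
  rw [split2 hy]
  have h : I p 4 (∑ i ∈ range y, 1 / ((p : ℚ) - 2 * ((i : ℚ) + 1)) ^ 2 -
      (1 / 4 * H y 2 + 1 / 4 * p * H y 3 + 3 / 16 * p ^ 2 * H y 4 + 1 / 8 * p ^ 3 * H y 5)) := by
    refine Isum_sub (fun i hi => fx2 (u2i hy (mem_range.1 hi))) rfl ?_
    unfold H
    rw [mul_sum, mul_sum, mul_sum, mul_sum, ← sum_add_distrib, ← sum_add_distrib, ← sum_add_distrib]
    refine sum_congr rfl fun i _ => ?_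
    have : (i : ℚ) + 1 ≠ 0 := by positivity
    field_simp
    ring
  exact icg h (by ring)

theorem rA3 : I p 3 (H (2 * y) 3 + 3 * p * H y 4 + 6 * p ^ 2 * H y 5) := by
  rw [split1 hy]
  have h : I p 3 (∑ i ∈ range y, 1 / ((p : ℚ) - ((i : ℚ) + 1)) ^ 3 -
      (-(H y 3) - 3 * p * H y 4 - 6 * p ^ 2 * H y 5)) :=
    Isum_sub (fun i hi => fx3 (uSucc (p := p) (mem_range.1 hi) (by omega))) rfl (by
      unfold H; rw [mul_sum, mul_sum, ← sum_neg_distrib, ← sum_sub_distrib, ← sum_sub_distrib])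
  exact icg h (by ring)

theorem rB3 : I p 3 (H (2 * y) 3 + 3 / 16 * p * H y 4 + 3 / 16 * p ^ 2 * H y 5) := by
  rw [split2 hy]
  have h : I p 3 (∑ i ∈ range y, 1 / ((p : ℚ) - 2 * ((i : ℚ) + 1)) ^ 3 -
      (-(1 / 8 * H y 3) - 3 / 16 * p * H y 4 - 3 / 16 * p ^ 2 * H y 5)) := by
    refine Isum_sub (fun i hi => fx3 (u2i hy (mem_range.1 hi))) rfl ?_
    unfold H
    rw [mul_sum, mul_sum, mul_sum, ← sum_neg_distrib, ← sum_sub_distrib, ← sum_sub_distrib]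
    refine sum_congr rfl fun i _ => ?_
    have : (i : ℚ) + 1 ≠ 0 := by positivity
    field_simp
    ring
  exact icg h (by ring)

theorem rA4 : I p 2 (H (2 * y) 4 - (2 * H y 4 + 4 * p * H y 5)) := by
  rw [split1 hy]
  have h : I p 2 (∑ i ∈ range y, 1 / ((p : ℚ) - ((i : ℚ) + 1)) ^ 4 -
      (H y 4 + 4 * p * H y 5)) :=
    Isum_sub (fun i hi => fx4 (uSucc (p := p) (mem_range.1 hi) (by omega))) rfl (by
      unfold H; rw [mul_sum, ← sum_add_distrib])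
  exact icg h (by ring)

theorem H5_I (h3 : 3 < p) : I p 1 (H (2 * y) 5) := by
  have h : I p 1 (∑ i ∈ range (2 * y), 1 / ((p : ℚ) - ((i : ℚ) + 1)) ^ 5 - (-1) ^ 5 * H (2 * y) 5) :=
    Isum_sub (fun i hi => invp 5 (uSucc (p := p) (mem_range.1 hi) (by omega))) rfl (by
      unfold H; rw [mul_sum])
  rw [← refl1 hy 5] at h
  exact icg (h.mulL (x := 1 / 2) (m23 h3 1 1 0 (by norm_num))) (by ring)

theorem rC1 (h3 : 3 < p) : I p 5 (2 * H (2 * y) 1 + p * H (2 * y) 2 + p ^ 2 * H (2 * y) 3 +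
    p ^ 3 * H (2 * y) 4) := by
  have h : I p 5 (∑ i ∈ range (2 * y), 1 / ((p : ℚ) - ((i : ℚ) + 1)) ^ 1 -
      (-(H (2 * y) 1) - p * H (2 * y) 2 - p ^ 2 * H (2 * y) 3 - p ^ 3 * H (2 * y) 4 -
        p ^ 4 * H (2 * y) 5)) :=
    Isum_sub (fun i hi => by
      simpa only [pow_one] using fx1 (uSucc (p := p) (mem_range.1 hi) (by omega))) rfl (by
      unfold H; rw [← sum_neg_distrib, mul_sum, mul_sum, mul_sum, mul_sum, ← sum_sub_distrib,
        ← sum_sub_distrib, ← sum_sub_distrib, ← sum_sub_distrib]; simp only [pow_one])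
  rw [← refl1 hy 1] at h
  have k := (Ipow (I_p (p := p)) 4).mul (H5_I hy h3)
  exact icg (h.sub k) (by ring)

theorem u15 (h5 : 5 < p) : U p (15 : ℚ) := by
  have h3 := u3 (p := p) (by omega)
  have h5 := uNat (p := p) (k := 5) (by omega) (by omega)
  have := h3.mul h5
  norm_num at this
  exact this

theorem h4f (h5 : 5 < p) : I p 2 (H y 4 + 31 / 15 * p * H y 5) := by
  have h := (rA3 hy).sub (rB3 hy)
  -- (45/16) p h4 + (93/16) p^2 h5
  have k : I p 3 (p * (15 * H y 4 + 31 * p * H y 5)) := icg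
    (h.mulL (x := 16 / 3) (m23 (by omega) 16 0 1 (by norm_num))) (by ring)
  have k2 := I_p_mul_iff.1 k
  refine (u15 hy h5).cancel (icg k2 (by ring))

theorem i15 (h5 : 5 < p) {a : ℤ} {i j : ℕ} : ((a : ℚ) / (2 ^ i * 3 ^ j) * (1 / 15)) ∈ Zp p :=
  mul_mem (m23 (by omega) a i j rfl) (dmem (one_mem _) (u15 hy h5))

/-- rationals with denominator dividing `15 * 2^i 3^j` -/
theorem m235 (h5 : 5 < p) {q : ℚ} (a : ℤ) (i j : ℕ) (h : q = a / (2 ^ i * 3 ^ j) * (1 / 15)) :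
    q ∈ Zp p := by rw [h]; exact i15 hy h5

theorem H3f (h5 : 5 < p) : I p 3 (H (2 * y) 3 - 1 / 5 * p ^ 2 * H y 5) := by
  have h := (rA3 hy).sub (((I_p (p := p)).mul (h4f hy h5)).mulL (x := 3) (nm 3))
  exact icg h (by ring)

theorem H4f (h5 : 5 < p) : I p 2 (H (2 * y) 4 + 2 / 15 * p * H y 5) := by
  have h := (rA4 hy).add ((h4f hy h5).mulL (x := 2) (nm 2))
  exact icg h (by ring)

theorem h2f (h5 : 5 < p) : I p 4 (H y 2 + 7 / 6 * p * H y 3 - 31 / 24 * p ^ 3 * H y 5) := by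
  have h3 : 3 < p := by omega
  have h := ((rB2 hy).sub (rA2 hy)).mulL (x := 2 / 3) (m23 h3 2 0 1 (by norm_num))
  have k := ((Ipow (I_p (p := p)) 2).mul (h4f hy h5)).mulL (x := 15 / 8) (m23 h3 15 3 0 (by norm_num))
  exact icg (h.sub k) (by ring)

theorem H2f (h5 : 5 < p) : I p 4 (H (2 * y) 2 + 1 / 3 * p * H y 3 - 23 / 60 * p ^ 3 * H y 5) := by
  have h3 : 3 < p := by omega
  have h := (rA2 hy).add ((h2f hy h5).mulL (x := 2) (nm 2))
  have k := ((Ipow (I_p (p := p)) 2).mul (h4f hy h5)).mulL (x := 3) (nm 3)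
  exact icg (h.add k) (by ring)

theorem H1f (h5 : 5 < p) : I p 5 (H (2 * y) 1 - 1 / 6 * p ^ 2 * H y 3 + 9 / 40 * p ^ 4 * H y 5) := by
  have h3 : 3 < p := by omega
  have h := (((rC1 hy h3).sub ((I_p (p := p)).mul (H2f hy h5))).sub
    ((Ipow (I_p (p := p)) 2).mul (H3f hy h5))).sub ((Ipow (I_p (p := p)) 3).mul (H4f hy h5))
  exact icg (h.mulL (x := 1 / 2) (m23 h3 1 1 0 (by norm_num))) (by ring)

/-- the depth one part of the first congruence -/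
theorem D_I (h5 : 5 < p) : I p 5 (H (2 * y) 1 + p / 8 * (H (2 * y) 2 + H y 2) +
    p ^ 2 / 16 * H y 3 - p ^ 2 / 4 * H (2 * y) 3 -
    (1 / 4 * H (2 * y) 1 - 3 / 320 * p ^ 4 * H y 5)) := by
  have h3 : 3 < p := by omega
  have k1 := (H1f hy h5).mulL (x := 3 / 4) (m23 h3 3 2 0 (by norm_num))
  have k2 := ((I_p (p := p)).mul (H2f hy h5)).mulL (x := 1 / 8) (m23 h3 1 3 0 (by norm_num))
  have k3 := ((I_p (p := p)).mul (h2f hy h5)).mulL (x := 1 / 8) (m23 h3 1 3 0 (by norm_num))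
  have k4 := ((Ipow (I_p (p := p)) 2).mul (H3f hy h5)).mulL (x := 1 / 4) (m23 h3 1 2 0 (by norm_num))
  exact icg (((k1.add k2).add k3).sub k4) (by ring)

end rel

end Pool.Agent.H547
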