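import Pool.Agent.H547.AcA

set_option autoImplicit false
set_option linter.unusedSectionVars false

/-!
Exact identities for `∑ c_j/(16^j (2j+1))` and its relatives.
-/

namespace Pool.Agent.H547

open Finset

/-- `c_k/(16^k (2k+1))` -/
def aa (k : ℕ) : ℚ := (Nat.centralBinom k : ℚ) / (16 ^ k * (2 * (k : ℚ) + 1))

/-- `(-1)^k c_k/(16^k (2k+1))` -/
def rr (k : ℕ) : ℚ := (-1) ^ k * aa k

/-- `∑_{i<k} 1/(2i+1)^r` -/
def Od (k r : ℕ) : ℚ := ∑ i ∈ range k, 1 / (2 * (i : ℚ) + 1) ^ r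

theorem Od_succ (k r : ℕ) : Od (k + 1) r = Od k r + 1 / (2 * (k : ℚ) + 1) ^ r := by
  rw [Od, sum_range_succ]; rfl

theorem Od_zero (r : ℕ) : Od 0 r = 0 := by simp [Od]

/-- `∑_{i<k} (-1)^i/(2i+1)^r` -/
def Oa (k r : ℕ) : ℚ := ∑ i ∈ range k, (-1) ^ i / (2 * (i : ℚ) + 1) ^ r

theorem Oa_succ (k r : ℕ) : Oa (k + 1) r = Oa k r + (-1) ^ k / (2 * (k : ℚ) + 1) ^ r := by
  rw [Oa, sum_range_succ]; rfl

theorem Oa_zero (r : ℕ) : Oa 0 r = 0 := by simp [Oa]

theorem odd_ne (k : ℕ) : 2 * (k : ℚ) + 1 ≠ 0 := by positivity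

theorem aa_succ (k : ℕ) : aa (k + 1) * (8 * ((k : ℚ) + 1) * (2 * (k : ℚ) + 3)) =
    aa k * (2 * (k : ℚ) + 1) ^ 2 := by
  have h : ((k : ℚ) + 1) * (Nat.centralBinom (k + 1) : ℚ) =
      2 * (2 * (k : ℚ) + 1) * (Nat.centralBinom k : ℚ) := by
    exact_mod_cast Nat.succ_mul_centralBinom_succ k
  unfold aa
  have h1 := odd_ne k
  have h2 : 2 * ((k : ℚ) + 1) + 1 ≠ 0 := by positivity
  push_cast
  field_simp
  rw [pow_succ]
  linear_combination (8 * (16 : ℚ) ^ k * (2 * (k : ℚ) + 3)) * h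

/-- `(2k+2) C(N+k+1, 2k+2)` -/
def dd (N k : ℕ) : ℚ := (2 * (k : ℚ) + 2) * ((N + k + 1).choose (2 * k + 2) : ℚ)

theorem dd_ne {N k : ℕ} (h : k < N) : dd N k ≠ 0 :=
  mul_ne_zero (by positivity) (choose_ne (by omega))

theorem dd1 {N k : ℕ} (h : k < N) : 1 / ((N + k).choose (2 * k + 1) : ℚ) =
    ((N : ℚ) + k + 1) / dd N k := by
  have h1 := choose_absorb (N + k) (2 * k + 1)
  have e : ((N + k : ℕ) : ℚ) = (N : ℚ) + k := by push_cast; ring
  rw [e] at h1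
  have c1 := choose_ne (n := N + k) (x := 2 * k + 1) (by omega)
  have c2 := dd_ne h
  rw [div_eq_div_iff c1 c2]
  unfold dd
  have e2 : (((2 * k + 1 : ℕ) : ℚ) + 1) = 2 * (k : ℚ) + 2 := by push_cast; ring
  rw [e2] at h1
  linear_combination -h1

theorem dd3 {N k : ℕ} (h : k < N) : 1 / ((N + k).choose (2 * k) : ℚ) =
    ((N : ℚ) + k + 1) * ((N : ℚ) - k) / ((2 * (k : ℚ) + 1) * dd N k) := by
  have h1 := choose_right (n := N + k) (x := 2 * k) (by omega)
  have c1 := choose_ne (n := N + k) (x := 2 * k + 1) (by omega)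
  have c0 := choose_ne (n := N + k) (x := 2 * k) (by omega)
  have c2 := dd_ne h
  have h2 := dd1 h
  rw [div_eq_div_iff c1 c2] at h2
  have h3 := odd_ne k
  rw [div_eq_div_iff c0 (mul_ne_zero h3 c2)]
  push_cast at h1
  linear_combination (2 * (k : ℚ) + 1) * h2 + ((N : ℚ) + k + 1) * h1

theorem dd2 {N k : ℕ} (h : k < N) : 1 / ((N + 1 + k).choose (2 * k + 1) : ℚ) =
    ((N : ℚ) - k) / dd N k := by
  have h1 := choose_right (n := N + k + 1) (x := 2 * k + 1) (by omega)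
  have e : N + 1 + k = N + k + 1 := by ring
  rw [e]
  have c1 := choose_ne (n := N + k + 1) (x := 2 * k + 1) (by omega)
  have c2 := dd_ne h
  rw [div_eq_div_iff c1 c2]
  unfold dd
  push_cast at h1
  linear_combination h1

theorem dd4 {N k : ℕ} (h : k < N) : 1 / ((N + k + 1).choose (2 * k + 2) : ℚ) =
    (2 * (k : ℚ) + 2) / dd N k := by
  unfold dd
  have c1 := choose_ne (n := N + k + 1) (x := 2 * k + 2) (by omega)
  have : 2 * (k : ℚ) + 2 ≠ 0 := by positivity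
  field_simp

/-- `(-1)^k c_k/(16^k C(N+k,2k))` -/
def qq (N k : ℕ) : ℚ := rr k * (2 * (k : ℚ) + 1) * (1 / ((N + k).choose (2 * k) : ℚ))

theorem qq_zero (N : ℕ) : qq N 0 = 1 := by
  simp [qq, rr, aa]

theorem qq_top (N : ℕ) : qq N N = rr N * (2 * (N : ℚ) + 1) := by
  unfold qq
  rw [show N + N = 2 * N by ring, Nat.choose_self]
  simp

theorem rr_succ (k : ℕ) : rr (k + 1) * (8 * ((k : ℚ) + 1) * (2 * (k : ℚ) + 3)) =
    - rr k * (2 * (k : ℚ) + 1) ^ 2 := by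
  unfold rr
  rw [pow_succ]
  linear_combination (-(-1) ^ k) * aa_succ k

theorem qq_lo {N k : ℕ} (h : k < N) : qq N k = rr k * (((N : ℚ) + k + 1) * ((N : ℚ) - k)) / dd N k := by
  unfold qq
  rw [dd3 h]
  have h3 := odd_ne k
  have c2 := dd_ne h
  field_simp

theorem qq_hi {N k : ℕ} (h : k < N) : qq N (k + 1) = - rr k * (2 * (k : ℚ) + 1) ^ 2 / (4 * dd N k) := by
  unfold qq
  have e : N + (k + 1) = N + k + 1 := by ring
  have e2 : 2 * (k + 1) = 2 * k + 2 := by ring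
  rw [e, e2, dd4 h]
  have c2 := dd_ne h
  have h1 := rr_succ k
  push_cast
  have c3 : 4 * dd N k ≠ 0 := mul_ne_zero (by norm_num) c2
  rw [mul_div_assoc', div_eq_div_iff c2 c3]
  linear_combination (dd N k) * h1

theorem qq_sub {N k : ℕ} (h : k < N) : qq N k - qq N (k + 1) =
    rr k * (2 * (N : ℚ) + 1) ^ 2 / (4 * dd N k) := by
  rw [qq_lo h, qq_hi h]
  have c2 := dd_ne h
  field_simp
  ring

/-- `∑_{k<N} r_k/D(N,k) = 4(1-q_N)/(2N+1)²` -/
theorem sum_rd (N : ℕ) : ∑ k ∈ range N, rr k / dd N k =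
    4 / (2 * (N : ℚ) + 1) ^ 2 * (1 - rr N * (2 * (N : ℚ) + 1)) := by
  have h : ∀ k ∈ range N, rr k / dd N k = 4 / (2 * (N : ℚ) + 1) ^ 2 * (qq N k - qq N (k + 1)) := by
    intro k hk
    have hk' := mem_range.1 hk
    rw [qq_sub hk']
    have c2 := dd_ne hk'
    have h3 := odd_ne N
    field_simp
  rw [sum_congr rfl h, ← mul_sum, sum_range_sub', qq_zero, qq_top]

/-- `∑_{k<N} e1(k) r_k/D(N,k)` -/
theorem sum_erd (N : ℕ) : ∑ k ∈ range N, Od k 2 * rr k / dd N k =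
    -(4 / (2 * (N : ℚ) + 1) ^ 2) * (Od N 2 * (rr N * (2 * (N : ℚ) + 1)) +
      1 / (2 * (N : ℚ) + 1) ^ 2 * (1 - rr N * (2 * (N : ℚ) + 1))) := by
  have h : ∀ k ∈ range N, Od k 2 * rr k / dd N k = 4 / (2 * (N : ℚ) + 1) ^ 2 *
      (Od k 2 * qq N k - Od (k + 1) 2 * qq N (k + 1)) - 1 / (2 * (N : ℚ) + 1) ^ 2 *
        (rr k / dd N k) := by
    intro k hk
    have hk' := mem_range.1 hk
    rw [Od_succ, qq_lo hk', qq_hi hk']
    have c2 := dd_ne hk'
    have h3 := odd_ne N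
    have h4 := odd_ne k
    field_simp
    ring
  rw [sum_congr rfl h, sum_sub_distrib, ← mul_sum, ← mul_sum, sum_range_sub', sum_rd, Od_zero, qq_top]
  have h3 := odd_ne N
  field_simp
  ring

/-- `∑_{k<N} r_k/C(N+k,2k+1)` -/
def R0 (N : ℕ) : ℚ := ∑ k ∈ range N, rr k * (1 / ((N + k).choose (2 * k + 1) : ℚ))

/-- `∑_{k<N} e1(k) r_k/C(N+k,2k+1)` -/
def R2 (N : ℕ) : ℚ := ∑ k ∈ range N, Od k 2 * rr k * (1 / ((N + k).choose (2 * k + 1) : ℚ))

/-- `∑_{k<N} r_k/((2k+1) C(N+k,2k+1))` -/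
def R3 (N : ℕ) : ℚ := ∑ k ∈ range N, rr k / (2 * (k : ℚ) + 1) *
  (1 / ((N + k).choose (2 * k + 1) : ℚ))

theorem R0_step (N : ℕ) : R0 (N + 1) + R0 N = 4 / (2 * (N : ℚ) + 1) - 3 * rr N := by
  have h : R0 (N + 1) + R0 N = rr N + (2 * (N : ℚ) + 1) * ∑ k ∈ range N, rr k / dd N k := by
    rw [R0, sum_range_succ, R0, mul_sum]
    have e : N + 1 + N = 2 * N + 1 := by ring
    rw [e, Nat.choose_self]
    have k2 : ∑ k ∈ range N, rr k * (1 / ((N + 1 + k).choose (2 * k + 1) : ℚ)) +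
        ∑ k ∈ range N, rr k * (1 / ((N + k).choose (2 * k + 1) : ℚ)) =
        ∑ k ∈ range N, (2 * (N : ℚ) + 1) * (rr k / dd N k) := by
      rw [← sum_add_distrib]
      refine sum_congr rfl fun k hk => ?_
      have hk' := mem_range.1 hk
      rw [dd1 hk', dd2 hk']
      have c2 := dd_ne hk'
      field_simp
      ring
    rw [← k2]
    push_cast
    ring
  rw [h, sum_rd]
  have h3 := odd_ne N
  field_simp
  ring

theorem R2_step (N : ℕ) : R2 (N + 1) + R2 N = -3 * (Od N 2 * rr N) -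
    4 / (2 * (N : ℚ) + 1) ^ 3 + 4 / (2 * (N : ℚ) + 1) ^ 2 * rr N := by
  have h : R2 (N + 1) + R2 N = Od N 2 * rr N + (2 * (N : ℚ) + 1) *
      ∑ k ∈ range N, Od k 2 * rr k / dd N k := by
    rw [R2, sum_range_succ, R2, mul_sum]
    have e : N + 1 + N = 2 * N + 1 := by ring
    rw [e, Nat.choose_self]
    have k2 : ∑ k ∈ range N, Od k 2 * rr k * (1 / ((N + 1 + k).choose (2 * k + 1) : ℚ)) +
        ∑ k ∈ range N, Od k 2 * rr k * (1 / ((N + k).choose (2 * k + 1) : ℚ)) =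
        ∑ k ∈ range N, (2 * (N : ℚ) + 1) * (Od k 2 * rr k / dd N k) := by
      rw [← sum_add_distrib]
      refine sum_congr rfl fun k hk => ?_
      have hk' := mem_range.1 hk
      rw [dd1 hk', dd2 hk']
      have c2 := dd_ne hk'
      field_simp
      ring
    rw [← k2]
    push_cast
    ring
  rw [h, sum_erd]
  have h3 := odd_ne N
  field_simp
  ring

theorem R3_step (N : ℕ) : R3 (N + 1) - R3 N = 5 * (rr N / (2 * (N : ℚ) + 1)) -
    4 / (2 * (N : ℚ) + 1) ^ 2 := by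
  have h : R3 (N + 1) - R3 N = rr N / (2 * (N : ℚ) + 1) - ∑ k ∈ range N, rr k / dd N k := by
    rw [R3, sum_range_succ, R3]
    have e : N + 1 + N = 2 * N + 1 := by ring
    rw [e, Nat.choose_self]
    have k2 : ∑ k ∈ range N, rr k / (2 * (k : ℚ) + 1) * (1 / ((N + 1 + k).choose (2 * k + 1) : ℚ)) -
        ∑ k ∈ range N, rr k / (2 * (k : ℚ) + 1) * (1 / ((N + k).choose (2 * k + 1) : ℚ)) =
        - ∑ k ∈ range N, (rr k / dd N k) := by
      rw [← sum_sub_distrib, ← sum_neg_distrib]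
      refine sum_congr rfl fun k hk => ?_
      have hk' := mem_range.1 hk
      rw [dd1 hk', dd2 hk']
      have c2 := dd_ne hk'
      have h4 := odd_ne k
      field_simp
      ring
    push_cast
    linear_combination k2
  rw [h, sum_rd]
  have h3 := odd_ne N
  field_simp
  ring

theorem npm (N : ℕ) : (-1 : ℚ) ^ N * (-1) ^ N = 1 := by rw [← mul_pow]; norm_num

/-- the first identity -/
theorem E0 (N : ℕ) : 3 * ∑ n ∈ range N, aa n = 4 * Oa N 1 + (-1) ^ N * R0 N := by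
  induction N with
  | zero => simp [Oa, R0]
  | succ N ih =>
    rw [sum_range_succ, Oa_succ]
    have h := R0_step N
    have h2 : R0 (N + 1) = 4 / (2 * (N : ℚ) + 1) - 3 * rr N - R0 N := by linear_combination h
    rw [h2, pow_succ (-1 : ℚ) N, rr]
    linear_combination ih - 3 * aa N * npm N

/-- the second identity -/
theorem E2 (N : ℕ) : 4 * ∑ n ∈ range N, aa n / (2 * (n : ℚ) + 1) ^ 2 -
    3 * ∑ n ∈ range N, aa n * Od n 2 = 4 * Oa N 3 - (-1) ^ N * R2 N := by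
  induction N with
  | zero => simp [Oa, R2]
  | succ N ih =>
    rw [sum_range_succ, sum_range_succ (fun n => aa n * Od n 2), Oa_succ]
    have h := R2_step N
    have h2 : R2 (N + 1) = -3 * (Od N 2 * rr N) -
      4 / (2 * (N : ℚ) + 1) ^ 3 + 4 / (2 * (N : ℚ) + 1) ^ 2 * rr N - R2 N := by
      linear_combination h
    rw [h2, pow_succ (-1 : ℚ) N, rr]
    linear_combination ih + (3 * aa N * Od N 2 - 4 * aa N / (2 * (N : ℚ) + 1) ^ 2) * npm N

/-- the third identity -/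
theorem E3 (N : ℕ) : 5 * ∑ n ∈ range N, rr n / (2 * (n : ℚ) + 1) = 4 * Od N 2 + R3 N := by
  induction N with
  | zero => simp [Od, R3]
  | succ N ih =>
    rw [sum_range_succ, Od_succ]
    have h := R3_step N
    linear_combination ih - h

end Pool.Agent.H547
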