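import Pool.Agent.H547.AcB

set_option autoImplicit false
set_option linter.unusedSectionVars false

/-!
The polynomials `P_k(b) = ∏_{i<k} (1 - b²/(2i+1)²)` at odd arguments.
-/

namespace Pool.Agent.H547

open Finset

/-- `∏_{i<k} (1 - b²/(2i+1)²)` -/
def PP (b : ℚ) (k : ℕ) : ℚ := ∏ i ∈ range k, (1 - b ^ 2 / (2 * (i : ℚ) + 1) ^ 2)

theorem PP_zero (b : ℚ) : PP b 0 = 1 := by simp [PP]

theorem PP_succ (b : ℚ) (k : ℕ) : PP b (k + 1) = PP b k * (1 - b ^ 2 / (2 * (k : ℚ) + 1) ^ 2) := by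
  rw [PP, prod_range_succ]; rfl

theorem choose_two (m k : ℕ) : ((m + k + 1).choose (2 * k + 2) : ℚ) *
    ((2 * (k : ℚ) + 1) * (2 * (k : ℚ) + 2)) =
    ((m + k).choose (2 * k) : ℚ) * (((m : ℚ) + k + 1) * ((m : ℚ) - k)) := by
  have h1 := choose_absorb (m + k) (2 * k + 1)
  have e : ((m + k : ℕ) : ℚ) = (m : ℚ) + k := by push_cast; ring
  rw [e] at h1
  push_cast at h1
  rcases Nat.lt_or_ge m k with h | h
  · have c0 : ((m + k).choose (2 * k) : ℚ) = 0 := by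
      rw [Nat.choose_eq_zero_of_lt (by omega)]; simp
    have c1 : ((m + k).choose (2 * k + 1) : ℚ) = 0 := by
      rw [Nat.choose_eq_zero_of_lt (by omega)]; simp
    rw [c1] at h1
    rw [c0]
    linear_combination (-(2 * (k : ℚ) + 1)) * h1
  · have h2 := choose_right (n := m + k) (x := 2 * k) (by omega)
    push_cast at h2
    linear_combination (-(2 * (k : ℚ) + 1)) * h1 + ((m : ℚ) + k + 1) * h2

theorem cb_succ (k : ℕ) : ((k : ℚ) + 1) * (Nat.centralBinom (k + 1) : ℚ) =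
    2 * (2 * (k : ℚ) + 1) * (Nat.centralBinom k : ℚ) := by
  exact_mod_cast Nat.succ_mul_centralBinom_succ k

theorem cb_ne (k : ℕ) : (Nat.centralBinom k : ℚ) ≠ 0 := by
  exact_mod_cast (Nat.centralBinom_pos k).ne'

theorem PP_odd (m k : ℕ) : PP (2 * (m : ℚ) + 1) k * (Nat.centralBinom k : ℚ) =
    (-1) ^ k * 16 ^ k * ((m + k).choose (2 * k) : ℚ) := by
  induction k with
  | zero => simp [PP]
  | succ k ih =>
    have h1 := cb_succ k
    have h2 := choose_two m k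
    have e : m + (k + 1) = m + k + 1 := by ring
    have e2 : 2 * (k + 1) = 2 * k + 2 := by ring
    rw [e, e2, PP_succ]
    have h3 := odd_ne k
    have h4 : (k : ℚ) + 1 ≠ 0 := by positivity
    have h5 : (Nat.centralBinom (k + 1) : ℚ) =
        2 * (2 * (k : ℚ) + 1) * (Nat.centralBinom k : ℚ) / ((k : ℚ) + 1) := by
      rw [eq_div_iff h4]; linear_combination h1
    have h6 : ((m + k + 1).choose (2 * k + 2) : ℚ) =
      ((m + k).choose (2 * k) : ℚ) * (((m : ℚ) + k + 1) * ((m : ℚ) - k)) /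
        ((2 * (k : ℚ) + 1) * (2 * (k : ℚ) + 2)) := by
      rw [eq_div_iff (mul_ne_zero h3 (by positivity))]; exact h2
    rw [h5, h6]
    have h7 : PP (2 * (m : ℚ) + 1) k * (1 - (2 * (m : ℚ) + 1) ^ 2 / (2 * (k : ℚ) + 1) ^ 2) *
        (2 * (2 * (k : ℚ) + 1) * (Nat.centralBinom k : ℚ) / ((k : ℚ) + 1)) =
        (PP (2 * (m : ℚ) + 1) k * (Nat.centralBinom k : ℚ)) *
        ((1 - (2 * (m : ℚ) + 1) ^ 2 / (2 * (k : ℚ) + 1) ^ 2) *
        (2 * (2 * (k : ℚ) + 1) / ((k : ℚ) + 1))) := by ring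
    rw [h7, ih, pow_succ, pow_succ]
    have h8 : 2 * (k : ℚ) + 2 ≠ 0 := by positivity
    field_simp
    ring

theorem PP_vanish {m k : ℕ} (h : m < k) : PP (2 * (m : ℚ) + 1) k = 0 := by
  unfold PP
  apply prod_eq_zero (mem_range.2 h)
  have := odd_ne m
  rw [div_self (pow_ne_zero 2 this), sub_self]

theorem aa_PP (m k : ℕ) : aa k * PP (2 * (m : ℚ) + 1) k =
    (-1) ^ k * ((m + k).choose (2 * k) : ℚ) / (2 * (k : ℚ) + 1) := by
  have h := PP_odd m k
  unfold aa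
  have h3 := odd_ne k
  field_simp
  linear_combination h

/-- at `N = y`, `b = 2y+1` -/
theorem rr_choose {y k : ℕ} (h : k < y) : rr k * (1 / ((y + k).choose (2 * k + 1) : ℚ)) =
    -2 / ((2 * (k : ℚ) + 1 - (2 * (y : ℚ) + 1)) * PP (2 * (y : ℚ) + 1) k) := by
  have h1 := choose_right (n := y + k) (x := 2 * k) (by omega)
  push_cast at h1
  have c1 := choose_ne (n := y + k) (x := 2 * k + 1) (by omega)
  have c0 := choose_ne (n := y + k) (x := 2 * k) (by omega)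
  have h2 := aa_PP y k
  have h3 := odd_ne k
  have hs : ((-1 : ℚ)) ^ k ≠ 0 := pow_ne_zero _ (by norm_num)
  have hp : PP (2 * (y : ℚ) + 1) k ≠ 0 := by
    intro h0
    rw [h0, mul_zero] at h2
    have h4 := (div_ne_zero (mul_ne_zero hs c0) h3)
    exact h4 h2.symm
  have hyk : 2 * (k : ℚ) + 1 - (2 * (y : ℚ) + 1) ≠ 0 := by
    intro h0
    have : (k : ℚ) = y := by linarith
    have : k = y := by exact_mod_cast this
    omega
  rw [eq_div_iff (mul_ne_zero hyk hp)]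
  have e : rr k * (1 / ((y + k).choose (2 * k + 1) : ℚ)) *
      ((2 * (k : ℚ) + 1 - (2 * (y : ℚ) + 1)) * PP (2 * (y : ℚ) + 1) k) =
      (-1) ^ k * (aa k * PP (2 * (y : ℚ) + 1) k) * (2 * (k : ℚ) + 1 - (2 * (y : ℚ) + 1)) /
        ((y + k).choose (2 * k + 1) : ℚ) := by
    unfold rr; ring
  rw [e, h2]
  field_simp
  have hn := npm k
  have e5 : ((-1 : ℚ) ^ k) ^ 2 = 1 := by rw [sq]; exact hn
  rw [e5]
  linear_combination 2 * h1

/-! ### the values `s_m` -/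

/-- `∑_j (-1)^j C(m+j,2j)` -/
def As (m : ℕ) : ℚ := ∑ j ∈ range (m + 1), (-1) ^ j * ((m + j).choose (2 * j) : ℚ)

/-- `∑_j (-1)^j C(m+j,2j+1)` -/
def Bs (m : ℕ) : ℚ := ∑ j ∈ range (m + 1), (-1) ^ j * ((m + j).choose (2 * j + 1) : ℚ)

theorem Bs_succ (m : ℕ) : Bs (m + 1) = As m + Bs m := by
  rw [Bs, sum_range_succ]
  have e0 : ((m + 1 + (m + 1)).choose (2 * (m + 1) + 1) : ℚ) = 0 := by
    rw [Nat.choose_eq_zero_of_lt (by omega)]; simp
  rw [e0, As, Bs, ← sum_add_distrib, mul_zero, add_zero]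
  refine sum_congr rfl fun j _ => ?_
  have e : m + 1 + j = m + j + 1 := by ring
  rw [e, Nat.choose_succ_succ]
  push_cast
  ring

theorem As_succ (m : ℕ) : As (m + 1) = - Bs m := by
  have h : As (m + 1) = As m - Bs (m + 1) := by
    rw [As, sum_range_succ', As, Bs, sum_range_succ (fun j => (-1 : ℚ) ^ j *
      ((m + 1 + j).choose (2 * j + 1) : ℚ)) (m + 1)]
    have e0 : ((m + 1 + (m + 1)).choose (2 * (m + 1) + 1) : ℚ) = 0 := by
      rw [Nat.choose_eq_zero_of_lt (by omega)]; simp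
    rw [e0, mul_zero, add_zero]
    have e1 : ∑ j ∈ range (m + 1), (-1 : ℚ) ^ (j + 1) * ((m + 1 + (j + 1)).choose (2 * (j + 1)) : ℚ) =
        ∑ j ∈ range (m + 1), (-1 : ℚ) ^ (j + 1) * ((m + (j + 1)).choose (2 * (j + 1)) : ℚ) -
        ∑ j ∈ range (m + 1), (-1 : ℚ) ^ j * ((m + 1 + j).choose (2 * j + 1) : ℚ) := by
      rw [← sum_sub_distrib]
      refine sum_congr rfl fun j _ => ?_
      have e : m + 1 + (j + 1) = (m + 1 + j) + 1 := by ring
      have e' : m + (j + 1) = m + 1 + j := by ring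
      have e'' : 2 * (j + 1) = 2 * j + 1 + 1 := by ring
      rw [e, e', e'', Nat.choose_succ_succ (m + 1 + j) (2 * j + 1)]
      push_cast
      ring
    have e2 : ∑ j ∈ range (m + 1), (-1 : ℚ) ^ j * ((m + j).choose (2 * j) : ℚ) =
        ∑ j ∈ range (m + 1), (-1 : ℚ) ^ (j + 1) * ((m + (j + 1)).choose (2 * (j + 1)) : ℚ) + 1 := by
      rw [sum_range_succ (fun j => (-1 : ℚ) ^ (j + 1) * ((m + (j + 1)).choose (2 * (j + 1)) : ℚ)),
        sum_range_succ']
      have e0 : ((m + (m + 1)).choose (2 * (m + 1)) : ℚ) = 0 := by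
        rw [Nat.choose_eq_zero_of_lt (by omega)]; simp
      rw [e0]
      simp
    rw [e1, e2]
    simp
    ring
  rw [h, Bs_succ]
  ring

/-- `s_m = (-1)^m (1 - 3 [m ≡ 1 mod 3])` -/
def ss (m : ℕ) : ℚ := if m % 3 = 1 then -2 * (-1) ^ m else (-1) ^ m

theorem As_Bs (t : ℕ) : As (3 * t) = (-1) ^ t ∧ Bs (3 * t) = 0 := by
  induction t with
  | zero => simp [As, Bs]
  | succ t ih =>
    have e : 3 * (t + 1) = 3 * t + 1 + 1 + 1 := by ring
    have a1 := As_succ (3 * t)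
    have b1 := Bs_succ (3 * t)
    have a2 := As_succ (3 * t + 1)
    have b2 := Bs_succ (3 * t + 1)
    have a3 := As_succ (3 * t + 1 + 1)
    have b3 := Bs_succ (3 * t + 1 + 1)
    rw [ih.1, ih.2] at b1
    rw [ih.2] at a1
    rw [b1] at a2
    rw [a1, b1] at b2
    rw [b2] at a3
    rw [a2, b2] at b3
    rw [e, a3, b3]
    constructor
    · rw [pow_succ]; ring
    · ring

theorem ss_eq (m : ℕ) : As m + 2 * Bs m = ss m := by
  obtain ⟨t, ht⟩ : ∃ t, m = 3 * t ∨ m = 3 * t + 1 ∨ m = 3 * t + 2 := ⟨m / 3, by omega⟩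
  have h := As_Bs t
  have e3 : (-1 : ℚ) ^ (3 * t) = (-1) ^ t := by rw [pow_mul]; norm_num
  unfold ss
  rcases ht with rfl | rfl | rfl
  · rw [if_neg (by omega), h.1, h.2, e3]; ring
  · rw [if_pos (by omega), As_succ, Bs_succ, h.1, h.2, pow_succ, e3]; ring
  · rw [if_neg (by omega)]
    have e : 3 * t + 2 = 3 * t + 1 + 1 := by ring
    have a1 := As_succ (3 * t)
    have b1 := Bs_succ (3 * t)
    have a2 := As_succ (3 * t + 1)
    have b2 := Bs_succ (3 * t + 1)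
    rw [h.1, h.2] at b1
    rw [h.2] at a1
    rw [b1] at a2
    rw [a1, b1] at b2
    rw [e, a2, b2, pow_succ, pow_succ, e3]; ring

theorem sum_aPP (m : ℕ) : ∑ j ∈ range (m + 1), aa j * PP (2 * (m : ℚ) + 1) j =
    ss m / (2 * (m : ℚ) + 1) := by
  rw [← ss_eq, As, Bs, mul_sum, ← sum_add_distrib, sum_div]
  refine sum_congr rfl fun j hj => ?_
  rw [aa_PP]
  have h1 := choose_right (n := m + j) (x := 2 * j) (by have := mem_range.1 hj; omega)
  push_cast at h1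
  have h2 := odd_ne j
  have h3 := odd_ne m
  rw [div_eq_div_iff h2 h3]
  linear_combination (-2 * (-1) ^ j) * h1

/-- the sum over `range y` for `m < y` -/
theorem sum_aPP' {m y : ℕ} (h : m < y) : ∑ j ∈ range y, aa j * PP (2 * (m : ℚ) + 1) j =
    ss m / (2 * (m : ℚ) + 1) := by
  rw [← sum_aPP m]
  symm
  apply sum_subset (by intro x; simp only [mem_range]; omega)
  intro x _ hx
  rw [mem_range] at hx
  rw [PP_vanish (by omega), mul_zero]

/-- `f_p = 0` -/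
theorem fp_zero {y : ℕ} (h : y % 3 ≠ 1) : ∑ j ∈ range y, aa j * PP (2 * (y : ℚ) + 1) j = 0 := by
  have h1 := sum_aPP y
  rw [sum_range_succ, aa_PP] at h1
  have e : y + y = 2 * y := by ring
  rw [e, Nat.choose_self, ss, if_neg h] at h1
  push_cast at h1
  linear_combination h1

/-! ### the values `v_m` -/

/-- `∑_{k<n} P_k(2m+1)/(2k+1)` -/
def vv (n m : ℕ) : ℚ := ∑ k ∈ range n, PP (2 * (m : ℚ) + 1) k / (2 * (k : ℚ) + 1)

theorem PP_rel (m k : ℕ) : ((m : ℚ) + 1 + k) * PP (2 * (m : ℚ) + 1) k =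
    ((m : ℚ) + 1 - k) * PP (2 * ((m + 1 : ℕ) : ℚ) + 1) k := by
  induction k with
  | zero => simp [PP]
  | succ k ih =>
    rw [PP_succ, PP_succ]
    have h3 := odd_ne k
    have h4 : (m : ℚ) + 1 + k ≠ 0 := by positivity
    obtain ⟨a, ha⟩ : ∃ a, a = PP (2 * (m : ℚ) + 1) k := ⟨_, rfl⟩
    obtain ⟨b, hb⟩ : ∃ b, b = PP (2 * ((m + 1 : ℕ) : ℚ) + 1) k := ⟨_, rfl⟩
    rw [← ha, ← hb] at ih
    rw [← ha, ← hb]
    have e : a = ((m : ℚ) + 1 - k) * b / ((m : ℚ) + 1 + k) := by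
      rw [eq_div_iff h4]; linear_combination ih
    rw [e]
    push_cast
    field_simp
    ring

theorem vv_step (m : ℕ) (n : ℕ) : vv n (m + 1) + vv n m =
    -((2 * (n : ℚ) - 1) * (PP (2 * ((m + 1 : ℕ) : ℚ) + 1) n + PP (2 * (m : ℚ) + 1) n) + 2) /
      ((2 * (m : ℚ) + 1) * (2 * (m : ℚ) + 3)) := by
  induction n with
  | zero => norm_num [vv, PP]
  | succ n ih =>
    have e1 : vv (n + 1) (m + 1) = vv n (m + 1) + PP (2 * ((m + 1 : ℕ) : ℚ) + 1) n /
      (2 * (n : ℚ) + 1) := by rw [vv, sum_range_succ]; rfl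
    have e2 : vv (n + 1) m = vv n m + PP (2 * (m : ℚ) + 1) n / (2 * (n : ℚ) + 1) := by
      rw [vv, sum_range_succ]; rfl
    rw [e1, e2]
    have e3 : vv n (m + 1) + PP (2 * ((m + 1 : ℕ) : ℚ) + 1) n / (2 * (n : ℚ) + 1) +
        (vv n m + PP (2 * (m : ℚ) + 1) n / (2 * (n : ℚ) + 1)) = (vv n (m + 1) + vv n m) +
        (PP (2 * ((m + 1 : ℕ) : ℚ) + 1) n + PP (2 * (m : ℚ) + 1) n) / (2 * (n : ℚ) + 1) := by ring
    rw [e3, ih, PP_succ, PP_succ]
    have h := PP_rel m n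
    obtain ⟨a, ha⟩ : ∃ a, a = PP (2 * (m : ℚ) + 1) n := ⟨_, rfl⟩
    obtain ⟨b, hb⟩ : ∃ b, b = PP (2 * ((m + 1 : ℕ) : ℚ) + 1) n := ⟨_, rfl⟩
    rw [← ha, ← hb] at h
    rw [← ha, ← hb]
    have h3 := odd_ne n
    have h4 : (m : ℚ) + 1 + n ≠ 0 := by positivity
    have h5 := odd_ne m
    have h6 : 2 * (m : ℚ) + 3 ≠ 0 := by positivity
    have e : a = ((m : ℚ) + 1 - n) * b / ((m : ℚ) + 1 + n) := by
      rw [eq_div_iff h4]; linear_combination h
    rw [e]
    push_cast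
    field_simp
    ring

theorem vv_ext {m n : ℕ} (h : m < n) : vv n m = vv (m + 1) m := by
  unfold vv
  symm
  apply sum_subset (by intro x; simp only [mem_range]; omega)
  intro x _ hx
  rw [mem_range] at hx
  rw [PP_vanish (by omega), zero_div]

theorem vv_eq (m : ℕ) {n : ℕ} (hn : m < n) : vv n m = (-1) ^ m * (Oa (m + 1) 1 + Oa m 1) := by
  rw [vv_ext hn]
  clear hn
  induction m with
  | zero => simp [vv, Oa, PP]
  | succ m ih =>
    have h := vv_step m (m + 1 + 1)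
    rw [PP_vanish (m := m + 1) (k := m + 1 + 1) (by omega),
      PP_vanish (m := m) (k := m + 1 + 1) (by omega), vv_ext (m := m) (n := m + 1 + 1) (by omega),
      ih] at h
    have h5 := odd_ne m
    have h6 : 2 * (m : ℚ) + 3 ≠ 0 := by positivity
    have e : vv (m + 1 + 1) (m + 1) = -2 / ((2 * (m : ℚ) + 1) * (2 * (m : ℚ) + 3)) -
        (-1) ^ m * (Oa (m + 1) 1 + Oa m 1) := by linear_combination h
    rw [e, Oa_succ (m + 1), Oa_succ m]
    push_cast
    have h7 : 2 * ((m : ℚ) + 1) + 1 = 2 * (m : ℚ) + 3 := by ring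
    rw [h7]
    have hn := npm m
    have e6 : (-1 : ℚ) ^ (m + 1) = -((-1) ^ m) := by rw [pow_succ]; ring
    rw [e6]
    obtain ⟨s, hs⟩ : ∃ s, s = (-1 : ℚ) ^ m := ⟨_, rfl⟩
    rw [← hs] at hn ⊢
    field_simp
    linear_combination 2 * hn

end Pool.Agent.H547
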