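import Pool.Agent.H547.Harm
import Pool.Graph.R_pool_sql_team_seeded_707910d6.T2H53.HB.A3

set_option autoImplicit false
set_option linter.unusedSectionVars false

/-!
`∑_{i<p/2} i^{-3} ≡ -2 B_{p-3}` modulo `p`.
-/

namespace Pool.Agent.H547

open Finset Pool.Agent.R439.PL

variable {p : ℕ} [hp : Fact p.Prime]

theorem bern_h3 {y : ℕ} (hy : p = 2 * y + 1) (h3 : 3 < p) :
    I p 1 (H y 3 + 2 * bernoulli (p - 3)) := by
  obtain ⟨e, he⟩ : ∃ e, e = p - 3 := ⟨_, rfl⟩
  rw [← he]
  have hy2 : 2 ≤ y := by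
    have := hp.out
    by_contra hlt
    have : y = 1 := by omega
    subst this
    omega
  have he1 : e = 2 * y - 2 := by omega
  have hev : Even e := ⟨y - 1, by omega⟩
  have he0 : 2 ≤ e := by omega
  have hB := T2H53.HB.bern_mem (p := p) e (by omega)
  have hE := T2H53.HB.faul (p := p) (e := e) (by omega)
  have hE2 : ∑ k ∈ range p, (k : ℚ) ^ e = ∑ i ∈ range (2 * y), ((i : ℚ) + 1) ^ e := by
    have : range p = range (2 * y + 1) := by rw [hy]
    rw [this, sum_range_succ']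
    simp [show e ≠ 0 by omega]
  rw [hE2] at hE
  obtain ⟨E, hEE⟩ : ∃ E : ℚ, E = ∑ i ∈ range (2 * y), ((i : ℚ) + 1) ^ e := ⟨_, rfl⟩
  obtain ⟨s, hs⟩ : ∃ s : ℚ, s = ∑ i ∈ range y, ((i : ℚ) + 1) ^ e := ⟨_, rfl⟩
  obtain ⟨t, ht⟩ : ∃ t : ℚ, t = ∑ i ∈ range y, ((i : ℚ) + 1) ^ (e - 1) := ⟨_, rfl⟩
  obtain ⟨T, hT⟩ : ∃ T : ℚ, T = 2 ^ (e - 1) := ⟨_, rfl⟩
  have hT2 : (2 : ℚ) ^ e = 2 * T := by
    rw [hT, ← pow_succ']; congr 1; omega
  -- the two decompositions
  have ha : I p 2 (E - (2 * s - e * p * t)) := by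
    have d1 : E = s + ∑ i ∈ range y, ((p : ℚ) - ((i : ℚ) + 1)) ^ e := by
      rw [hEE, hs, two_mul, sum_range_add]
      congr 1
      rw [← sum_range_reflect]
      refine sum_congr rfl fun i hi => ?_
      have hi' := mem_range.1 hi
      have e1 : ((y + (y - 1 - i) : ℕ) : ℚ) + 1 = (p : ℚ) - ((i : ℚ) + 1) := by
        have : ((y + (y - 1 - i) : ℕ) : ℚ) + 1 + ((i : ℚ) + 1) = (p : ℚ) := by
          have h2 : y + (y - 1 - i) + 1 + (i + 1) = p := by omega
          exact_mod_cast h2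
        linarith
      rw [← e1]
    have d2 : I p 2 (∑ i ∈ range y, ((p : ℚ) - ((i : ℚ) + 1)) ^ e - (s - e * p * t)) := by
      refine Isum_sub (g := fun i => ((i : ℚ) + 1) ^ e - e * p * ((i : ℚ) + 1) ^ (e - 1))
        (fun i hi => ?_) rfl ?_
      · obtain ⟨K, hK⟩ := T2H53.HB.pow_exp (p := p) (s := 1) (r := i + 1) hev
        push_cast at hK
        rw [one_mul] at hK
        rw [hK]
        exact ⟨K, int_mem K, by ring⟩
      · rw [hs, ht, mul_sum, ← sum_sub_distrib]
    rw [d1]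
    exact icg d2 (by ring)
  have hb : I p 2 (E - (4 * T * s - e * p * T * t)) := by
    have d1 : E = 2 * T * s + ∑ i ∈ range y, ((p : ℚ) - 2 * ((i : ℚ) + 1)) ^ e := by
      rw [hEE, hs, evenodd (fun i => ((i : ℚ) + 1) ^ e) y, mul_sum]
      congr 1
      · refine sum_congr rfl fun i _ => ?_
        push_cast
        rw [← hT2, ← mul_pow]
        congr 1
        ring
      · rw [← sum_range_reflect]
        refine sum_congr rfl fun i hi => ?_
        have hi' := mem_range.1 hi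
        have e1 : ((2 * (y - 1 - i) : ℕ) : ℚ) + 1 = (p : ℚ) - 2 * ((i : ℚ) + 1) := by
          have : ((2 * (y - 1 - i) : ℕ) : ℚ) + 1 + 2 * ((i : ℚ) + 1) = (p : ℚ) := by
            have h2 : 2 * (y - 1 - i) + 1 + 2 * (i + 1) = p := by omega
            exact_mod_cast h2
          linarith
        rw [← e1]
    have d2 : I p 2 (∑ i ∈ range y, ((p : ℚ) - 2 * ((i : ℚ) + 1)) ^ e - (2 * T * s - e * p * T * t)) := by
      refine Isum_sub (g := fun i => 2 * T * ((i : ℚ) + 1) ^ e - e * p * T * ((i : ℚ) + 1) ^ (e - 1))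
        (fun i hi => ?_) rfl ?_
      · obtain ⟨K, hK⟩ := T2H53.HB.pow_exp (p := p) (s := 1) (r := 2 * (i + 1)) hev
        push_cast at hK
        rw [one_mul, mul_pow, mul_pow, hT2, ← hT] at hK
        rw [hK]
        exact ⟨K, int_mem K, by ring⟩
      · rw [hs, ht, mul_sum, mul_sum, ← sum_sub_distrib]
    rw [d1]
    exact icg d2 (by ring)
  have hsm : s ∈ Zp p := by
    rw [hs]
    exact sum_mem fun i _ => pow_mem (add_mem (nat_mem i) (one_mem _)) _
  have htm : t ∈ Zp p := by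
    rw [ht]
    exact sum_mem fun i _ => pow_mem (add_mem (nat_mem i) (one_mem _)) _
  have hTm : T ∈ Zp p := by rw [hT]; exact pow_mem (nm 2) _
  have h1 : I p 1 (t - H y 3) := by
    refine Isum_sub (fun i hi => ?_) ht rfl
    have hi' := mem_range.1 hi
    have hu := uSucc (p := p) (Nat.lt_succ_self i) (by omega)
    have hf := T2H53.HB.fermat (p := p) (r := i + 1) (by rw [mem_Ico]; omega)
    have k := hf.mulR (y := 1 / ((i : ℚ) + 1) ^ 3) (dmem (one_mem _) (hu.pow 3))
    refine icg k ?_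
    have e1 : p - 1 = (e - 1) + 3 := by omega
    rw [e1, pow_add]
    have := hu.1
    push_cast
    field_simp
  have f2 : I p 1 (8 * T - 1) := by
    have := T2H53.HB.fermat (p := p) (r := 2) (by rw [mem_Ico]; omega)
    have e1 : p - 1 = (e - 1) + 3 := by omega
    rw [e1, pow_add] at this
    refine icg this ?_
    rw [hT]
    push_cast
    ring
  rw [← hEE] at hE
  have heq : (e : ℚ) = p - 3 := by
    have : ((e + 3 : ℕ) : ℚ) = p := by congr 1; omega
    push_cast at this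
    linear_combination this
  have g1 : I p 1 ((2 * T - 1) * bernoulli e + e * T * t) := by
    apply I_p_mul_iff.1
    have k1 := (ha.mulL (x := 2 * T) (mul_mem (nm 2) hTm)).sub hb
    have k2 := hE.mulL (x := 2 * T - 1) (sub_mem (mul_mem (nm 2) hTm) (one_mem _))
    exact icg (k1.sub k2) (by ring)
  rw [heq] at g1
  have k1 := g1.mulL (x := 8) (nm 8)
  have k2 := f2.mulR (y := 2 * bernoulli e - 3 * t) (sub_mem (mul_mem (nm 2) hB) (mul_mem (nm 3) htm))
  have k3 : I p 1 (p * (8 * T * t)) := (I_p (p := p)).mulR (mul_mem (mul_mem (nm 8) hTm) htm)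
  have k4 := ((k1.sub k2).sub k3).mulL (x := -1 / 3) (m23 h3 (-1) 0 1 (by norm_num))
  exact icg (k4.sub h1) (by ring)

end Pool.Agent.H547
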