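import Pool.Agent.H547.Iden
import Pool.Graph.R_pool_sql_team_seeded_707910d6.T2H53.HB.A3

set_option autoImplicit false
set_option linter.unusedSectionVars false

/-!
Euler numbers, and `∑_{m<p/2} (-1)^m/m² ≡ 2 (-1)^{(p-1)/2} E_{p-3}` modulo `p`.
-/

namespace Pool.Agent.H547

open Finset Pool.Agent.R439.PL PowerSeries

/-- the power series `2/(e^t+e^{-t})` -/
noncomputable def Es : PowerSeries ℚ :=
  C (2 : ℚ) * (exp ℚ + rescale (-1 : ℚ) (exp ℚ))⁻¹

/-- the Euler numbers: `2/(e^t+e^{-t}) = ∑ E_n t^n/n!` -/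
noncomputable def eulerNum (n : ℕ) : ℚ := (n.factorial : ℚ) * coeff n Es

theorem Es_mul : (exp ℚ + rescale (-1 : ℚ) (exp ℚ)) * Es = C (2 : ℚ) := by
  have h : constantCoeff (exp ℚ + rescale (-1 : ℚ) (exp ℚ)) ≠ 0 := by
    rw [map_add, ← coeff_zero_eq_constantCoeff_apply, ← coeff_zero_eq_constantCoeff_apply,
      coeff_rescale, coeff_exp]
    norm_num
  rw [Es, mul_left_comm, PowerSeries.mul_inv_cancel _ h, mul_one]

theorem Es_even : rescale (-1 : ℚ) Es = Es := by
  have h1 := congrArg (rescale (-1 : ℚ)) Es_mul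
  rw [map_mul, map_add, rescale_rescale] at h1
  have e1 : rescale ((-1 : ℚ) * (-1)) (exp ℚ) = exp ℚ := by
    rw [show (-1 : ℚ) * (-1) = 1 by norm_num, rescale_one]; rfl
  have e2 : rescale (-1 : ℚ) (C (2 : ℚ)) = C (2 : ℚ) := by
    ext n
    rw [coeff_rescale, coeff_C]
    split_ifs with h
    · subst h; simp
    · simp
  rw [e1, e2, add_comm] at h1
  have h2 : C (2 : ℚ) * rescale (-1 : ℚ) Es = C (2 : ℚ) * Es := by
    have : C (2 : ℚ) * rescale (-1 : ℚ) Es = ((exp ℚ + rescale (-1 : ℚ) (exp ℚ)) * Es) *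
        rescale (-1 : ℚ) Es := by rw [Es_mul]
    rw [this]
    calc _ = ((exp ℚ + rescale (-1 : ℚ) (exp ℚ)) * rescale (-1 : ℚ) Es) * Es := by ring
      _ = _ := by rw [h1]
  have hC : (C (2 : ℚ) : PowerSeries ℚ) ≠ 0 := by
    intro h
    have := congrArg (coeff 0) h
    simp at this
  exact mul_left_cancel₀ hC h2

/-- the Euler polynomials `∑ C(k,j) E_j x^{k-j}` -/
noncomputable def eps (k : ℕ) (x : ℚ) : ℚ := (k.factorial : ℚ) * coeff k (rescale x (exp ℚ) * Es)

theorem eps_rec (k : ℕ) (x : ℚ) : eps k (x + 1) + eps k (x - 1) = 2 * x ^ k := by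
  unfold eps
  rw [← mul_add, ← map_add, ← add_mul]
  have h1 : rescale (x + 1) (exp ℚ) = rescale x (exp ℚ) * exp ℚ := by
    rw [← exp_mul_exp_eq_exp_add, rescale_one]; rfl
  have h2 : rescale (x - 1) (exp ℚ) = rescale x (exp ℚ) * rescale (-1 : ℚ) (exp ℚ) := by
    rw [sub_eq_add_neg, ← exp_mul_exp_eq_exp_add]
  rw [h1, h2, ← mul_add, mul_assoc, Es_mul, mul_comm (rescale x (exp ℚ)), coeff_C_mul, coeff_rescale,
    coeff_exp]
  have : (k.factorial : ℚ) ≠ 0 := by exact_mod_cast k.factorial_ne_zero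
  simp
  field_simp

theorem eps_neg (k : ℕ) (x : ℚ) : eps k (-x) = (-1) ^ k * eps k x := by
  unfold eps
  have h : rescale (-x) (exp ℚ) * Es = rescale (-1 : ℚ) (rescale x (exp ℚ) * Es) := by
    rw [map_mul, Es_even, rescale_rescale]
    congr 3
    ring
  rw [h, coeff_rescale]
  ring

theorem eps_one {k : ℕ} (hk : Even k) (h0 : 0 < k) : eps k 1 = 0 := by
  have h1 := eps_rec k 0
  rw [zero_pow h0.ne', zero_add, zero_sub, eps_neg, hk.neg_one_pow] at h1
  linarith

theorem eps_eq (k : ℕ) (x : ℚ) : eps k x =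
    ∑ ij ∈ antidiagonal k, (k.choose ij.1 : ℚ) * x ^ ij.1 * eulerNum ij.2 := by
  unfold eps eulerNum
  rw [coeff_mul, mul_sum]
  refine sum_congr rfl fun ij hij => ?_
  rw [HasAntidiagonal.mem_antidiagonal] at hij
  rw [coeff_rescale, coeff_exp, ← hij]
  have h1 : (ij.1.factorial : ℚ) ≠ 0 := by exact_mod_cast ij.1.factorial_ne_zero
  have h2 : (ij.2.factorial : ℚ) ≠ 0 := by exact_mod_cast ij.2.factorial_ne_zero
  have h3 : ((ij.1 + ij.2).factorial : ℚ) = ((ij.1 + ij.2).choose ij.1 : ℚ) *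
      (ij.1.factorial : ℚ) * (ij.2.factorial : ℚ) := by
    have := Nat.add_choose_mul_factorial_mul_factorial ij.1 ij.2
    rw [← Nat.choose_symm_add] at this
    exact_mod_cast this.symm
  rw [h3]
  simp
  field_simp

theorem eps_tele (k y : ℕ) (hk : Even k) (h0 : 0 < k) :
    2 ^ (k + 1) * ∑ m ∈ range y, (-1) ^ (m + 1) * ((m : ℚ) + 1) ^ k = (-1) ^ y * eps k (2 * y + 1) := by
  induction y with
  | zero => simp [eps_one hk h0]
  | succ y ih =>
    rw [sum_range_succ, mul_add, ih]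
    have h := eps_rec k (2 * ((y : ℚ) + 1))
    have e1 : 2 * ((y : ℚ) + 1) - 1 = 2 * y + 1 := by ring
    rw [e1, mul_pow] at h
    push_cast
    rw [pow_succ (-1 : ℚ) y, pow_succ (2 : ℚ) k]
    linear_combination (((-1) ^ y) : ℚ) * h

variable {p : ℕ} [hp : Fact p.Prime]

theorem eulerNum_mem (h2 : 2 < p) (n : ℕ) : eulerNum n ∈ Zp p := by
  induction n using Nat.strong_induction_on with
  | _ n ih =>
    have h := eps_rec n 0
    rw [zero_add, zero_sub, eps_eq, eps_eq, ← sum_add_distrib,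
      ← add_sum_erase _ _ (show ((0, n) : ℕ × ℕ) ∈ antidiagonal n by simp)] at h
    have hh : (1 / 2 : ℚ) ∈ Zp p := dmem (one_mem _) (u2 h2)
    have e : eulerNum n = 0 ^ n - 1 / 2 * ∑ ij ∈ (antidiagonal n).erase (0, n),
        ((n.choose ij.1 : ℚ) * 1 ^ ij.1 * eulerNum ij.2 +
          (n.choose ij.1 : ℚ) * (-1) ^ ij.1 * eulerNum ij.2) := by
      simp only [Nat.choose_zero_right, pow_zero] at h
      push_cast at h
      linear_combination (1 / 2 : ℚ) * h
    rw [e]
    refine sub_mem (pow_mem (zero_mem _) _) (mul_mem hh (sum_mem fun ij hij => ?_))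
    rw [mem_erase, HasAntidiagonal.mem_antidiagonal] at hij
    have hlt : ij.2 < n := by
      rcases Nat.lt_or_ge ij.2 n with h | h
      · exact h
      · exfalso
        apply hij.1
        ext
        · simp; omega
        · simp; omega
    have hm := ih _ hlt
    exact add_mem (mul_mem (mul_mem (nat_mem _) (pow_mem (one_mem _) _)) hm)
      (mul_mem (mul_mem (nat_mem _) (pow_mem (neg_mem (one_mem _)) _)) hm)

theorem eps_p (h2 : 2 < p) (k : ℕ) : I p 1 (eps k p - eulerNum k) := by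
  rw [eps_eq, ← add_sum_erase _ _ (show ((0, k) : ℕ × ℕ) ∈ antidiagonal k by simp)]
  have h : I p 1 (∑ ij ∈ (antidiagonal k).erase (0, k),
      (k.choose ij.1 : ℚ) * (p : ℚ) ^ ij.1 * eulerNum ij.2) := by
    refine I.sum fun ij hij => ?_
    rw [mem_erase, HasAntidiagonal.mem_antidiagonal] at hij
    have hlt : 0 < ij.1 := by
      rcases Nat.eq_zero_or_pos ij.1 with h | h
      · exfalso
        apply hij.1
        ext
        · simp; omega
        · simp; omega
      · exact h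
    obtain ⟨m, hm⟩ : ∃ m, ij.1 = m + 1 := ⟨ij.1 - 1, by omega⟩
    rw [hm, pow_succ]
    have k1 : I p 1 (p * ((k.choose (m + 1) : ℚ) * (p : ℚ) ^ m * eulerNum ij.2)) :=
      (I_p (p := p)).mulR (mul_mem (mul_mem (nat_mem _) (pow_mem p_mem _)) (eulerNum_mem h2 _))
    exact icg k1 (by ring)
  refine icg h ?_
  simp

theorem A2_euler {y : ℕ} (hy : p = 2 * y + 1) (h3 : 3 < p) :
    I p 1 (A2 y - 2 * ((-1) ^ y * eulerNum (p - 3))) := by
  have hy2 : 2 ≤ y := by
    have := hp.out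
    by_contra hlt
    have : y = 1 := by omega
    subst this
    omega
  obtain ⟨e, he⟩ : ∃ e, e = p - 3 := ⟨_, rfl⟩
  rw [← he]
  have hev : Even e := ⟨y - 1, by omega⟩
  have he0 : 0 < e := by omega
  have h1 := eps_tele e y hev he0
  have e1 : 2 * (y : ℚ) + 1 = p := by rw [hy]; push_cast; ring
  rw [e1] at h1
  obtain ⟨s, hs⟩ : ∃ s : ℚ, s = ∑ m ∈ range y, (-1) ^ (m + 1) * ((m : ℚ) + 1) ^ e := ⟨_, rfl⟩
  rw [← hs] at h1
  have hsm : s ∈ Zp p := by
    rw [hs]
    exact sum_mem fun i _ => mul_mem (pow_mem (neg_mem (one_mem _)) _)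
      (pow_mem (add_mem (nat_mem i) (one_mem _)) _)
  have h2 : I p 1 (s - A2 y) := by
    refine Isum_sub (fun i hi => ?_) hs rfl
    have hi' := mem_range.1 hi
    have hu := uSucc (p := p) (Nat.lt_succ_self i) (by omega)
    have hf := T2H53.HB.fermat (p := p) (r := i + 1) (by rw [mem_Ico]; omega)
    have k := hf.mulR (y := (-1) ^ (i + 1) / ((i : ℚ) + 1) ^ 2)
      (dmem (pow_mem (neg_mem (one_mem _)) _) (hu.pow 2))
    refine icg k ?_
    have e1 : p - 1 = e + 2 := by omega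
    rw [e1, pow_add]
    have := hu.1
    push_cast
    field_simp
  have f2 : I p 1 (2 * 2 ^ (e + 1) - 1) := by
    have := T2H53.HB.fermat (p := p) (r := 2) (by rw [mem_Ico]; omega)
    have e1 : p - 1 = (e + 1) + 1 := by omega
    rw [e1, pow_succ] at this
    refine icg this ?_
    push_cast
    ring
  have h4 := (eps_p (p := p) (by omega) e).mulL (x := 2 * (-1) ^ y)
    (mul_mem (nm 2) (pow_mem (neg_mem (one_mem _)) _))
  refine icg ((h4.sub (f2.mulR hsm)).sub h2) ?_
  linear_combination (-2 : ℚ) * h1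

end Pool.Agent.H547
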