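import Pool.Agent.H547.Fexp
import Pool.Agent.H547.Bern
import Pool.Agent.H547.Eul

set_option autoImplicit false
set_option linter.unusedSectionVars false

/-!
The two supercongruences for `p > 3`.
-/

namespace Pool.Agent.H547

open Finset Pool.Agent.R439.PL

variable {p : ℕ} [hp : Fact p.Prime]

theorem LE.mod2 (h3 : 3 < p) {x l : ℚ} (h : LE p x l) : I p 2 (x - (1 + l)) := by
  have k2 : (1 / 2 : ℚ) ∈ Zp p := m23 h3 1 1 0 (by norm_num)
  have k6 : (1 / 6 : ℚ) ∈ Zp p := m23 h3 1 1 1 (by norm_num)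
  have k24 : (1 / 24 : ℚ) ∈ Zp p := m23 h3 1 3 1 (by norm_num)
  have a := h.1.mem
  have q : (1 / 2 + l * (1 / 6) + l ^ 2 * (1 / 24) : ℚ) ∈ Zp p :=
    add_mem (add_mem k2 (mul_mem a k6)) (mul_mem (pow_mem a 2) k24)
  have h6 : I p 2 (l * l) := h.1.mul h.1
  refine icg ((h.2.mono (by norm_num : 2 ≤ 5)).add (h6.mulR q)) ?_
  unfold e4
  ring

theorem Ip (k : ℕ) {x y : ℚ} (hy : y ∈ Zp p) (e : (p : ℚ) ^ k * y = x) : I p k x := ⟨y, hy, e.symm⟩

section rel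

variable {y : ℕ} (hy : p = 2 * y + 1)
include hy

/-- `C(2p,p)²/4 ≡ 1 + (2/3) p³ H` modulo `p⁴` -/
theorem c2_I (h3 : 3 < p) : I p 4 (((Nat.centralBinom p : ℚ) / 2) ^ 2 - (1 + 2 / 3 * p ^ 3 * H y 3)) := by
  have h1 := (c_LE hy h3).pow h3 2
  have k1 : I p 3 (p ^ 2 * H (2 * y) 2) := (Ipow (I_p (p := p)) 2).mul (H2_I hy h3)
  have k2 : I p 4 (p ^ 4 * H (2 * y) 4) := Ip 4 (H_mem (by omega) 4) rfl
  have h2 := h1.small h3 (by
    have := (k1.mulL (x := -2) (neg_mem (nm 2))).sub (k2.mono (by norm_num : 3 ≤ 4))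
    exact icg this (by push_cast; ring))
  have k3 : I p 4 (p ^ 2 * (H (2 * y) 2 + 1 / 3 * p * H y 3)) :=
    (Ipow (I_p (p := p)) 2).mul (H2_II hy h3)
  have h4 := ((h2.mono (by norm_num : 4 ≤ 5)).sub (k3.mulL (x := 2) (nm 2))).sub k2
  exact icg h4 (by push_cast; ring)

theorem mu_I (h3 : 3 < p) : I p 4 ((Nat.centralBinom y : ℚ) ^ 2 / ((4 : ℚ) ^ (p - 1)) ^ 2 -
    (1 - 1 / 12 * p ^ 3 * H y 3)) := by
  have h1 := mu_LE hy h3
  have c7 : (7 / 16 : ℚ) ∈ Zp p := m23 h3 7 4 0 (by norm_num)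
  have c2 : (1 / 2 : ℚ) ∈ Zp p := m23 h3 1 1 0 (by norm_num)
  have k2 : I p 4 (p ^ 4 * (7 / 16 * H y 4)) := Ip 4 (mul_mem c7 (H_mem (by omega) 4)) rfl
  have k1 : I p 3 (p ^ 2 * H y 2) := (Ipow (I_p (p := p)) 2).mul (h2_I hy h3)
  have k0 : I p 3 (p ^ 3 * (1 / 2 * H y 3)) := Ip 3 (mul_mem c2 (H_mem (by omega) 3)) rfl
  have h2 := h1.small h3 (by
    have := ((k1.mulL (x := 1 / 2) c2).add k0).add (k2.mono (by norm_num : 3 ≤ 4))
    exact icg this (by ring))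
  have k3 : I p 4 (p ^ 2 * (H y 2 + 7 / 6 * p * H y 3)) :=
    (Ipow (I_p (p := p)) 2).mul (h2_II hy h3)
  have h4 := ((h2.mono (by norm_num : 4 ≤ 5)).add (k3.mulL (x := 1 / 2) c2)).add k2
  exact icg h4 (by ring)

theorem X_I (h3 : 3 < p) : I p 2 ((4 : ℚ) ^ (p - 1) - 1 + p * H y 1) := by
  have h1 := (X_LE hy h3).mod2 h3
  have m : (3 / 4 * H y 2 + 7 / 12 * p * H y 3 + 15 / 32 * p ^ 2 * H y 4) ∈ Zp p :=
    add_mem (add_mem (mul_mem (m23 h3 3 2 0 (by norm_num)) (H_mem (by omega) 2))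
      (mul_mem (mul_mem (m23 h3 7 2 1 (by norm_num)) p_mem) (H_mem (by omega) 3)))
      (mul_mem (mul_mem (m23 h3 15 5 0 (by norm_num)) (pow_mem p_mem 2)) (H_mem (by omega) 4))
  exact icg (h1.sub (Ip 2 m rfl)) (by ring)

omit hp in
theorem zy_sq : z y ^ 2 = (Nat.centralBinom y : ℚ) ^ 2 / ((4 : ℚ) ^ (p - 1)) ^ 2 * 4 ^ (p - 1) := by
  have e : (4 : ℚ) ^ (p - 1) = (4 ^ y) ^ 2 := by
    rw [← pow_mul]; congr 1; omega
  rw [e, z]
  field_simp

omit hp in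
theorem zp_c : z p = (Nat.centralBinom p : ℚ) / 2 / (2 * 4 ^ (p - 1)) := by
  have e : (4 : ℚ) ^ p = 4 ^ (p - 1) * 4 := by
    rw [← pow_succ]; congr 1; omega
  rw [z, e]
  field_simp
  norm_num

theorem main1_aux (h3 : 3 < p) : I p 4 (4 * z p ^ 2 * f p (2 * p) - (1 + 7 / 12 * p ^ 3 * H y 3)) := by
  have hF := f_key hy h3
  rw [f_p hy, f_negp hy, zy_sq hy] at hF
  have hz := zp_c hy
  have hc := c2_I hy h3
  have hm := mu_I hy h3
  have hX := X_I hy h3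
  have hA := A3_I hy h3
  have hXu := (X_LE hy h3).unit h3
  have hcu := ((c_LE hy h3).pow h3 2).mem h3
  have hh1 : H y 1 ∈ Zp p := H_mem (by omega) 1
  have hh3 : H y 3 ∈ Zp p := H_mem (by omega) 3
  rw [hz] at hF
  rw [hz]
  obtain ⟨X, eX⟩ : ∃ X : ℚ, X = 4 ^ (p - 1) := ⟨_, rfl⟩
  rw [← eX] at hm hX hXu hF ⊢
  obtain ⟨c, ec⟩ : ∃ c : ℚ, c = (Nat.centralBinom p : ℚ) / 2 := ⟨_, rfl⟩
  have ec' : (Nat.centralBinom p : ℚ) = 2 * c := by rw [ec]; ring
  rw [← ec] at hc hcu hF ⊢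
  rw [ec'] at hF
  obtain ⟨μ, eμ⟩ : ∃ μ : ℚ, μ = (Nat.centralBinom y : ℚ) ^ 2 / X ^ 2 := ⟨_, rfl⟩
  rw [← eμ] at hm hF
  obtain ⟨F, eF⟩ : ∃ F : ℚ, F = f p (2 * p) := ⟨_, rfl⟩
  rw [← eF] at hF ⊢
  obtain ⟨A, eA⟩ : ∃ A : ℚ, A = A3 y := ⟨_, rfl⟩
  rw [← eA] at hA hF
  obtain ⟨h, eh⟩ : ∃ h : ℚ, h = H y 1 := ⟨_, rfl⟩
  rw [← eh] at hA hX hh1
  obtain ⟨k, ek⟩ : ∃ k : ℚ, k = H y 3 := ⟨_, rfl⟩
  rw [← ek] at hA hc hm hh3 ⊢
  have hX0 := hXu.1
  have hXm := hXu.2.1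
  have p1 := I_p (p := p)
  have p3 : I p 3 ((p : ℚ) ^ 3) := Ipow p1 3
  -- `X - 1`
  have t1 : I p 1 (X - 1) := icg ((hX.mono (by norm_num : 1 ≤ 2)).sub (p1.mulR hh1)) (by ring)
  have hph : I p 1 (p * h) := p1.mulR hh1
  have c4 : (1 / 4 : ℚ) ∈ Zp p := m23 h3 1 2 0 (by norm_num)
  have c2 : (1 / 2 : ℚ) ∈ Zp p := m23 h3 1 1 0 (by norm_num)
  have c12 : (1 / 12 : ℚ) ∈ Zp p := m23 h3 1 2 1 (by norm_num)
  have c18 : (1 / 18 : ℚ) ∈ Zp p := m23 h3 1 1 2 (by norm_num)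
  -- the cube
  have r1 : I p 4 ((X - 1 + p * h) * ((X - 1) * (X - 1) - (X - 1) * (p * h) + (p * h) * (p * h))) :=
    hX.mul (((t1.mul t1).sub (t1.mul hph)).add (hph.mul hph))
  have r2 : I p 4 ((μ - (1 - 1 / 12 * p ^ 3 * k)) * (3 * X ^ 2)) :=
    hm.mulR (mul_mem (nm 3) (pow_mem hXm 2))
  have r3 : I p 4 (p ^ 3 * (X - 1) * (1 / 4 * k * (X + 1))) :=
    (p3.mul t1).mulR (mul_mem (mul_mem c4 hh3) (add_mem hXm (one_mem _)))
  have r5 : I p 4 (p ^ 3 * (A - (h ^ 3 / 6 + 1 / 12 * k)) * (6 * X)) :=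
    (p3.mul hA).mulR (mul_mem (nm 6) hXm)
  have r6 : I p 4 (p ^ 3 * (X - 1) * (h ^ 3 + 1 / 2 * k)) :=
    (p3.mul t1).mulR (add_mem (pow_mem hh1 3) (mul_mem c2 hh3))
  have s1 : I p 4 (3 * μ * X ^ 2 + c ^ 2 - 3 * X - 6 * p ^ 3 * A * X - (X ^ 3 - 1 / 12 * p ^ 3 * k)) :=
    icg (((((hc.sub r1).add r2).sub r3).sub r5).sub r6) (by ring)
  -- the conclusion
  have q1 := hF.mulR (y := X * c ^ 2) (mul_mem hXm (by simpa using hcu))
  have q2 := s1.mulR (y := c ^ 2) (by simpa using hcu)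
  have q3 : I p 4 ((c ^ 2 - (1 + 2 / 3 * p ^ 3 * k)) * (X ^ 3 - 1 / 12 * p ^ 3 * k)) :=
    hc.mulR (sub_mem (pow_mem hXm 3) (mul_mem (mul_mem c12 (pow_mem p_mem 3)) hh3))
  have q4 : I p 4 (p ^ 3 * (X - 1) * (1 / 12 * k * (X ^ 2 + X + 1))) :=
    (p3.mul t1).mulR (mul_mem (mul_mem c12 hh3) (add_mem (add_mem (pow_mem hXm 2) hXm) (one_mem _)))
  have q5 : I p 4 (p ^ 4 * (p ^ 2 * (1 / 18 * k ^ 2))) :=
    Ip 4 (mul_mem (pow_mem p_mem 2) (mul_mem c18 (pow_mem hh3 2))) rfl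
  apply (hXu.pow 3).cancel
  refine icg ((((q1.add q2).add q3).add q4).sub q5) ?_
  field_simp
  ring

/-- the first congruence -/
theorem main1 (h3 : 3 < p) : I p 6 (∑ k ∈ range p, aT k -
    (3 * p ^ 2 - 7 / 2 * p ^ 5 * bernoulli (p - 3))) := by
  have h1 := (Ipow (I_p (p := p)) 2).mul (main1_aux hy h3)
  have h2 := (Ipow (I_p (p := p)) 5).mul (bern_h3 hy h3)
  rw [sum_aT]
  refine icg ((h1.mulL (x := 3) (nm 3)).add (h2.mulL (x := 7 / 4) (m23 h3 7 2 0 (by norm_num)))) ?_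
  unfold f
  ring

/-- `z_{p-x}` modulo `p²` -/
theorem z_refl (h3 : 3 < p) (x : ℕ) (hx : x < y) : I p 1 (z (p - (x + 1))) ∧
    I p 2 (2 * ((x : ℚ) + 1) * z (x + 1) * z (p - (x + 1)) + p) := by
  induction x with
  | zero =>
    have hp0 := p_ne (p := p)
    have u1 : U p (2 * (p : ℚ) - 1) := by
      apply U_of_not_I (sub_mem (mul_mem (nm 2) p_mem) (one_mem _))
      intro h
      apply not_I_one (p := p)
      exact icg (((I_p (p := p)).mulL (x := 2) (nm 2)).sub h) (by ring)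
    obtain ⟨w, hw⟩ : ∃ w : ℚ, w = 2 * (p : ℚ) - 1 := ⟨_, rfl⟩
    rw [← hw] at u1
    have hw0 := u1.1
    have e1 : z p = z (p - 1) * (w / (2 * p)) := by
      have := z_succ (p - 1)
      rw [Nat.sub_add_cancel (by omega), Nat.cast_sub (by omega)] at this
      rw [this, hw]
      push_cast
      ring
    have e2 : z (p - 1) = p * ((Nat.centralBinom p : ℚ) / 2 / (4 ^ (p - 1) * w)) := by
      rw [zp_c hy] at e1
      field_simp at e1 ⊢
      linear_combination (-1 : ℚ) * e1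
    have hXu := (X_LE hy h3).unit h3
    have hcm := (c_LE hy h3).mem h3
    have hXm := hXu.2.1
    have hc1 : I p 1 ((Nat.centralBinom p : ℚ) / 2 - 1) := by
      have k := ((c_LE hy h3).mod2 h3).mono (by norm_num : 1 ≤ 2)
      have m : (-(p * H (2 * y) 2) - 1 / 2 * p ^ 3 * H (2 * y) 4) ∈ Zp p :=
        sub_mem (neg_mem (mul_mem p_mem (H_mem (by omega) 2)))
          (mul_mem (mul_mem (m23 h3 1 1 0 (by norm_num)) (pow_mem p_mem 3)) (H_mem (by omega) 4))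
      exact icg (k.add (Ip 1 m rfl)) (by ring)
    have hX1 : I p 1 ((4 : ℚ) ^ (p - 1) - 1) := by
      have k := (X_I hy h3).mono (by norm_num : 1 ≤ 2)
      exact icg (k.sub ((I_p (p := p)).mulR (H_mem (n := y) (by omega) 1))) (by ring)
    rw [zero_add, e2, z_succ, z_zero]
    refine ⟨Ip 1 (dmem hcm (hXu.mul u1)) (by ring), ?_⟩
    have hpx : I p 1 (p * (2 * (4 : ℚ) ^ (p - 1))) := (I_p (p := p)).mulR (mul_mem (nm 2) hXm)
    have k := (((hc1.sub hX1).add hpx).mulR (y := 1 / (4 ^ (p - 1) * w))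
      (dmem (one_mem _) (hXu.mul u1)))
    have k2 := (I_p (p := p)).mul k
    refine icg k2 ?_
    have g2 := hXu.1
    push_cast
    field_simp
    rw [hw]
    ring
  | succ x ih =>
    obtain ⟨i1, i2⟩ := ih (by omega)
    have hu := uSucc (p := p) (Nat.lt_succ_self x) (by omega)
    have hv := psub hu
    have hw : U p (2 * (x : ℚ) + 3) := by
      have := uNat (p := p) (k := 2 * x + 3) (by omega) (by omega)
      push_cast at this
      exact this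
    have hw2 : U p (2 * (p : ℚ) - (2 * x + 3)) := by
      apply U_of_not_I
      · exact sub_mem (mul_mem (nm 2) p_mem) (add_mem (mul_mem (nm 2) (nat_mem x)) (nm 3))
      · intro h
        apply hw.not_I one_pos
        exact icg (((I_p (p := p)).mulL (x := 2) (nm 2)).sub h) (by ring)
    obtain ⟨w, ew⟩ : ∃ w : ℚ, w = 2 * (p : ℚ) - (2 * x + 3) := ⟨_, rfl⟩
    obtain ⟨v, ev⟩ : ∃ v : ℚ, v = (p : ℚ) - ((x : ℚ) + 1) := ⟨_, rfl⟩
    rw [← ew] at hw2
    rw [← ev] at hv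
    have g1 := hw2.1
    have g2 := hv.1
    have e1 : z (p - (x + 1)) = z (p - (x + 2)) * (w / (2 * v)) := by
      have := z_succ (p - (x + 2))
      have e : p - (x + 2) + 1 = p - (x + 1) := by omega
      rw [e, Nat.cast_sub (by omega)] at this
      rw [this, ew, ev]
      push_cast
      congr 2
      · ring
      · ring
    have e2 : z (p - (x + 2)) = z (p - (x + 1)) * (2 * v / w) := by
      rw [e1]
      field_simp
    have e3 : x + 1 + 1 = x + 2 := rfl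
    rw [e3, e2]
    have hq : 2 * v / w ∈ Zp p := dmem (mul_mem (nm 2) hv.2.1) hw2
    refine ⟨i1.mulR hq, ?_⟩
    have hzx := (z_mod hy h3 (x + 1) (by omega)).1
    have k := ((I_p (p := p)).mul i1).mulR (y := 2 * z (x + 1) / w)
      (dmem (mul_mem (nm 2) hzx) hw2)
    have e4 : z (x + 2) = z (x + 1) * ((2 * x + 3) / (2 * ((x : ℚ) + 2))) := by
      rw [z_succ (x + 1)]
      push_cast
      congr 2
      · ring
      · ring
    rw [e4]
    refine icg (i2.add k) ?_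
    have g3 : (x : ℚ) + 2 ≠ 0 := by positivity
    have g4 : ((x : ℚ) + 1) + 1 ≠ 0 := by positivity
    push_cast
    field_simp
    rw [ev, ew]
    ring

/-- the truncated sum -/
theorem g_mod (h3 : 3 < p) : I p 3 (∑ j ∈ range (y + 1), b ((p : ℚ) + 1) j * z j -
    (f p (-p) + p ^ 2 * A2 y)) := by
  have hh : (1 / 2 : ℚ) ∈ Zp p := m23 h3 1 1 0 (by norm_num)
  have e1 : f p (-p) = ∑ j ∈ range (y + 1), b ((p : ℚ) + 1) j * z j +
      ∑ x ∈ range y, b ((p : ℚ) + 1) (p - (x + 1)) * z (p - (x + 1)) := by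
    have e0 : f p (-p) = ∑ j ∈ range p, b ((p : ℚ) + 1) j * z j := by
      unfold f
      refine sum_congr rfl fun j _ => ?_
      rw [← b_symm (-p) j]
      congr 2
      ring
    have e2 : range p = range (y + 1 + y) := by congr 1; omega
    rw [e0, e2, sum_range_add]
    congr 1
    rw [← sum_range_reflect]
    refine sum_congr rfl fun i hi => ?_
    have hi' := mem_range.1 hi
    have e3 : y + 1 + (y - 1 - i) = p - (i + 1) := by omega
    rw [e3]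
  have h1 : I p 3 (∑ x ∈ range y, b ((p : ℚ) + 1) (p - (x + 1)) * z (p - (x + 1)) -
      (-(1 / 2) * p ^ 2 * R y)) := by
    refine Isum_sub (g := fun x => -(1 / 2) * p ^ 2 *
      ((-1) ^ (x + 1) / (((x : ℚ) + 1) ^ 2 * (y.choose (x + 1) : ℚ)))) (fun x hx => ?_) rfl ?_
    · have hx' := mem_range.1 hx
      obtain ⟨i1, i2⟩ := z_refl hy h3 x hx'
      obtain ⟨m1, m2⟩ := z_mod hy h3 (x + 1) (by omega)
      have hu := uSucc (p := p) (Nat.lt_succ_self x) (by omega)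
      have hv := psub hu
      -- the coefficient
      have hb : I p 2 (b ((p : ℚ) + 1) (p - (x + 1)) - p / ((x : ℚ) + 1)) := by
        have k := (b_mod (p := p) (c := -1) (neg_mem (one_mem _)) (p - (x + 2)) (by omega)).mono
          (by norm_num : 2 ≤ 4)
        have e4 : p - (x + 2) + 1 = p - (x + 1) := by omega
        have e5 : ((p - (x + 2) : ℕ) : ℚ) + 1 = (p : ℚ) - ((x : ℚ) + 1) := by
          rw [Nat.cast_sub (by omega)]; push_cast; ring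
        rw [e4, e5, neg_one_mul, ← b_symm, sub_neg_eq_add, add_comm 1 (p : ℚ)] at k
        have k2 : I p 2 (p ^ 2 * (1 / ((p : ℚ) - ((x : ℚ) + 1)) ^ 2 -
            p * (H (p - (x + 2)) 2 / ((p : ℚ) - ((x : ℚ) + 1))) +
            1 / (((x : ℚ) + 1) * ((p : ℚ) - ((x : ℚ) + 1))))) :=
          Ip 2 (add_mem (sub_mem (dmem (one_mem _) (hv.pow 2)) (mul_mem p_mem
            (dmem (H_mem (by omega) 2) hv))) (dmem (one_mem _) (hu.mul hv))) rfl
        refine icg (k.sub k2) ?_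
        have g1 := hu.1
        have g2 := hv.1
        field_simp
        ring
      have hcu : U p (y.choose (x + 1) : ℚ) := by
        have : ¬ (p : ℤ) ∣ ((y.choose (x + 1) : ℕ) : ℤ) := by
          intro h
          have h2 := Int.natCast_dvd_natCast.1 h
          have h4 : p ∣ y.factorial := by
            have := Nat.choose_mul_factorial_mul_factorial (n := y) (k := x + 1) (by omega)
            rw [← this]
            exact (h2.mul_right _).mul_right _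
          have := (hp.out.dvd_factorial).1 h4
          omega
        exact_mod_cast U_int this
      have hs : U p ((-1 : ℚ) ^ (x + 1) * (y.choose (x + 1) : ℚ)) := by
        refine U.mul (U.pow ?_ _) hcu
        exact ⟨by norm_num, neg_mem (one_mem _), by rw [inv_neg, inv_one]; exact neg_mem (one_mem _)⟩
      have hz : U p (z (x + 1)) := by
        apply U_of_not_I m1
        intro h
        apply hs.not_I one_pos
        exact icg (h.sub m2) (by ring)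
      -- assemble
      have s1 := hb.mul i1
      have s2 := ((I_p (p := p)).mul i2).mulR (y := 1 / (2 * ((x : ℚ) + 1) ^ 2 * z (x + 1)))
        (dmem (one_mem _) (((u2 (by omega)).mul (hu.pow 2)).mul hz))
      have s3 := ((Ipow (I_p (p := p)) 2).mul m2).mulR (y := 1 / (2 * ((x : ℚ) + 1) ^ 2 * z (x + 1) *
        ((-1 : ℚ) ^ (x + 1) * (y.choose (x + 1) : ℚ))))
        (dmem (one_mem _) ((((u2 (by omega)).mul (hu.pow 2)).mul hz).mul hs))
      refine icg ((s1.add s2).add s3) ?_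
      have g1 := hu.1
      have g2 := hz.1
      have g3 := hcu.1
      have g4 : ((-1 : ℚ) ^ (x + 1)) * ((-1 : ℚ) ^ (x + 1)) = 1 := by
        rw [← mul_pow]; norm_num
      have g5 : ((-1 : ℚ) ^ (x + 1)) = 1 / ((-1 : ℚ) ^ (x + 1)) := by
        have : ((-1 : ℚ) ^ (x + 1)) ≠ 0 := pow_ne_zero _ (by norm_num)
        field_simp
        rw [sq]; exact g4
      have g6 : (-1 : ℚ) ^ (x + 1) / (((x : ℚ) + 1) ^ 2 * (y.choose (x + 1) : ℚ)) =
          1 / (((x : ℚ) + 1) ^ 2 * ((-1 : ℚ) ^ (x + 1) * (y.choose (x + 1) : ℚ))) := by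
        have : ((-1 : ℚ) ^ (x + 1)) ≠ 0 := pow_ne_zero _ (by norm_num)
        rw [div_eq_div_iff (by positivity) (mul_ne_zero (by positivity) (mul_ne_zero this g3))]
        linear_combination (((x : ℚ) + 1) ^ 2 * (y.choose (x + 1) : ℚ)) * g4
      rw [g6]
      obtain ⟨s, es⟩ : ∃ s : ℚ, s = (-1 : ℚ) ^ (x + 1) * (y.choose (x + 1) : ℚ) := ⟨_, rfl⟩
      rw [← es] at hs ⊢
      have g7 := hs.1
      field_simp
      ring
    · rw [R, mul_sum]
  have h2 : I p 3 (p ^ 2 * (R y - 2 * A2 y)) := by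
    have k : I p 1 (R y - 2 * A2 y) := by
      rw [R_eq]
      exact icg (h2_I hy h3) (by ring)
    exact (Ipow (I_p (p := p)) 2).mul k
  have h4 := (h1.neg).add (h2.mulL (x := 1 / 2) hh)
  refine icg h4 ?_
  rw [e1]
  ring

/-- the second congruence -/
theorem main2 (h3 : 3 < p) : I p 5 (∑ k ∈ range (y + 1), aT k -
    (3 * p ^ 2 + 6 * (-1) ^ y * p ^ 4 * eulerNum (p - 3))) := by
  have hg := g_mod hy h3
  rw [f_negp hy, zp_c hy] at hg
  have hE := A2_euler hy h3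
  have e1 : 2 * (((y + 1 : ℕ) : ℚ)) = (p : ℚ) + 1 := by rw [hy]; push_cast; ring
  rw [sum_aT, e1]
  have e2 : 12 * (((y + 1 : ℕ) : ℚ)) ^ 2 * z (y + 1) ^ 2 = 3 * p ^ 2 * z y ^ 2 := by
    rw [z_succ]
    have e : (p : ℚ) = 2 * y + 1 := by rw [hy]; push_cast; ring
    have h0 : (y : ℚ) + 1 ≠ 0 := by positivity
    rw [e]
    push_cast
    field_simp
    ring
  rw [e2, zy_sq hy]
  have hc := (c2_I hy h3).mono (by norm_num : 3 ≤ 4)
  have hm := (mu_I hy h3).mono (by norm_num : 3 ≤ 4)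
  have hXu := (X_LE hy h3).unit h3
  have hmm := (mu_LE hy h3).mem h3
  have hcu := ((c_LE hy h3).pow h3 2).mem h3
  have hX1 : I p 1 ((4 : ℚ) ^ (p - 1) - 1) := by
    have k := (X_I hy h3).mono (by norm_num : 1 ≤ 2)
    exact icg (k.sub ((I_p (p := p)).mulR (H_mem (n := y) (by omega) 1))) (by ring)
  have hh3 : H y 3 ∈ Zp p := H_mem (by omega) 3
  have hA : A2 y ∈ Zp p := by
    unfold A2
    exact sum_mem fun i hi => dmem (pow_mem (neg_mem (one_mem _)) _)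
      ((uSucc (mem_range.1 hi) (by omega)).pow 2)
  obtain ⟨X, eX⟩ : ∃ X : ℚ, X = 4 ^ (p - 1) := ⟨_, rfl⟩
  rw [← eX] at hm hXu hmm hg hX1 ⊢
  obtain ⟨c, ec⟩ : ∃ c : ℚ, c = (Nat.centralBinom p : ℚ) / 2 := ⟨_, rfl⟩
  have ec' : (Nat.centralBinom p : ℚ) = 2 * c := by rw [ec]; ring
  rw [← ec] at hc hcu hg
  rw [ec'] at hg
  obtain ⟨μ, eμ⟩ : ∃ μ : ℚ, μ = (Nat.centralBinom y : ℚ) ^ 2 / X ^ 2 := ⟨_, rfl⟩
  rw [← eμ] at hm hmm ⊢
  obtain ⟨g, eg⟩ : ∃ g : ℚ, g = ∑ j ∈ range (y + 1), b ((p : ℚ) + 1) j * z j := ⟨_, rfl⟩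
  rw [← eg] at hg ⊢
  have hX0 := hXu.1
  have c12 : (1 / 12 : ℚ) ∈ Zp p := m23 h3 1 2 1 (by norm_num)
  have c23 : (2 / 3 : ℚ) ∈ Zp p := m23 h3 2 0 1 (by norm_num)
  have m1 : I p 3 (μ - 1) := icg (hm.sub (Ip 3 (mul_mem c12 hh3) rfl)) (by ring)
  have m2 : I p 3 (c ^ 2 - 1) := icg (hc.add (Ip 3 (mul_mem c23 hh3) rfl)) (by ring)
  have hcu' : c ^ 2 ∈ Zp p := by simpa using hcu
  -- `μ X g ≡ 1 + p² A₂`
  have k1 := hg.mulR (y := μ * X) (mul_mem hmm hXu.2.1)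
  have k2 := m1.mulR hcu'
  have k3 : I p 3 (p ^ 2 * (μ * X - 1) * A2 y) := by
    have : I p 1 (μ * X - 1) :=
      icg (((m1.mono (by norm_num : 1 ≤ 3)).mulR hXu.2.1).add hX1) (by ring)
    exact ((Ipow (I_p (p := p)) 2).mul this).mulR hA
  have k4 : I p 3 (μ * X * g - (1 + p ^ 2 * A2 y)) := by
    refine icg (((k1.add k2).add m2).add k3) ?_
    field_simp
    ring
  have k5 := (Ipow (I_p (p := p)) 2).mul k4
  have k6 := (Ipow (I_p (p := p)) 4).mul hE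
  refine icg ((k5.mulL (x := 3) (nm 3)).add (k6.mulL (x := 3) (nm 3))) ?_
  ring

end rel

end Pool.Agent.H547
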