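import Pool.Agent.H547.P48
import Pool.Agent.H547.Main147

set_option autoImplicit false
set_option linter.unusedSectionVars false

/-!
The terms of the second transformed sum, and the correction sums modulo `p`.
-/

namespace Pool.Agent.H547

open Finset Pool.Agent.R439.PL
open Pool.Agent.R440 (hg hg_step hg_nat)
open scoped Nat

variable {p : ℕ} [hp : Fact p.Prime]

section rel

variable {y : ℕ} (hy : p = 2 * y + 1)
include hy

omit hp in
theorem hg_up (n : ℕ) : hg ((y : ℤ) + 1 + n) = hg y * (p / 2) * (n ! : ℚ) * Pr p (1 / 2) n := by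
  have e : (p : ℚ) = 2 * y + 1 := by rw [hy]; push_cast; ring
  induction n with
  | zero =>
    rw [Nat.cast_zero, add_zero, hg_step, Pr_zero]
    simp only [Nat.factorial_zero, Nat.cast_one]
    push_cast
    rw [e]
    ring
  | succ n ih =>
    rw [show (y : ℤ) + 1 + ((n + 1 : ℕ) : ℤ) = ((y : ℤ) + 1 + n) + 1 by push_cast; ring, hg_step, ih,
      Pr_succ, Nat.factorial_succ, e]
    have h0 : (n : ℚ) + 1 ≠ 0 := by positivity
    push_cast
    field_simp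
    ring

omit hp in
theorem hg_down (n : ℕ) : hg y = hg ((y : ℤ) - n) * ((-1) ^ n * (n ! : ℚ) * Pr p (-1 / 2) n) := by
  have e : (p : ℚ) = 2 * y + 1 := by rw [hy]; push_cast; ring
  induction n with
  | zero => simp [Pr_zero]
  | succ n ih =>
    have h1 : hg ((y : ℤ) - n) = hg ((y : ℤ) - ((n + 1 : ℕ) : ℤ)) * ((y : ℚ) - (n + 1) + 1 / 2) := by
      rw [show (y : ℤ) - n = ((y : ℤ) - ((n + 1 : ℕ) : ℤ)) + 1 by push_cast; ring, hg_step]
      push_cast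
      ring
    rw [ih, h1, Pr_succ, Nat.factorial_succ, pow_succ, e]
    have h0 : (n : ℚ) + 1 ≠ 0 := by positivity
    push_cast
    field_simp
    ring

omit hp in
theorem hg_sq : hg y ^ 2 / ((2 * y)! : ℚ) = (Nat.centralBinom y : ℚ) / 4 ^ (p - 1) := by
  have e : (4 : ℚ) ^ (p - 1) = (4 ^ y) ^ 2 := by
    rw [← pow_mul]; congr 1; omega
  rw [hg_nat, e, Nat.centralBinom_eq_two_mul_choose, Pool.Agent.R440.choose_two_mul]
  have z1 : ((2 * y)! : ℚ) ≠ 0 := by positivity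
  have z2 : (y ! : ℚ) ≠ 0 := by positivity
  field_simp

/-- the quotient of products -/
def Dq (p y k : ℕ) : ℚ := Pr p (1 / 2) (2 * k) * Pr p (-1) (y - k - 1) / Pr p (-1 / 2) (2 * k + 1)

theorem U_val (h3 : 3 < p) {k : ℕ} (hk : k < y) : Pool.Agent.R440.D518.Gou.U k (y - k) ^ 2 =
    p ^ 2 * (((Nat.centralBinom y : ℚ) ^ 2 / ((4 : ℚ) ^ (p - 1)) ^ 2) * Dq p y k ^ 2 /
      ((2 * (k : ℚ) + 1) ^ 2 * ((p : ℚ) - (2 * (k : ℚ) + 1)) ^ 2)) := by
  unfold Pool.Agent.R440.D518.Gou.U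
  have e1 : 3 * (k : ℤ) + ((y - k : ℕ) : ℤ) + 1 = (y : ℤ) + 1 + ((2 * k : ℕ) : ℤ) := by
    rw [Nat.cast_sub hk.le]; push_cast; ring
  have e2 : ((y - k : ℕ) : ℤ) - k - 1 = (y : ℤ) - ((2 * k + 1 : ℕ) : ℤ) := by
    rw [Nat.cast_sub hk.le]; push_cast; ring
  have hh : (-1 / 2 : ℚ) ∈ Zp p := m23 h3 (-1) 1 0 (by norm_num)
  have u1 := (L2.of_Pr (p := p) hh (n := 2 * k + 1) (by omega)).unit.1
  have u2' := (L2.of_Pr (p := p) (c := -1) (neg_mem (one_mem _)) (n := y - k - 1) (by omega)).unit.1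
  have z0 : ((2 * k + 1)! : ℚ) ≠ 0 := by positivity
  have s3 : (-1 : ℚ) ^ (2 * k + 1) = -1 := by rw [pow_succ, pow_mul]; norm_num
  have d1 := hg_down hy (2 * k + 1)
  rw [s3] at d1
  have d2 : hg ((y : ℤ) - ((2 * k + 1 : ℕ) : ℤ)) = -hg y / (((2 * k + 1)! : ℚ) *
      Pr p (-1 / 2) (2 * k + 1)) := by
    rw [eq_div_iff (mul_ne_zero z0 u1), d1]; ring
  rw [e1, e2, hg_up hy, d2]
  have f1 := fac_c (p := p) (by omega) (n := y - k - 1) (by omega)
  have e3 : p - 1 - (y - k - 1) = 2 * k + (y - k) + 1 := by omega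
  have e4 : p - 1 = 2 * y := by omega
  rw [e3, e4] at f1
  have z4 : ((2 * k + 1)! : ℚ) = (2 * (k : ℚ) + 1) * ((2 * k)! : ℚ) := by
    rw [Nat.factorial_succ]; push_cast; ring
  have z5 : ((y - k)! : ℚ) = ((y : ℚ) - k) * ((y - k - 1)! : ℚ) := by
    have h1 : (y - k)! = (y - k) * (y - k - 1)! := (Nat.mul_factorial_pred (by omega)).symm
    rw [h1, Nat.cast_mul, Nat.cast_sub hk.le]
  have s1 : ((-1 : ℚ) ^ (y - k - 1)) ^ 2 = 1 := by rw [← pow_mul, mul_comm, pow_mul]; norm_num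
  have hq := hg_sq hy
  have z1 : ((2 * y)! : ℚ) ≠ 0 := by positivity
  have z2 : ((2 * k)! : ℚ) ≠ 0 := by positivity
  have z3 : ((y - k - 1)! : ℚ) ≠ 0 := by positivity
  have z6 : ((2 * k + (y - k) + 1)! : ℚ) ≠ 0 := by positivity
  have hk0 : 2 * (k : ℚ) + 1 ≠ 0 := by positivity
  have hyk : (y : ℚ) - k ≠ 0 := by
    rw [sub_ne_zero]; intro h; have : y = k := by exact_mod_cast h
    omega
  have ep : (p : ℚ) - (2 * (k : ℚ) + 1) = 2 * ((y : ℚ) - k) := by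
    rw [hy]; push_cast; ring
  have hX : (4 : ℚ) ^ (p - 1) ≠ 0 := by positivity
  have hq2 : hg y ^ 2 = (Nat.centralBinom y : ℚ) / 4 ^ (p - 1) * ((2 * y)! : ℚ) := by
    rw [← hq]; field_simp
  rw [ep, z4, z5]
  unfold Dq
  have g : hg y * (p / 2) * ((2 * k)! : ℚ) * Pr p (1 / 2) (2 * k) *
      (-hg y / ((2 * (k : ℚ) + 1) * ((2 * k)! : ℚ) * Pr p (-1 / 2) (2 * k + 1))) /
      (((2 * k + (y - k) + 1)! : ℚ) * (((y : ℚ) - k) * ((y - k - 1)! : ℚ))) =
      -(p * ((Nat.centralBinom y : ℚ) / 4 ^ (p - 1)) * (((-1) ^ (y - k - 1)) * (Pr p (1 / 2) (2 * k) *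
        Pr p (-1) (y - k - 1) / Pr p (-1 / 2) (2 * k + 1))) /
        ((2 * (k : ℚ) + 1) * (2 * ((y : ℚ) - k)))) := by
    rw [f1] at hq2
    have : hg y * (p / 2) * ((2 * k)! : ℚ) * Pr p (1 / 2) (2 * k) *
      (-hg y / ((2 * (k : ℚ) + 1) * ((2 * k)! : ℚ) * Pr p (-1 / 2) (2 * k + 1))) /
      (((2 * k + (y - k) + 1)! : ℚ) * (((y : ℚ) - k) * ((y - k - 1)! : ℚ))) =
      -(hg y ^ 2 * (p / 2) * Pr p (1 / 2) (2 * k) /
        ((2 * (k : ℚ) + 1) * Pr p (-1 / 2) (2 * k + 1)) /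
      (((2 * k + (y - k) + 1)! : ℚ) * (((y : ℚ) - k) * ((y - k - 1)! : ℚ)))) := by
      field_simp
    rw [this, hq2]
    generalize ((2 * k + (y - k) + 1)! : ℚ) = A1 at *
    generalize ((y - k - 1)! : ℚ) = A2 at *
    generalize (-1 : ℚ) ^ (y - k - 1) = A3 at *
    generalize (4 : ℚ) ^ (p - 1) = A4 at *
    generalize Pr p (1 / 2) (2 * k) = B1 at *
    generalize Pr p (-1) (y - k - 1) = B2 at *
    generalize Pr p (-1 / 2) (2 * k + 1) = B3 at *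
    field_simp
  rw [g]
  generalize (-1 : ℚ) ^ (y - k - 1) = A3 at *
  generalize (4 : ℚ) ^ (p - 1) = A4 at *
  generalize Pr p (1 / 2) (2 * k) = B1 at *
  generalize Pr p (-1) (y - k - 1) = B2 at *
  generalize Pr p (-1 / 2) (2 * k + 1) = B3 at *
  have : (-(p * ((Nat.centralBinom y : ℚ) / A4) * (A3 * (B1 * B2 / B3)) /
      ((2 * (k : ℚ) + 1) * (2 * ((y : ℚ) - k))))) ^ 2 = A3 ^ 2 * (p ^ 2 *
      ((Nat.centralBinom y : ℚ) ^ 2 / A4 ^ 2 * (B1 * B2 / B3) ^ 2 /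
      ((2 * (k : ℚ) + 1) ^ 2 * (2 * ((y : ℚ) - k)) ^ 2))) := by
    generalize 2 * (k : ℚ) + 1 = u at *
    generalize 2 * ((y : ℚ) - k) = v at *
    ring
  rw [this, s1, one_mul]

theorem U_top (h3 : 3 < p) : (p : ℚ) ^ 2 * Pool.Agent.R440.D518.Gou.U y 0 ^ 2 =
    ((Nat.centralBinom y : ℚ) ^ 2 / ((4 : ℚ) ^ (p - 1)) ^ 2) *
      (Pr p (1 / 2) (2 * y) / Pr p (-1 / 2) (2 * y)) ^ 2 := by
  unfold Pool.Agent.R440.D518.Gou.U
  have e1 : 3 * (y : ℤ) + ((0 : ℕ) : ℤ) + 1 = (y : ℤ) + 1 + ((2 * y : ℕ) : ℤ) := by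
    push_cast; ring
  have e2 : ((0 : ℕ) : ℤ) - y - 1 = (y : ℤ) - ((2 * y + 1 : ℕ) : ℤ) := by
    push_cast; ring
  have hh : (-1 / 2 : ℚ) ∈ Zp p := m23 h3 (-1) 1 0 (by norm_num)
  have u1 := (L2.of_Pr (p := p) hh (n := 2 * y) (by omega)).unit.1
  have s3 : (-1 : ℚ) ^ (2 * y + 1) = -1 := by rw [pow_succ, pow_mul]; norm_num
  have d1 := hg_down hy (2 * y + 1)
  have ep : (p : ℚ) = 2 * y + 1 := by rw [hy]; push_cast; ring
  have d0 : Pr p (-1 / 2) (2 * y + 1) = Pr p (-1 / 2) (2 * y) / 2 := by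
    rw [Pr_succ, ep]
    push_cast
    have : 2 * (y : ℚ) + 1 ≠ 0 := by positivity
    field_simp
    norm_num
  rw [s3, d0] at d1
  have z0 : ((2 * y + 1)! : ℚ) ≠ 0 := by positivity
  have d2 : hg ((y : ℤ) - ((2 * y + 1 : ℕ) : ℤ)) = -2 * hg y / (((2 * y + 1)! : ℚ) *
      Pr p (-1 / 2) (2 * y)) := by
    rw [eq_div_iff (mul_ne_zero z0 u1), d1]; ring
  rw [e1, e2, hg_up hy, d2]
  have z4 : ((2 * y + 0 + 1)! : ℚ) = p * ((2 * y)! : ℚ) := by
    rw [Nat.add_zero, Nat.factorial_succ, ep]; push_cast; ring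
  have hq := hg_sq hy
  have z1 : ((2 * y)! : ℚ) ≠ 0 := by positivity
  have hp0 := p_ne (p := p)
  have hX : (4 : ℚ) ^ (p - 1) ≠ 0 := by positivity
  have hq2 : hg y ^ 2 = (Nat.centralBinom y : ℚ) / 4 ^ (p - 1) * ((2 * y)! : ℚ) := by
    rw [← hq]; field_simp
  rw [z4]
  simp only [Nat.factorial_zero, Nat.cast_one, mul_one]
  generalize (4 : ℚ) ^ (p - 1) = A4 at *
  generalize Pr p (1 / 2) (2 * y) = B1 at *
  generalize Pr p (-1 / 2) (2 * y) = B3 at *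
  generalize ((2 * y)! : ℚ) = A1 at *
  have : (p : ℚ) ^ 2 * (hg y * (p / 2) * A1 * B1 * (-2 * hg y / (p * A1 * B3)) / (p * A1)) ^ 2 =
      (hg y ^ 2) ^ 2 * B1 ^ 2 / (A1 ^ 2 * B3 ^ 2) := by
    field_simp
  rw [this, hq2]
  field_simp

/-- the closed form of the second sum -/
theorem sumII : 512 * ∑ j ∈ range (y + 1), Pool.Agent.R440.D518.Gou.s j =
    (p : ℚ) ^ 3 * ((Nat.centralBinom y : ℚ) / 4 ^ (p - 1)) ^ 3 *
      (p ^ 2 * Pool.Agent.R440.D518.Gou.U y 0 ^ 2 +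
        ∑ k ∈ range y, p * ((2 * (k : ℚ) + 1) * Pool.Agent.R440.D518.Gou.U k (y - k) ^ 2)) := by
  have h := Pool.Agent.R440.D518.Gou.closed y
  have e : (4 : ℚ) ^ (p - 1) = (4 ^ y) ^ 2 := by
    rw [← pow_mul]; congr 1; omega
  have ep : (p : ℚ) = 2 * y + 1 := by rw [hy]; push_cast; ring
  have e1 : ((y + 1 : ℕ) : ℚ) * ((2 * (y + 1)).choose (y + 1) : ℚ) =
      2 * p * (Nat.centralBinom y : ℚ) := by
    have h1 := Nat.succ_mul_centralBinom_succ y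
    rw [← Nat.centralBinom_eq_two_mul_choose, ep]
    have : ((y + 1 : ℕ) : ℚ) * (Nat.centralBinom (y + 1) : ℚ) =
      2 * (2 * y + 1) * (Nat.centralBinom y : ℚ) := by exact_mod_cast h1
    rw [this]
  have e2 : ∑ k ∈ range (y + 1), Pool.Agent.R440.D518.Gou.t k (y - k) =
      (4 ^ y) ^ 4 / 16 * (p ^ 2 * Pool.Agent.R440.D518.Gou.U y 0 ^ 2 +
        ∑ k ∈ range y, p * ((2 * (k : ℚ) + 1) * Pool.Agent.R440.D518.Gou.U k (y - k) ^ 2)) := by
    rw [sum_range_succ, Nat.sub_self, mul_add, add_comm, mul_sum]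
    congr 1
    · unfold Pool.Agent.R440.D518.Gou.t Pool.Agent.R440.D518.Gou.X
      have : (16 : ℚ) ^ (y + 0) = (4 ^ y) ^ 2 := by
        rw [Nat.add_zero, ← pow_mul, mul_comm y 2, pow_mul]; norm_num
      rw [this, ep, Nat.add_zero]
      push_cast
      ring
    · refine sum_congr rfl fun k hk => ?_
      have hk' := mem_range.1 hk
      unfold Pool.Agent.R440.D518.Gou.t Pool.Agent.R440.D518.Gou.X
      have e3 : k + (y - k) = y := by omega
      have : (16 : ℚ) ^ y = (4 ^ y) ^ 2 := by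
        rw [← pow_mul, mul_comm y 2, pow_mul]; norm_num
      rw [e3, this, ep]
      push_cast
      ring
  rw [e2] at h
  have e4 : ((2 : ℚ) ^ 20) ^ y = (4 ^ y) ^ 10 := by
    rw [← pow_mul, ← pow_mul, show (4 : ℚ) = 2 ^ 2 by norm_num, ← pow_mul]; congr 1; ring
  have e5 : 2 * ((y + 1 : ℕ) : ℚ) ^ 3 * ((2 * (y + 1)).choose (y + 1) : ℚ) ^ 3 =
      2 * (2 * p * (Nat.centralBinom y : ℚ)) ^ 3 := by rw [← e1]; ring
  rw [e4, e5] at h
  rw [e]
  have z : (4 : ℚ) ^ y ≠ 0 := by positivity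
  generalize (4 : ℚ) ^ y = A at *
  generalize (∑ j ∈ range (y + 1), Pool.Agent.R440.D518.Gou.s j) = B at *
  generalize (p ^ 2 * Pool.Agent.R440.D518.Gou.U y 0 ^ 2 +
        ∑ k ∈ range y, p * ((2 * (k : ℚ) + 1) * Pool.Agent.R440.D518.Gou.U k (y - k) ^ 2)) = D at *
  have h2 : A ^ 10 * (512 * B) = A ^ 10 * (p ^ 3 * ((Nat.centralBinom y : ℚ) / A ^ 2) ^ 3 * D) := by
    rw [h]
    field_simp
    ring
  exact mul_left_cancel₀ (pow_ne_zero 10 z) h2

/-- odd parts of the power sums -/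
theorem odd_sum (r : ℕ) : ∑ k ∈ range y, 1 / (2 * (k : ℚ) + 1) ^ r = H (2 * y) r - 1 / 2 ^ r * H y r := by
  unfold H
  rw [evenodd (fun i => 1 / ((i : ℚ) + 1) ^ r) y, mul_sum]
  have : ∑ i ∈ range y, (1 : ℚ) / (((2 * i + 1 : ℕ) : ℚ) + 1) ^ r =
      ∑ i ∈ range y, 1 / 2 ^ r * (1 / ((i : ℚ) + 1) ^ r) := by
    refine sum_congr rfl fun i _ => ?_
    push_cast
    rw [div_mul_div_comm, one_mul, ← mul_pow]
    congr 2
    ring
  rw [this]
  push_cast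
  ring

theorem H_half (l : ℕ) (hl : l ≤ y) (_h3 : 3 < p) :
    I p 1 (H (y - l) 1 - (H y 1 + 2 * H (2 * l) 1 - H l 1)) := by
  induction l with
  | zero => rw [H_zero]; exact icg I.zero (by simp [H])
  | succ l ih =>
    have ih := ih (by omega)
    have e1 : y - l = (y - (l + 1)) + 1 := by omega
    rw [e1, H_succ] at ih
    have hu : U p (2 * (l : ℚ) + 1) := by
      have := uNat (p := p) (k := 2 * l + 1) (by omega) (by omega)
      push_cast at this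
      exact this
    have hv := psub hu
    have e2 : ((y - (l + 1) : ℕ) : ℚ) + 1 = ((p : ℚ) - (2 * l + 1)) / 2 := by
      rw [Nat.cast_sub hl, hy]; push_cast; ring
    rw [e2] at ih
    rw [show 2 * (l + 1) = 2 * l + 1 + 1 by ring, H_succ (2 * l + 1), H_succ (2 * l), H_succ l]
    have k : I p 1 (p * (2 / ((2 * (l : ℚ) + 1) * ((p : ℚ) - (2 * l + 1))))) :=
      (I_p (p := p)).mulR (dmem (nm 2) (hu.mul hv))
    refine icg (ih.sub k) ?_
    have g1 := hu.1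
    have g2 := hv.1
    have g3 : (l : ℚ) + 1 ≠ 0 := by positivity
    have g4 : 2 * (l : ℚ) + 1 + 1 ≠ 0 := by positivity
    obtain ⟨w, hw⟩ : ∃ w : ℚ, w = (p : ℚ) - (2 * l + 1) := ⟨_, rfl⟩
    have hpw : (p : ℚ) = w + (2 * l + 1) := by rw [hw]; ring
    rw [← hw] at g2 ⊢
    rw [hpw]
    push_cast
    simp only [pow_one]
    field_simp
    ring

/-- the correction sum of the first case -/
theorem WI (h5 : 5 < p) : I p 1 (∑ k ∈ range y, (H (2 * k) 1 - H k 1) / (2 * (k : ℚ) + 1) ^ 3 -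
    1 / 8 * (H y 1 * H y 3)) := by
  have h3 : 3 < p := by omega
  have e1 : ∑ k ∈ range y, (H (2 * k) 1 - H k 1) / (2 * (k : ℚ) + 1) ^ 3 =
      ∑ l ∈ range y, (H (2 * y - 2 * (l + 1)) 1 - H (y - (l + 1)) 1) *
        (1 / ((p : ℚ) - 2 * ((l : ℚ) + 1)) ^ 3) := by
    rw [← sum_range_reflect]
    refine sum_congr rfl fun l hl => ?_
    have hl' := mem_range.1 hl
    have a1 : 2 * (y - 1 - l) = 2 * y - 2 * (l + 1) := by omega
    have a2 : y - 1 - l = y - (l + 1) := by omega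
    have a3 : 2 * ((y - 1 - l : ℕ) : ℚ) + 1 = (p : ℚ) - 2 * ((l : ℚ) + 1) := by
      rw [Nat.cast_sub (by omega), Nat.cast_sub (by omega), hy]; push_cast; ring
    rw [a3, a1, a2]
    ring
  have e2 : I p 1 (∑ l ∈ range y, (H (2 * y - 2 * (l + 1)) 1 - H (y - (l + 1)) 1) *
        (1 / ((p : ℚ) - 2 * ((l : ℚ) + 1)) ^ 3) -
      (1 / 8 * (H y 1 * H y 3) + 1 / 8 * ∑ l ∈ range y, (H (2 * (l + 1)) 1 - H (l + 1) 1) /
        ((l : ℚ) + 1) ^ 3)) := by
    refine Isum_sub (g := fun l => (-(H y 1) - H (2 * (l + 1)) 1 + H (l + 1) 1) *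
      (-(1 / (2 * ((l : ℚ) + 1)) ^ 3))) (fun l hl => ?_) rfl ?_
    · have hl' := mem_range.1 hl
      have k1 := H_refl hy (2 * (l + 1)) (by omega) h3
      have k2 := H_half hy (l + 1) (by omega) h3
      have hu : U p (2 * ((l : ℚ) + 1)) := (u2 (by omega)).mul (uSucc hl' (by omega))
      have k3 := invp 3 hu
      have hv := psub hu
      have q1 := (k1.sub k2).mulR (y := 1 / ((p : ℚ) - 2 * ((l : ℚ) + 1)) ^ 3)
        (dmem (one_mem _) (hv.pow 3))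
      have q2 := k3.mulL (x := -(H y 1) - H (2 * (l + 1)) 1 + H (l + 1) 1)
        (add_mem (sub_mem (neg_mem (H_mem (by omega) 1)) (H_mem (by omega) 1)) (H_mem (by omega) 1))
      exact icg (q1.add q2) (by ring)
    · have e3 : H y 3 = ∑ l ∈ range y, 1 / ((l : ℚ) + 1) ^ 3 := rfl
      rw [e3, mul_sum, mul_sum, mul_sum, ← sum_add_distrib]
      refine sum_congr rfl fun l _ => ?_
      have g3 : (l : ℚ) + 1 ≠ 0 := by positivity
      field_simp
      ring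
  rw [e1]
  exact icg (e2.add ((N_I hy h5).mulL (x := 1 / 8) (m23 h3 1 3 0 (by norm_num)))) (by ring)

/-- the correction sum of the second case -/
theorem WII (h5 : 5 < p) : I p 1 (∑ k ∈ range y, (H (2 * k) 1 - H (y - k - 1) 1) /
    (2 * (k : ℚ) + 1) ^ 3) := by
  have h3 : 3 < p := by omega
  have e1 : ∑ k ∈ range y, (H (2 * k) 1 - H (y - k - 1) 1) / (2 * (k : ℚ) + 1) ^ 3 =
      ∑ l ∈ range y, (H (2 * y - 2 * (l + 1)) 1 - H l 1) *
        (1 / ((p : ℚ) - 2 * ((l : ℚ) + 1)) ^ 3) := by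
    rw [← sum_range_reflect]
    refine sum_congr rfl fun l hl => ?_
    have hl' := mem_range.1 hl
    have a1 : 2 * (y - 1 - l) = 2 * y - 2 * (l + 1) := by omega
    have a2 : y - (y - 1 - l) - 1 = l := by omega
    have a3 : 2 * ((y - 1 - l : ℕ) : ℚ) + 1 = (p : ℚ) - 2 * ((l : ℚ) + 1) := by
      rw [Nat.cast_sub (by omega), Nat.cast_sub (by omega), hy]; push_cast; ring
    rw [a3, a1, a2]
    ring
  have e2 : I p 1 (∑ l ∈ range y, (H (2 * y - 2 * (l + 1)) 1 - H l 1) *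
        (1 / ((p : ℚ) - 2 * ((l : ℚ) + 1)) ^ 3) -
      (-(1 / 8) * (∑ l ∈ range y, (H (2 * (l + 1)) 1 - H (l + 1) 1) /
        ((l : ℚ) + 1) ^ 3 + H y 4))) := by
    refine Isum_sub (g := fun l => (H (2 * (l + 1)) 1 - H l 1) *
      (-(1 / (2 * ((l : ℚ) + 1)) ^ 3))) (fun l hl => ?_) rfl ?_
    · have hl' := mem_range.1 hl
      have k1 := H_refl hy (2 * (l + 1)) (by omega) h3
      have hu : U p (2 * ((l : ℚ) + 1)) := (u2 (by omega)).mul (uSucc hl' (by omega))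
      have k3 := invp 3 hu
      have hv := psub hu
      have q1 := k1.mulR (y := 1 / ((p : ℚ) - 2 * ((l : ℚ) + 1)) ^ 3)
        (dmem (one_mem _) (hv.pow 3))
      have q2 := k3.mulL (x := H (2 * (l + 1)) 1 - H l 1)
        (sub_mem (H_mem (by omega) 1) (H_mem (by omega) 1))
      exact icg (q1.add q2) (by ring)
    · have e3 : H y 4 = ∑ l ∈ range y, 1 / ((l : ℚ) + 1) ^ 4 := rfl
      rw [e3, ← sum_add_distrib, mul_sum]
      refine sum_congr rfl fun l _ => ?_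
      rw [H_succ l 1]
      have g3 : (l : ℚ) + 1 ≠ 0 := by positivity
      field_simp
      ring
  rw [e1]
  exact icg (e2.add (((N_I hy h5).add (h4e hy h5)).mulL (x := -(1 / 8))
    (neg_mem (m23 h3 1 3 0 (by norm_num))))) (by ring)

end rel

end Pool.Agent.H547
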