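import Pool.Agent.H547.AcC
import Pool.Agent.H547.Bern
import Pool.Agent.H547.Q48

set_option autoImplicit false
set_option linter.unusedSectionVars false

/-!
Interpolation modulo `p`, and the constants modulo `p`.
-/

namespace Pool.Agent.H547

open Finset Pool.Agent.R439.PL

variable {p : ℕ} [hp : Fact p.Prime]

/-- `∑_{i<p/2} i^{-5} ≡ -6 B_{p-5}` -/
theorem bern_h5 {y : ℕ} (hy : p = 2 * y + 1) (h5 : 5 < p) :
    I p 1 (H y 5 + 6 * bernoulli (p - 5)) := by
  have h3 : 3 < p := by omega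
  obtain ⟨e, he⟩ : ∃ e, e = p - 5 := ⟨_, rfl⟩
  rw [← he]
  have hy2 : 3 ≤ y := by omega
  have he1 : e = 2 * y - 4 := by omega
  have hev : Even e := ⟨y - 2, by omega⟩
  have he0 : 2 ≤ e := by omega
  have hB := T2H53.HB.bern_mem (p := p) e (by omega)
  have hE := T2H53.HB.faul (p := p) (e := e) (by omega)
  have hE2 : ∑ k ∈ range p, (k : ℚ) ^ e = ∑ i ∈ range (2 * y), ((i : ℚ) + 1) ^ e := by
    have : range p = range (2 * y + 1) := by rw [hy]
    rw [this, sum_range_succ']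
    simp [show e ≠ 0 by omega]
  rw [hE2] at hE
  obtain ⟨E, hEE⟩ : ∃ E : ℚ, E = ∑ i ∈ range (2 * y), ((i : ℚ) + 1) ^ e := ⟨_, rfl⟩
  obtain ⟨s, hs⟩ : ∃ s : ℚ, s = ∑ i ∈ range y, ((i : ℚ) + 1) ^ e := ⟨_, rfl⟩
  obtain ⟨t, ht⟩ : ∃ t : ℚ, t = ∑ i ∈ range y, ((i : ℚ) + 1) ^ (e - 1) := ⟨_, rfl⟩
  obtain ⟨T, hT⟩ : ∃ T : ℚ, T = 2 ^ (e - 1) := ⟨_, rfl⟩
  have hT2 : (2 : ℚ) ^ e = 2 * T := by
    rw [hT, ← pow_succ']; congr 1; omega
  -- the two decompositions
  have ha : I p 2 (E - (2 * s - e * p * t)) := by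
    have d1 : E = s + ∑ i ∈ range y, ((p : ℚ) - ((i : ℚ) + 1)) ^ e := by
      rw [hEE, hs, two_mul, sum_range_add]
      congr 1
      rw [← sum_range_reflect]
      refine sum_congr rfl fun i hi => ?_
      have hi' := mem_range.1 hi
      have e1 : ((y + (y - 1 - i) : ℕ) : ℚ) + 1 = (p : ℚ) - ((i : ℚ) + 1) := by
        have : ((y + (y - 1 - i) : ℕ) : ℚ) + 1 + ((i : ℚ) + 1) = (p : ℚ) := by
          have h2 : y + (y - 1 - i) + 1 + (i + 1) = p := by omega
          exact_mod_cast h2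
        linarith
      rw [← e1]
    have d2 : I p 2 (∑ i ∈ range y, ((p : ℚ) - ((i : ℚ) + 1)) ^ e - (s - e * p * t)) := by
      refine Isum_sub (g := fun i => ((i : ℚ) + 1) ^ e - e * p * ((i : ℚ) + 1) ^ (e - 1))
        (fun i hi => ?_) rfl ?_
      · obtain ⟨K, hK⟩ := T2H53.HB.pow_exp (p := p) (s := 1) (r := i + 1) hev
        push_cast at hK
        rw [one_mul] at hK
        rw [hK]
        exact ⟨K, int_mem K, by ring⟩
      · rw [hs, ht, mul_sum, ← sum_sub_distrib]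
    rw [d1]
    exact icg d2 (by ring)
  have hb : I p 2 (E - (4 * T * s - e * p * T * t)) := by
    have d1 : E = 2 * T * s + ∑ i ∈ range y, ((p : ℚ) - 2 * ((i : ℚ) + 1)) ^ e := by
      rw [hEE, hs, evenodd (fun i => ((i : ℚ) + 1) ^ e) y, mul_sum]
      congr 1
      · refine sum_congr rfl fun i _ => ?_
        push_cast
        rw [← hT2, ← mul_pow]
        congr 1
        ring
      · rw [← sum_range_reflect]
        refine sum_congr rfl fun i hi => ?_
        have hi' := mem_range.1 hi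
        have e1 : ((2 * (y - 1 - i) : ℕ) : ℚ) + 1 = (p : ℚ) - 2 * ((i : ℚ) + 1) := by
          have : ((2 * (y - 1 - i) : ℕ) : ℚ) + 1 + 2 * ((i : ℚ) + 1) = (p : ℚ) := by
            have h2 : 2 * (y - 1 - i) + 1 + 2 * (i + 1) = p := by omega
            exact_mod_cast h2
          linarith
        rw [← e1]
    have d2 : I p 2 (∑ i ∈ range y, ((p : ℚ) - 2 * ((i : ℚ) + 1)) ^ e - (2 * T * s - e * p * T * t)) := by
      refine Isum_sub (g := fun i => 2 * T * ((i : ℚ) + 1) ^ e - e * p * T * ((i : ℚ) + 1) ^ (e - 1))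
        (fun i hi => ?_) rfl ?_
      · obtain ⟨K, hK⟩ := T2H53.HB.pow_exp (p := p) (s := 1) (r := 2 * (i + 1)) hev
        push_cast at hK
        rw [one_mul, mul_pow, mul_pow, hT2, ← hT] at hK
        rw [hK]
        exact ⟨K, int_mem K, by ring⟩
      · rw [hs, ht, mul_sum, mul_sum, ← sum_sub_distrib]
    rw [d1]
    exact icg d2 (by ring)
  have hsm : s ∈ Zp p := by
    rw [hs]
    exact sum_mem fun i _ => pow_mem (add_mem (nat_mem i) (one_mem _)) _
  have htm : t ∈ Zp p := by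
    rw [ht]
    exact sum_mem fun i _ => pow_mem (add_mem (nat_mem i) (one_mem _)) _
  have hTm : T ∈ Zp p := by rw [hT]; exact pow_mem (nm 2) _
  have h1 : I p 1 (t - H y 5) := by
    refine Isum_sub (fun i hi => ?_) ht rfl
    have hi' := mem_range.1 hi
    have hu := uSucc (p := p) (Nat.lt_succ_self i) (by omega)
    have hf := T2H53.HB.fermat (p := p) (r := i + 1) (by rw [mem_Ico]; omega)
    have k := hf.mulR (y := 1 / ((i : ℚ) + 1) ^ 5) (dmem (one_mem _) (hu.pow 5))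
    refine icg k ?_
    have e1 : p - 1 = (e - 1) + 5 := by omega
    rw [e1, pow_add]
    have := hu.1
    push_cast
    field_simp
  have f2 : I p 1 (32 * T - 1) := by
    have := T2H53.HB.fermat (p := p) (r := 2) (by rw [mem_Ico]; omega)
    have e1 : p - 1 = (e - 1) + 5 := by omega
    rw [e1, pow_add] at this
    refine icg this ?_
    rw [hT]
    push_cast
    ring
  rw [← hEE] at hE
  have heq : (e : ℚ) = p - 5 := by
    have : ((e + 5 : ℕ) : ℚ) = p := by congr 1; omega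
    push_cast at this
    linear_combination this
  have g1 : I p 1 ((2 * T - 1) * bernoulli e + e * T * t) := by
    apply I_p_mul_iff.1
    have k1 := (ha.mulL (x := 2 * T) (mul_mem (nm 2) hTm)).sub hb
    have k2 := hE.mulL (x := 2 * T - 1) (sub_mem (mul_mem (nm 2) hTm) (one_mem _))
    exact icg (k1.sub k2) (by ring)
  rw [heq] at g1
  have k1 := g1.mulL (x := 32) (nm 32)
  have k2 := f2.mulR (y := 2 * bernoulli e - 5 * t) (sub_mem (mul_mem (nm 2) hB) (mul_mem (nm 5) htm))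
  have k3 : I p 1 (p * (32 * T * t)) := (I_p (p := p)).mulR (mul_mem (mul_mem (nm 32) hTm) htm)
  have u5 : U p (5 : ℚ) := by exact_mod_cast uNat (p := p) (k := 5) (by omega) h5
  have k4 : I p 1 (5 * (t + 6 * bernoulli e)) :=
    icg (((k1.sub k2).sub k3).mulL (x := -1) (neg_mem (one_mem _))) (by ring)
  have k5 := u5.cancel k4
  exact icg (k5.sub h1) (by ring)


theorem Al_evenr (l r : ℕ) : Al (2 * l) r = 2 / 2 ^ r * H l r - H (2 * l) r := by
  induction l with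
  | zero => simp [Al, H]
  | succ l ih =>
    rw [show 2 * (l + 1) = 2 * l + 1 + 1 by ring, Al_succ, Al_succ, ih, H_succ, H_succ, H_succ]
    have e1 : (-1 : ℚ) ^ (2 * l + 1) = -1 := by rw [pow_succ, pow_mul]; norm_num
    have e2 : (-1 : ℚ) ^ (2 * l + 1 + 1) = 1 := by rw [pow_succ, e1]; norm_num
    rw [e1, e2]
    have e3 : ((2 * l + 1 : ℕ) : ℚ) + 1 = 2 * ((l : ℚ) + 1) := by push_cast; ring
    rw [e3, mul_pow]
    push_cast
    have h0 : ((l : ℚ) + 1) ^ r ≠ 0 := by positivity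
    have h1 : (2 : ℚ) ^ r ≠ 0 := by positivity
    field_simp
    ring

section rel

variable {y : ℕ} (hy : p = 2 * y + 1)
include hy

theorem uOdd {m : ℕ} (h : m < y) : U p (2 * (m : ℚ) + 1) := by
  have := uNat (p := p) (k := 2 * m + 1) (by omega) (by omega)
  push_cast at this
  exact this

theorem Od_mem {k : ℕ} (hk : k ≤ y) (r : ℕ) : Od k r ∈ Zp p :=
  sum_mem fun i hi => dmem (one_mem _) ((uOdd hy (by have := mem_range.1 hi; omega)).pow r)

theorem Oa_mem {k : ℕ} (hk : k ≤ y) (r : ℕ) : Oa k r ∈ Zp p :=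
  sum_mem fun i hi => dmem (pow_mem (neg_mem (one_mem _)) _)
    ((uOdd hy (by have := mem_range.1 hi; omega)).pow r)

theorem Od_eq (r : ℕ) : Od y r = H (2 * y) r - 1 / 2 ^ r * H y r := odd_sum hy r

omit hp in
theorem orefl {i : ℕ} (hi : i < y) : 2 * ((y - 1 - i : ℕ) : ℚ) + 1 = (p : ℚ) - 2 * ((i : ℚ) + 1) := by
  have h2 : 2 * (y - 1 - i) + 1 + 2 * (i + 1) = p := by omega
  have : ((2 * (y - 1 - i) + 1 + 2 * (i + 1) : ℕ) : ℚ) = (p : ℚ) := by rw [h2]
  push_cast at this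
  linear_combination this

omit hy in
theorem srefl {y i : ℕ} (hi : i < y) : (-1 : ℚ) ^ (y - 1 - i) = (-1) ^ y * (-1) ^ (i + 1) := by
  have h1 : (-1 : ℚ) ^ (y - 1 - i) * (-1) ^ (i + 1) = (-1) ^ y := by
    rw [← pow_add]; congr 1; omega
  rw [← h1, mul_assoc, npm, mul_one]

theorem Oa_I (r : ℕ) : I p 1 (Oa y r - (-1) ^ y * ((-1) ^ r / 2 ^ r * Al y r)) := by
  have e : Oa y r = ∑ i ∈ range y, (-1) ^ y * (-1) ^ (i + 1) * (1 / ((p : ℚ) - 2 * ((i : ℚ) + 1)) ^ r) := by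
    rw [Oa, ← sum_range_reflect]
    refine sum_congr rfl fun i hi => ?_
    have hi' := mem_range.1 hi
    rw [orefl hy hi', srefl hi']
    ring
  refine Isum_sub (g := fun i => (-1) ^ y * (-1) ^ (i + 1) * ((-1) ^ r * (1 / (2 * ((i : ℚ) + 1)) ^ r)))
    (fun i hi => ?_) e ?_
  · have k := invp r (u2i hy (mem_range.1 hi))
    have k2 := k.mulL (x := (-1) ^ y * (-1) ^ (i + 1)) (mul_mem (pow_mem (neg_mem (one_mem _)) _)
      (pow_mem (neg_mem (one_mem _)) _))
    exact icg k2 (by ring)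
  · rw [Al, mul_sum, mul_sum]
    refine sum_congr rfl fun i _ => ?_
    rw [mul_pow]
    have h0 : ((i : ℚ) + 1) ^ r ≠ 0 := by positivity
    have h1 : (2 : ℚ) ^ r ≠ 0 := by positivity
    field_simp

/-- exact splitting of `Al (2y)` -/
theorem Al_split (r : ℕ) : Al (2 * y) r = Al y r +
    ∑ i ∈ range y, (-1) ^ i * (1 / ((p : ℚ) - ((i : ℚ) + 1)) ^ r) := by
  rw [Al, two_mul, sum_range_add, Al]
  congr 1
  rw [← sum_range_reflect]
  refine sum_congr rfl fun i hi => ?_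
  have hi' := mem_range.1 hi
  have e1 : ((y + (y - 1 - i) : ℕ) : ℚ) + 1 = (p : ℚ) - ((i : ℚ) + 1) := by
    have : ((y + (y - 1 - i) : ℕ) : ℚ) + 1 + ((i : ℚ) + 1) = (p : ℚ) := by
      have h2 : y + (y - 1 - i) + 1 + (i + 1) = p := by omega
      exact_mod_cast h2
    linarith
  have e2 : (-1 : ℚ) ^ (y + (y - 1 - i) + 1) = (-1) ^ i := by
    have h1 : (-1 : ℚ) ^ (y + (y - 1 - i) + 1) * (-1) ^ i = 1 := by
      rw [← pow_add]
      have : y + (y - 1 - i) + 1 + i = 2 * y := by omega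
      rw [this, pow_mul]; norm_num
    have h2 := npm i
    linear_combination (-1) ^ i * h1 - (-1) ^ (y + (y - 1 - i) + 1) * h2
  rw [e1, e2]
  ring

theorem Al_two (r : ℕ) : I p 1 (Al (2 * y) r - (1 - (-1) ^ r) * Al y r) := by
  rw [Al_split hy]
  have k : I p 1 (∑ i ∈ range y, (-1) ^ i * (1 / ((p : ℚ) - ((i : ℚ) + 1)) ^ r) -
      (-((-1) ^ r * Al y r))) := by
    refine Isum_sub (g := fun i => (-1) ^ i * ((-1) ^ r * (1 / ((i : ℚ) + 1) ^ r)))
      (fun i hi => ?_) rfl ?_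
    · have k := invp r (uSucc (p := p) (mem_range.1 hi) (by omega))
      exact icg (k.mulL (x := (-1) ^ i) (pow_mem (neg_mem (one_mem _)) _)) (by ring)
    · rw [Al, mul_sum, ← sum_neg_distrib]
      refine sum_congr rfl fun i _ => ?_
      rw [pow_succ]
      ring
  exact icg k (by ring)

/-- `ε A_5 ≡ -h_5/1024` -/
theorem A5_I (h5 : 5 < p) : I p 1 ((-1) ^ y * Oa y 5 + 1 / 1024 * H y 5) := by
  have h3 : 3 < p := by omega
  have k1 := (Oa_I hy 5).mulL (x := (-1) ^ y) (pow_mem (neg_mem (one_mem _)) _)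
  have k2 := (Al_two hy 5).mulL (x := 1 / 64) (m23 h3 1 6 0 (by norm_num))
  rw [Al_evenr] at k2
  have k3 := (H5_I hy h3).mulL (x := 1 / 64) (m23 h3 1 6 0 (by norm_num))
  refine icg ((k1.add k2).add k3) ?_
  linear_combination (1 / 32 : ℚ) * Al y 5 * npm y

/-- power sums over the odd numbers below `p` -/
theorem pw_odd {e : ℕ} (he : Even e) (h0 : 0 < e) (h1 : e + 1 < p) (h3 : 3 < p) :
    I p 1 (∑ m ∈ range y, (2 * (m : ℚ) + 1) ^ e) := by
  have hE := (T2H53.HB.faul (p := p) (e := e) (by omega)).mono (by norm_num : 1 ≤ 2)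
  have hB := T2H53.HB.bern_mem (p := p) e (by omega)
  have hE2 : ∑ k ∈ range p, (k : ℚ) ^ e = ∑ i ∈ range (2 * y), ((i : ℚ) + 1) ^ e := by
    have : range p = range (2 * y + 1) := by rw [hy]
    rw [this, sum_range_succ']
    simp [show e ≠ 0 by omega]
  rw [hE2, evenodd (fun i => ((i : ℚ) + 1) ^ e) y] at hE
  have k0 : I p 1 (p * bernoulli e) := (I_p (p := p)).mulR hB
  have k1 : I p 1 (∑ i ∈ range y, (((2 * i + 1 : ℕ) : ℚ) + 1) ^ e -
      ∑ m ∈ range y, (2 * (m : ℚ) + 1) ^ e) := by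
    refine Isum_sub (n := y) (f := fun i => (2 * ((i : ℚ) + 1)) ^ e)
      (g := fun i => ((p : ℚ) - 2 * ((i : ℚ) + 1)) ^ e) (fun i hi => ?_) ?_ ?_
    · have hu := u2i hy (mem_range.1 hi)
      have hv := psub hu
      have h1 : EQ p 1 ((p : ℚ) - 2 * ((i : ℚ) + 1)) (-(2 * ((i : ℚ) + 1))) :=
        ⟨hv.2.1, neg_mem hu.2.1, icg (I_p (p := p)) (by ring)⟩
      have h2 := (h1.pow e).symm.2.2
      rw [he.neg_pow] at h2
      exact h2
    · refine sum_congr rfl fun i _ => ?_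
      congr 1
      push_cast
      ring
    · rw [← sum_range_reflect]
      refine sum_congr rfl fun i hi => ?_
      rw [orefl hy (mem_range.1 hi)]
  have e2 : ∑ i ∈ range y, (((2 * i : ℕ) : ℚ) + 1) ^ e = ∑ m ∈ range y, (2 * (m : ℚ) + 1) ^ e := by
    refine sum_congr rfl fun i _ => ?_
    push_cast
    ring
  rw [e2] at hE
  have k2 := ((hE.add k0).sub k1).mulL (x := 1 / 2) (m23 h3 1 1 0 (by norm_num))
  exact icg k2 (by ring)

/-- interpolation sums -/
def _root_.Pool.Agent.H547.Mi (y j r : ℕ) : ℚ :=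
  ∑ m ∈ range y, PP (2 * (m : ℚ) + 1) j * (2 * (m : ℚ) + 1) ^ (2 * r) / (2 * (m : ℚ) + 1) ^ 4

omit hy hp in
theorem Mi_succ (y j r : ℕ) : Mi y (j + 1) r = Mi y j r - 1 / (2 * (j : ℚ) + 1) ^ 2 * Mi y j (r + 1) := by
  rw [Mi, Mi, Mi, mul_sum, ← sum_sub_distrib]
  refine sum_congr rfl fun m _ => ?_
  rw [PP_succ]
  have h1 := odd_ne m
  have h2 := odd_ne j
  have e : 2 * (r + 1) = 2 * r + 2 := by ring
  rw [e, pow_add]
  field_simp

theorem Mi_three (h5 : 5 < p) (j : ℕ) : ∀ r, 3 ≤ r → r + j ≤ y + 1 → I p 1 (Mi y j r) := by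
  induction j with
  | zero =>
    intro r hr h
    have e : Mi y 0 r = ∑ m ∈ range y, (2 * (m : ℚ) + 1) ^ (2 * (r - 2)) := by
      rw [Mi]
      refine sum_congr rfl fun m _ => ?_
      rw [PP_zero, one_mul]
      have h1 := odd_ne m
      have e2 : 2 * r = 2 * (r - 2) + 4 := by omega
      rw [div_eq_iff (pow_ne_zero 4 h1), ← pow_add, ← e2]
    rw [e]
    exact pw_odd hy ⟨r - 2, by ring⟩ (by omega) (by omega) (by omega)
  | succ j ih =>
    intro r hr h
    rw [Mi_succ]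
    have hu := (uOdd hy (m := j) (by omega)).pow 2
    exact (ih r hr (by omega)).sub ((ih (r + 1) (by omega) (by omega)).mulL (dmem (one_mem _) hu))

theorem Mi_two (h5 : 5 < p) (j : ℕ) (hj : j < y) : I p 1 (Mi y j 2 + 1 / 2) := by
  have h3 : 3 < p := by omega
  induction j with
  | zero =>
    have e : Mi y 0 2 = y := by
      rw [Mi]
      have : ∀ m ∈ range y, PP (2 * (m : ℚ) + 1) 0 * (2 * (m : ℚ) + 1) ^ (2 * 2) /
          (2 * (m : ℚ) + 1) ^ 4 = 1 := by
        intro m _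
        rw [PP_zero, one_mul]
        exact div_self (pow_ne_zero 4 (odd_ne m))
      rw [sum_congr rfl this]
      simp
    rw [e]
    have e2 : (p : ℚ) = 2 * y + 1 := by rw [hy]; push_cast; ring
    exact icg ((I_p (p := p)).mulL (x := 1 / 2) (m23 h3 1 1 0 (by norm_num))) (by rw [e2]; ring)
  | succ j ih =>
    rw [Mi_succ]
    have hu := (uOdd hy (m := j) (by omega)).pow 2
    exact icg ((ih (by omega)).sub ((Mi_three hy h5 j 3 le_rfl (by omega)).mulL
      (dmem (one_mem _) hu))) (by ring)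

theorem Od2_I (h3 : 3 < p) : I p 1 (Od y 2) := by
  rw [Od_eq hy]
  exact icg ((H2_I hy h3).sub ((h2_I hy h3).mulL (x := 1 / 4) (m23 h3 1 2 0 (by norm_num)))) (by ring)

theorem Od4_I (h5 : 5 < p) : I p 1 (Od y 4) := by
  have h3 : 3 < p := by omega
  rw [Od_eq hy]
  exact icg ((H4e hy h5).sub ((h4e hy h5).mulL (x := 1 / 16) (m23 h3 1 4 0 (by norm_num)))) (by ring)

theorem Mi_one (h5 : 5 < p) (j : ℕ) (hj : j < y) : I p 1 (Mi y j 1 - 1 / 2 * Od j 2) := by
  have h3 : 3 < p := by omega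
  induction j with
  | zero =>
    have e : Mi y 0 1 = Od y 2 := by
      rw [Mi, Od]
      refine sum_congr rfl fun m _ => ?_
      rw [PP_zero, one_mul]
      have h1 := odd_ne m
      field_simp
    rw [e, Od_zero]
    exact icg (Od2_I hy h3) (by ring)
  | succ j ih =>
    rw [Mi_succ, Od_succ]
    have hu := (uOdd hy (m := j) (by omega)).pow 2
    exact icg ((ih (by omega)).sub ((Mi_two hy h5 j (by omega)).mulL
      (dmem (one_mem _) hu))) (by ring)

/-- second elementary symmetric function -/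
def _root_.Pool.Agent.H547.E2o (k : ℕ) : ℚ := ∑ i ∈ range k, Od i 2 / (2 * (i : ℚ) + 1) ^ 2

omit hy hp in
theorem E2o_succ (k : ℕ) : E2o (k + 1) = E2o k + Od k 2 / (2 * (k : ℚ) + 1) ^ 2 := by
  rw [E2o, sum_range_succ]; rfl

omit hy hp in
theorem E2o_two (k : ℕ) : 2 * E2o k = (Od k 2) ^ 2 - Od k 4 := by
  induction k with
  | zero => simp [E2o, Od]
  | succ k ih =>
    rw [E2o_succ, Od_succ, Od_succ]
    have h1 := odd_ne k
    have e : 2 * (E2o k + Od k 2 / (2 * (k : ℚ) + 1) ^ 2) = 2 * E2o k +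
      2 * (Od k 2 / (2 * (k : ℚ) + 1) ^ 2) := by ring
    rw [e, ih]
    field_simp
    ring

theorem E2o_mem {k : ℕ} (hk : k ≤ y) : E2o k ∈ Zp p :=
  sum_mem fun i hi => dmem (Od_mem hy (by have := mem_range.1 hi; omega) 2)
    ((uOdd hy (by have := mem_range.1 hi; omega)).pow 2)

theorem Mi_zero (h5 : 5 < p) (j : ℕ) (hj : j < y) : I p 1 (Mi y j 0 + 1 / 2 * E2o j) := by
  have h3 : 3 < p := by omega
  induction j with
  | zero =>
    have e : Mi y 0 0 = Od y 4 := by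
      rw [Mi, Od]
      refine sum_congr rfl fun m _ => ?_
      rw [PP_zero, one_mul]
      simp
    rw [e]
    refine icg (Od4_I hy h5) ?_
    simp [E2o]
  | succ j ih =>
    rw [Mi_succ, E2o_succ]
    have hu := (uOdd hy (m := j) (by omega)).pow 2
    exact icg ((ih (by omega)).sub ((Mi_one hy h5 j (by omega)).mulL
      (dmem (one_mem _) hu))) (by ring)

/-- `g_2 ≡ -2 ∑ s_m/(2m+1)^5` -/
theorem g2_I (h5 : 5 < p) : I p 1 (∑ j ∈ range y, aa j * E2o j +
    2 * ∑ m ∈ range y, ss m / (2 * (m : ℚ) + 1) ^ 5) := by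
  have h3 : 3 < p := by omega
  have hu2 := u2 (p := p) (by omega)
  have haa : ∀ j, j < y → aa j ∈ Zp p := by
    intro j hj
    unfold aa
    have e : (16 : ℚ) ^ j = 2 ^ (4 * j) := by rw [pow_mul]; norm_num
    rw [e]
    exact dmem (nat_mem _) ((hu2.pow _).mul (uOdd hy hj))
  have e1 : ∑ m ∈ range y, ss m / (2 * (m : ℚ) + 1) ^ 5 = ∑ j ∈ range y, aa j * Mi y j 0 := by
    have : ∀ m ∈ range y, ss m / (2 * (m : ℚ) + 1) ^ 5 =
        ∑ j ∈ range y, aa j * (PP (2 * (m : ℚ) + 1) j * (2 * (m : ℚ) + 1) ^ (2 * 0) /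
          (2 * (m : ℚ) + 1) ^ 4) := by
      intro m hm
      have h := sum_aPP' (mem_range.1 hm)
      have h1 := odd_ne m
      have e : ss m / (2 * (m : ℚ) + 1) ^ 5 = (ss m / (2 * (m : ℚ) + 1)) / (2 * (m : ℚ) + 1) ^ 4 := by
        field_simp
      rw [e, ← h, sum_div]
      refine sum_congr rfl fun j _ => ?_
      simp
      ring
    rw [sum_congr rfl this, sum_comm]
    refine sum_congr rfl fun j _ => ?_
    rw [Mi, mul_sum]
  rw [e1, mul_sum, ← sum_add_distrib]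
  refine I.sum fun j hj => ?_
  have hj' := mem_range.1 hj
  have k := (Mi_zero hy h5 j hj').mulL (x := 2 * aa j) (mul_mem (nm 2) (haa j hj'))
  exact icg k (by ring)

/-- `V_2 ≡ -2 ∑ v_m/(2m+1)^4` -/
theorem V2_I (h5 : 5 < p) : I p 1 (∑ j ∈ range y, E2o j / (2 * (j : ℚ) + 1) +
    2 * ∑ m ∈ range y, (-1) ^ m * (Oa (m + 1) 1 + Oa m 1) / (2 * (m : ℚ) + 1) ^ 4) := by
  have h3 : 3 < p := by omega
  have e1 : ∑ m ∈ range y, (-1) ^ m * (Oa (m + 1) 1 + Oa m 1) / (2 * (m : ℚ) + 1) ^ 4 =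
      ∑ j ∈ range y, 1 / (2 * (j : ℚ) + 1) * Mi y j 0 := by
    have : ∀ m ∈ range y, (-1) ^ m * (Oa (m + 1) 1 + Oa m 1) / (2 * (m : ℚ) + 1) ^ 4 =
        ∑ j ∈ range y, 1 / (2 * (j : ℚ) + 1) * (PP (2 * (m : ℚ) + 1) j *
          (2 * (m : ℚ) + 1) ^ (2 * 0) / (2 * (m : ℚ) + 1) ^ 4) := by
      intro m hm
      rw [← vv_eq m (mem_range.1 hm), vv, sum_div]
      refine sum_congr rfl fun j _ => ?_
      simp
      ring
    rw [sum_congr rfl this, sum_comm]
    refine sum_congr rfl fun j _ => ?_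
    rw [Mi, mul_sum]
  rw [e1, mul_sum, ← sum_add_distrib]
  refine I.sum fun j hj => ?_
  have hj' := mem_range.1 hj
  have k := (Mi_zero hy h5 j hj').mulL (x := 2 * (1 / (2 * (j : ℚ) + 1)))
    (mul_mem (nm 2) (dmem (one_mem _) (uOdd hy hj')))
  exact icg k (by ring)

end rel

end Pool.Agent.H547
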