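import Pool.Agent.H547.AcD

set_option autoImplicit false
set_option linter.unusedSectionVars false

/-!
Double sums of weight five modulo `p`, and the constants `V_2`, `g_2`.
-/

namespace Pool.Agent.H547

open Finset Pool.Agent.R439.PL

/-- product of two sums -/
theorem zz_mul (n : ℕ) (f g : ℕ → ℚ) : ∑ m ∈ range n, (∑ i ∈ range m, f i) * g m +
    ∑ m ∈ range n, (∑ i ∈ range m, g i) * f m + ∑ m ∈ range n, f m * g m =
    (∑ m ∈ range n, f m) * ∑ m ∈ range n, g m := by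
  induction n with
  | zero => simp
  | succ n ih =>
    rw [sum_range_succ, sum_range_succ (fun m => (∑ i ∈ range m, g i) * f m),
      sum_range_succ (fun m => f m * g m), sum_range_succ f, sum_range_succ g]
    linear_combination ih

/-- the partial fraction decomposition, summed -/
theorem pfrac4 (M : ℕ) : ∑ i ∈ range M, (-1) ^ (i + 1) / (((i : ℚ) + 1) ^ 4 * ((M : ℚ) - i)) =
    Al M 1 / ((M : ℚ) + 1) ^ 4 + Al M 2 / ((M : ℚ) + 1) ^ 3 + Al M 3 / ((M : ℚ) + 1) ^ 2 +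
    Al M 4 / ((M : ℚ) + 1) ^ 1 + Al M 1 * (-1) ^ (M + 1) / ((M : ℚ) + 1) ^ 4 := by
  have e1 : ∑ i ∈ range M, (-1) ^ (i + 1) / (((i : ℚ) + 1) ^ 4 * ((M : ℚ) - i)) =
      ∑ i ∈ range M, ((-1) ^ (i + 1) / ((i : ℚ) + 1) ^ 1 * (1 / ((M : ℚ) + 1) ^ 4) +
        (-1) ^ (i + 1) / ((i : ℚ) + 1) ^ 2 * (1 / ((M : ℚ) + 1) ^ 3) +
        (-1) ^ (i + 1) / ((i : ℚ) + 1) ^ 3 * (1 / ((M : ℚ) + 1) ^ 2) +
        (-1) ^ (i + 1) / ((i : ℚ) + 1) ^ 4 * (1 / ((M : ℚ) + 1) ^ 1)) +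
      ∑ i ∈ range M, (-1) ^ (i + 1) / ((M : ℚ) - i) * (1 / ((M : ℚ) + 1) ^ 4) := by
    rw [← sum_add_distrib]
    refine sum_congr rfl fun i hi => ?_
    have hi' := mem_range.1 hi
    obtain ⟨t, ht⟩ : ∃ t : ℚ, t = (M : ℚ) - i := ⟨_, rfl⟩
    have ht0 : t ≠ 0 := by
      rw [ht, sub_ne_zero]
      intro h
      have : M = i := by exact_mod_cast h
      omega
    have hM : (M : ℚ) = t + i := by rw [ht]; ring
    have hi0 : (i : ℚ) + 1 ≠ 0 := by positivity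
    have h0 : (M : ℚ) + 1 ≠ 0 := by positivity
    rw [← ht]
    have hM1 : (M : ℚ) + 1 = t + i + 1 := by rw [hM]
    rw [hM1] at h0 ⊢
    field_simp
    ring
  have e2 : ∑ i ∈ range M, (-1 : ℚ) ^ (i + 1) / ((M : ℚ) - i) = (-1) ^ (M + 1) * Al M 1 := by
    rw [← sum_range_reflect, Al, mul_sum]
    refine sum_congr rfl fun i hi => ?_
    have hi' := mem_range.1 hi
    have e3 : (M : ℚ) - ((M - 1 - i : ℕ) : ℚ) = (i : ℚ) + 1 := by
      rw [Nat.cast_sub (by omega), Nat.cast_sub (by omega)]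
      push_cast
      ring
    have e4 : (-1 : ℚ) ^ (M - 1 - i + 1) = (-1) ^ (M + 1) * (-1) ^ (i + 1) := by
      rw [← pow_add]
      have : M + 1 + (i + 1) = (M - 1 - i + 1) + 2 * (i + 1) := by omega
      rw [this, pow_add _ (M - 1 - i + 1), pow_mul]
      norm_num
    rw [e3, e4, pow_one]
    ring
  rw [e1, ← sum_mul, e2]
  rw [sum_add_distrib, sum_add_distrib, sum_add_distrib, ← sum_mul, ← sum_mul, ← sum_mul, ← sum_mul]
  unfold Al
  ring

/-- exchange of the order of summation -/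
theorem exch1 (n : ℕ) (f : ℕ → ℚ) : ∑ M ∈ range n, ∑ i ∈ range M, f i / ((M : ℚ) - i) =
    ∑ i ∈ range n, f i * H (n - 1 - i) 1 := by
  induction n with
  | zero => simp
  | succ n ih =>
    rw [sum_range_succ, ih, sum_range_succ (fun i => f i * H (n + 1 - 1 - i) 1)]
    have e0 : n + 1 - 1 - n = 0 := by omega
    rw [e0, H_zero, mul_zero, add_zero, ← sum_add_distrib]
    refine sum_congr rfl fun i hi => ?_
    have hi' := mem_range.1 hi
    have e1 : n + 1 - 1 - i = (n - 1 - i) + 1 := by omega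
    rw [e1, H_succ]
    have e2 : ((n - 1 - i : ℕ) : ℚ) + 1 = (n : ℚ) - i := by
      rw [Nat.cast_sub (by omega), Nat.cast_sub (by omega)]
      push_cast
      ring
    rw [e2]
    ring

/-- exchange of the order of summation -/
theorem exch2 (n r : ℕ) (f : ℕ → ℚ) : ∑ M ∈ range n, (∑ i ∈ range M, f i) / ((M : ℚ) + 1) ^ r =
    ∑ i ∈ range n, f i * (H n r - H (i + 1) r) := by
  induction n with
  | zero => simp
  | succ n ih =>
    rw [sum_range_succ, ih, sum_range_succ (fun i => f i * (H (n + 1) r - H (i + 1) r)), sub_self,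
      mul_zero, add_zero, sum_div, ← sum_add_distrib]
    refine sum_congr rfl fun i hi => ?_
    rw [H_succ n r]
    ring

variable {p : ℕ} [hp : Fact p.Prime]

/-- reflection of a product of two inverse powers -/
theorem invp2 (r s : ℕ) {u v : ℚ} (hu : U p u) (hv : U p v) :
    I p 1 (1 / (((p : ℚ) - u) ^ r * ((p : ℚ) - v) ^ s) - (-1) ^ (r + s) * (1 / (u ^ r * v ^ s))) := by
  have h1 := invp r hu
  have h2 := invp s hv
  have k1 := h1.mulR (y := 1 / ((p : ℚ) - v) ^ s) (dmem (one_mem _) ((psub hv).pow s))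
  have k2 := h2.mulL (x := (-1) ^ r * (1 / u ^ r)) (mul_mem (pow_mem (neg_mem (one_mem _)) _)
    (dmem (one_mem _) (hu.pow r)))
  refine icg (k1.add k2) ?_
  rw [pow_add]
  have := (hu.pow r).1
  have := (hv.pow s).1
  have := ((psub hu).pow r).1
  have := ((psub hv).pow s).1
  field_simp
  ring

section rel

variable {y : ℕ} (hy : p = 2 * y + 1)
include hy

/-- `Y_r ≡ -½ Al 5` -/
theorem Y_I (h3 : 3 < p) (r s : ℕ) (hrs : r + s = 5) (hH : I p 1 (H (2 * y) s)) :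
    I p 1 (∑ M ∈ range (2 * y), Al M r / ((M : ℚ) + 1) ^ s + 1 / 2 * Al (2 * y) 5) := by
  have e1 := zz_mul (2 * y) (fun i => (-1) ^ (i + 1) / ((i : ℚ) + 1) ^ r)
    (fun i => 1 / ((i : ℚ) + 1) ^ s)
  obtain ⟨Y, hY⟩ : ∃ Y, Y = ∑ M ∈ range (2 * y), Al M r / ((M : ℚ) + 1) ^ s := ⟨_, rfl⟩
  obtain ⟨Z, hZ⟩ : ∃ Z, Z = ∑ M ∈ range (2 * y), H M s * ((-1) ^ (M + 1) / ((M : ℚ) + 1) ^ r) :=
    ⟨_, rfl⟩
  have e2 : Y + Z + Al (2 * y) 5 = Al (2 * y) r * H (2 * y) s := by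
    have a1 : ∑ m ∈ range (2 * y), (∑ i ∈ range m, (-1 : ℚ) ^ (i + 1) / ((i : ℚ) + 1) ^ r) *
        (1 / ((m : ℚ) + 1) ^ s) = Y := by
      rw [hY]
      refine sum_congr rfl fun m _ => ?_
      unfold Al
      ring
    have a2 : ∑ m ∈ range (2 * y), (-1 : ℚ) ^ (m + 1) / ((m : ℚ) + 1) ^ r *
        (1 / ((m : ℚ) + 1) ^ s) = Al (2 * y) 5 := by
      unfold Al
      refine sum_congr rfl fun m _ => ?_
      have e5 : ((m : ℚ) + 1) ^ 5 = ((m : ℚ) + 1) ^ r * ((m : ℚ) + 1) ^ s := by rw [← pow_add, hrs]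
      rw [e5]
      have : (m : ℚ) + 1 ≠ 0 := by positivity
      field_simp
    simp only at e1
    rw [a1, a2] at e1
    rw [hZ]
    exact e1
  have e3 : I p 1 (Y - Z) := by
    have b1 : Y = ∑ M ∈ range (2 * y), ∑ i ∈ range M,
        (-1 : ℚ) ^ (i + 1) * (1 / (((i : ℚ) + 1) ^ r * ((M : ℚ) + 1) ^ s)) := by
      rw [hY]
      refine sum_congr rfl fun M _ => ?_
      rw [Al, sum_div]
      refine sum_congr rfl fun i _ => ?_
      have : (M : ℚ) + 1 ≠ 0 := by positivity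
      have : (i : ℚ) + 1 ≠ 0 := by positivity
      field_simp
    have b2 : Z = ∑ M ∈ range (2 * y), ∑ i ∈ range M,
        (-1 : ℚ) ^ (M + 1) * (1 / (((M : ℚ) + 1) ^ r * ((i : ℚ) + 1) ^ s)) := by
      rw [hZ]
      refine sum_congr rfl fun M _ => ?_
      rw [H, sum_mul]
      refine sum_congr rfl fun i _ => ?_
      have : (M : ℚ) + 1 ≠ 0 := by positivity
      have : (i : ℚ) + 1 ≠ 0 := by positivity
      field_simp
    rw [b1, tri_refl (2 * y) (fun i M => (-1 : ℚ) ^ (i + 1) *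
      (1 / (((i : ℚ) + 1) ^ r * ((M : ℚ) + 1) ^ s))), b2, ← sum_sub_distrib]
    refine I.sum fun M hM => ?_
    rw [← sum_sub_distrib]
    refine I.sum fun i hi => ?_
    have hM' := mem_range.1 hM
    have hi' := mem_range.1 hi
    have hu := uSucc (p := p) (Nat.lt_succ_self i) (by omega)
    have hv := uSucc (p := p) (Nat.lt_succ_self M) (by omega)
    rw [crefl hy (by omega), crefl hy (by omega)]
    have s1 : (-1 : ℚ) ^ (2 * y - 1 - M + 1) = (-1) ^ M := by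
      have h1 : (-1 : ℚ) ^ (2 * y - 1 - M + 1) * (-1) ^ M = 1 := by
        rw [← pow_add]
        have : 2 * y - 1 - M + 1 + M = 2 * y := by omega
        rw [this, pow_mul]; norm_num
      linear_combination (-1) ^ M * h1 - (-1) ^ (2 * y - 1 - M + 1) * npm M
    rw [s1]
    have q := (invp2 r s hv hu).mulL (x := (-1) ^ M) (pow_mem (neg_mem (one_mem _)) _)
    refine icg q ?_
    rw [hrs, pow_succ]
    ring
  have k1 := hH.mulL (Al_mem (n := 2 * y) (by omega) r)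
  rw [← hY]
  have k2 := (k1.add e3).mulL (x := 1 / 2) (m23 h3 1 1 0 (by norm_num))
  refine icg k2 ?_
  linear_combination (-1 / 2 : ℚ) * e2

/-- `X_1 ≡ (5/2) Al 5` -/
theorem X1_I (h5 : 5 < p) : I p 1 (∑ M ∈ range (2 * y), Al M 1 * (-1) ^ (M + 1) / ((M : ℚ) + 1) ^ 4 -
    5 / 2 * Al (2 * y) 5) := by
  have h3 : 3 < p := by omega
  have y1 := Y_I hy h3 1 4 rfl (H4e hy h5)
  have y2 := Y_I hy h3 2 3 rfl (H3_I hy h3)
  have y3 := Y_I hy h3 3 2 rfl (H2_I hy h3)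
  have y4 := Y_I hy h3 4 1 rfl (H1_I hy h3)
  obtain ⟨X, hX⟩ : ∃ X, X = ∑ M ∈ range (2 * y), Al M 1 * (-1) ^ (M + 1) / ((M : ℚ) + 1) ^ 4 :=
    ⟨_, rfl⟩
  have hP : ∑ M ∈ range (2 * y), ∑ i ∈ range M, (-1) ^ (i + 1) / (((i : ℚ) + 1) ^ 4 *
      ((M : ℚ) - i)) = ∑ M ∈ range (2 * y), Al M 1 / ((M : ℚ) + 1) ^ 4 +
      ∑ M ∈ range (2 * y), Al M 2 / ((M : ℚ) + 1) ^ 3 +
      ∑ M ∈ range (2 * y), Al M 3 / ((M : ℚ) + 1) ^ 2 +
      ∑ M ∈ range (2 * y), Al M 4 / ((M : ℚ) + 1) ^ 1 + X := by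
    rw [hX, ← sum_add_distrib, ← sum_add_distrib, ← sum_add_distrib, ← sum_add_distrib]
    exact sum_congr rfl fun M _ => pfrac4 M
  have k1 : I p 1 (∑ M ∈ range (2 * y), ∑ i ∈ range M, (-1 : ℚ) ^ (i + 1) / (((i : ℚ) + 1) ^ 4 *
      ((M : ℚ) - i)) + ∑ M ∈ range (2 * y), Al M 4 / ((M : ℚ) + 1) ^ 1) := by
    have e1 : ∑ M ∈ range (2 * y), ∑ i ∈ range M, (-1 : ℚ) ^ (i + 1) / (((i : ℚ) + 1) ^ 4 *
        ((M : ℚ) - i)) = ∑ i ∈ range (2 * y), (-1) ^ (i + 1) / ((i : ℚ) + 1) ^ 4 *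
          H (2 * y - 1 - i) 1 := by
      rw [← exch1]
      refine sum_congr rfl fun M _ => sum_congr rfl fun i _ => ?_
      rw [div_div]
    have e2 : ∑ M ∈ range (2 * y), Al M 4 / ((M : ℚ) + 1) ^ 1 = ∑ i ∈ range (2 * y),
        (-1) ^ (i + 1) / ((i : ℚ) + 1) ^ 4 * (H (2 * y) 1 - H (i + 1) 1) := by
      rw [← exch2]
      rfl
    rw [e1, e2, ← sum_add_distrib]
    refine I.sum fun i hi => ?_
    have hi' := mem_range.1 hi
    have hu := uSucc (p := p) (Nat.lt_succ_self i) (by omega)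
    have k := H_refl hy (i + 1) (by omega) h3
    have e3 : 2 * y - (i + 1) = 2 * y - 1 - i := by omega
    rw [e3] at k
    have k2 := (k.add (H1_I hy h3)).mulL (x := (-1) ^ (i + 1) / ((i : ℚ) + 1) ^ 4)
      (dmem (pow_mem (neg_mem (one_mem _)) _) (hu.pow 4))
    exact icg k2 (by ring)
  rw [hP] at k1
  rw [← hX]
  exact icg ((((k1.sub y1).sub y2).sub y3).sub (y4.mulL (x := 2) (nm 2))) (by ring)

/-- `Al(2y-j) 4 ≡ Al j 4` -/
theorem Al4_refl (j : ℕ) (hj : j ≤ 2 * y) : I p 1 (Al (2 * y - j) 4 - Al j 4) := by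
  induction j with
  | zero =>
    rw [Al_zero]
    have := Al_two hy 4
    exact icg this (by norm_num)
  | succ j ih =>
    have ih := ih (by omega)
    have hu := uSucc (p := p) (Nat.lt_succ_self j) (by omega)
    have e1 : 2 * y - j = (2 * y - 1 - j) + 1 := by omega
    rw [e1, Al_succ, crefl hy (by omega)] at ih
    have e2 : 2 * y - (j + 1) = 2 * y - 1 - j := by omega
    rw [e2, Al_succ]
    have s1 : (-1 : ℚ) ^ (2 * y - 1 - j + 1) = (-1) ^ j := by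
      have h1 : (-1 : ℚ) ^ (2 * y - 1 - j + 1) * (-1) ^ j = 1 := by
        rw [← pow_add]
        have : 2 * y - 1 - j + 1 + j = 2 * y := by omega
        rw [this, pow_mul]; norm_num
      linear_combination (-1) ^ j * h1 - (-1) ^ (2 * y - 1 - j + 1) * npm j
    rw [s1] at ih
    have k := (invp 4 hu).mulL (x := (-1) ^ j) (pow_mem (neg_mem (one_mem _)) _)
    refine icg (ih.sub k) ?_
    rw [pow_succ (-1 : ℚ) j]
    ring

/-- the half sum -/
theorem h41_I (h5 : 5 < p) : I p 1 (∑ M ∈ range y, Al M 4 * (-1) ^ (M + 1) / ((M : ℚ) + 1) +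
    37 / 64 * H y 5) := by
  have h3 : 3 < p := by omega
  obtain ⟨g, hg⟩ : ∃ g, g = ∑ M ∈ range y, Al M 4 * (-1) ^ (M + 1) / ((M : ℚ) + 1) := ⟨_, rfl⟩
  obtain ⟨X, hX⟩ : ∃ X, X = ∑ M ∈ range (2 * y), Al M 4 * (-1) ^ (M + 1) / ((M : ℚ) + 1) :=
    ⟨_, rfl⟩
  have k1 : I p 1 (X - (2 * g + H y 5)) := by
    have e1 : X = g + ∑ i ∈ range y, Al (2 * y - (i + 1)) 4 * (-1) ^ i / ((p : ℚ) - ((i : ℚ) + 1)) := by
      rw [hX, hg, two_mul, sum_range_add]
      congr 1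
      rw [← sum_range_reflect]
      refine sum_congr rfl fun i hi => ?_
      have hi' := mem_range.1 hi
      have e1 : ((y + (y - 1 - i) : ℕ) : ℚ) + 1 = (p : ℚ) - ((i : ℚ) + 1) := by
        have : ((y + (y - 1 - i) : ℕ) : ℚ) + 1 + ((i : ℚ) + 1) = (p : ℚ) := by
          have h2 : y + (y - 1 - i) + 1 + (i + 1) = p := by omega
          exact_mod_cast h2
        linarith
      have e2 : (-1 : ℚ) ^ (y + (y - 1 - i) + 1) = (-1) ^ i := by
        have h1 : (-1 : ℚ) ^ (y + (y - 1 - i) + 1) * (-1) ^ i = 1 := by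
          rw [← pow_add]
          have : y + (y - 1 - i) + 1 + i = 2 * y := by omega
          rw [this, pow_mul]; norm_num
        linear_combination (-1) ^ i * h1 - (-1) ^ (y + (y - 1 - i) + 1) * npm i
      have e3 : y + (y - 1 - i) = y + y - (i + 1) := by omega
      rw [e1, e2, e3]
    have e2 : I p 1 (∑ i ∈ range y, Al (2 * y - (i + 1)) 4 * (-1) ^ i / ((p : ℚ) - ((i : ℚ) + 1)) -
        (g + H y 5)) := by
      refine Isum_sub (g := fun i => Al (i + 1) 4 * (-1) ^ (i + 1) / ((i : ℚ) + 1))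
        (fun i hi => ?_) rfl ?_
      · have hi' := mem_range.1 hi
        have hu := uSucc (p := p) (Nat.lt_succ_self i) (by omega)
        have a := (Al4_refl hy (i + 1) (by omega)).mulR (y := (-1) ^ i / ((p : ℚ) - ((i : ℚ) + 1)))
          (dmem (pow_mem (neg_mem (one_mem _)) _) (psub hu))
        have b := (invp 1 hu).mulL (x := Al (i + 1) 4 * (-1) ^ i)
          (mul_mem (Al_mem (by omega) 4) (pow_mem (neg_mem (one_mem _)) _))
        refine icg (a.add b) ?_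
        rw [pow_succ (-1 : ℚ) i]
        ring
      · rw [hg, H, ← sum_add_distrib]
        refine sum_congr rfl fun i _ => ?_
        rw [Al_succ]
        have h0 : (i : ℚ) + 1 ≠ 0 := by positivity
        have h1 := npm (i + 1)
        obtain ⟨s, hs⟩ : ∃ s, s = (-1 : ℚ) ^ (i + 1) := ⟨_, rfl⟩
        rw [← hs] at h1 ⊢
        field_simp
        linear_combination -h1
    rw [e1]
    exact icg e2 (by ring)
  have k2 : I p 1 (X + 5 / 2 * Al (2 * y) 5) := by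
    have e1 := zz_mul (2 * y) (fun i => (-1) ^ (i + 1) / ((i : ℚ) + 1) ^ 4)
      (fun i => (-1) ^ (i + 1) / ((i : ℚ) + 1) ^ 1)
    have a1 : ∑ m ∈ range (2 * y), (∑ i ∈ range m, (-1 : ℚ) ^ (i + 1) / ((i : ℚ) + 1) ^ 4) *
        ((-1) ^ (m + 1) / ((m : ℚ) + 1) ^ 1) = X := by
      rw [hX]
      refine sum_congr rfl fun m _ => ?_
      unfold Al
      ring
    have a2 : ∑ m ∈ range (2 * y), (∑ i ∈ range m, (-1 : ℚ) ^ (i + 1) / ((i : ℚ) + 1) ^ 1) *
        ((-1) ^ (m + 1) / ((m : ℚ) + 1) ^ 4) =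
        ∑ M ∈ range (2 * y), Al M 1 * (-1) ^ (M + 1) / ((M : ℚ) + 1) ^ 4 := by
      refine sum_congr rfl fun m _ => ?_
      unfold Al
      ring
    have a3 : ∑ m ∈ range (2 * y), (-1 : ℚ) ^ (m + 1) / ((m : ℚ) + 1) ^ 4 *
        ((-1) ^ (m + 1) / ((m : ℚ) + 1) ^ 1) = H (2 * y) 5 := by
      unfold H
      refine sum_congr rfl fun m _ => ?_
      have h1 := npm (m + 1)
      have h0 : (m : ℚ) + 1 ≠ 0 := by positivity
      obtain ⟨s, hs⟩ : ∃ s, s = (-1 : ℚ) ^ (m + 1) := ⟨_, rfl⟩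
      rw [← hs] at h1 ⊢
      field_simp
      linear_combination h1
    simp only at e1
    rw [a1, a2, a3] at e1
    have e2 : X + ∑ M ∈ range (2 * y), Al M 1 * (-1) ^ (M + 1) / ((M : ℚ) + 1) ^ 4 +
      H (2 * y) 5 = Al (2 * y) 4 * Al (2 * y) 1 := e1
    have b1 := (Al4_refl hy 0 (by omega)).mulR (Al_mem (n := 2 * y) (p := p) (by omega) 1)
    rw [Nat.sub_zero, Al_zero] at b1
    have b2 := X1_I hy h5
    have b3 := H5_I hy h3
    refine icg ((b1.sub b2).sub b3) ?_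
    linear_combination (-1 : ℚ) * e2
  have k3 := H5_I hy h3
  rw [Al_evenr] at k2
  rw [← hg]
  have k4 := ((k2.sub k1).add (k3.mulL (x := 5 / 2) (m23 h3 5 1 0 (by norm_num)))).mulL (x := 1 / 2)
    (m23 h3 1 1 0 (by norm_num))
  exact icg k4 (by ring)

/-- `V_2 ≡ -(5/512) h_5` -/
theorem V2_h5 (h5 : 5 < p) : I p 1 (∑ j ∈ range y, E2o j / (2 * (j : ℚ) + 1) +
    5 / 512 * H y 5) := by
  have h3 : 3 < p := by omega
  have k1 := V2_I hy h5
  have e1 : ∑ m ∈ range y, (-1) ^ m * (Oa (m + 1) 1 + Oa m 1) / (2 * (m : ℚ) + 1) ^ 4 =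
      2 * ∑ m ∈ range y, (-1) ^ m * Oa m 1 / (2 * (m : ℚ) + 1) ^ 4 + Od y 5 := by
    rw [Od, mul_sum, ← sum_add_distrib]
    refine sum_congr rfl fun m _ => ?_
    rw [Oa_succ]
    have h1 := npm m
    have h0 := odd_ne m
    obtain ⟨s, hs⟩ : ∃ s, s = (-1 : ℚ) ^ m := ⟨_, rfl⟩
    rw [← hs] at h1 ⊢
    field_simp
    linear_combination h1
  have k2 : I p 1 (∑ m ∈ range y, (-1) ^ m * Oa m 1 / (2 * (m : ℚ) + 1) ^ 4 -
      (-1 / 32) * ∑ M ∈ range y, Al M 4 * (-1) ^ (M + 1) / ((M : ℚ) + 1)) := by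
    have b1 : ∑ m ∈ range y, (-1) ^ m * Oa m 1 / (2 * (m : ℚ) + 1) ^ 4 =
        ∑ m ∈ range y, ∑ i ∈ range m, ((-1 : ℚ) ^ i * (-1) ^ m) *
          (1 / ((2 * (i : ℚ) + 1) ^ 1 * (2 * (m : ℚ) + 1) ^ 4)) := by
      refine sum_congr rfl fun m _ => ?_
      rw [Oa, mul_sum, sum_div]
      refine sum_congr rfl fun i _ => ?_
      have := odd_ne m
      have := odd_ne i
      field_simp
    have b2 : (-1 / 32) * ∑ M ∈ range y, Al M 4 * (-1) ^ (M + 1) / ((M : ℚ) + 1) =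
        ∑ m ∈ range y, ∑ i ∈ range m, ((-1 : ℚ) ^ (i + 1) * (-1) ^ (m + 1)) *
          ((-1) ^ (1 + 4) * (1 / ((2 * ((m : ℚ) + 1)) ^ 1 * (2 * ((i : ℚ) + 1)) ^ 4))) := by
      rw [mul_sum]
      refine sum_congr rfl fun m _ => ?_
      rw [Al, sum_mul, sum_div, mul_sum]
      refine sum_congr rfl fun i _ => ?_
      have : (m : ℚ) + 1 ≠ 0 := by positivity
      have : (i : ℚ) + 1 ≠ 0 := by positivity
      field_simp
      ring
    rw [b1, b2, tri_refl y (fun i m => ((-1 : ℚ) ^ i * (-1) ^ m) *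
          (1 / ((2 * (i : ℚ) + 1) ^ 1 * (2 * (m : ℚ) + 1) ^ 4))), ← sum_sub_distrib]
    refine I.sum fun m hm => ?_
    rw [← sum_sub_distrib]
    refine I.sum fun i hi => ?_
    have hm' := mem_range.1 hm
    have hi' := mem_range.1 hi
    have hu := u2i hy (i := i) (by omega)
    have hv := u2i hy hm'
    rw [orefl hy hm', orefl hy (i := i) (by omega), srefl hm', srefl (y := y) (i := i) (by omega)]
    have q := (invp2 1 4 hv hu).mulL (x := (-1) ^ (i + 1) * (-1) ^ (m + 1))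
      (mul_mem (pow_mem (neg_mem (one_mem _)) _) (pow_mem (neg_mem (one_mem _)) _))
    refine icg q ?_
    have h1 := npm y
    linear_combination (-((-1) ^ (i + 1) * (-1) ^ (m + 1) * (1 / (((p : ℚ) - 2 * ((m : ℚ) + 1)) ^ 1 *
      ((p : ℚ) - 2 * ((i : ℚ) + 1)) ^ 4)))) * h1
  rw [e1, Od_eq hy] at k1
  have k3 := (h41_I hy h5).mulL (x := 1 / 8) (m23 h3 1 3 0 (by norm_num))
  have k4 := (H5_I hy h3).mulL (x := 2) (nm 2)
  have k5 := k2.mulL (x := 4) (nm 4)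
  exact icg (((k1.sub k5).add k3).sub k4) (by ring)

end rel

end Pool.Agent.H547
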