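import Pool.Agent.H547.AcE

set_option autoImplicit false
set_option linter.unusedSectionVars false

/-!
Tripling, and the constant `g_2`.
-/

namespace Pool.Agent.H547

open Finset Pool.Agent.R439.PL

/-- multiplication by `3` on the odd numbers below `p`, up to sign -/
def tr (y n : ℕ) : ℕ := if 3 * n + 1 < y then 3 * n + 1 else
  if 3 * n + 1 ≤ 2 * y then 2 * y - 3 * n - 1 else 3 * n - 2 * y

theorem tr_sum {y : ℕ} (hy : y % 3 ≠ 1) (F : ℕ → ℚ) :
    ∑ n ∈ range y, F (tr y n) = ∑ m ∈ range y, F m := by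
  have hinj : Set.InjOn (tr y) (range y : Set ℕ) := by
    intro a ha b hb hab
    rw [mem_coe, mem_range] at ha hb
    unfold tr at hab
    split_ifs at hab <;> omega
  have himg : image (tr y) (range y) = range y := by
    apply eq_of_subset_of_card_le
    · intro x hx
      rw [mem_image] at hx
      obtain ⟨n, hn, rfl⟩ := hx
      rw [mem_range] at hn ⊢
      unfold tr
      split_ifs <;> omega
    · rw [card_image_of_injOn hinj]
  conv_rhs => rw [← himg, sum_image hinj]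

theorem third_sum {y : ℕ} (G : ℕ → ℚ) :
    ∑ m ∈ range y, (if m % 3 = 1 then G m else 0) =
    ∑ n ∈ range y, (if 3 * n + 1 < y then G (3 * n + 1) else 0) := by
  rw [← sum_filter, ← sum_filter]
  refine sum_bij' (fun m _ => m / 3) (fun n _ => 3 * n + 1) ?_ ?_ ?_ ?_ ?_
  · intro m hm
    rw [mem_filter, mem_range] at hm ⊢
    omega
  · intro n hn
    rw [mem_filter, mem_range] at hn ⊢
    omega
  · intro m hm
    rw [mem_filter, mem_range] at hm
    omega
  · intro n hn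
    rw [mem_filter, mem_range] at hn
    omega
  · intro m hm
    rw [mem_filter, mem_range] at hm
    congr 1
    omega

variable {p : ℕ} [hp : Fact p.Prime]

section rel

variable {y : ℕ} (hy : p = 2 * y + 1)
include hy

theorem y_mod (h3 : 3 < p) : y % 3 ≠ 1 := by
  intro h
  have : 3 ∣ p := by omega
  have := (Nat.prime_dvd_prime_iff_eq Nat.prime_three hp.out).1 this
  omega

theorem trip_I (h3 : 3 < p) : I p 1 (3 ^ 5 * Oa y 5 - (Oa y 5 -
    2 * ∑ n ∈ range y, (if 3 * n + 1 < y then (-1) ^ n / (2 * (n : ℚ) + 1) ^ 5 else 0))) := by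
  have e1 := tr_sum (y_mod hy h3) (fun m => (-1 : ℚ) ^ m / (2 * (m : ℚ) + 1) ^ 5)
  have e2 : ∑ n ∈ range y, (-1 : ℚ) ^ tr y n / (2 * (tr y n : ℚ) + 1) ^ 5 = Oa y 5 := e1
  refine Isum_sub (n := y) (f := fun n => 3 ^ 5 * ((-1 : ℚ) ^ tr y n / (2 * (tr y n : ℚ) + 1) ^ 5))
    (g := fun n => (-1 : ℚ) ^ n / (2 * (n : ℚ) + 1) ^ 5 -
      2 * (if 3 * n + 1 < y then (-1) ^ n / (2 * (n : ℚ) + 1) ^ 5 else 0)) (fun n hn => ?_) ?_ ?_
  · have hn' := mem_range.1 hn
    have hy3 := y_mod hy h3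
    have hu := uOdd hy hn'
    have h3u : U p (3 : ℚ) := u3 h3
    have hpq : (p : ℚ) = 2 * y + 1 := by rw [hy]; push_cast; ring
    by_cases h1 : 3 * n + 1 < y
    · have e : tr y n = 3 * n + 1 := by unfold tr; rw [if_pos h1]
      rw [e, if_pos h1]
      have s1 : (-1 : ℚ) ^ (3 * n + 1) = -(-1) ^ n := by
        rw [pow_succ, pow_mul]; norm_num
      rw [s1]
      have h0 := odd_ne n
      have e3 : 2 * ((3 * n + 1 : ℕ) : ℚ) + 1 = 3 * (2 * (n : ℚ) + 1) := by push_cast; ring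
      rw [e3]
      refine icg I.zero ?_
      field_simp
      ring
    · by_cases h2 : 3 * n + 1 ≤ 2 * y
      · have e : tr y n = 2 * y - 3 * n - 1 := by unfold tr; rw [if_neg h1, if_pos h2]
        rw [e, if_neg h1]
        have s1 : (-1 : ℚ) ^ (2 * y - 3 * n - 1) = -(-1) ^ n := by
          have h5 : (-1 : ℚ) ^ (2 * y - 3 * n - 1) * (-1) ^ (3 * n + 1) = 1 := by
            rw [← pow_add]
            have : 2 * y - 3 * n - 1 + (3 * n + 1) = 2 * y := by omega
            rw [this, pow_mul]; norm_num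
          have s2 : (-1 : ℚ) ^ (3 * n + 1) = -(-1) ^ n := by
            rw [pow_succ, pow_mul]; norm_num
          rw [s2] at h5
          linear_combination (-(-1) ^ n) * h5 - (-1) ^ (2 * y - 3 * n - 1) * npm n
        rw [s1]
        have e3 : 2 * ((2 * y - 3 * n - 1 : ℕ) : ℚ) + 1 = (p : ℚ) - (3 * (2 * (n : ℚ) + 1) - p) := by
          have : 2 * (2 * y - 3 * n - 1) + 1 + 3 * (2 * n + 1) = 2 * p := by omega
          have h6 : ((2 * (2 * y - 3 * n - 1) + 1 + 3 * (2 * n + 1) : ℕ) : ℚ) = ((2 * p : ℕ) : ℚ) := by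
            rw [this]
          push_cast at h6
          linear_combination h6
        have hw : U p (3 * (2 * (n : ℚ) + 1) - p) := by
          have := psub (h3u.mul hu)
          have k : U p (-1 : ℚ) := ⟨by norm_num, neg_mem (one_mem _), by norm_num⟩
          have k2 := this.mul k
          have e : ((p : ℚ) - 3 * (2 * (n : ℚ) + 1)) * -1 = 3 * (2 * (n : ℚ) + 1) - p := by ring
          rwa [e] at k2
        rw [e3]
        have a1 := invp 5 hw
        have a2 := invp 5 (h3u.mul hu)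
        have e4 : (1 : ℚ) / (3 * (2 * (n : ℚ) + 1) - p) ^ 5 =
            -(1 / ((p : ℚ) - 3 * (2 * (n : ℚ) + 1)) ^ 5) := by
          have e5 : 3 * (2 * (n : ℚ) + 1) - (p : ℚ) = -((p : ℚ) - 3 * (2 * (n : ℚ) + 1)) := by ring
          rw [e5, Odd.neg_pow (by decide), div_neg]
        rw [e4] at a1
        have a3 := (a1.add a2).mulL (x := 3 ^ 5 * -(-1) ^ n) (mul_mem (pow_mem (nm 3) 5)
          (neg_mem (pow_mem (neg_mem (one_mem _)) _)))
        refine icg a3 ?_
        have h0 := odd_ne n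
        obtain ⟨w, hw'⟩ : ∃ w, w = 1 / ((p : ℚ) - (3 * (2 * (n : ℚ) + 1) - p)) ^ 5 := ⟨_, rfl⟩
        obtain ⟨w', hw''⟩ : ∃ w', w' = 1 / ((p : ℚ) - 3 * (2 * (n : ℚ) + 1)) ^ 5 := ⟨_, rfl⟩
        have e6 : 3 ^ 5 * (-(-1 : ℚ) ^ n / ((p : ℚ) - (3 * (2 * (n : ℚ) + 1) - p)) ^ 5) =
            3 ^ 5 * -(-1) ^ n * w := by rw [hw']; ring
        rw [e6, ← hw', ← hw'']
        field_simp
        ring
      · have e : tr y n = 3 * n - 2 * y := by unfold tr; rw [if_neg h1, if_neg h2]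
        rw [e, if_neg h1]
        have s1 : (-1 : ℚ) ^ (3 * n - 2 * y) = (-1) ^ n := by
          have h5 : (-1 : ℚ) ^ (3 * n - 2 * y) * (-1) ^ (2 * y) = (-1) ^ (3 * n) := by
            rw [← pow_add]
            have : 3 * n - 2 * y + 2 * y = 3 * n := by omega
            rw [this]
          rw [pow_mul, pow_mul] at h5
          norm_num at h5
          exact h5
        rw [s1]
        have hm : 3 * n - 2 * y < y := by omega
        have e3 : 2 * ((3 * n - 2 * y : ℕ) : ℚ) + 1 = 3 * (2 * (n : ℚ) + 1) - 2 * p := by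
          have : 2 * (3 * n - 2 * y) + 1 + 2 * p = 3 * (2 * n + 1) := by omega
          have h6 : ((2 * (3 * n - 2 * y) + 1 + 2 * p : ℕ) : ℚ) = ((3 * (2 * n + 1) : ℕ) : ℚ) := by
            rw [this]
          push_cast at h6
          linear_combination h6
        have hv := uOdd hy hm
        have hw := h3u.mul hu
        have q : EQ p 1 (2 * ((3 * n - 2 * y : ℕ) : ℚ) + 1) (3 * (2 * (n : ℚ) + 1)) :=
          ⟨hv.2.1, hw.2.1, icg ((I_p (p := p)).mulL (x := -2) (neg_mem (nm 2))) (by rw [e3]; ring)⟩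
        have q2 := ((q.inv one_pos hv).pow 5).2.2
        have q3 := q2.mulL (x := 3 ^ 5 * (-1) ^ n) (mul_mem (pow_mem (nm 3) 5)
          (pow_mem (neg_mem (one_mem _)) _))
        refine icg q3 ?_
        have h0 := odd_ne n
        have hv0 := hv.1
        obtain ⟨w, hw'⟩ : ∃ w, w = 2 * ((3 * n - 2 * y : ℕ) : ℚ) + 1 := ⟨_, rfl⟩
        rw [← hw'] at hv0 ⊢
        field_simp
        ring
  · rw [← mul_sum, e2]
  · rw [sum_sub_distrib, ← mul_sum]
    rfl

theorem g2_h5 (h5 : 5 < p) : I p 1 ((-1) ^ y * ∑ j ∈ range y, aa j * E2o j + 5 / 5184 * H y 5) := by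
  have h3 : 3 < p := by omega
  obtain ⟨B, hB⟩ : ∃ B, B = ∑ n ∈ range y, (if 3 * n + 1 < y then
    (-1 : ℚ) ^ n / (2 * (n : ℚ) + 1) ^ 5 else 0) := ⟨_, rfl⟩
  have k1 := trip_I hy h3
  rw [← hB] at k1
  have k2 := g2_I hy h5
  have e1 : ∑ m ∈ range y, ss m / (2 * (m : ℚ) + 1) ^ 5 = Oa y 5 + 1 / 81 * B := by
    have e2 : ∑ m ∈ range y, ss m / (2 * (m : ℚ) + 1) ^ 5 = Oa y 5 -
        3 * ∑ m ∈ range y, (if m % 3 = 1 then (-1 : ℚ) ^ m / (2 * (m : ℚ) + 1) ^ 5 else 0) := by
      rw [Oa, mul_sum, ← sum_sub_distrib]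
      refine sum_congr rfl fun m _ => ?_
      unfold ss
      split_ifs <;> ring
    rw [e2, third_sum, hB, mul_sum, mul_sum, sub_eq_add_neg, ← sum_neg_distrib]
    congr 1
    refine sum_congr rfl fun n _ => ?_
    have h0 := odd_ne n
    split_ifs
    · have e3 : 2 * ((3 * n + 1 : ℕ) : ℚ) + 1 = 3 * (2 * (n : ℚ) + 1) := by push_cast; ring
      have s1 : (-1 : ℚ) ^ (3 * n + 1) = -(-1) ^ n := by
        rw [pow_succ, pow_mul]; norm_num
      rw [e3, s1]
      field_simp
      ring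
    · ring
  rw [e1] at k2
  have k3 := k1.mulL (x := 1 / 81) (m23 h3 1 0 4 (by norm_num))
  have k4 := (k2.sub k3).mulL (x := (-1) ^ y) (pow_mem (neg_mem (one_mem _)) _)
  have k5 := (A5_I hy h5).mulL (x := 80 / 81) (m23 h3 80 0 4 (by norm_num))
  exact icg (k4.add k5) (by ring)

end rel

end Pool.Agent.H547
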