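import Pool.Agent.H547.AcF

set_option autoImplicit false
set_option linter.unusedSectionVars false

/-!
The first three congruences.
-/

namespace Pool.Agent.H547

open Finset Pool.Agent.R439.PL

/-- symmetric exchange -/
theorem tri_swap (n : ℕ) (f : ℕ → ℕ → ℚ) : ∑ j ∈ range n, ∑ i ∈ range (n - 1 - j), f j i =
    ∑ i ∈ range n, ∑ j ∈ range (n - 1 - i), f j i := by
  rw [sum_sigma', sum_sigma']
  refine sum_bij' (fun x _ => ⟨x.2, x.1⟩) (fun x _ => ⟨x.2, x.1⟩) ?_ ?_ ?_ ?_ ?_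
  · rintro ⟨m, i⟩ h
    simp only [mem_sigma, mem_range] at h ⊢
    omega
  · rintro ⟨m, i⟩ h
    simp only [mem_sigma, mem_range] at h ⊢
    omega
  · rintro ⟨m, i⟩ h
    rfl
  · rintro ⟨m, i⟩ h
    rfl
  · rintro ⟨m, i⟩ h
    rfl

theorem H_add (a n : ℕ) : H (a + n) 1 = H a 1 + ∑ i ∈ range n, 1 / ((a : ℚ) + i + 1) := by
  induction n with
  | zero => simp
  | succ n ih =>
    rw [← add_assoc, H_succ, ih, sum_range_succ]
    push_cast
    ring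

/-- `∑_j H_{n-j}/j` -/
theorem C_eq (n : ℕ) : ∑ j ∈ range n, H (n - 1 - j) 1 / ((j : ℚ) + 1) = H n 1 ^ 2 - H n 2 := by
  induction n with
  | zero => simp [H]
  | succ n ih =>
    have h0 : (n : ℚ) + 1 ≠ 0 := by positivity
    rw [sum_range_succ]
    have e0 : n + 1 - 1 - n = 0 := by omega
    rw [e0, H_zero, zero_div, add_zero]
    have e1 : ∑ j ∈ range n, H (n + 1 - 1 - j) 1 / ((j : ℚ) + 1) =
        ∑ j ∈ range n, H (n - 1 - j) 1 / ((j : ℚ) + 1) +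
        1 / ((n : ℚ) + 1) * (∑ j ∈ range n, 1 / ((j : ℚ) + 1) ^ 1 + ∑ j ∈ range n, 1 / ((n : ℚ) - j)) := by
      rw [← sum_add_distrib, mul_sum, ← sum_add_distrib]
      refine sum_congr rfl fun j hj => ?_
      have hj' := mem_range.1 hj
      have e2 : n + 1 - 1 - j = (n - 1 - j) + 1 := by omega
      have e3 : ((n - 1 - j : ℕ) : ℚ) + 1 = (n : ℚ) - j := by
        rw [Nat.cast_sub (by omega), Nat.cast_sub (by omega)]
        push_cast
        ring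
      rw [e2, H_succ, e3]
      obtain ⟨t, ht⟩ : ∃ t : ℚ, t = (n : ℚ) - j := ⟨_, rfl⟩
      have ht0 : t ≠ 0 := by
        rw [ht, sub_ne_zero]
        intro h
        have : n = j := by exact_mod_cast h
        omega
      have hM : (n : ℚ) = t + j := by rw [ht]; ring
      have hi0 : (j : ℚ) + 1 ≠ 0 := by positivity
      rw [← ht]
      rw [hM] at h0 ⊢
      field_simp
      ring
    have e4 : ∑ j ∈ range n, (1 : ℚ) / ((n : ℚ) - j) = H n 1 := by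
      rw [H, ← sum_range_reflect]
      refine sum_congr rfl fun j hj => ?_
      have hj' := mem_range.1 hj
      have e3 : (n : ℚ) - ((n - 1 - j : ℕ) : ℚ) = (j : ℚ) + 1 := by
        rw [Nat.cast_sub (by omega), Nat.cast_sub (by omega)]
        push_cast
        ring
      rw [e3, pow_one]
    have e5 : ∑ j ∈ range n, (1 : ℚ) / ((j : ℚ) + 1) ^ 1 = H n 1 := rfl
    rw [e1, e4, e5, ih, H_succ, H_succ]
    field_simp
    ring

variable {p : ℕ} [hp : Fact p.Prime]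

section rel

variable {y : ℕ} (hy : p = 2 * y + 1)
include hy

omit hp in
theorem hrefl {i : ℕ} (hi : i < y) : (y : ℚ) + ((y - 1 - i : ℕ) : ℚ) + 1 = (p : ℚ) - ((i : ℚ) + 1) := by
  have h2 : y + (y - 1 - i) + 1 + (i + 1) = p := by omega
  have : ((y + (y - 1 - i) + 1 + (i + 1) : ℕ) : ℚ) = (p : ℚ) := by rw [h2]
  push_cast at this
  linear_combination this

omit hp in
/-- `J` -/
theorem J_eq : 2 * ∑ m ∈ range y, H m 1 / ((p : ℚ) - ((m : ℚ) + 1)) =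
    H (2 * y) 1 ^ 2 - H (2 * y) 2 - H y 1 ^ 2 := by
  have h := C_eq (2 * y)
  rw [two_mul, sum_range_add] at h
  obtain ⟨J, hJ⟩ : ∃ J, J = ∑ m ∈ range y, H m 1 / ((p : ℚ) - ((m : ℚ) + 1)) := ⟨_, rfl⟩
  have e1 : ∑ i ∈ range y, H (y + y - 1 - (y + i)) 1 / (((y + i : ℕ) : ℚ) + 1) = J := by
    rw [hJ, ← sum_range_reflect]
    refine sum_congr rfl fun i hi => ?_
    have hi' := mem_range.1 hi
    have e2 : y + y - 1 - (y + (y - 1 - i)) = i := by omega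
    rw [e2]
    push_cast
    rw [hrefl hy hi']
  have e2 : ∑ j ∈ range y, H (y + y - 1 - j) 1 / ((j : ℚ) + 1) = H y 1 ^ 2 + J := by
    have a1 : ∀ j ∈ range y, H (y + y - 1 - j) 1 / ((j : ℚ) + 1) = H y 1 * (1 / ((j : ℚ) + 1) ^ 1) +
        ∑ i ∈ range (y - 1 - j), 1 / ((j : ℚ) + 1) * (1 / ((y : ℚ) + i + 1)) := by
      intro j hj
      have hj' := mem_range.1 hj
      have e3 : y + y - 1 - j = y + (y - 1 - j) := by omega
      rw [e3, H_add, ← mul_sum]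
      ring
    rw [sum_congr rfl a1, sum_add_distrib, ← mul_sum, tri_swap]
    have a2 : ∑ j ∈ range y, (1 : ℚ) / ((j : ℚ) + 1) ^ 1 = H y 1 := rfl
    rw [a2, sq]
    congr 1
    rw [hJ, ← sum_range_reflect]
    refine sum_congr rfl fun i hi => ?_
    have hi' := mem_range.1 hi
    have e2 : y - 1 - (y - 1 - i) = i := by omega
    rw [e2, hrefl hy hi', ← sum_mul, H]
    simp only [pow_one]
    ring
  rw [e1, e2, ← two_mul] at h
  rw [← hJ]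
  linear_combination h

/-- the double sum `W` -/
def _root_.Pool.Agent.H547.Wd (p : ℚ) (y : ℕ) : ℚ :=
  ∑ k ∈ range y, (∑ i ∈ range k, 1 / ((2 * (i : ℚ) + 1) ^ 2 - p ^ 2)) * (1 / (2 * (k : ℚ) + 1 - p))

theorem W_eq : 16 * p * Wd p y = H (2 * y) 1 ^ 2 - H (2 * y) 2 - H y 2 := by
  have e1 : Wd p y = ∑ k ∈ range y, ∑ i ∈ range k,
      1 / ((2 * (i : ℚ) + 1) ^ 2 - p ^ 2) * (1 / (2 * (k : ℚ) + 1 - p)) := by
    unfold Wd
    exact sum_congr rfl fun k _ => by rw [sum_mul]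
  rw [tri_refl y (fun i k => 1 / ((2 * (i : ℚ) + 1) ^ 2 - p ^ 2) * (1 / (2 * (k : ℚ) + 1 - p)))] at e1
  have e2 : 8 * p * Wd p y = ∑ m ∈ range y, (∑ i ∈ range m, 1 / ((i : ℚ) + 1)) * (1 / ((m : ℚ) + 1)) +
      ∑ m ∈ range y, H m 1 / ((p : ℚ) - ((m : ℚ) + 1)) := by
    rw [e1, mul_sum, ← sum_add_distrib]
    refine sum_congr rfl fun m hm => ?_
    have hm' := mem_range.1 hm
    have hu := uSucc (p := p) hm' (by omega)
    have hv := (psub hu).1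
    have hu0 := hu.1
    have e4 : H m 1 = ∑ i ∈ range m, 1 / ((i : ℚ) + 1) := by
      unfold H; simp only [pow_one]
    rw [e4, sum_mul, sum_div, mul_sum, ← sum_add_distrib]
    refine sum_congr rfl fun i hi => ?_
    have hi' := mem_range.1 hi
    have hw0 : (i : ℚ) + 1 ≠ 0 := by positivity
    rw [orefl hy hm', orefl hy (i := i) (by omega)]
    have e5 : ((p : ℚ) - 2 * ((m : ℚ) + 1)) ^ 2 - (p : ℚ) ^ 2 =
      -4 * ((m : ℚ) + 1) * ((p : ℚ) - ((m : ℚ) + 1)) := by ring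
    have e6 : (p : ℚ) - 2 * ((i : ℚ) + 1) - p = -2 * ((i : ℚ) + 1) := by ring
    rw [e5, e6]
    obtain ⟨w, hw⟩ : ∃ w : ℚ, w = (p : ℚ) - ((m : ℚ) + 1) := ⟨_, rfl⟩
    have hpw : (p : ℚ) = w + ((m : ℚ) + 1) := by rw [hw]; ring
    rw [← hw] at hv ⊢
    rw [hpw]
    field_simp
    ring
  have e3 := tri_sq y (fun m => 1 / ((m : ℚ) + 1))
  have e4 : ∑ m ∈ range y, (1 / ((m : ℚ) + 1)) = H y 1 := by
    unfold H; simp only [pow_one]
  have e5 : ∑ m ∈ range y, (1 / ((m : ℚ) + 1)) ^ 2 = H y 2 := by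
    unfold H
    refine sum_congr rfl fun m _ => ?_
    rw [div_pow, one_pow]
  simp only at e3
  rw [e4, e5] at e3
  have e6 := J_eq hy
  linear_combination 2 * e2 + e3 + e6

/-- `AA` -/
theorem AA_eq : ∑ n ∈ range y, (-1) ^ n * ((2 * (n : ℚ) + 1) / ((2 * (n : ℚ) + 1) ^ 2 - p ^ 2)) =
    -((-1) ^ y / 4 * Al (2 * y) 1) := by
  rw [Al_split hy, Al, ← sum_add_distrib, mul_sum, ← sum_neg_distrib, ← sum_range_reflect]
  refine sum_congr rfl fun i hi => ?_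
  have hi' := mem_range.1 hi
  have hu := uSucc (p := p) hi' (by omega)
  have hv := (psub hu).1
  have hu0 := hu.1
  rw [orefl hy hi', srefl hi']
  have e5 : ((p : ℚ) - 2 * ((i : ℚ) + 1)) ^ 2 - (p : ℚ) ^ 2 =
    -4 * ((i : ℚ) + 1) * ((p : ℚ) - ((i : ℚ) + 1)) := by ring
  rw [e5, pow_succ (-1 : ℚ) i]
  obtain ⟨w, hw⟩ : ∃ w : ℚ, w = (p : ℚ) - ((i : ℚ) + 1) := ⟨_, rfl⟩
  have hpw : (p : ℚ) = w + ((i : ℚ) + 1) := by rw [hw]; ring
  rw [← hw] at hv ⊢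
  rw [hpw]
  field_simp
  ring

/-- `BB` -/
theorem BB_eq : ∑ n ∈ range y, (-1) ^ n * (((2 * (n : ℚ) + 1) ^ 3 + 3 * p ^ 2 * (2 * (n : ℚ) + 1)) /
    ((2 * (n : ℚ) + 1) ^ 2 - p ^ 2) ^ 3) = -((-1) ^ y / 16 * Al (2 * y) 3) := by
  rw [Al_split hy, Al, ← sum_add_distrib, mul_sum, ← sum_neg_distrib, ← sum_range_reflect]
  refine sum_congr rfl fun i hi => ?_
  have hi' := mem_range.1 hi
  have hu := uSucc (p := p) hi' (by omega)
  have hv := (psub hu).1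
  have hu0 := hu.1
  rw [orefl hy hi', srefl hi']
  have e5 : ((p : ℚ) - 2 * ((i : ℚ) + 1)) ^ 2 - (p : ℚ) ^ 2 =
    -4 * ((i : ℚ) + 1) * ((p : ℚ) - ((i : ℚ) + 1)) := by ring
  rw [e5, pow_succ (-1 : ℚ) i]
  obtain ⟨w, hw⟩ : ∃ w : ℚ, w = (p : ℚ) - ((i : ℚ) + 1) := ⟨_, rfl⟩
  have hpw : (p : ℚ) = w + ((i : ℚ) + 1) := by rw [hw]; ring
  rw [← hw] at hv ⊢
  rw [hpw]
  field_simp
  ring

/-- `2m+1 - p` is a unit -/
theorem uSubp {k : ℕ} (hk : k < y) : U p (2 * (k : ℚ) + 1 - p) := by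
  have h := psub (uOdd hy hk)
  have hm : U p (-1 : ℚ) := ⟨by norm_num, neg_mem (one_mem _), by norm_num⟩
  have k2 := h.mul hm
  have e : ((p : ℚ) - (2 * (k : ℚ) + 1)) * -1 = 2 * (k : ℚ) + 1 - p := by ring
  rwa [e] at k2

/-- `(2m+1)^2 - p^2` is a unit -/
theorem uSq {k : ℕ} (hk : k < y) : U p ((2 * (k : ℚ) + 1) ^ 2 - p ^ 2) := by
  have h1 := uSubp hy hk
  have h2 : U p (2 * (k : ℚ) + 1 + p) := by
    have := uNat (p := p) (k := 2 * k + 1) (by omega) (by omega)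
    apply U_of_not_I (add_mem (uOdd hy hk).2.1 p_mem)
    intro h
    have k2 := h.sub (I_p (p := p))
    exact (uOdd hy hk).not_I one_pos (icg k2 (by ring))
  have h3 := h1.mul h2
  have e : (2 * (k : ℚ) + 1 - p) * (2 * (k : ℚ) + 1 + p) = (2 * (k : ℚ) + 1) ^ 2 - p ^ 2 := by ring
  rwa [e] at h3

theorem A1_I : I p 5 (Oa y 1 - (-((-1) ^ y / 4 * Al (2 * y) 1) - p ^ 2 * Oa y 3 - p ^ 4 * Oa y 5)) := by
  rw [← AA_eq hy]
  refine Isum_sub (n := y) (f := fun n => (-1) ^ n / (2 * (n : ℚ) + 1) ^ 1)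
    (g := fun n => (-1) ^ n * ((2 * (n : ℚ) + 1) / ((2 * (n : ℚ) + 1) ^ 2 - p ^ 2)) -
      p ^ 2 * ((-1) ^ n / (2 * (n : ℚ) + 1) ^ 3) - p ^ 4 * ((-1) ^ n / (2 * (n : ℚ) + 1) ^ 5))
    (fun n hn => ?_) rfl ?_
  · have hn' := mem_range.1 hn
    have hu := uOdd hy hn'
    have hv := uSq hy hn'
    refine ⟨-p * (-1) ^ n / ((2 * (n : ℚ) + 1) ^ 5 * ((2 * (n : ℚ) + 1) ^ 2 - p ^ 2)), dmem
      (mul_mem (neg_mem p_mem) (pow_mem (neg_mem (one_mem _)) _)) ((hu.pow 5).mul hv), ?_⟩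
    have hu0 := hu.1
    have hv0 := hv.1
    field_simp
    ring
  · rw [sum_sub_distrib, sum_sub_distrib, ← mul_sum, ← mul_sum]
    rfl

theorem A3_I' : I p 3 (Oa y 3 - (-((-1) ^ y / 16 * Al (2 * y) 3) - 6 * p ^ 2 * Oa y 5)) := by
  rw [← BB_eq hy]
  refine Isum_sub (n := y) (f := fun n => (-1) ^ n / (2 * (n : ℚ) + 1) ^ 3)
    (g := fun n => (-1) ^ n * (((2 * (n : ℚ) + 1) ^ 3 + 3 * p ^ 2 * (2 * (n : ℚ) + 1)) /
      ((2 * (n : ℚ) + 1) ^ 2 - p ^ 2) ^ 3) - 6 * p ^ 2 * ((-1) ^ n / (2 * (n : ℚ) + 1) ^ 5))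
    (fun n hn => ?_) rfl ?_
  · have hn' := mem_range.1 hn
    have hu := uOdd hy hn'
    have hv := uSq hy hn'
    refine ⟨-p * (-1) ^ n * (15 * (2 * (n : ℚ) + 1) ^ 4 - 17 * (2 * (n : ℚ) + 1) ^ 2 * p ^ 2 +
      6 * p ^ 4) / ((2 * (n : ℚ) + 1) ^ 5 * ((2 * (n : ℚ) + 1) ^ 2 - p ^ 2) ^ 3), dmem
      (mul_mem (mul_mem (neg_mem p_mem) (pow_mem (neg_mem (one_mem _)) _)) (add_mem (sub_mem
        (mul_mem (nm 15) (pow_mem hu.2.1 4)) (mul_mem (mul_mem (nm 17) (pow_mem hu.2.1 2))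
        (pow_mem p_mem 2))) (mul_mem (nm 6) (pow_mem p_mem 4)))) ((hu.pow 5).mul (hv.pow 3)), ?_⟩
    have hu0 := hu.1
    have hv0 := hv.1
    field_simp
    ring
  · rw [sum_sub_distrib, ← mul_sum]
    rfl

/-- `PP p k` is a unit -/
theorem uPP {k : ℕ} (hk : k ≤ y) : U p (PP p k) := by
  unfold PP
  refine U.prod fun i hi => ?_
  have hi' := mem_range.1 hi
  have hu := uOdd hy (m := i) (by omega)
  have hv := uSq hy (k := i) (by omega)
  have e : 1 - (p : ℚ) ^ 2 / (2 * (i : ℚ) + 1) ^ 2 = ((2 * (i : ℚ) + 1) ^ 2 - p ^ 2) /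
    (2 * (i : ℚ) + 1) ^ 2 := by
    have := hu.1
    field_simp
  rw [e]
  exact hv.div (hu.pow 2)

/-- `∑_{i<k} 1/((2i+1)² - p²)` -/
def _root_.Pool.Agent.H547.w1 (p : ℚ) (k : ℕ) : ℚ := ∑ i ∈ range k, 1 / ((2 * (i : ℚ) + 1) ^ 2 - p ^ 2)

omit hy hp in
theorem w1_succ (p : ℚ) (k : ℕ) : w1 p (k + 1) = w1 p k + 1 / ((2 * (k : ℚ) + 1) ^ 2 - p ^ 2) := by
  rw [w1, sum_range_succ]; rfl

theorem w1_I {k : ℕ} (hk : k ≤ y) : I p 4 (w1 p k - (Od k 2 + p ^ 2 * Od k 4)) := by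
  refine Isum_sub (n := k) (f := fun i => 1 / ((2 * (i : ℚ) + 1) ^ 2 - p ^ 2))
    (g := fun i => 1 / (2 * (i : ℚ) + 1) ^ 2 + p ^ 2 * (1 / (2 * (i : ℚ) + 1) ^ 4))
    (fun n hn => ?_) rfl ?_
  · have hn' := mem_range.1 hn
    have hu := uOdd hy (m := n) (by omega)
    have hv := uSq hy (k := n) (by omega)
    refine ⟨1 / ((2 * (n : ℚ) + 1) ^ 4 * ((2 * (n : ℚ) + 1) ^ 2 - p ^ 2)), dmem
      (one_mem _) ((hu.pow 4).mul hv), ?_⟩
    have hu0 := hu.1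
    have hv0 := hv.1
    field_simp
    ring
  · rw [sum_add_distrib, ← mul_sum]
    rfl

theorem w1_mem {k : ℕ} (hk : k ≤ y) : w1 p k ∈ Zp p :=
  sum_mem fun i hi => dmem (one_mem _) (uSq hy (by have := mem_range.1 hi; omega))

theorem PPinv_I {k : ℕ} (hk : k ≤ y) : I p 5 (1 / PP p k - (1 + p ^ 2 * w1 p k + p ^ 4 * E2o k)) := by
  induction k with
  | zero => simp [PP, w1, E2o]; exact I.zero
  | succ k ih =>
    have ih := ih (by omega)
    have hu := uOdd hy (m := k) (by omega)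
    have hv := uSq hy (k := k) (by omega)
    have hP := uPP hy (k := k) (by omega)
    have hw := (w1_I hy (k := k) (by omega)).mono (by norm_num : 2 ≤ 4)
    rw [PP_succ, w1_succ, E2o_succ]
    have hq : (1 + p ^ 2 * (1 / ((2 * (k : ℚ) + 1) ^ 2 - p ^ 2)) : ℚ) ∈ Zp p :=
      add_mem (one_mem _) (mul_mem (pow_mem p_mem 2) (dmem (one_mem _) hv))
    have a1 := ih.mulR hq
    -- p^4 (w1 w_k - Od/u²)
    have a2 : I p 1 (w1 p k * (1 / ((2 * (k : ℚ) + 1) ^ 2 - p ^ 2)) - Od k 2 / (2 * (k : ℚ) + 1) ^ 2) := by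
      have b1 := (hw.mono (by norm_num : 1 ≤ 2)).mulR (y := 1 / ((2 * (k : ℚ) + 1) ^ 2 - p ^ 2))
        (dmem (one_mem _) hv)
      have b2 : I p 1 (p * (p * (Od k 2 / ((2 * (k : ℚ) + 1) ^ 2 * ((2 * (k : ℚ) + 1) ^ 2 - p ^ 2)) +
          Od k 4 / ((2 * (k : ℚ) + 1) ^ 2 - p ^ 2)))) :=
        (I_p (p := p)).mulR (mul_mem p_mem (add_mem (dmem (Od_mem hy (by omega) 2)
          ((hu.pow 2).mul hv)) (dmem (Od_mem hy (by omega) 4) hv)))
      refine icg (b1.add b2) ?_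
      have hu0 := hu.1
      have hv0 := hv.1
      field_simp
      ring
    have a3 := (Ipow (I_p (p := p)) 4).mul a2
    have a4 : I p 5 (p ^ 5 * (p * (E2o k * (1 / ((2 * (k : ℚ) + 1) ^ 2 - p ^ 2))))) :=
      I_of_mem 5 (mul_mem p_mem (mul_mem (E2o_mem hy (by omega)) (dmem (one_mem _) hv))) rfl
    refine icg ((a1.add a3).add a4) ?_
    have hu0 := hu.1
    have hv0 := hv.1
    have hP0 := hP.1
    have e : 1 - (p : ℚ) ^ 2 / (2 * (k : ℚ) + 1) ^ 2 = ((2 * (k : ℚ) + 1) ^ 2 - p ^ 2) /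
      (2 * (k : ℚ) + 1) ^ 2 := by field_simp
    have e2 : 1 / (PP p k * (1 - (p : ℚ) ^ 2 / (2 * (k : ℚ) + 1) ^ 2)) = 1 / PP p k *
        (1 + p ^ 2 * (1 / ((2 * (k : ℚ) + 1) ^ 2 - p ^ 2))) := by
      rw [e]
      field_simp
      ring
    rw [e2]
    ring

theorem PP_I {k : ℕ} (hk : k ≤ y) : I p 6 (PP p k - (1 - p ^ 2 * Od k 2 + p ^ 4 * E2o k)) := by
  induction k with
  | zero => simp [PP, Od, E2o]; exact I.zero
  | succ k ih =>
    have ih := ih (by omega)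
    have hu := uOdd hy (m := k) (by omega)
    rw [PP_succ, Od_succ, E2o_succ]
    have hq : (1 - (p : ℚ) ^ 2 / (2 * (k : ℚ) + 1) ^ 2 : ℚ) ∈ Zp p :=
      sub_mem (one_mem _) (dmem (pow_mem p_mem 2) (hu.pow 2))
    have a1 := ih.mulR hq
    have a2 : I p 6 (p ^ 6 * (-(E2o k / (2 * (k : ℚ) + 1) ^ 2))) :=
      I_of_mem 6 (neg_mem (dmem (E2o_mem hy (by omega)) (hu.pow 2))) rfl
    refine icg (a1.add a2) ?_
    have hu0 := hu.1
    field_simp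
    ring

/-- `V_0` -/
theorem V0_I : I p 5 (∑ k ∈ range y, 1 / ((2 * (k : ℚ) + 1 - p) * PP p k) -
    (-(1 / 2) * H y 1 + p ^ 2 * Wd p y + p ^ 4 * ∑ k ∈ range y, E2o k / (2 * (k : ℚ) + 1))) := by
  have e1 : -(1 / 2) * H y 1 = ∑ k ∈ range y, 1 / (2 * (k : ℚ) + 1 - p) := by
    rw [H, mul_sum, ← sum_range_reflect (fun k => 1 / (2 * (k : ℚ) + 1 - p))]
    refine sum_congr rfl fun i hi => ?_
    rw [orefl hy (mem_range.1 hi)]
    have h0 : (i : ℚ) + 1 ≠ 0 := by positivity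
    have e : (p : ℚ) - 2 * ((i : ℚ) + 1) - p = -2 * ((i : ℚ) + 1) := by ring
    rw [e, pow_one]
    field_simp
  rw [e1]
  refine Isum_sub (n := y) (f := fun k => 1 / ((2 * (k : ℚ) + 1 - p) * PP p k))
    (g := fun k => 1 / (2 * (k : ℚ) + 1 - p) + p ^ 2 * (w1 p k * (1 / (2 * (k : ℚ) + 1 - p))) +
      p ^ 4 * (E2o k / (2 * (k : ℚ) + 1))) (fun k hk => ?_) rfl ?_
  · have hk' := mem_range.1 hk
    have hu := uOdd hy hk'
    have hv := uSubp hy hk'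
    have hP := uPP hy hk'.le
    have a1 := (PPinv_I hy hk'.le).mulL (x := 1 / (2 * (k : ℚ) + 1 - p)) (dmem (one_mem _) hv)
    have a2 : I p 5 (p ^ 5 * (E2o k / ((2 * (k : ℚ) + 1) * (2 * (k : ℚ) + 1 - p)))) :=
      I_of_mem 5 (dmem (E2o_mem hy hk'.le) (hu.mul hv)) rfl
    refine icg (a1.add a2) ?_
    have hu0 := hu.1
    have hv0 := hv.1
    have hP0 := hP.1
    field_simp
    ring
  · rw [sum_add_distrib, sum_add_distrib, ← mul_sum, ← mul_sum]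
    rfl

/-- `V_1` -/
theorem V1_I : I p 3 (∑ k ∈ range y, Od k 2 / ((2 * (k : ℚ) + 1 - p) * PP p k) -
    (Wd p y + 2 * p ^ 2 * ∑ k ∈ range y, E2o k / (2 * (k : ℚ) + 1))) := by
  refine Isum_sub (n := y) (f := fun k => Od k 2 / ((2 * (k : ℚ) + 1 - p) * PP p k))
    (g := fun k => w1 p k * (1 / (2 * (k : ℚ) + 1 - p)) +
      2 * p ^ 2 * (E2o k / (2 * (k : ℚ) + 1))) (fun k hk => ?_) rfl ?_
  · have hk' := mem_range.1 hk
    have hu := uOdd hy hk'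
    have hv := uSubp hy hk'
    have hP := uPP hy hk'.le
    have hO2 := Od_mem hy hk'.le 2
    have hO4 := Od_mem hy hk'.le 4
    have a1 := ((PPinv_I hy hk'.le).mono (by norm_num : 3 ≤ 5)).mulL
      (x := Od k 2 / (2 * (k : ℚ) + 1 - p)) (dmem hO2 hv)
    have a2 := ((w1_I hy hk'.le).mono (by norm_num : 3 ≤ 4)).mulL
      (x := (p ^ 2 * Od k 2 - 1) / (2 * (k : ℚ) + 1 - p))
      (dmem (sub_mem (mul_mem (pow_mem p_mem 2) hO2) (one_mem _)) hv)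
    have a3 : I p 3 (p ^ 3 * (2 * E2o k / ((2 * (k : ℚ) + 1) * (2 * (k : ℚ) + 1 - p)) +
        p * (Od k 2 * Od k 4 + E2o k * Od k 2) / (2 * (k : ℚ) + 1 - p))) :=
      I_of_mem 3 (add_mem (dmem (mul_mem (nm 2) (E2o_mem hy hk'.le)) (hu.mul hv))
        (dmem (mul_mem p_mem (add_mem (mul_mem hO2 hO4) (mul_mem (E2o_mem hy hk'.le) hO2))) hv)) rfl
    refine icg ((a1.add a2).add a3) ?_
    have e := E2o_two k
    have hu0 := hu.1
    have hv0 := hv.1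
    have hP0 := hP.1
    have e4 : Od k 4 = Od k 2 ^ 2 - 2 * E2o k := by linear_combination e
    rw [e4]
    field_simp
    ring
  · rw [sum_add_distrib, ← mul_sum]
    rfl

end rel

end Pool.Agent.H547
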