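import Pool.Agent.H547.AcG

set_option autoImplicit false
set_option linter.unusedSectionVars false

/-!
The first three congruences, concluded.
-/

namespace Pool.Agent.H547

open Finset Pool.Agent.R439.PL

variable {p : ℕ} [hp : Fact p.Prime]

section rel

variable {y : ℕ} (hy : p = 2 * y + 1)
include hy

theorem R0_val : R0 y = -2 * ∑ k ∈ range y, 1 / ((2 * (k : ℚ) + 1 - p) * PP p k) := by
  have e : (p : ℚ) = 2 * y + 1 := by rw [hy]; push_cast; ring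
  rw [R0, mul_sum]
  refine sum_congr rfl fun k hk => ?_
  rw [rr_choose (mem_range.1 hk), ← e]
  ring

theorem R2_val : R2 y = -2 * ∑ k ∈ range y, Od k 2 / ((2 * (k : ℚ) + 1 - p) * PP p k) := by
  have e : (p : ℚ) = 2 * y + 1 := by rw [hy]; push_cast; ring
  rw [R2, mul_sum]
  refine sum_congr rfl fun k hk => ?_
  rw [mul_assoc, rr_choose (mem_range.1 hk), ← e]
  ring

theorem R3_val : R3 y = -2 * ∑ k ∈ range y, 1 / (2 * (k : ℚ) + 1) *
    (1 / ((2 * (k : ℚ) + 1 - p) * PP p k)) := by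
  have e : (p : ℚ) = 2 * y + 1 := by rw [hy]; push_cast; ring
  rw [R3, mul_sum]
  refine sum_congr rfl fun k hk => ?_
  have h := rr_choose (mem_range.1 hk)
  rw [← e] at h
  have e2 : rr k / (2 * (k : ℚ) + 1) * (1 / ((y + k).choose (2 * k + 1) : ℚ)) =
      1 / (2 * (k : ℚ) + 1) * (rr k * (1 / ((y + k).choose (2 * k + 1) : ℚ))) := by ring
  rw [e2, h]
  ring

theorem H1_II (h5 : 5 < p) : I p 2 (H (2 * y) 1) := by
  have h3 : 3 < p := by omega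
  have h := (H1f hy h5).mono (by norm_num : 2 ≤ 5)
  have k : I p 2 (p ^ 2 * (1 / 6 * H y 3 - 9 / 40 * p ^ 2 * H y 5)) :=
    I_of_mem 2 (sub_mem (mul_mem (m23 h3 1 1 1 (by norm_num)) (H_mem (by omega) 3))
      (mul_mem (mul_mem (m235 hy h5 27 3 0 (by norm_num)) (pow_mem p_mem 2)) (H_mem (by omega) 5))) rfl
  exact icg (h.add k) (by ring)

/-- `(p/8) H_{p-1}² ≡ 0` -/
theorem HH_I (h5 : 5 < p) : I p 5 (p / 8 * H (2 * y) 1 ^ 2) := by
  have h3 : 3 < p := by omega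
  have h := (I_p (p := p)).mul ((H1_II hy h5).mul (H1_II hy h5))
  exact icg (h.mulL (x := 1 / 8) (m23 h3 1 3 0 (by norm_num))) (by ring)

theorem H3_IIa (h5 : 5 < p) : I p 2 (H (2 * y) 3) := by
  have k : I p 2 (p ^ 2 * (1 / 5 * H y 5)) :=
    I_of_mem 2 (mul_mem (m235 hy h5 3 0 0 (by norm_num)) (H_mem (by omega) 5)) rfl
  exact icg (((H3f hy h5).mono (by norm_num : 2 ≤ 3)).add k) (by ring)

/-- `3 ε S_1` before the constants -/
theorem S1_pre (h5 : 5 < p) : I p 5 (3 * (-1) ^ y * ∑ n ∈ range y, aa n -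
    (1 / 4 * H (2 * y) 1 - 3 / 320 * p ^ 4 * H y 5)) := by
  have h3 : 3 < p := by omega
  have hs := npm y
  have e0 := E0 y
  rw [R0_val hy] at e0
  have a1 := A1_I hy
  have a3 := A3_I' hy
  rw [Al_evenr] at a1 a3
  have v0 := V0_I hy
  have w := W_eq hy
  have d := D_I hy h5
  have hh := HH_I hy h5
  have c5 := (Ipow (I_p (p := p)) 4).mul (A5_I hy h5)
  have c2 := (Ipow (I_p (p := p)) 4).mul (V2_h5 hy h5)
  obtain ⟨e, he⟩ : ∃ e, e = (-1 : ℚ) ^ y := ⟨_, rfl⟩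
  obtain ⟨V0, hV0⟩ : ∃ V0, V0 = ∑ k ∈ range y, 1 / ((2 * (k : ℚ) + 1 - p) * PP p k) := ⟨_, rfl⟩
  obtain ⟨V2, hV2⟩ : ∃ V2, V2 = ∑ k ∈ range y, E2o k / (2 * (k : ℚ) + 1) := ⟨_, rfl⟩
  obtain ⟨S1, hS1⟩ : ∃ S1, S1 = ∑ n ∈ range y, aa n := ⟨_, rfl⟩
  have hem : e ∈ Zp p := by rw [he]; exact pow_mem (neg_mem (one_mem _)) _
  rw [← he, ← hV0, ← hS1] at e0
  rw [← hV0, ← hV2] at v0
  rw [← he] at a1 a3 c5 hs
  rw [← hV2] at c2
  rw [← he, ← hS1]
  have b1 := a1.mulL (x := 4 * e) (mul_mem (nm 4) hem)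
  have b2 := v0.mulL (x := 2) (nm 2)
  have b3 := ((Ipow (I_p (p := p)) 2).mul a3).mulL (x := 4 * e) (mul_mem (nm 4) hem)
  have b4 := c5.mulL (x := 20) (nm 20)
  have b5 := c2.mulL (x := 2) (nm 2)
  refine icg ((((((b1.sub b2).sub b3).sub hh).add b4).sub b5).add d) ?_
  linear_combination (norm := skip) (-e) * e0 + (2 * V0) * hs + (p / 8) * w
  ring_nf
  have hs2 : e ^ 2 = 1 := by rw [sq]; exact hs
  simp only [hs2]
  ring

/-- `4 p² S_3 - 3 f` before the constants -/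
theorem S3_pre (h5 : 5 < p) : I p 5 (4 * p ^ 2 * (-1) ^ y * ∑ n ∈ range y, aa n / (2 * (n : ℚ) + 1) ^ 2 -
    (H (2 * y) 1 - 1 / 54 * p ^ 4 * H y 5)) := by
  have h3 : 3 < p := by omega
  have hs := npm y
  have e0 := E0 y
  rw [R0_val hy] at e0
  have e2 := E2 y
  rw [R2_val hy] at e2
  have a1 := A1_I hy
  rw [Al_evenr] at a1
  have v0 := V0_I hy
  have v1 := V1_I hy
  have c5 := (Ipow (I_p (p := p)) 4).mul (A5_I hy h5)
  have c2 := (Ipow (I_p (p := p)) 4).mul (V2_h5 hy h5)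
  have cg := (Ipow (I_p (p := p)) 4).mul (g2_h5 hy h5)
  -- `f_p = 0`
  have f : I p 5 (∑ j ∈ range y, aa j - p ^ 2 * ∑ j ∈ range y, aa j * Od j 2 +
      p ^ 4 * ∑ j ∈ range y, aa j * E2o j) := by
    have ep : (p : ℚ) = 2 * y + 1 := by rw [hy]; push_cast; ring
    have f0 := fp_zero (y_mod hy h3)
    rw [← ep] at f0
    have hu2 := u2 (p := p) (by omega)
    have k : I p 5 (∑ j ∈ range y, aa j * PP p j - (∑ j ∈ range y, aa j -
        p ^ 2 * ∑ j ∈ range y, aa j * Od j 2 + p ^ 4 * ∑ j ∈ range y, aa j * E2o j)) := by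
      refine Isum_sub (n := y) (f := fun j => aa j * PP p j)
        (g := fun j => aa j - p ^ 2 * (aa j * Od j 2) + p ^ 4 * (aa j * E2o j)) (fun j hj => ?_) rfl ?_
      · have hj' := mem_range.1 hj
        have haa : aa j ∈ Zp p := by
          unfold aa
          have e : (16 : ℚ) ^ j = 2 ^ (4 * j) := by rw [pow_mul]; norm_num
          rw [e]
          exact dmem (nat_mem _) ((hu2.pow _).mul (uOdd hy hj'))
        have k := ((PP_I hy hj'.le).mono (by norm_num : 5 ≤ 6)).mulL haa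
        exact icg k (by ring)
      · rw [sum_add_distrib, sum_sub_distrib, ← mul_sum, ← mul_sum]
    rw [f0] at k
    exact icg k.neg (by ring)
  obtain ⟨e, he⟩ : ∃ e, e = (-1 : ℚ) ^ y := ⟨_, rfl⟩
  obtain ⟨V0, hV0⟩ : ∃ V0, V0 = ∑ k ∈ range y, 1 / ((2 * (k : ℚ) + 1 - p) * PP p k) := ⟨_, rfl⟩
  obtain ⟨V1, hV1⟩ : ∃ V1, V1 = ∑ k ∈ range y, Od k 2 / ((2 * (k : ℚ) + 1 - p) * PP p k) :=
    ⟨_, rfl⟩
  obtain ⟨V2, hV2⟩ : ∃ V2, V2 = ∑ k ∈ range y, E2o k / (2 * (k : ℚ) + 1) := ⟨_, rfl⟩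
  obtain ⟨S1, hS1⟩ : ∃ S1, S1 = ∑ n ∈ range y, aa n := ⟨_, rfl⟩
  obtain ⟨S3, hS3⟩ : ∃ S3, S3 = ∑ n ∈ range y, aa n / (2 * (n : ℚ) + 1) ^ 2 := ⟨_, rfl⟩
  obtain ⟨g1, hg1⟩ : ∃ g1, g1 = ∑ j ∈ range y, aa j * Od j 2 := ⟨_, rfl⟩
  obtain ⟨g2, hg2⟩ : ∃ g2, g2 = ∑ j ∈ range y, aa j * E2o j := ⟨_, rfl⟩
  have hem : e ∈ Zp p := by rw [he]; exact pow_mem (neg_mem (one_mem _)) _
  rw [← he, ← hV0, ← hS1] at e0
  rw [← he, ← hV1, ← hS3, ← hg1] at e2
  rw [← hV0, ← hV2] at v0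
  rw [← hV1, ← hV2] at v1
  rw [← he] at a1 c5 hs cg
  rw [← hg2] at cg
  rw [← hS1, ← hg1, ← hg2] at f
  rw [← hV2] at c2
  rw [← he, ← hS3]
  have b1 := a1.mulL (x := 4 * e) (mul_mem (nm 4) hem)
  have b2 := v0.mulL (x := 2) (nm 2)
  have b3 := ((Ipow (I_p (p := p)) 2).mul v1).mulL (x := 2) (nm 2)
  have b4 := c5.mulL (x := 4) (nm 4)
  have b5 := c2.mulL (x := 2) (nm 2)
  have b6 := cg.mulL (x := 3) (nm 3)
  have b7 := f.mulL (x := 3 * e) (mul_mem (nm 3) hem)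
  refine icg ((((((b1.sub b2).add b3).sub b4).add b5).add b6).sub b7) ?_
  linear_combination (norm := skip) (-e) * e0 - (p ^ 2 * e) * e2 + (2 * V0 - 2 * p ^ 2 * V1) * hs
  ring_nf
  have hs2 : e ^ 2 = 1 := by rw [sq]; exact hs
  simp only [hs2]
  ring

/-- `∑ rr k/(2k+1)` before the constants -/
theorem S2_pre (h5 : 5 < p) : I p 3 (5 * ∑ n ∈ range y, rr n / (2 * (n : ℚ) + 1) -
    H (2 * y) 1 / p) := by
  have h3 : 3 < p := by omega
  have e3 := E3 y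
  rw [R3_val hy] at e3
  have k1 : I p 3 (∑ k ∈ range y, 1 / (2 * (k : ℚ) + 1) * (1 / ((2 * (k : ℚ) + 1 - p) * PP p k)) -
      (Od y 2 + p * Od y 3 + p ^ 2 * Od y 4 + p ^ 2 * E2o y)) := by
    refine Isum_sub (n := y) (f := fun k => 1 / (2 * (k : ℚ) + 1) *
      (1 / ((2 * (k : ℚ) + 1 - p) * PP p k)))
      (g := fun k => 1 / (2 * (k : ℚ) + 1) ^ 2 + p * (1 / (2 * (k : ℚ) + 1) ^ 3) +
        p ^ 2 * (1 / (2 * (k : ℚ) + 1) ^ 4) + p ^ 2 * (Od k 2 / (2 * (k : ℚ) + 1) ^ 2))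
      (fun k hk => ?_) rfl ?_
    · have hk' := mem_range.1 hk
      have hu := uOdd hy hk'
      have hv := uSubp hy hk'
      have hP := uPP hy hk'.le
      have hO2 := Od_mem hy hk'.le 2
      have hO4 := Od_mem hy hk'.le 4
      have a1 := ((PPinv_I hy hk'.le).mono (by norm_num : 3 ≤ 5)).mulL
        (x := 1 / ((2 * (k : ℚ) + 1) * (2 * (k : ℚ) + 1 - p))) (dmem (one_mem _) (hu.mul hv))
      have a2 := ((w1_I hy hk'.le).mono (by norm_num : 3 ≤ 4)).mulL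
        (x := p ^ 2 / ((2 * (k : ℚ) + 1) * (2 * (k : ℚ) + 1 - p)))
        (dmem (pow_mem p_mem 2) (hu.mul hv))
      have a3 : I p 3 (p ^ 3 * (1 / ((2 * (k : ℚ) + 1) ^ 4 * (2 * (k : ℚ) + 1 - p)) +
          Od k 2 / ((2 * (k : ℚ) + 1) ^ 2 * (2 * (k : ℚ) + 1 - p)) +
          p * (Od k 4 + E2o k) / ((2 * (k : ℚ) + 1) * (2 * (k : ℚ) + 1 - p)))) :=
        I_of_mem 3 (add_mem (add_mem (dmem (one_mem _) ((hu.pow 4).mul hv))
          (dmem hO2 ((hu.pow 2).mul hv))) (dmem (mul_mem p_mem (add_mem hO4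
            (E2o_mem hy hk'.le))) (hu.mul hv))) rfl
      refine icg ((a1.add a2).add a3) ?_
      have hu0 := hu.1
      have hv0 := hv.1
      have hP0 := hP.1
      field_simp
      ring
    · rw [sum_add_distrib, sum_add_distrib, sum_add_distrib, ← mul_sum, ← mul_sum, ← mul_sum]
      rfl
  have t := E2o_two y
  have o2 := Od2_I hy h3
  have o4 := (Ipow (I_p (p := p)) 2).mul (Od4_I hy h5)
  have o22 := (Ipow (I_p (p := p)) 2).mul (o2.mulR (Od_mem hy le_rfl 2))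
  have H2 := (H2f hy h5).mono (by norm_num : 3 ≤ 4)
  have h2 := (h2f hy h5).mono (by norm_num : 3 ≤ 4)
  have H3 := (I_p (p := p)).mul (H3_IIa hy h5)
  have m1 : I p 3 (p ^ 3 * H y 5) := I_of_mem 3 (H_mem (by omega) 5) rfl
  have hp0 : (p : ℚ) ≠ 0 := p_ne
  have H1 : I p 3 (H (2 * y) 1 / p - 1 / 6 * p * H y 3) := by
    have k := (H1f hy h5).mono (by norm_num : 4 ≤ 5)
    have k2 : I p 4 (p ^ 4 * (9 / 40 * H y 5)) := I_of_mem 4
      (mul_mem (m235 hy h5 27 3 0 (by norm_num)) (H_mem (by omega) 5)) rfl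
    have k3 : I p (3 + 1) (p * (H (2 * y) 1 / p - 1 / 6 * p * H y 3)) := by
      refine icg (k.sub k2) ?_
      field_simp
      ring
    exact I_p_mul_iff.1 k3
  have c1 : (23 / 60 : ℚ) ∈ Zp p := m235 hy h5 23 2 0 (by norm_num)
  have c2 : (31 / 24 : ℚ) ∈ Zp p := m23 h3 31 3 1 (by norm_num)
  have d1 := Od_eq hy 2
  have d2 := Od_eq hy 3
  have b1 := k1.mulL (x := 2) (nm 2)
  have b2 := (H2.add (m1.mulL c1)).mulL (x := 2) (nm 2)
  have b3 := (h2.add (m1.mulL c2)).mulL (x := 1 / 2) (m23 h3 1 1 0 (by norm_num))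
  have b4 := H3.mulL (x := 2) (nm 2)
  refine icg ((((((b2.sub b3).sub b1).sub b4).sub o4).sub o22).sub H1) ?_
  linear_combination (-1) * e3 + (p ^ 2) * t - 2 * d1 + 2 * p * d2

end rel

end Pool.Agent.H547
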