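import Pool.Agent.H547.AcH
import Pool.Agent.H547.Main147

set_option autoImplicit false
set_option linter.unusedSectionVars false

/-!
The fourth congruence.
-/

namespace Pool.Agent.H547

open Finset Pool.Agent.R439.PL

/-- `∑ (-1)^{m-1}/(m³ c_m)` -/
def T3 (n : ℕ) : ℚ := ∑ m ∈ range n, (-1) ^ m / (((m : ℚ) + 1) ^ 3 * (Nat.centralBinom (m + 1) : ℚ))

/-- the tail in Apéry's identity -/
def tl (n : ℕ) : ℚ := ∑ m ∈ range n, (-1) ^ m / (((m : ℚ) + 1) ^ 3 * (Nat.centralBinom (m + 1) : ℚ)) *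
  (1 / ((n + (m + 1)).choose (2 * (m + 1)) : ℚ))

/-- `1/(c_k C(N+k,2k) (N+1+k))` -/
def ek (N k : ℕ) : ℚ := 1 / ((Nat.centralBinom k : ℚ) * ((N + k).choose (2 * k) : ℚ) *
  ((N : ℚ) + 1 + k))

theorem ek_step {N k : ℕ} (h : k < N) : ek N (k + 1) * (((N : ℚ) - k) * ((N : ℚ) + k + 2)) =
    ((k : ℚ) + 1) ^ 2 * ek N k := by
  have h1 := cb_succ k
  have h2 := choose_two N k
  have c0 := choose_ne (n := N + k) (x := 2 * k) (by omega)
  have c1 := choose_ne (n := N + k + 1) (x := 2 * k + 2) (by omega)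
  have b0 := cb_ne k
  have b1 := cb_ne (k + 1)
  have e : N + (k + 1) = N + k + 1 := by ring
  have e2 : 2 * (k + 1) = 2 * k + 2 := by ring
  unfold ek
  rw [e, e2]
  obtain ⟨c, hc⟩ : ∃ c, c = ((N + k).choose (2 * k) : ℚ) := ⟨_, rfl⟩
  obtain ⟨c', hc'⟩ : ∃ c', c' = ((N + k + 1).choose (2 * k + 2) : ℚ) := ⟨_, rfl⟩
  obtain ⟨b, hb⟩ : ∃ b, b = (Nat.centralBinom k : ℚ) := ⟨_, rfl⟩
  obtain ⟨b', hb'⟩ : ∃ b', b' = (Nat.centralBinom (k + 1) : ℚ) := ⟨_, rfl⟩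
  rw [← hb, ← hb'] at h1
  rw [← hc, ← hc'] at h2
  rw [← hc, ← hc', ← hb, ← hb']
  rw [← hc] at c0
  rw [← hc'] at c1
  rw [← hb] at b0
  rw [← hb'] at b1
  have g1 : (N : ℚ) + 1 + k ≠ 0 := by positivity
  have g2 : (k : ℚ) + 1 ≠ 0 := by positivity
  have g3 := odd_ne k
  push_cast
  have g4 : (N : ℚ) + 1 + (k + 1) ≠ 0 := by positivity
  have eb : b' = 2 * (2 * (k : ℚ) + 1) * b / ((k : ℚ) + 1) := by
    rw [eq_div_iff g2]; linear_combination h1
  rw [eb] at b1 ⊢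
  field_simp
  linear_combination ((N : ℚ) + k + 2) * (-h2)

theorem ek_sum (N : ℕ) : ((N : ℚ) + 1) ^ 2 * ∑ m ∈ range N, (-1) ^ m * ek N (m + 1) / ((m : ℚ) + 1) ^ 2 =
    ek N 0 - (-1) ^ N * ek N N := by
  have h : ∀ m ∈ range N, ((N : ℚ) + 1) ^ 2 * ((-1) ^ m * ek N (m + 1) / ((m : ℚ) + 1) ^ 2) =
      (-1) ^ m * ek N m - (-1) ^ (m + 1) * ek N (m + 1) := by
    intro m hm
    have k := ek_step (mem_range.1 hm)
    have g2 : (m : ℚ) + 1 ≠ 0 := by positivity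
    rw [pow_succ (-1 : ℚ) m]
    field_simp
    linear_combination k
  rw [mul_sum, sum_congr rfl h, sum_range_sub' (fun m => (-1) ^ m * ek N m)]
  simp

theorem ek_zero (N : ℕ) : ek N 0 = 1 / ((N : ℚ) + 1) := by simp [ek]

theorem ek_top (N : ℕ) : ek N N = 2 / (((N : ℚ) + 1) * (Nat.centralBinom (N + 1) : ℚ)) := by
  unfold ek
  rw [show N + N = 2 * N by ring, Nat.choose_self]
  have h1 := cb_succ N
  have b0 := cb_ne N
  have b1 := cb_ne (N + 1)
  have g2 : (N : ℚ) + 1 ≠ 0 := by positivity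
  have g3 : (N : ℚ) + 1 + N ≠ 0 := by positivity
  push_cast
  field_simp
  linear_combination h1

theorem tl_step (N : ℕ) : tl (N + 1) - tl N =
    5 * ((-1) ^ N / (((N : ℚ) + 1) ^ 3 * (Nat.centralBinom (N + 1) : ℚ))) - 2 / ((N : ℚ) + 1) ^ 3 := by
  have h : tl (N + 1) - tl N = (-1) ^ N / (((N : ℚ) + 1) ^ 3 * (Nat.centralBinom (N + 1) : ℚ)) -
      2 * ∑ m ∈ range N, (-1) ^ m * ek N (m + 1) / ((m : ℚ) + 1) ^ 2 := by
    rw [tl, sum_range_succ, tl, mul_sum]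
    have e : N + 1 + (N + 1) = 2 * (N + 1) := by ring
    rw [e, Nat.choose_self]
    have k2 : ∑ m ∈ range N, (-1) ^ m / (((m : ℚ) + 1) ^ 3 * (Nat.centralBinom (m + 1) : ℚ)) *
        (1 / ((N + 1 + (m + 1)).choose (2 * (m + 1)) : ℚ)) -
        ∑ m ∈ range N, (-1) ^ m / (((m : ℚ) + 1) ^ 3 * (Nat.centralBinom (m + 1) : ℚ)) *
        (1 / ((N + (m + 1)).choose (2 * (m + 1)) : ℚ)) =
        - ∑ m ∈ range N, 2 * ((-1) ^ m * ek N (m + 1) / ((m : ℚ) + 1) ^ 2) := by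
      rw [← sum_sub_distrib, ← sum_neg_distrib]
      refine sum_congr rfl fun m hm => ?_
      have hm' := mem_range.1 hm
      have h1 := Nat.choose_mul_succ_eq (N + (m + 1)) (2 * (m + 1))
      have e3 : N + (m + 1) + 1 - 2 * (m + 1) = N - m := by omega
      rw [e3] at h1
      have e4 : ((N - m : ℕ) : ℚ) = (N : ℚ) - m := by rw [Nat.cast_sub hm'.le]
      have h2 : ((N + (m + 1)).choose (2 * (m + 1)) : ℚ) * ((N : ℚ) + (m + 1) + 1) =
          ((N + (m + 1) + 1).choose (2 * (m + 1)) : ℚ) * ((N : ℚ) - m) := by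
        rw [← e4]; exact_mod_cast h1
      have e5 : N + 1 + (m + 1) = N + (m + 1) + 1 := by ring
      have c0 := choose_ne (n := N + (m + 1)) (x := 2 * (m + 1)) (by omega)
      have c1 := choose_ne (n := N + (m + 1) + 1) (x := 2 * (m + 1)) (by omega)
      unfold ek
      rw [e5]
      obtain ⟨c, hc⟩ : ∃ c, c = ((N + (m + 1)).choose (2 * (m + 1)) : ℚ) := ⟨_, rfl⟩
      obtain ⟨c', hc'⟩ : ∃ c', c' = ((N + (m + 1) + 1).choose (2 * (m + 1)) : ℚ) := ⟨_, rfl⟩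
      rw [← hc, ← hc'] at h2
      rw [← hc, ← hc']
      rw [← hc] at c0
      rw [← hc'] at c1
      have b1 := cb_ne (m + 1)
      have g2 : (m : ℚ) + 1 ≠ 0 := by positivity
      have g4 : (N : ℚ) + 1 + ((m + 1 : ℕ) : ℚ) ≠ 0 := by positivity
      field_simp
      push_cast
      linear_combination h2
    push_cast at k2 ⊢
    linear_combination k2
  have g : ((N : ℚ) + 1) ≠ 0 := by positivity
  have h2 := ek_sum N
  rw [ek_zero, ek_top] at h2
  obtain ⟨s, hs⟩ : ∃ s, s = ∑ m ∈ range N, (-1) ^ m * ek N (m + 1) / ((m : ℚ) + 1) ^ 2 := ⟨_, rfl⟩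
  rw [← hs] at h2 h
  rw [h]
  have e : s = (1 / ((N : ℚ) + 1) - (-1) ^ N * (2 / (((N : ℚ) + 1) * (Nat.centralBinom (N + 1) : ℚ)))) /
    ((N : ℚ) + 1) ^ 2 := by
    rw [eq_div_iff (pow_ne_zero 2 g)]; linear_combination h2
  rw [e]
  have b1 := cb_ne (N + 1)
  field_simp
  ring

/-- Apéry's identity -/
theorem apery_fin (N : ℕ) : 5 * T3 N = 2 * H N 3 + tl N := by
  induction N with
  | zero => simp [T3, H, tl]
  | succ N ih =>
    rw [T3, sum_range_succ, H_succ]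
    have e : ∑ m ∈ range N, (-1) ^ m / (((m : ℚ) + 1) ^ 3 * (Nat.centralBinom (m + 1) : ℚ)) = T3 N := rfl
    rw [e]
    have h := tl_step N
    linear_combination ih - h

/-- `∏_{i≤k} (1 - b²/i²)` -/
def QQ (b : ℚ) (k : ℕ) : ℚ := ∏ i ∈ range k, (1 - b ^ 2 / ((i : ℚ) + 1) ^ 2)

theorem QQ_zero (b : ℚ) : QQ b 0 = 1 := by simp [QQ]

theorem QQ_succ (b : ℚ) (k : ℕ) : QQ b (k + 1) = QQ b k * (1 - b ^ 2 / ((k : ℚ) + 1) ^ 2) := by
  rw [QQ, prod_range_succ]; rfl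

theorem QQ_vanish {r k : ℕ} (h : r < k) : QQ ((r : ℚ) + 1) k = 0 := by
  unfold QQ
  apply prod_eq_zero (mem_range.2 h)
  have : (r : ℚ) + 1 ≠ 0 := by positivity
  rw [div_self (pow_ne_zero 2 this), sub_self]

theorem QQ_rel (R m : ℕ) : ((R : ℚ) + 1) * ((R : ℚ) - m) * QQ ((R : ℚ) + 1) m =
    (R : ℚ) * ((R : ℚ) + 1 + m) * QQ (R : ℚ) m := by
  induction m with
  | zero => simp [QQ]; ring
  | succ m ih =>
    rw [QQ_succ, QQ_succ]
    have g2 : (m : ℚ) + 1 ≠ 0 := by positivity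
    push_cast
    field_simp
    linear_combination (((m : ℚ) + R + 2) * ((m : ℚ) + 1 - R)) * ih

/-- `∑_{m<n} Q_m(r)/((m+1)³ z_{m+1}²)` -/
def Gs (n : ℕ) (r : ℚ) : ℚ := ∑ m ∈ range n, QQ r m / (((m : ℚ) + 1) ^ 3 * z (m + 1) ^ 2)

theorem Gs_succ (n : ℕ) (r : ℚ) : Gs (n + 1) r = Gs n r + QQ r n / (((n : ℚ) + 1) ^ 3 * z (n + 1) ^ 2) := by
  rw [Gs, sum_range_succ]; rfl

theorem Gs_tele (R n : ℕ) : ((R : ℚ) + 1) ^ 2 * Gs n ((R : ℚ) + 1) - (R : ℚ) ^ 2 * Gs n (R : ℚ) =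
    -(2 * (n : ℚ) + 1) ^ 2 * (((R : ℚ) + 1) ^ 2 * QQ ((R : ℚ) + 1) n - (R : ℚ) ^ 2 * QQ (R : ℚ) n) /
      (((n : ℚ) + 1) ^ 3 * z (n + 1) ^ 2 * (2 * (R : ℚ) + 1) ^ 2) + 4 / (2 * (R : ℚ) + 1) := by
  have h3 := odd_ne R
  induction n with
  | zero =>
    rw [z_succ, z_zero]
    simp [Gs, QQ]
    field_simp
    ring
  | succ n ih =>
    rw [Gs_succ, Gs_succ, QQ_succ, QQ_succ]
    have k := QQ_rel R n
    have zs := z_succ (n + 1)
    have z1 := (z_pos (n + 1)).ne'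
    rw [zs]
    obtain ⟨a, ha⟩ : ∃ a, a = QQ ((R : ℚ) + 1) n := ⟨_, rfl⟩
    obtain ⟨b, hb⟩ : ∃ b, b = QQ (R : ℚ) n := ⟨_, rfl⟩
    obtain ⟨w, hw⟩ : ∃ w, w = z (n + 1) := ⟨_, rfl⟩
    obtain ⟨G1, hG1⟩ : ∃ G1, G1 = Gs n ((R : ℚ) + 1) := ⟨_, rfl⟩
    obtain ⟨G0, hG0⟩ : ∃ G0, G0 = Gs n (R : ℚ) := ⟨_, rfl⟩
    rw [← ha, ← hb] at k
    rw [← ha, ← hb, ← hw, ← hG1, ← hG0] at ih
    rw [← ha, ← hb, ← hw, ← hG1, ← hG0]
    rw [← hw] at z1
    have e : ((R : ℚ) + 1) ^ 2 * (G1 + a / (((n : ℚ) + 1) ^ 3 * w ^ 2)) -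
        (R : ℚ) ^ 2 * (G0 + b / (((n : ℚ) + 1) ^ 3 * w ^ 2)) =
        (((R : ℚ) + 1) ^ 2 * G1 - (R : ℚ) ^ 2 * G0) + (((R : ℚ) + 1) ^ 2 * a - (R : ℚ) ^ 2 * b) /
          (((n : ℚ) + 1) ^ 3 * w ^ 2) := by ring
    rw [e, ih]
    have g2 : (n : ℚ) + 1 ≠ 0 := by positivity
    have g4 : (n : ℚ) + 1 + 1 ≠ 0 := by positivity
    have g5 : 2 * ((n : ℚ) + 1) + 1 ≠ 0 := by positivity
    push_cast
    field_simp
    linear_combination (4 * (R : ℚ) * ((R : ℚ) + 1)) * k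

theorem Gs_eq (R n : ℕ) (h : R ≤ n) : (R : ℚ) ^ 2 * Gs n (R : ℚ) = 4 * Od R 1 := by
  induction R with
  | zero => simp [Od]
  | succ R ih =>
    have ih := ih (by omega)
    have k := Gs_tele R n
    have q1 := QQ_vanish (r := R) (k := n) (by omega)
    have q2 : (R : ℚ) ^ 2 * QQ (R : ℚ) n = 0 := by
      rcases Nat.eq_zero_or_pos R with h0 | h0
      · subst h0; simp
      · have := QQ_vanish (r := R - 1) (k := n) (by omega)
        have e : ((R - 1 : ℕ) : ℚ) + 1 = R := by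
          rw [Nat.cast_sub h0]; push_cast; ring
        rw [e] at this
        rw [this, mul_zero]
    rw [q1, q2] at k
    rw [Od_succ]
    push_cast
    simp only [mul_zero, sub_zero, zero_div, zero_add, pow_one] at k ⊢
    linear_combination k + ih

theorem Od_evenr (l r : ℕ) : Od l r = H (2 * l) r - 1 / 2 ^ r * H l r := by
  induction l with
  | zero => simp [Od, H]
  | succ l ih =>
    rw [show 2 * (l + 1) = 2 * l + 1 + 1 by ring, Od_succ, ih, H_succ, H_succ, H_succ]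
    have e3 : ((2 * l + 1 : ℕ) : ℚ) + 1 = 2 * ((l : ℚ) + 1) := by push_cast; ring
    rw [e3, mul_pow]
    push_cast
    have h0 : ((l : ℚ) + 1) ^ r ≠ 0 := by positivity
    have h1 : (2 : ℚ) ^ r ≠ 0 := by positivity
    field_simp
    ring

/-- `∑_j H_{n-j}/j²` -/
theorem C2_eq (n : ℕ) : ∑ j ∈ range n, H (n - 1 - j) 1 / ((j : ℚ) + 1) ^ 2 = Z21 n + 2 * Z12 n := by
  induction n with
  | zero => simp [Z21, Z12]
  | succ n ih =>
    have h0 : (n : ℚ) + 1 ≠ 0 := by positivity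
    rw [sum_range_succ]
    have e0 : n + 1 - 1 - n = 0 := by omega
    rw [e0, H_zero, zero_div, add_zero]
    have e1 : ∑ j ∈ range n, H (n + 1 - 1 - j) 1 / ((j : ℚ) + 1) ^ 2 =
        ∑ j ∈ range n, H (n - 1 - j) 1 / ((j : ℚ) + 1) ^ 2 +
        1 / ((n : ℚ) + 1) * ∑ j ∈ range n, 1 / ((j : ℚ) + 1) ^ 2 +
        1 / ((n : ℚ) + 1) ^ 2 * (∑ j ∈ range n, 1 / ((j : ℚ) + 1) ^ 1 +
          ∑ j ∈ range n, 1 / ((n : ℚ) - j)) := by
      rw [← sum_add_distrib, mul_sum, mul_sum, ← sum_add_distrib, ← sum_add_distrib]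
      refine sum_congr rfl fun j hj => ?_
      have hj' := mem_range.1 hj
      have e2 : n + 1 - 1 - j = (n - 1 - j) + 1 := by omega
      have e3 : ((n - 1 - j : ℕ) : ℚ) + 1 = (n : ℚ) - j := by
        rw [Nat.cast_sub (by omega), Nat.cast_sub (by omega)]
        push_cast
        ring
      rw [e2, H_succ, e3]
      obtain ⟨t, ht⟩ : ∃ t : ℚ, t = (n : ℚ) - j := ⟨_, rfl⟩
      have ht0 : t ≠ 0 := by
        rw [ht, sub_ne_zero]
        intro h
        have : n = j := by exact_mod_cast h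
        omega
      have hM : (n : ℚ) = t + j := by rw [ht]; ring
      have hi0 : (j : ℚ) + 1 ≠ 0 := by positivity
      rw [← ht]
      rw [hM] at h0 ⊢
      field_simp
      ring
    have e4 : ∑ j ∈ range n, (1 : ℚ) / ((n : ℚ) - j) = H n 1 := by
      rw [H, ← sum_range_reflect]
      refine sum_congr rfl fun j hj => ?_
      have hj' := mem_range.1 hj
      have e3 : (n : ℚ) - ((n - 1 - j : ℕ) : ℚ) = (j : ℚ) + 1 := by
        rw [Nat.cast_sub (by omega), Nat.cast_sub (by omega)]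
        push_cast
        ring
      rw [e3, pow_one]
    have e5 : ∑ j ∈ range n, (1 : ℚ) / ((j : ℚ) + 1) ^ 1 = H n 1 := rfl
    have e6 : ∑ j ∈ range n, (1 : ℚ) / ((j : ℚ) + 1) ^ 2 = H n 2 := rfl
    rw [e1, e4, e5, e6, ih, Z21, Z21, Z12, Z12, sum_range_succ, sum_range_succ]
    field_simp
    ring

variable {p : ℕ} [hp : Fact p.Prime]

section rel

variable {y : ℕ} (hy : p = 2 * y + 1)
include hy

theorem uz {j : ℕ} (h : j ≤ y) : U p (z j) := by
  induction j with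
  | zero => rw [z_zero]; exact U.one
  | succ j ih =>
    rw [z_succ]
    exact (ih (by omega)).mul ((uOdd hy (m := j) (by omega)).div (u2i hy (i := j) (by omega)))

/-- power sums over the first half -/
theorem pw_half {e : ℕ} (he : Even e) (h0 : 0 < e) (h1 : e + 1 < p) (h3 : 3 < p) :
    I p 1 (∑ m ∈ range y, ((m : ℚ) + 1) ^ e) := by
  have hE := (T2H53.HB.faul (p := p) (e := e) (by omega)).mono (by norm_num : 1 ≤ 2)
  have hB := T2H53.HB.bern_mem (p := p) e (by omega)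
  have hE2 : ∑ k ∈ range p, (k : ℚ) ^ e = ∑ i ∈ range (2 * y), ((i : ℚ) + 1) ^ e := by
    have : range p = range (2 * y + 1) := by rw [hy]
    rw [this, sum_range_succ']
    simp [show e ≠ 0 by omega]
  rw [hE2, two_mul, sum_range_add] at hE
  have k0 : I p 1 (p * bernoulli e) := (I_p (p := p)).mulR hB
  have k1 : I p 1 (∑ i ∈ range y, (((y + i : ℕ) : ℚ) + 1) ^ e -
      ∑ m ∈ range y, ((m : ℚ) + 1) ^ e) := by
    refine Isum_sub (n := y) (f := fun i => ((p : ℚ) - ((i : ℚ) + 1)) ^ e)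
      (g := fun i => ((i : ℚ) + 1) ^ e) (fun i hi => ?_) ?_ rfl
    · have hu := uSucc (p := p) (mem_range.1 hi) (by omega)
      have hv := psub hu
      have h1 : EQ p 1 ((p : ℚ) - ((i : ℚ) + 1)) (-((i : ℚ) + 1)) :=
        ⟨hv.2.1, neg_mem hu.2.1, icg (I_p (p := p)) (by ring)⟩
      have h2 := (h1.pow e).2.2
      rw [he.neg_pow] at h2
      exact h2
    · rw [← sum_range_reflect]
      refine sum_congr rfl fun i hi => ?_
      have := hrefl hy (mem_range.1 hi)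
      push_cast
      rw [this]
  have k2 := ((hE.add k0).sub k1).mulL (x := 1 / 2) (m23 h3 1 1 0 (by norm_num))
  exact icg k2 (by ring)

/-- interpolation sums -/
def _root_.Pool.Agent.H547.Ni (y j r : ℕ) : ℚ :=
  ∑ m ∈ range y, QQ ((m : ℚ) + 1) j * ((m : ℚ) + 1) ^ (2 * r)

omit hy hp in
theorem Ni_succ (y j r : ℕ) : Ni y (j + 1) r = Ni y j r - 1 / ((j : ℚ) + 1) ^ 2 * Ni y j (r + 1) := by
  rw [Ni, Ni, Ni, mul_sum, ← sum_sub_distrib]
  refine sum_congr rfl fun m _ => ?_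
  rw [QQ_succ]
  have h2 : (j : ℚ) + 1 ≠ 0 := by positivity
  have e : 2 * (r + 1) = 2 * r + 2 := by ring
  rw [e, pow_add]
  field_simp

theorem Ni_one (h3 : 3 < p) (j : ℕ) : ∀ r, 1 ≤ r → r + j + 1 ≤ y → I p 1 (Ni y j r) := by
  induction j with
  | zero =>
    intro r hr h
    have e : Ni y 0 r = ∑ m ∈ range y, ((m : ℚ) + 1) ^ (2 * r) := by
      rw [Ni]
      refine sum_congr rfl fun m _ => ?_
      rw [QQ_zero, one_mul]
    rw [e]
    exact pw_half hy ⟨r, by ring⟩ (by omega) (by omega) h3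
  | succ j ih =>
    intro r hr h
    rw [Ni_succ]
    have hu := (uSucc (p := p) (i := j) (n := j + 1) (by omega) (by omega)).pow 2
    exact (ih r hr (by omega)).sub ((ih (r + 1) (by omega) (by omega)).mulL (dmem (one_mem _) hu))

theorem Ni_zero (h3 : 3 < p) (j : ℕ) (hj : j < y) : I p 1 (Ni y j 0 + 1 / 2) := by
  induction j with
  | zero =>
    have e : Ni y 0 0 = y := by
      rw [Ni]
      simp [QQ_zero]
    rw [e]
    have e2 : (p : ℚ) = 2 * y + 1 := by rw [hy]; push_cast; ring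
    exact icg ((I_p (p := p)).mulL (x := 1 / 2) (m23 h3 1 1 0 (by norm_num))) (by rw [e2]; ring)
  | succ j ih =>
    rw [Ni_succ]
    have hu := (uSucc (p := p) (i := j) (n := j + 1) (by omega) (by omega)).pow 2
    exact icg ((ih (by omega)).sub ((Ni_one hy h3 j 1 le_rfl (by omega)).mulL
      (dmem (one_mem _) hu))) (by ring)

/-- `Y_3` -/
def _root_.Pool.Agent.H547.Y3 (y : ℕ) : ℚ := ∑ m ∈ range y, 1 / (((m : ℚ) + 1) ^ 3 * z (m + 1) ^ 2)

theorem YO_I (h3 : 3 < p) : I p 1 (∑ r ∈ range y, Od (r + 1) 1 / ((r : ℚ) + 1) ^ 2 +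
    7 / 8 * H y 3) := by
  have k1 : I p 1 (∑ r ∈ range y, Od (r + 1) 1 / ((r : ℚ) + 1) ^ 2 -
      (1 / 2 * (Z21 y + 2 * Z12 y) - 1 / 2 * (H y 1 * H y 2))) := by
    rw [← C2_eq]
    refine Isum_sub (n := y) (f := fun r => Od (r + 1) 1 / ((r : ℚ) + 1) ^ 2)
      (g := fun r => 1 / 2 * (H (y - 1 - r) 1 / ((r : ℚ) + 1) ^ 2) -
        1 / 2 * (H y 1 * (1 / ((r : ℚ) + 1) ^ 2))) (fun r hr => ?_) rfl ?_
    · have hr' := mem_range.1 hr
      have k := H_half hy (r + 1) (by omega) h3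
      have e : y - (r + 1) = y - 1 - r := by omega
      rw [e] at k
      have hu := (uSucc (p := p) hr' (by omega)).pow 2
      have k2 := k.mulL (x := -1 / 2 * (1 / ((r : ℚ) + 1) ^ 2)) (mul_mem
        (m23 h3 (-1) 1 0 (by norm_num)) (dmem (one_mem _) hu))
      rw [Od_evenr]
      refine icg k2 ?_
      have := hu.1
      field_simp
      ring
    · rw [sum_sub_distrib, ← mul_sum, ← mul_sum, ← mul_sum]
      rfl
  have a1 := (Z21_I hy h3).mulL (x := 1 / 2) (m23 h3 1 1 0 (by norm_num))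
  have a2 := Z12_I hy h3
  have a3 := ((h2_I hy h3).mulL (x := H y 1) (H_mem (by omega) 1)).mulL (x := 1 / 2)
    (m23 h3 1 1 0 (by norm_num))
  exact icg (((k1.add a1).add a2).sub a3) (by ring)

theorem Y3_I (h3 : 3 < p) : I p 1 (Y3 y - 7 * H y 3) := by
  have k1 : I p 1 (Y3 y - (-2) * ∑ r ∈ range y, Gs y ((r : ℚ) + 1)) := by
    have e1 : ∑ r ∈ range y, Gs y ((r : ℚ) + 1) =
        ∑ m ∈ range y, Ni y m 0 * (1 / (((m : ℚ) + 1) ^ 3 * z (m + 1) ^ 2)) := by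
      unfold Gs
      rw [sum_comm]
      refine sum_congr rfl fun m _ => ?_
      rw [Ni, sum_mul]
      refine sum_congr rfl fun r _ => ?_
      rw [Nat.mul_zero, pow_zero, mul_one, mul_one_div]
    rw [e1, Y3, mul_sum]
    refine Isum_sub (n := y) (fun m hm => ?_) rfl rfl
    have hm' := mem_range.1 hm
    have hu := (uSucc (p := p) hm' (by omega)).pow 3
    have hz := (uz hy (j := m + 1) (by omega)).pow 2
    have k := (Ni_zero hy h3 m hm').mulL (x := 2 * (1 / (((m : ℚ) + 1) ^ 3 * z (m + 1) ^ 2)))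
      (mul_mem (nm 2) (dmem (one_mem _) (hu.mul hz)))
    exact icg k (by ring)
  have e2 : ∑ r ∈ range y, Gs y ((r : ℚ) + 1) =
      4 * ∑ r ∈ range y, Od (r + 1) 1 / ((r : ℚ) + 1) ^ 2 := by
    rw [mul_sum]
    refine sum_congr rfl fun r hr => ?_
    have k := Gs_eq (r + 1) y (by have := mem_range.1 hr; omega)
    push_cast at k
    have h0 : (r : ℚ) + 1 ≠ 0 := by positivity
    field_simp
    linear_combination k
  rw [e2] at k1
  have k2 := (YO_I hy h3).mulL (x := 8) (nm 8)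
  exact icg (k1.sub k2) (by ring)

/-- `T_3 ≡ -h_3` -/
theorem T3_I (h5 : 5 < p) : I p 1 (T3 y + H y 3) := by
  have h3 : 3 < p := by omega
  have ep : (p : ℚ) = 2 * y + 1 := by rw [hy]; push_cast; ring
  have k1 : I p 1 (tl y - (-1) * Y3 y) := by
    rw [Y3, mul_sum]
    refine Isum_sub (n := y) (fun m hm => ?_) rfl rfl
    have hm' := mem_range.1 hm
    have hP := uPP hy (k := m + 1) (by omega)
    have hP2 := (PP_I hy (k := m + 1) (by omega)).mono (by norm_num : 1 ≤ 6)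
    have k := PP_odd y (m + 1)
    rw [← ep] at k
    have hz := uz hy (j := m + 1) (by omega)
    have hu := uSucc (p := p) hm' (by omega)
    have hO := Od_mem hy (k := m + 1) (by omega) 2
    have hE := E2o_mem hy (k := m + 1) (by omega)
    have c1 := choose_ne (n := y + (m + 1)) (x := 2 * (m + 1)) (by omega)
    have b1 := cb_ne (m + 1)
    have e1 : (-1) ^ m / (((m : ℚ) + 1) ^ 3 * (Nat.centralBinom (m + 1) : ℚ)) *
        (1 / ((y + (m + 1)).choose (2 * (m + 1)) : ℚ)) =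
        -1 / (((m : ℚ) + 1) ^ 3 * z (m + 1) ^ 2 * PP p (m + 1)) := by
      have e16 : (16 : ℚ) ^ (m + 1) = (4 ^ (m + 1)) ^ 2 := by
        rw [← pow_mul, mul_comm (m + 1) 2, pow_mul]; norm_num
      rw [e16] at k
      have hP0 := hP.1
      have hu0 := hu.1
      unfold z
      have h4 : (4 : ℚ) ^ (m + 1) ≠ 0 := by positivity
      obtain ⟨c, hc⟩ : ∃ c, c = ((y + (m + 1)).choose (2 * (m + 1)) : ℚ) := ⟨_, rfl⟩
      obtain ⟨b, hb⟩ : ∃ b, b = (Nat.centralBinom (m + 1) : ℚ) := ⟨_, rfl⟩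
      obtain ⟨f, hf⟩ : ∃ f, f = (4 : ℚ) ^ (m + 1) := ⟨_, rfl⟩
      obtain ⟨P, hPP⟩ : ∃ P, P = PP p (m + 1) := ⟨_, rfl⟩
      rw [← hb, ← hc, ← hf, ← hPP] at k
      rw [← hb, ← hc, ← hf, ← hPP]
      rw [← hb] at b1
      rw [← hc] at c1
      rw [← hf] at h4
      rw [← hPP] at hP0
      have hn := npm m
      have e6 : (-1 : ℚ) ^ (m + 1) = -((-1) ^ m) := by rw [pow_succ]; ring
      rw [e6] at k
      obtain ⟨s, hs⟩ : ∃ s, s = (-1 : ℚ) ^ m := ⟨_, rfl⟩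
      rw [← hs] at hn k ⊢
      field_simp
      linear_combination (s) * k - (f ^ 2 * c) * hn
    rw [e1]
    have k3 : I p 1 (PP p (m + 1) - 1) := by
      have q : I p 1 (p * (p * (-Od (m + 1) 2 + p ^ 2 * E2o (m + 1)))) := (I_p (p := p)).mulR
        (mul_mem p_mem (add_mem (neg_mem hO) (mul_mem (pow_mem p_mem 2) hE)))
      exact icg (hP2.add q) (by ring)
    have k4 := k3.mulR (y := 1 / (((m : ℚ) + 1) ^ 3 * z (m + 1) ^ 2 * PP p (m + 1)))
      (dmem (one_mem _) (((hu.pow 3).mul (hz.pow 2)).mul hP))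
    refine icg k4 ?_
    have hP0 := hP.1
    have hu0 := hu.1
    have hz0 := hz.1
    field_simp
    ring
  have k2 := Y3_I hy h3
  have ap := apery_fin y
  have u5 : U p (5 : ℚ) := by exact_mod_cast uNat (p := p) (k := 5) (by omega) h5
  have k3 : I p 1 (5 * (T3 y + H y 3)) := by
    refine icg (k1.sub k2) ?_
    linear_combination (-1 : ℚ) * ap
  exact u5.cancel k3

end rel

end Pool.Agent.H547
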