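import Pool.Agent.H547.AcI

set_option autoImplicit false
set_option linter.unusedSectionVars false

/-!
The four congruences.
-/

namespace Pool.Agent.H547

open Finset Pool.Agent.R439.PL

variable {p : ℕ} [hp : Fact p.Prime]

section rel

variable {y : ℕ} (hy : p = 2 * y + 1)
include hy

/-- the summand of the fourth sum -/
def _root_.Pool.Agent.H547.f4 (j : ℕ) : ℚ :=
  ((2 * j).choose j : ℚ) / ((-16) ^ j * (2 * (j : ℚ) + 1) ^ 2)

omit hy hp in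
theorem f4_eq (j : ℕ) : f4 j = z j * ((-1) ^ j / (4 ^ j * (2 * (j : ℚ) + 1) ^ 2)) := by
  unfold f4 z
  rw [← Nat.centralBinom_eq_two_mul_choose]
  have e : (-16 : ℚ) ^ j = (-1) ^ j * (4 ^ j * 4 ^ j) := by
    rw [← mul_pow, ← mul_pow]; norm_num
  rw [e]
  have h := npm j
  have h4 : (4 : ℚ) ^ j ≠ 0 := by positivity
  have hs : (-1 : ℚ) ^ j ≠ 0 := pow_ne_zero _ (by norm_num)
  have h0 := odd_ne j
  obtain ⟨s, hs'⟩ : ∃ s, s = (-1 : ℚ) ^ j := ⟨_, rfl⟩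
  rw [← hs'] at h hs ⊢
  field_simp
  linear_combination (-(Nat.centralBinom j : ℚ)) * h

/-- the main term -/
def _root_.Pool.Agent.H547.Fm (x : ℕ) : ℚ := (-1) ^ (x + 1) * 4 ^ x / (z x * (2 * (x : ℚ) + 1) ^ 3)

theorem four_y (h5 : 5 < p) : I p 1 ((4 : ℚ) ^ y - 1) := by
  have h := T2H53.HB.fermat (p := p) (r := 2) (by rw [mem_Ico]; omega)
  have e : (4 : ℚ) ^ y = 2 ^ (p - 1) := by
    have : p - 1 = 2 * y := by omega
    rw [this, pow_mul]; norm_num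
  rw [e]
  exact_mod_cast h

theorem u4 (h5 : 5 < p) : U p (4 : ℚ) := by
  have := (u2 (p := p) (by omega)).pow 2
  norm_num at this
  exact this

theorem f4_I (h5 : 5 < p) {x : ℕ} (hx : x < y) : I p 2 (f4 (p - (x + 1)) - p * Fm x) := by
  have h3 : 3 < p := by omega
  obtain ⟨z1, z2⟩ := z_refl hy h3 x hx
  have hu := uOdd hy hx
  have hx1 := u2i hy hx
  have hz := uz hy (j := x) hx.le
  have hz1 := uz hy (j := x + 1) (by omega)
  have hzs := z_succ x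
  rw [f4_eq]
  obtain ⟨j, hj⟩ : ∃ j, j = p - (x + 1) := ⟨_, rfl⟩
  rw [← hj] at z1 z2 ⊢
  have hjx : j + x = 2 * y := by omega
  have hjc : (j : ℚ) = p - ((x : ℚ) + 1) := by
    have : ((j + (x + 1) : ℕ) : ℚ) = p := by congr 1; omega
    push_cast at this
    linear_combination this
  have e1 : 2 * (j : ℚ) + 1 = p + ((p : ℚ) - (2 * (x : ℚ) + 1)) := by rw [hjc]; ring
  have hs : (-1 : ℚ) ^ j = (-1) ^ x := by
    have h1 : (-1 : ℚ) ^ j * (-1) ^ x = 1 := by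
      rw [← pow_add, hjx, pow_mul]; norm_num
    linear_combination (-1) ^ x * h1 - (-1) ^ j * npm x
  have hw : U p (2 * (j : ℚ) + 1) := by
    apply U_of_not_I (add_mem (mul_mem (nm 2) (nat_mem j)) (one_mem _))
    intro h
    have k := (I_p (p := p)).mulL (x := 2) (nm 2)
    have k2 := k.sub h
    exact hu.not_I one_pos (icg k2 (by rw [hjc]; ring))
  have h4j : U p ((4 : ℚ) ^ j) := (u4 hy h5).pow j
  have h4x : U p ((4 : ℚ) ^ x) := (u4 hy h5).pow x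
  have f4y : I p 1 ((4 : ℚ) ^ j * 4 ^ x - 1) := by
    have h := four_y hy h5
    rw [← pow_add, hjx, two_mul, pow_add]
    refine icg ((h.mulR (y := (4 : ℚ) ^ y + 1) (add_mem (pow_mem (nm 4) _) (one_mem _)))) (by ring)
  have sq : I p 1 ((2 * (j : ℚ) + 1) ^ 2 - (2 * (x : ℚ) + 1) ^ 2) := by
    refine icg ((I_p (p := p)).mulR (y := 4 * (j : ℚ) - 4 * x) (sub_mem (mul_mem (nm 4) (nat_mem _))
      (mul_mem (nm 4) (nat_mem _)))) ?_
    have : (p : ℚ) = j + x + 1 := by rw [hjc]; ring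
    rw [this]
    ring
  have hA : I p 1 ((-1) ^ j / (4 ^ j * (2 * (j : ℚ) + 1) ^ 2) - (-1) ^ x * 4 ^ x / (2 * (x : ℚ) + 1) ^ 2) := by
    have k1 := f4y.mulR (y := -(-1) ^ x / (4 ^ j * (2 * (j : ℚ) + 1) ^ 2))
      (dmem (neg_mem (pow_mem (neg_mem (one_mem _)) _)) (h4j.mul (hw.pow 2)))
    have k2 := sq.mulR (y := -(-1) ^ x * 4 ^ x / ((2 * (j : ℚ) + 1) ^ 2 * (2 * (x : ℚ) + 1) ^ 2))
      (dmem (mul_mem (neg_mem (pow_mem (neg_mem (one_mem _)) _)) h4x.2.1) ((hw.pow 2).mul (hu.pow 2)))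
    refine icg (k1.add k2) ?_
    rw [hs]
    have a1 := h4j.1
    have a2 := hw.1
    have a3 := hu.1
    obtain ⟨f, hf⟩ : ∃ f, f = (4 : ℚ) ^ j := ⟨_, rfl⟩
    obtain ⟨g, hg⟩ : ∃ g, g = (4 : ℚ) ^ x := ⟨_, rfl⟩
    obtain ⟨v, hv⟩ : ∃ v, v = 2 * (j : ℚ) + 1 := ⟨_, rfl⟩
    obtain ⟨t, ht⟩ : ∃ t, t = 2 * (x : ℚ) + 1 := ⟨_, rfl⟩
    rw [← hf] at a1
    rw [← hv] at a2
    rw [← ht] at a3
    rw [← hf, ← hg, ← hv, ← ht]
    field_simp
    ring
  have m1 := z1.mul hA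
  have m2 := z2.mulR (y := (-1) ^ x * 4 ^ x / ((2 * (x : ℚ) + 1) ^ 2 * (2 * ((x : ℚ) + 1)) * z (x + 1)))
    (dmem (mul_mem (pow_mem (neg_mem (one_mem _)) _) h4x.2.1) (((hu.pow 2).mul hx1).mul hz1))
  refine icg (m1.add m2) ?_
  unfold Fm
  rw [pow_succ (-1 : ℚ) x]
  have a3 := hu.1
  have a4 := hz1.1
  have a5 := hz.1
  have a6 : (x : ℚ) + 1 ≠ 0 := by positivity
  have hz' : z (x + 1) = z x * (2 * (x : ℚ) + 1) / (2 * ((x : ℚ) + 1)) := by rw [hzs]; ring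
  rw [hz'] at a4 ⊢
  obtain ⟨A, hAe⟩ : ∃ A, A = (-1 : ℚ) ^ j / (4 ^ j * (2 * (j : ℚ) + 1) ^ 2) := ⟨_, rfl⟩
  rw [← hAe]
  field_simp
  ring

theorem Fm_I (h5 : 5 < p) : I p 1 (∑ x ∈ range y, Fm x - 1 / 8 * H y 3) := by
  have h3 : 3 < p := by omega
  have k1 : I p 1 (∑ x ∈ range y, Fm x - (-1 / 8) * T3 y) := by
    have e1 : ∑ x ∈ range y, Fm x = ∑ x ∈ range y, Fm (y - 1 - x) := by
      rw [← sum_range_reflect]
    rw [e1, T3, mul_sum]
    refine Isum_sub (n := y) (fun x hx => ?_) rfl rfl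
    have hx' := mem_range.1 hx
    have hz0 := z_mod hy h3 (y - 1 - x) (by omega)
    have hz1 := z_mod hy h3 (x + 1) (by omega)
    have uz0 := uz hy (j := y - 1 - x) (by omega)
    have uz1 := uz hy (j := x + 1) (by omega)
    have hch : (y.choose (y - 1 - x) : ℚ) = (y.choose (x + 1) : ℚ) := by
      have e : y - 1 - x = y - (x + 1) := by omega
      rw [e, Nat.choose_symm (by omega)]
    -- z_{y-1-x} ≡ ε z_{x+1}
    have kz : I p 1 (z (y - 1 - x) - (-1) ^ y * z (x + 1)) := by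
      have k := hz1.2.mulL (x := (-1) ^ y) (pow_mem (neg_mem (one_mem _)) _)
      have k0 := hz0.2
      rw [hch, srefl hx'] at k0
      exact icg (k0.sub k) (by ring)
    unfold Fm
    have e2 := orefl (p := p) hy hx'
    have e3 : (-1 : ℚ) ^ (y - 1 - x + 1) = (-1) ^ y * (-1) ^ x := by
      rw [pow_succ, srefl hx', pow_succ]; ring
    rw [e2, e3]
    have e4 : (4 : ℚ) ^ (y - 1 - x) = 4 ^ y / 4 ^ (x + 1) := by
      rw [eq_div_iff (by positivity), ← pow_add]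
      congr 1
      omega
    rw [e4]
    have hx1 := u2i hy hx'
    have hxs := uSucc (p := p) hx' (by omega)
    have hv := psub hx1
    have hf := (u4 hy h5).pow (x + 1)
    have f4y := four_y hy h5
    have ein : EQ p 1 ((p : ℚ) - 2 * ((x : ℚ) + 1)) (-(2 * ((x : ℚ) + 1))) :=
      ⟨hv.2.1, neg_mem hx1.2.1, icg (I_p (p := p)) (by ring)⟩
    have ez : EQ p 1 (z (y - 1 - x)) ((-1) ^ y * z (x + 1)) :=
      ⟨uz0.2.1, mul_mem (pow_mem (neg_mem (one_mem _)) _) uz1.2.1, kz⟩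
    have eden := ez.mul (ein.pow 3)
    have e4y : EQ p 1 ((4 : ℚ) ^ y) 1 := ⟨pow_mem (nm 4) _, one_mem _, f4y⟩
    have efy := e4y.div one_pos (EQ.refl (p := p) (k := 1) hf.2.1) hf
    have esg := EQ.refl (p := p) (k := 1) (x := (-1 : ℚ) ^ y * (-1) ^ x)
      (mul_mem (pow_mem (neg_mem (one_mem _)) _) (pow_mem (neg_mem (one_mem _)) _))
    have etot := (esg.mul efy).div one_pos eden (uz0.mul (hv.pow 3))
    have ec : (Nat.centralBinom (x + 1) : ℚ) = 4 ^ (x + 1) * z (x + 1) := by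
      unfold z
      field_simp
    rw [ec]
    refine icg etot.2.2 ?_
    have a1 := uz1.1
    have a2 := hxs.1
    have a3 := hf.1
    have hs : (-1 : ℚ) ^ y ≠ 0 := pow_ne_zero _ (by norm_num)
    obtain ⟨f, hf'⟩ : ∃ f, f = (4 : ℚ) ^ (x + 1) := ⟨_, rfl⟩
    obtain ⟨e, he⟩ : ∃ e, e = (-1 : ℚ) ^ y := ⟨_, rfl⟩
    rw [← hf'] at a3
    rw [← he] at hs
    rw [← hf', ← he]
    congr 1
    field_simp
    ring
  have k2 := (T3_I hy h5).mulL (x := 1 / 8) (m23 h3 1 3 0 (by norm_num))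
  exact icg (k1.sub k2) (by ring)

theorem U4_I (h5 : 5 < p) : I p 2 (∑ j ∈ Icc ((p + 1) / 2) (p - 1), f4 j - p / 8 * H y 3) := by
  have h3 : 3 < p := by omega
  have e1 : ∑ j ∈ Icc ((p + 1) / 2) (p - 1), f4 j = ∑ x ∈ range y, f4 (p - (x + 1)) := by
    have e2 : Icc ((p + 1) / 2) (p - 1) = Ico (y + 1) (2 * y + 1) := by
      ext t
      simp only [mem_Icc, mem_Ico]
      omega
    rw [e2, sum_Ico_eq_sum_range, ← sum_range_reflect]
    have e3 : 2 * y + 1 - (y + 1) = y := by omega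
    rw [e3]
    refine sum_congr rfl fun x hx => ?_
    have := mem_range.1 hx
    congr 1
    omega
  rw [e1]
  have k1 : I p 2 (∑ x ∈ range y, f4 (p - (x + 1)) - ∑ x ∈ range y, p * Fm x) :=
    Isum_sub (n := y) (fun x hx => f4_I hy h5 (mem_range.1 hx)) rfl rfl
  rw [← mul_sum] at k1
  have k2 := (I_p (p := p)).mul (Fm_I hy h5)
  exact icg (k1.add k2) (by ring)

theorem acm1 (h5 : 5 < p) : I p 5 (∑ n ∈ range y, aa n -
    (-1) ^ y * (1 / 12 * H (2 * y) 1 + 3 / 160 * p ^ 4 * bernoulli (p - 5))) := by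
  have h3 : 3 < p := by omega
  have hem : (-1 : ℚ) ^ y ∈ Zp p := pow_mem (neg_mem (one_mem _)) _
  have k1 := (S1_pre hy h5).mulL (x := (-1) ^ y * (1 / 3)) (mul_mem hem (m23 h3 1 0 1 (by norm_num)))
  have k2 := ((Ipow (I_p (p := p)) 4).mul (bern_h5 hy h5)).mulL (x := (-1) ^ y * (1 / 320))
    (mul_mem hem (m235 hy h5 3 6 0 (by norm_num)))
  refine icg (k1.sub k2) ?_
  linear_combination (∑ n ∈ range y, aa n) * npm y

theorem acm2 (h5 : 5 < p) : I p 3 (∑ n ∈ range y, aa n / (2 * (n : ℚ) + 1) ^ 2 -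
    (-1) ^ y * (1 / (4 * p ^ 2) * H (2 * y) 1 + 1 / 36 * p ^ 2 * bernoulli (p - 5))) := by
  have h3 : 3 < p := by omega
  have hp0 : (p : ℚ) ≠ 0 := p_ne
  have hem : (-1 : ℚ) ^ y ∈ Zp p := pow_mem (neg_mem (one_mem _)) _
  have k1 := (S3_pre hy h5).mulL (x := (-1) ^ y * (1 / 4)) (mul_mem hem (m23 h3 1 2 0 (by norm_num)))
  have k2 := ((Ipow (I_p (p := p)) 4).mul (bern_h5 hy h5)).mulL (x := (-1) ^ y * (1 / 216))
    (mul_mem hem (m23 h3 1 3 3 (by norm_num)))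
  apply I_p_mul_iff.1
  apply I_p_mul_iff.1
  refine icg (k1.sub k2) ?_
  have hn := npm y
  obtain ⟨S, hS⟩ : ∃ S, S = ∑ n ∈ range y, aa n / (2 * (n : ℚ) + 1) ^ 2 := ⟨_, rfl⟩
  obtain ⟨e, he⟩ : ∃ e, e = (-1 : ℚ) ^ y := ⟨_, rfl⟩
  rw [← he] at hn
  rw [← hS, ← he]
  field_simp
  linear_combination (1679616 * p ^ 2 * S) * hn

theorem acm3 (h5 : 5 < p) : I p 3 (∑ n ∈ range y, rr n / (2 * (n : ℚ) + 1) -
    1 / (5 * p) * H (2 * y) 1) := by
  have hp0 : (p : ℚ) ≠ 0 := p_ne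
  have u5 : U p (5 : ℚ) := by exact_mod_cast uNat (p := p) (k := 5) (by omega) h5
  apply u5.cancel
  refine icg (S2_pre hy h5) ?_
  field_simp

theorem acm4 (h5 : 5 < p) : I p 2 (∑ j ∈ Icc ((p + 1) / 2) (p - 1), f4 j -
    (-(1 / 4) * p * bernoulli (p - 3))) := by
  have h3 : 3 < p := by omega
  have k1 := U4_I hy h5
  have k2 := ((I_p (p := p)).mul (bern_h3 hy h3)).mulL (x := 1 / 8) (m23 h3 1 3 0 (by norm_num))
  exact icg (k1.add k2) (by ring)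

end rel

end Pool.Agent.H547
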