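import Mathlib
import Pool.Graph.R_seed8.R439.PLoc

set_option autoImplicit false
set_option linter.unusedSectionVars false

/-!
Calculus of truncated logarithms modulo the fifth power of a prime.
-/

namespace Pool.Agent.H547

open Finset Pool.Agent.R439.PL

variable {p : ℕ} [hp : Fact p.Prime]

theorem icg {k : ℕ} {x y : ℚ} (h : I p k x) (e : x = y) : I p k y := e ▸ h

theorem I_of_mem {x : ℚ} (k : ℕ) {y : ℚ} (hy : y ∈ Zp p) (e : x = (p : ℚ) ^ k * y) : I p k x :=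
  ⟨y, hy, e⟩

theorem uNat {k : ℕ} (h0 : 0 < k) (hk : k < p) : U p (k : ℚ) := by
  have : ¬ (p : ℤ) ∣ (k : ℤ) := by
    intro h
    have := Nat.le_of_dvd h0 (Int.natCast_dvd_natCast.1 h)
    omega
  exact_mod_cast U_int this

theorem uSucc {i n : ℕ} (hi : i < n) (hn : n < p) : U p ((i : ℚ) + 1) := by
  have := uNat (p := p) (k := i + 1) (by omega) (by omega)
  exact_mod_cast this

theorem dmem {x y : ℚ} (hx : x ∈ Zp p) (hy : U p y) : x / y ∈ Zp p := by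
  rw [div_eq_mul_inv]; exact mul_mem hx hy.2.2

theorem nm (n : ℕ) [n.AtLeastTwo] : (OfNat.ofNat n : ℚ) ∈ Zp p := by
  have := nat_mem (p := p) n
  exact this

theorem u2 (h : 2 < p) : U p (2 : ℚ) := by exact_mod_cast uNat (p := p) (k := 2) (by omega) h
theorem u3 (h : 3 < p) : U p (3 : ℚ) := by exact_mod_cast uNat (p := p) (k := 3) (by omega) h

/-- rationals with denominator a product of powers of `2` and `3` -/
theorem m23 (h3 : 3 < p) {q : ℚ} (a : ℤ) (i j : ℕ) (h : q = a / (2 ^ i * 3 ^ j)) : q ∈ Zp p := by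
  rw [h]
  exact dmem (int_mem a) (((u2 (by omega)).pow i).mul ((u3 h3).pow j))

/-- the truncated exponential -/
def e4 (x : ℚ) : ℚ := 1 + x + x ^ 2 / 2 + x ^ 3 / 6 + x ^ 4 / 24

theorem e4_zero : e4 0 = 1 := by unfold e4; norm_num

theorem Ipow {x : ℚ} (hx : I p 1 x) (n : ℕ) : I p n (x ^ n) := by
  obtain ⟨y, hy, rfl⟩ := hx
  exact ⟨y ^ n, pow_mem hy n, by rw [pow_one, mul_pow]⟩

theorem e4_mem (h3 : 3 < p) {x : ℚ} (hx : I p 1 x) : e4 x ∈ Zp p := by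
  have h := hx.mem
  unfold e4
  have h2 : (1 / 2 : ℚ) ∈ Zp p := m23 h3 1 1 0 (by norm_num)
  have h6 : (1 / 6 : ℚ) ∈ Zp p := m23 h3 1 1 1 (by norm_num)
  have h24 : (1 / 24 : ℚ) ∈ Zp p := m23 h3 1 3 1 (by norm_num)
  have e : 1 + x + x ^ 2 / 2 + x ^ 3 / 6 + x ^ 4 / 24 =
    1 + x + x ^ 2 * (1 / 2) + x ^ 3 * (1 / 6) + x ^ 4 * (1 / 24) := by ring
  rw [e]
  exact add_mem (add_mem (add_mem (add_mem (one_mem _) h) (mul_mem (pow_mem h _) h2))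
    (mul_mem (pow_mem h _) h6)) (mul_mem (pow_mem h _) h24)

theorem e4_mul (h3 : 3 < p) {x y : ℚ} (hx : I p 1 x) (hy : I p 1 y) :
    I p 5 (e4 x * e4 y - e4 (x + y)) := by
  obtain ⟨a, ha, rfl⟩ := hx
  obtain ⟨b, hb, rfl⟩ := hy
  rw [pow_one]
  have k1 : (1 / 24 : ℚ) ∈ Zp p := m23 h3 1 3 1 (by norm_num)
  have k2 : (1 / 12 : ℚ) ∈ Zp p := m23 h3 1 2 1 (by norm_num)
  have k3 : (1 / 36 : ℚ) ∈ Zp p := m23 h3 1 2 2 (by norm_num)
  have k4 : (1 / 48 : ℚ) ∈ Zp p := m23 h3 1 4 1 (by norm_num)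
  have k5 : (1 / 144 : ℚ) ∈ Zp p := m23 h3 1 4 2 (by norm_num)
  have k6 : (1 / 576 : ℚ) ∈ Zp p := m23 h3 1 6 2 (by norm_num)
  have hp1 := p_mem (p := p)
  refine ⟨(a ^ 4 * b + a * b ^ 4) * (1 / 24) + (a ^ 3 * b ^ 2 + a ^ 2 * b ^ 3) * (1 / 12) +
    p * (a ^ 3 * b ^ 3 * (1 / 36) + (a ^ 4 * b ^ 2 + a ^ 2 * b ^ 4) * (1 / 48)) +
    p ^ 2 * ((a ^ 4 * b ^ 3 + a ^ 3 * b ^ 4) * (1 / 144)) + p ^ 3 * (a ^ 4 * b ^ 4 * (1 / 576)),
    ?_, ?_⟩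
  · have g : ∀ i j : ℕ, a ^ i * b ^ j ∈ Zp p := fun i j => mul_mem (pow_mem ha i) (pow_mem hb j)
    refine add_mem (add_mem (add_mem (add_mem (mul_mem (add_mem ?_ ?_) k1)
      (mul_mem (add_mem ?_ ?_) k2)) (mul_mem hp1 (add_mem (mul_mem ?_ k3)
      (mul_mem (add_mem ?_ ?_) k4)))) (mul_mem (pow_mem hp1 2) (mul_mem (add_mem ?_ ?_) k5)))
      (mul_mem (pow_mem hp1 3) (mul_mem ?_ k6))
    · simpa using g 4 1
    · simpa using g 1 4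
    all_goals exact g _ _
  · unfold e4
    ring

/-- `x ≡ exp l` modulo `p^5` -/
def LE (p : ℕ) [Fact p.Prime] (x l : ℚ) : Prop := I p 1 l ∧ I p 5 (x - e4 l)

theorem LE.mem (h3 : 3 < p) {x l : ℚ} (h : LE p x l) : x ∈ Zp p := by
  have := add_mem h.2.mem (e4_mem h3 h.1)
  rwa [sub_add_cancel] at this

theorem LE.one : LE p 1 0 := ⟨I.zero, by rw [e4_zero, sub_self]; exact I.zero⟩

theorem LE.mul (h3 : 3 < p) {x y l m : ℚ} (hx : LE p x l) (hy : LE p y m) :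
    LE p (x * y) (l + m) := by
  refine ⟨hx.1.add hy.1, ?_⟩
  have h1 := hx.2.mulR (hy.mem h3)
  have h2 := hy.2.mulL (e4_mem h3 hx.1)
  refine icg ((h1.add h2).add (e4_mul h3 hx.1 hy.1)) (by ring)

theorem LE.congr {x l m : ℚ} (h3 : 3 < p) (hx : LE p x l) (h : I p 5 (l - m)) : LE p x m := by
  have hm : I p 1 m := icg (hx.1.sub (h.mono (by norm_num))) (by ring)
  refine ⟨hm, ?_⟩
  have h1 : I p 5 (e4 l - e4 m) := by
    have k2 : (1 / 2 : ℚ) ∈ Zp p := m23 h3 1 1 0 (by norm_num)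
    have k6 : (1 / 6 : ℚ) ∈ Zp p := m23 h3 1 1 1 (by norm_num)
    have k24 : (1 / 24 : ℚ) ∈ Zp p := m23 h3 1 3 1 (by norm_num)
    have a := hx.1.mem
    have b := hm.mem
    have q : (1 + (l + m) * (1 / 2) + (l ^ 2 + l * m + m ^ 2) * (1 / 6) +
        (l + m) * (l ^ 2 + m ^ 2) * (1 / 24)) ∈ Zp p :=
      add_mem (add_mem (add_mem (one_mem _) (mul_mem (add_mem a b) k2))
        (mul_mem (add_mem (add_mem (pow_mem a 2) (mul_mem a b)) (pow_mem b 2)) k6))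
        (mul_mem (mul_mem (add_mem a b) (add_mem (pow_mem a 2) (pow_mem b 2))) k24)
    refine icg (h.mulR q) ?_
    unfold e4
    ring
  exact icg (hx.2.add h1) (by ring)

theorem LE.unit (h3 : 3 < p) {x l : ℚ} (h : LE p x l) : U p x := by
  apply U_of_not_I (h.mem h3)
  intro hx
  apply not_I_one (p := p)
  have h1 := h.2.mono (by norm_num : 1 ≤ 5)
  have h2 : I p 1 (e4 l - 1) := by
    have k2 : (1 / 2 : ℚ) ∈ Zp p := m23 h3 1 1 0 (by norm_num)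
    have k6 : (1 / 6 : ℚ) ∈ Zp p := m23 h3 1 1 1 (by norm_num)
    have k24 : (1 / 24 : ℚ) ∈ Zp p := m23 h3 1 3 1 (by norm_num)
    have a := h.1.mem
    have q : (1 + l * (1 / 2) + l ^ 2 * (1 / 6) + l ^ 3 * (1 / 24)) ∈ Zp p :=
      add_mem (add_mem (add_mem (one_mem _) (mul_mem a k2)) (mul_mem (pow_mem a 2) k6))
        (mul_mem (pow_mem a 3) k24)
    refine icg (h.1.mulR q) ?_
    unfold e4
    ring
  exact icg ((hx.sub h1).sub h2) (by ring)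

theorem LE.inv (h3 : 3 < p) {x l : ℚ} (h : LE p x l) : LE p x⁻¹ (-l) := by
  refine ⟨h.1.neg, ?_⟩
  have hu := h.unit h3
  have h1 := e4_mul h3 h.1 h.1.neg
  rw [add_neg_cancel, e4_zero] at h1
  have h2 := h.2.mulR (e4_mem h3 h.1.neg)
  -- x * e4(-l) ≡ 1
  have h4 : I p 5 (x * e4 (-l) - 1) := icg (h2.add h1) (by ring)
  have h5 := (h4.mulL hu.2.2).neg
  refine icg h5 ?_
  have := hu.1
  field_simp
  ring

theorem LE.div (h3 : 3 < p) {x y l m : ℚ} (hx : LE p x l) (hy : LE p y m) :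
    LE p (x / y) (l - m) := by
  rw [div_eq_mul_inv, sub_eq_add_neg]
  exact hx.mul h3 (hy.inv h3)

theorem LE.pow (h3 : 3 < p) {x l : ℚ} (h : LE p x l) (n : ℕ) : LE p (x ^ n) (n * l) := by
  induction n with
  | zero => simpa using LE.one
  | succ n ih =>
    rw [pow_succ]
    have := ih.mul h3 h
    have e : (n : ℚ) * l + l = ((n + 1 : ℕ) : ℚ) * l := by push_cast; ring
    rwa [e] at this

theorem LE.prod (h3 : 3 < p) {ι : Type*} {s : Finset ι} {f g : ι → ℚ}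
    (h : ∀ i ∈ s, LE p (f i) (g i)) : LE p (∏ i ∈ s, f i) (∑ i ∈ s, g i) := by
  classical
  induction s using Finset.induction_on with
  | empty => simpa using LE.one
  | insert a s ha ih =>
    rw [prod_insert ha, sum_insert ha]
    exact (h a (mem_insert_self _ _)).mul h3 (ih fun i hi => h i (mem_insert_of_mem hi))

/-- the truncated logarithm of `1 + x` -/
def l4 (x : ℚ) : ℚ := x - x ^ 2 / 2 + x ^ 3 / 3 - x ^ 4 / 4

theorem LE.one_add (h3 : 3 < p) {x : ℚ} (hx : I p 1 x) : LE p (1 + x) (l4 x) := by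
  have a := hx.mem
  have k2 : (1 / 2 : ℚ) ∈ Zp p := m23 h3 1 1 0 (by norm_num)
  have k3 : (1 / 3 : ℚ) ∈ Zp p := m23 h3 1 0 1 (by norm_num)
  have k4 : (1 / 4 : ℚ) ∈ Zp p := m23 h3 1 2 0 (by norm_num)
  constructor
  · have q : (1 - x * (1 / 2) + x ^ 2 * (1 / 3) - x ^ 3 * (1 / 4)) ∈ Zp p :=
      sub_mem (add_mem (sub_mem (one_mem _) (mul_mem a k2)) (mul_mem (pow_mem a 2) k3))
        (mul_mem (pow_mem a 3) k4)
    refine icg (hx.mulR q) ?_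
    unfold l4
    ring
  · have c : ∀ (m : ℤ) (i j n : ℕ), (m / (2 ^ i * 3 ^ j) : ℚ) * x ^ n ∈ Zp p := fun m i j n =>
      mul_mem (m23 h3 m i j rfl) (pow_mem a n)
    refine icg ((Ipow hx 5).mulR (y := ((5 : ℤ) / (2 ^ 3 * 3 ^ 1) : ℚ) * x ^ 0 +
      ((1 : ℤ) / (2 ^ 3 * 3 ^ 2) : ℚ) * x ^ 1 + ((1 : ℤ) / (2 ^ 4 * 3 ^ 2) : ℚ) * x ^ 2 +
      ((-3 : ℤ) / (2 ^ 7 * 3 ^ 0) : ℚ) * x ^ 3 + ((37 : ℤ) / (2 ^ 4 * 3 ^ 4) : ℚ) * x ^ 4 +
      ((-239 : ℤ) / (2 ^ 6 * 3 ^ 4) : ℚ) * x ^ 5 + ((169 : ℤ) / (2 ^ 6 * 3 ^ 4) : ℚ) * x ^ 6 +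
      ((-1193 : ℤ) / (2 ^ 8 * 3 ^ 5) : ℚ) * x ^ 7 + ((97 : ℤ) / (2 ^ 7 * 3 ^ 4) : ℚ) * x ^ 8 +
      ((-7 : ℤ) / (2 ^ 8 * 3 ^ 2) : ℚ) * x ^ 9 + ((1 : ℤ) / (2 ^ 7 * 3 ^ 2) : ℚ) * x ^ 10 +
      ((-1 : ℤ) / (2 ^ 11 * 3 ^ 1) : ℚ) * x ^ 11) ?_) ?_
    · refine add_mem (add_mem (add_mem (add_mem (add_mem (add_mem (add_mem (add_mem (add_mem
        (add_mem (add_mem ?_ ?_) ?_) ?_) ?_) ?_) ?_) ?_) ?_) ?_) ?_) ?_
      all_goals exact c _ _ _ _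
    · unfold l4 e4
      push_cast
      ring

theorem LE.small (h3 : 3 < p) {x l : ℚ} (h : LE p x l) (hl : I p 3 l) : I p 5 (x - (1 + l)) := by
  have k2 : (1 / 2 : ℚ) ∈ Zp p := m23 h3 1 1 0 (by norm_num)
  have k6 : (1 / 6 : ℚ) ∈ Zp p := m23 h3 1 1 1 (by norm_num)
  have k24 : (1 / 24 : ℚ) ∈ Zp p := m23 h3 1 3 1 (by norm_num)
  have a := hl.mem
  have q : (1 / 2 + l * (1 / 6) + l ^ 2 * (1 / 24) : ℚ) ∈ Zp p :=
    add_mem (add_mem k2 (mul_mem a k6)) (mul_mem (pow_mem a 2) k24)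
  have h6 : I p 5 (l * l) := (hl.mul hl).mono (by norm_num)
  refine icg (h.2.add (h6.mulR q)) ?_
  unfold e4
  ring

/-- power sums of the inverses of `1, ..., n` -/
def H (n r : ℕ) : ℚ := ∑ i ∈ range n, 1 / ((i : ℚ) + 1) ^ r

theorem H_zero (r : ℕ) : H 0 r = 0 := by simp [H]

theorem H_succ (n r : ℕ) : H (n + 1) r = H n r + 1 / ((n : ℚ) + 1) ^ r := by
  rw [H, sum_range_succ]; rfl

theorem H_mem {n : ℕ} (hn : n < p) (r : ℕ) : H n r ∈ Zp p :=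
  sum_mem fun _ hi => dmem (one_mem _) ((uSucc (mem_range.1 hi) hn).pow r)

/-- `∏ (1 + c p / i)`, `1 ≤ i ≤ n` -/
theorem LE.prodH (h3 : 3 < p) {n : ℕ} (hn : n < p) {c : ℚ} (hc : c ∈ Zp p) :
    LE p (∏ i ∈ range n, (1 + c * p / ((i : ℚ) + 1)))
      (c * p * H n 1 - (c * p) ^ 2 / 2 * H n 2 + (c * p) ^ 3 / 3 * H n 3 -
        (c * p) ^ 4 / 4 * H n 4) := by
  have h := LE.prod (p := p) h3 (s := range n) (f := fun i => 1 + c * p / ((i : ℚ) + 1))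
    (g := fun i => l4 (c * p / ((i : ℚ) + 1))) (fun i hi => LE.one_add h3 (by
      have hu := uSucc (mem_range.1 hi) hn
      exact icg ((I_p (p := p)).mulR (mul_mem hc hu.2.2)) (by rw [div_eq_mul_inv]; ring)))
  refine (congrArg (LE p _) ?_).mp h
  unfold l4 H
  rw [mul_sum, mul_sum, mul_sum, mul_sum, ← sum_sub_distrib, ← sum_add_distrib, ← sum_sub_distrib]
  refine sum_congr rfl fun i _ => ?_
  have : (i : ℚ) + 1 ≠ 0 := by positivity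
  field_simp

end Pool.Agent.H547
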