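import Pool.Agent.H546.Hasse

set_option autoImplicit false

/-!
# The isogeny of degree five for the member `z (1 - z) = -1` of the cubic family
-/

namespace Pool.Agent.H547

open Polynomial Pool.Agent.H546

section

variable {R : Type*} [CommRing R]

noncomputable def gN (t : R) : R[X] := 20 * C t * X ^ 4 + 300 * C t * X ^ 3 - 1100 * C t * X ^ 2 + 4980 * C t * X - 9000 * C t + X ^ 5 + 90 * X ^ 3 + 480 * X ^ 2 - 2195 * X + 2280

noncomputable def gh (t : R) : R[X] := 10 * C t * X - 6 * C t + X ^ 2 - 1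

theorem gN_der (t : R) : derivative (gN t) = 80 * C t * X ^ 3 + 900 * C t * X ^ 2 - 2200 * C t * X + 4980 * C t + 5 * X ^ 4 + 270 * X ^ 2 + 960 * X - 2195 := by
  simp only [gN, derivative_add, derivative_sub, derivative_mul, derivative_pow, derivative_C,
    derivative_X, derivative_ofNat, derivative_one]
  push_cast
  simp only [map_ofNat]
  ring

theorem gh_der (t : R) : derivative (gh t) = 10 * C t + 2 * X := by
  simp only [gh, derivative_add, derivative_sub, derivative_mul, derivative_pow, derivative_C,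
    derivative_X, derivative_ofNat, derivative_one]
  push_cast
  simp only [map_ofNat]
  ring

theorem g_ode {t : R} (h5 : 5 * t ^ 2 = 1) :
    cub (ca (2 + 10 * t)) (cb (2 + 10 * t)) * C 1 *
      (derivative (gN t) * gh t - 2 * gN t * derivative (gh t)) ^ 2 =
    gN t ^ 3 + C (ca (2 - 10 * t) * (5 * t) ^ 4) * C 1 ^ 2 * gN t * gh t ^ 4 +
      C (cb (2 - 10 * t) * (5 * t) ^ 6) * C 1 ^ 3 * gh t ^ 6 := by
  have h : 5 * (C t : R[X]) ^ 2 = 1 := by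
    have := congrArg (C : R → R[X]) h5
    simpa only [C_mul, C_pow, map_ofNat, C_1] using this
  rw [gN_der, gh_der]
  simp only [gN, gh, cub, ca, cb, C_add, C_sub, C_mul, C_pow, map_ofNat, C_1]
  generalize (C t : R[X]) = T at h ⊢
  linear_combination (-312500000000 * T ^ 12 * X ^ 6 + 1125000000000 * T ^ 12 * X ^ 5 - 1687500000000 * T ^ 12 * X ^ 4 + 1350000000000 * T ^ 12 * X ^ 3 - 607500000000 * T ^ 12 * X ^ 2 + 145800000000 * T ^ 12 * X - 14580000000 * T ^ 12 - 187500000000 * T ^ 11 * X ^ 7 + 125000000000 * T ^ 11 * X ^ 6 + 1087500000000 * T ^ 11 * X ^ 5 - 2520000000000 * T ^ 11 * X ^ 4 + 2443500000000 * T ^ 11 * X ^ 3 - 1240920000000 * T ^ 11 * X ^ 2 + 325620000000 * T ^ 11 * X - 34992000000 * T ^ 11 - 46875000000 * T ^ 10 * X ^ 8 - 150000000000 * T ^ 10 * X ^ 7 + 648750000000 * T ^ 10 * X ^ 6 - 394500000000 * T ^ 10 * X ^ 5 - 779700000000 * T ^ 10 * X ^ 4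 + 1373400000000 * T ^ 10 * X ^ 3 - 890838000000 * T ^ 10 * X ^ 2 + 271836000000 * T ^ 10 * X - 32610600000 * T ^ 10 - 6250000000 * T ^ 9 * X ^ 9 - 54375000000 * T ^ 9 * X ^ 8 + 90750000000 * T ^ 9 * X ^ 7 + 105850000000 * T ^ 9 * X ^ 6 - 146550000000 * T ^ 9 * X ^ 5 - 299580000000 * T ^ 9 * X ^ 4 + 640570000000 * T ^ 9 * X ^ 3 - 466016400000 * T ^ 9 * X ^ 2 + 155304000000 * T ^ 9 * X - 20061000000 * T ^ 9 - 468750000 * T ^ 8 * X ^ 10 - 8187500000 * T ^ 8 * X ^ 9 - 731250000 * T ^ 8 * X ^ 8 + 28200000000 * T ^ 8 * X ^ 7 - 52657500000 * T ^ 8 * X ^ 6 + 504789000000 * T ^ 8 * X ^ 5 - 1849442100000 * T ^ 8 * X ^ 4 + 2760716000000 * T ^ 8 * X ^ 3 - 1999039350000 * T ^ 8 * X ^ 2 + 704895300000 * T ^ 8 * X - 97397370000 * T ^ 8 - 18750000 * T ^ 7 * X ^ 11 - 645000000 * T ^ 7 * X ^ 10 - 1068750000 * T ^ 7 * X ^ 9 + 2047500000 * T ^ 7 * X ^ 8 - 20062500000 * T ^ 7 * X ^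 7 + 208052600000 * T ^ 7 * X ^ 6 - 633753780000 * T ^ 7 * X ^ 5 + 579619200000 * T ^ 7 * X ^ 4 + 203443650000 * T ^ 7 * X ^ 3 - 622189680000 * T ^ 7 * X ^ 2 + 346044450000 * T ^ 7 * X - 62585100000 * T ^ 7 - 312500 * T ^ 6 * X ^ 12 - 26250000 * T ^ 6 * X ^ 11 - 59250000 * T ^ 6 * X ^ 10 - 25750000 * T ^ 6 * X ^ 9 - 1934512500 * T ^ 6 * X ^ 8 + 30262020000 * T ^ 6 * X ^ 7 - 100881800000 * T ^ 6 * X ^ 6 + 103468860000 * T ^ 6 * X ^ 5 - 92595457500 * T ^ 6 * X ^ 4 + 217318150000 * T ^ 6 * X ^ 3 - 277096470000 * T ^ 6 * X ^ 2 + 148398810000 * T ^ 6 * X - 28377861500 * T ^ 6 - 437500 * T ^ 5 * X ^ 12 + 2625000 * T ^ 5 * X ^ 11 - 12900000 * T ^ 5 * X ^ 10 + 99495000 * T ^ 5 * X ^ 9 + 2504362500 * T ^ 5 * X ^ 8 - 10627710000 * T ^ 5 * X ^ 7 + 21085620000 * T ^ 5 * X ^ 6 - 59741466000 * T ^ 5 * X ^ 5 + 77792527500 * T ^ 5 * X ^ 4 + 99405000 * T ^ 5 * X ^ 3 - 70111536000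 * T ^ 5 * X ^ 2 + 49084515000 * T ^ 5 * X - 10397732500 * T ^ 5 + 318750 * T ^ 4 * X ^ 12 - 555000 * T ^ 4 * X ^ 11 + 26062500 * T ^ 4 * X ^ 10 + 150445000 * T ^ 4 * X ^ 9 - 463933750 * T ^ 4 * X ^ 8 + 2762274000 * T ^ 4 * X ^ 7 - 13924377000 * T ^ 4 * X ^ 6 + 21629562000 * T ^ 4 * X ^ 5 - 30697632750 * T ^ 4 * X ^ 4 + 71715401000 * T ^ 4 * X ^ 3 - 56610301500 * T ^ 4 * X ^ 2 - 194205543000 * T ^ 4 * X + 445905946950 * T ^ 4 + 7500 * T ^ 3 * X ^ 13 + 25000 * T ^ 3 * X ^ 12 + 1687500 * T ^ 3 * X ^ 11 + 5332500 * T ^ 3 * X ^ 10 + 42354000 * T ^ 3 * X ^ 9 + 306378500 * T ^ 3 * X ^ 8 - 1939364200 * T ^ 3 * X ^ 7 + 4019161800 * T ^ 3 * X ^ 6 - 12428807700 * T ^ 3 * X ^ 5 + 32357007600 * T ^ 3 * X ^ 4 - 6629844900 * T ^ 3 * X ^ 3 - 314510252700 * T ^ 3 * X ^ 2 + 969027439800 * T ^ 3 * X - 857624692700 * T ^ 3 + 1875 * T ^ 2 * X ^ 13 + 63750 * T ^ 2 * X ^ 12 + 82250 *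 T ^ 2 * X ^ 11 + 6837700 * T ^ 2 * X ^ 10 + 22914905 * T ^ 2 * X ^ 9 - 96384950 * T ^ 2 * X ^ 8 + 497887100 * T ^ 2 * X ^ 7 - 2479484680 * T ^ 2 * X ^ 6 + 4632710325 * T ^ 2 * X ^ 5 + 13477986650 * T ^ 2 * X ^ 4 - 175617520550 * T ^ 2 * X ^ 3 + 633652229700 * T ^ 2 * X ^ 2 - 968635754625 * T ^ 2 * X + 544010020950 * T ^ 2 + 1500 * T * X ^ 13 + 8200 * T * X ^ 12 + 264540 * T * X ^ 11 + 26340 * T * X ^ 10 + 13623440 * T * X ^ 9 + 3270740 * T * X ^ 8 - 223353160 * T * X ^ 7 + 1328753640 * T * X ^ 6 - 4125303300 * T * X ^ 5 - 12365290000 * T * X ^ 4 + 112782352300 * T * X ^ 3 - 284016828300 * T * X ^ 2 + 317119728600 * T * X - 136069218700 * T + 475 * X ^ 13 + 3338 * X ^ 12 - 6790 * X ^ 11 + 79180 * X ^ 10 + 875825 * X ^ 9 + 18740390 * X ^ 8 - 36602980 * X ^ 7 - 448569880 * X ^ 6 + 1367772525 * X ^ 5 + 2588840150 * X ^ 4 - 18756578550 * X ^ 3 + 36931975500 * X ^ 2 -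 33185667225 * X + 11746355450) * h

theorem g_bez {t : R} (h5 : 5 * t ^ 2 = 1) :
    (-775 * C t * X + 125 * C t + 325 * X - 175) * gN t + (775 * C t * X ^ 4 - 3375 * C t * X ^ 3 - 42675 * C t * X ^ 2 + 536675 * C t * X - 1117920 * C t - 325 * X ^ 4 + 1725 * X ^ 3 + 24105 * X ^ 2 - 235225 * X + 496320) * gh t = C 221184 := by
  have h : 5 * (C t : R[X]) ^ 2 = 1 := by
    have := congrArg (C : R → R[X]) h5
    simpa only [C_mul, C_pow, map_ofNat, C_1] using this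
  simp only [gN, gh, map_ofNat]
  generalize (C t : R[X]) = T at h ⊢
  linear_combination (-1550 * X ^ 5 - 53680 * X ^ 4 + 96700 * X ^ 3 + 325160 * X ^ 2 - 1360350 * X + 1116504) * h

end

end Pool.Agent.H547
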