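import Pool.Agent.H546.Util
import Pool.Agent.H547.CcfDat

set_option autoImplicit false

/-!
# The sum with `-27`
-/

namespace Pool.Agent.H547

open Finset Pool.Agent.H546
open Pool.Agent.Q267.CDE (R)
open Pool.Agent.Q267.MW (u3)

section ccf

variable (p : ℕ) [hp : Fact p.Prime]

theorem ccf_main (h5 : 5 < p) {wi : R p} (hwi : ((-27 : ℤ) : R p) * wi = 1) :
    (∀ x y : ℤ, (p % 15 = 1 ∨ p % 15 = 4) → (p : ℤ) = x ^ 2 + 15 * y ^ 2 →
      ∑ k ∈ range p, (k.centralBinom : R p) * ((u3 k : ℕ) : R p) * wi ^ k = ((4 * x ^ 2 - 2 * p : ℤ) : R p)) ∧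
    (∀ x y : ℤ, (p % 15 = 2 ∨ p % 15 = 8) → (p : ℤ) = 5 * x ^ 2 + 3 * y ^ 2 →
      ∑ k ∈ range p, (k.centralBinom : R p) * ((u3 k : ℕ) : R p) * wi ^ k = ((20 * x ^ 2 - 2 * p : ℤ) : R p)) ∧
    ((p % 15 = 7 ∨ p % 15 = 11 ∨ p % 15 = 13 ∨ p % 15 = 14) →
      ∑ k ∈ range p, (k.centralBinom : R p) * ((u3 k : ℕ) : R p) * wi ^ k = 0) := by
  have hp2 : p ≠ 2 := by omega
  have n2 : ¬ (p : ℤ) ∣ 2 := by
    have := ndvd_of_primes p (n := 2) (l := [2]) (by simp; norm_num) (by norm_num) (by simp; omega)
    exact_mod_cast this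
  have n3 : ¬ (p : ℤ) ∣ 3 := by
    have := ndvd_of_primes p (n := 3) (l := [3]) (by simp; norm_num) (by norm_num) (by simp; omega)
    exact_mod_cast this
  have n5 : ¬ (p : ℤ) ∣ 5 := by
    have := ndvd_of_primes p (n := 5) (l := [5]) (by simp; norm_num) (by norm_num) (by simp; omega)
    exact_mod_cast this
  have hpz : Prime (p : ℤ) := Nat.prime_iff_prime_int.mp hp.out
  have r2 := red_int_ne n2
  have r3 := red_int_ne n3
  have r5 := red_int_ne n5
  rw [Int.cast_ofNat] at r2 r3 r5
  have r2' : (2 : kb p) ≠ 0 := by rw [map_ofNat] at r2; exact r2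
  have r3' : (3 : kb p) ≠ 0 := by rw [map_ofNat] at r3; exact r3
  have r5' : (5 : kb p) ≠ 0 := by rw [map_ofNat] at r5; exact r5
  obtain ⟨v, hv⟩ := ((SW p).unit_of_red r2).exists_right_inv
  obtain ⟨v5, hv5⟩ := ((SW p).unit_of_red r5).exists_right_inv
  obtain ⟨σ, hσ⟩ := wo_isqrt p hp2 n5
  obtain ⟨ρ, hρ⟩ := wo_isqrt p hp2 (d := -3) (by rwa [dvd_neg])
  push_cast at hσ hρ
  obtain ⟨t, ht⟩ : ∃ t, t = σ * v5 := ⟨_, rfl⟩
  have h5t : 5 * t ^ 2 = 1 := by rw [ht]; linear_combination 5 * v5 ^ 2 * hσ + (5 * v5 + 1) * hv5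
  have ht0 : (SW p).red t ≠ 0 := by
    refine red_ne_mul (y := 5 * t) (n := 1) ?_ ?_
    · push_cast; linear_combination h5t
    · intro h; exact hpz.not_unit (isUnit_of_dvd_one h)
  obtain ⟨z, hz⟩ : ∃ z, z = v * (1 + 5 * t) := ⟨_, rfl⟩
  have h4z : 4 * z = 2 + 10 * t := by rw [hz]; linear_combination (2 + 10 * t) * hv
  have h4z1 : 4 * (1 - z) = 2 - 10 * t := by linear_combination -h4z
  have hMz : ((-27 : ℤ) : WO p) * (z * (1 - z)) = 27 := by
    have h16 : (16 : WO p) ≠ 0 := by
      intro h0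
      have : (SW p).red 16 = 0 := by rw [h0, map_zero]
      rw [map_ofNat] at this
      have e : (16 : kb p) = 2 ^ 4 := by norm_num
      rw [e] at this
      exact r2' (pow_eq_zero_iff (by norm_num) |>.mp this)
    apply mul_left_cancel₀ h16
    push_cast
    linear_combination (-27) * (4 * (1 - z)) * h4z - 27 * (2 + 10 * t) * h4z1 + 540 * h5t
  have hzr : (SW p).red z ≠ 0 := by
    refine red_ne_mul (y := -27 * (1 - z)) (n := 27) ?_ ?_
    · push_cast at hMz ⊢; linear_combination hMz
    · have := ndvd_of_primes p (n := 27) (l := [3, 3, 3]) (by simp; norm_num) (by norm_num) (by simp; omega)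
      exact_mod_cast this
  have hz1r : (SW p).red (1 - z) ≠ 0 := by
    refine red_ne_mul (y := -27 * z) (n := 27) ?_ ?_
    · push_cast at hMz ⊢; linear_combination hMz
    · have := ndvd_of_primes p (n := 27) (l := [3, 3, 3]) (by simp; norm_num) (by norm_num) (by simp; omega)
      exact_mod_cast this
  have hM : ¬ (p : ℤ) ∣ -27 := by
    rw [dvd_neg]
    have := ndvd_of_primes p (n := 27) (l := [3, 3, 3]) (by simp; norm_num) (by norm_num)
      (by simp; omega)
    exact_mod_cast this
  have hm5 : (SW p).red (5 * t) ≠ 0 := by rw [map_mul, map_ofNat]; exact mul_ne_zero r5' ht0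
  have hh3 : (SW p).red ((gh t).eval 3) ≠ 0 := by
    refine red_ne_mul (y := 5 * (8 - 24 * t)) (n := -256) ?_ ?_
    · simp only [gh, Polynomial.eval_add, Polynomial.eval_sub, Polynomial.eval_mul, Polynomial.eval_pow,
        Polynomial.eval_X, Polynomial.eval_C, Polynomial.eval_ofNat, Polynomial.eval_one]
      push_cast
      linear_combination (-576) * h5t
    · rw [dvd_neg]
      have := ndvd_of_primes p (n := 256) (l := [2, 2, 2, 2, 2, 2, 2, 2]) (by simp; norm_num) (by norm_num)
        (by simp; omega)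
      exact_mod_cast this
  have hpsi : Dat (SW p) (cub (ca (4 * z)) (cb (4 * z))) (ca (4 * (1 - z))) (cb (4 * (1 - z))) (5 * t) 5 := by
    rw [h4z, h4z1]
    have e : gN t = Polynomial.X ^ 5 + (Polynomial.C (20 * t) * Polynomial.X ^ 4 +
          Polynomial.C (300 * t + 90) * Polynomial.X ^ 3 +
          Polynomial.C (-1100 * t + 480) * Polynomial.X ^ 2 +
          Polynomial.C (4980 * t - 2195) * Polynomial.X +
          Polynomial.C (-9000 * t + 2280)) := by
      simp only [gN, Polynomial.C_mul, Polynomial.C_add, Polynomial.C_sub, Polynomial.C_pow, map_ofNat,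
        Polynomial.C_neg]
      ring
    have hlow : (Polynomial.C (20 * t) * Polynomial.X ^ 4 +
          Polynomial.C (300 * t + 90) * Polynomial.X ^ 3 +
          Polynomial.C (-1100 * t + 480) * Polynomial.X ^ 2 +
          Polynomial.C (4980 * t - 2195) * Polynomial.X +
          Polynomial.C (-9000 * t + 2280)).degree < 5 := by
      refine lt_of_le_of_lt (b := 4) ?_ (by norm_num)
      compute_degree
    have hmo : (gN t).Monic := by rw [e]; exact Polynomial.monic_X_pow_add hlow
    have hdn : (gN t).natDegree = 5 := by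
      rw [e, Polynomial.natDegree_add_eq_left_of_degree_lt (by rw [Polynomial.degree_X_pow]; exact hlow),
        Polynomial.natDegree_X_pow]
    have hdh : (gh t).natDegree ≤ 2 := by
      have eh : gh t = Polynomial.X ^ 2 + Polynomial.C (10 * t) * Polynomial.X +
          Polynomial.C (-6 * t - 1) := by
        simp only [gh, Polynomial.C_mul, Polynomial.C_sub, Polynomial.C_pow, map_ofNat, Polynomial.C_neg,
          Polynomial.C_1]
        ring
      rw [eh]; compute_degree
    refine Dat.of_sq (SW p) (c := 1) (g_ode h5t) ?_ hm5 ?_ ?_ hdn ?_ (g_bez h5t) ?_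
    · rw [map_one]; exact one_ne_zero
    · rintro h0; rw [h0, Polynomial.eval_zero, map_zero] at hh3; exact hh3 rfl
    · rw [hdn]; omega
    · rw [hmo, map_one]; exact one_ne_zero
    · have := ndvd_of_primes p (n := 221184) (l := [2, 2, 2, 2, 2, 2, 2, 2, 2, 2, 2, 2, 2, 3, 3, 3])
        (by simp; norm_num) (by norm_num) (by simp; omega)
      have := red_int_ne (n := 221184) (by exact_mod_cast this)
      exact_mod_cast this
  -- Frobenius
  have hdiv3 : p % 3 ≠ 0 := by
    intro h
    have := (Nat.prime_dvd_prime_iff_eq Nat.prime_three hp.out).mp (Nat.dvd_of_mod_eq_zero h)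
    omega
  set F := frobenius (kb p) p with hF
  set ε : kb p := (legendreSym p 5 : kb p) with hε
  have hF5 : (SW p).red (5 * t) ^ p = ε * (SW p).red (5 * t) := by
    refine frob_sqrt hp2 (d := 5) ?_
    rw [← map_pow]
    have : (5 * t) ^ 2 = ((5 : ℤ) : WO p) := by push_cast; linear_combination 5 * h5t
    rw [this, map_intCast]
  have hFt : F ((SW p).red t) = ε * (SW p).red t := by
    have h1 : F ((SW p).red (5 * t)) = ε * (SW p).red (5 * t) := hF5
    rw [map_mul, map_mul, map_ofNat, map_ofNat] at h1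
    apply mul_left_cancel₀ r5'
    rw [h1]; ring
  have hFv : F ((SW p).red v) = (SW p).red v := by
    have h1 : (2 : kb p) * (SW p).red v = 1 := by
      have := congrArg (SW p).red hv
      rwa [map_mul, map_ofNat, map_one] at this
    have h2 := congrArg F h1
    rw [map_mul, map_ofNat, map_one] at h2
    apply mul_left_cancel₀ r2'
    rw [h1, h2]
  have hFz : (SW p).red z ^ p = (SW p).red v * (1 + 5 * (ε * (SW p).red t)) := by
    have h1 : (SW p).red z ^ p = F ((SW p).red z) := rfl
    have h2 : (SW p).red z = (SW p).red v * (1 + 5 * (SW p).red t) := by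
      rw [hz, map_mul, map_add, map_one, map_mul, map_ofNat]
    rw [h1, h2, map_mul, hFv, map_add, map_one, map_mul, map_ofNat, hFt]
  have ha0 : (p % 15 = 1 ∨ p % 15 = 4 ∨ p % 15 = 2 ∨ p % 15 = 8) → (SW p).red (ca (4 * z)) ≠ 0 := by
    intro hc
    refine red_ne_mul (y := ca (4 * (1 - z))) (n := -495) ?_ ?_
    · rw [h4z, h4z1]; simp only [ca]; push_cast
      linear_combination (-720) * h5t
    · rw [dvd_neg]
      have := ndvd_of_primes p (n := 495) (l := [3, 3, 5, 11]) (by simp; norm_num) (by norm_num)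
        (by simp; omega)
      exact_mod_cast this
  have hb0 : (p % 15 = 1 ∨ p % 15 = 4 ∨ p % 15 = 2 ∨ p % 15 = 8) → (SW p).red (cb (4 * z)) ≠ 0 := by
    intro hc
    refine red_ne_mul (y := cb (4 * (1 - z))) (n := -2156) ?_ ?_
    · rw [h4z, h4z1]; simp only [cb]; push_cast
      linear_combination (2000 * t ^ 2 - 2640) * h5t
    · rw [dvd_neg]
      have := ndvd_of_primes p (n := 2156) (l := [2, 2, 7, 7, 11]) (by simp; norm_num) (by norm_num)
        (by simp; omega)
      exact_mod_cast this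
  have hp5 : 5 ≤ p := by omega
  have hcop15 : ¬ (p : ℤ) ∣ ((3 * 5 : ℕ) : ℤ) := by
    have := ndvd_of_primes p (n := 15) (l := [3, 5]) (by simp; norm_num) (by norm_num) (by simp; omega)
    exact_mod_cast this
  have hcop1 : ¬ (p : ℤ) ∣ ((1 : ℕ) : ℤ) := by
    intro h; exact hpz.not_unit (isUnit_of_dvd_one (by exact_mod_cast h))
  have h4r : (SW p).red (4 * z) ≠ 0 ∧ (SW p).red (4 * (1 - z)) ≠ 0 := by
    have h4 : (SW p).red 4 ≠ 0 := by
      have := red_int_ne (p := p) (n := 4) (by
        have := ndvd_of_primes p (n := 4) (l := [2, 2]) (by simp; norm_num) (by norm_num) (by simp; omega)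
        exact_mod_cast this)
      exact_mod_cast this
    rw [map_mul, map_mul]
    exact ⟨mul_ne_zero h4 hzr, mul_ne_zero h4 hz1r⟩
  have hm5' : 5 * t ≠ 0 := by intro h0; rw [h0, map_zero] at hm5; exact hm5 rfl
  have hρ0 : ρ ≠ 0 := by
    intro h0
    rw [h0] at hρ
    apply r3
    have : (3 : WO p) = 0 := by linear_combination hρ
    rw [this, map_zero]
  refine ⟨?_, ?_, ?_⟩
  · intro x y hc hxy
    have hε1 : ε = 1 := by
      rw [hε, leg5 h5, if_pos (by omega)]; simp
    have hz' : (SW p).red z = (SW p).red z ^ p := by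
      rw [hFz, hε1, one_mul, hz, map_mul, map_add, map_one, map_mul, map_ofNat]
    have d2 := Dat.nu (SW p) (r := ρ) hpsi r2' r3' h4r.2 hρ
    have e4 : 4 - 4 * (1 - z) = 4 * z := by ring
    rw [e4] at d2
    refine sum_form0 (SW p) hp5 (SW_q p) (z := z) (z' := z) (M := -27) hM hMz hzr hz1r hz' (ha0 (by omega))
      (hb0 (by omega)) one_ne_zero (mul_ne_zero hm5' hρ0) (Dat.id (SW p) _ _) d2 x y ?_ hcop1 hcop15 ?_
      (c := 1) (by norm_num) ?_ ?_ hwi
    · push_cast; linarith
    · have : 16 ≤ p := by omega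
      nlinarith
    · have h1 : (p : WO p) = (x : WO p) ^ 2 + 15 * (y : WO p) ^ 2 := by exact_mod_cast congrArg (Int.cast : ℤ → WO p) hxy
      rw [h1]; push_cast
      linear_combination (-(y : WO p) ^ 2 * (25 * t ^ 2)) * hρ + (15 * (y : WO p) ^ 2) * h5t
    · push_cast; ring
  · intro x y hc hxy
    have hε1 : ε = -1 := by
      rw [hε, leg5 h5, if_neg (by omega)]; simp
    have hz' : (SW p).red (1 - z) = (SW p).red z ^ p := by
      have h1 : 1 - z = v * (1 - 5 * t) := by rw [hz]; linear_combination -hv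
      rw [hFz, hε1, h1, map_mul, map_sub, map_one, map_mul, map_ofNat]
      ring
    have d1 := Dat.nu (SW p) (r := ρ) (Dat.id (SW p) (ca (4 * z)) (cb (4 * z))) r2' r3' h4r.1 hρ
    have e4 : 4 - 4 * z = 4 * (1 - z) := by ring
    rw [e4] at d1
    refine sum_form0 (SW p) hp5 (SW_q p) (z := z) (z' := 1 - z) (M := -27) hM hMz hzr hz1r hz' (ha0 (by omega))
      (hb0 (by omega)) hm5' (mul_ne_zero one_ne_zero hρ0) hpsi d1 x y ?_ ?_ ?_ ?_
      (c := 1) (by norm_num) ?_ ?_ hwi
    · push_cast; linarith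
    · exact_mod_cast n5
    · exact_mod_cast n3
    · have h8 : p ≠ 8 := by rintro rfl; exact absurd hp.out (by norm_num)
      have : 16 ≤ p := by omega
      nlinarith
    · have h1 : (p : WO p) = 5 * (x : WO p) ^ 2 + 3 * (y : WO p) ^ 2 := by exact_mod_cast congrArg (Int.cast : ℤ → WO p) hxy
      rw [h1]; push_cast
      linear_combination (-(y : WO p) ^ 2) * hρ + (5 * (x : WO p) ^ 2) * h5t
    · push_cast
      linear_combination (-20 * (x : WO p) ^ 2) * h5t
  · intro hc
    refine sum_form_zero (SW p) hp5 (SW_q p) (m := 5 * t) (c := 1) (M := -27) hMz hz1r (n := gN t) (h := gh t)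
      ?_ hm5 ?_ hh3 ?_ ?_ hwi
    · rw [h4z, h4z1]; exact g_ode h5t
    · rw [map_one]; exact one_ne_zero
    · simp only [gN, gh, Polynomial.eval_add, Polynomial.eval_sub, Polynomial.eval_mul, Polynomial.eval_pow,
        Polynomial.eval_X, Polynomial.eval_C, Polynomial.eval_ofNat, Polynomial.eval_one]
      linear_combination (-8640 * t ^ 2 - 5760 * t - 2688) * h5t
    · rw [hF5, par3 (by omega) hp2, hε, leg5 h5]
      have h10 : (2 : kb p) * (SW p).red (5 * t) ≠ 0 := mul_ne_zero r2' hm5
      rcases hc with h | h | h | h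
      · rw [if_pos (by omega), if_neg (by omega)]
        intro h0; apply h10; push_cast at h0; linear_combination h0
      · rw [if_neg (by omega), if_pos (by omega)]
        intro h0; apply h10; push_cast at h0; linear_combination h0
      · rw [if_pos (by omega), if_neg (by omega)]
        intro h0; apply h10; push_cast at h0; linear_combination h0
      · rw [if_neg (by omega), if_pos (by omega)]
        intro h0; apply h10; push_cast at h0; linear_combination h0

end ccf

end Pool.Agent.H547
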