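import Pool.Agent.H546.Util

set_option autoImplicit false
set_option linter.unusedSectionVars false

/-!
# Composition of explicit isogenies with isogenies of degree two and with scalings
-/

namespace Pool.Agent.H547

open Polynomial Pool.Agent.H546

section two

variable {R : Type*} [CommRing R]

noncomputable def twN (e t : R) (n d : R[X]) : R[X] := n ^ 2 - C e * n * d + C t * d ^ 2
noncomputable def twD (e : R) (n d : R[X]) : R[X] := (n - C e * d) * d

theorem twN_map {T : Type*} [CommRing T] (g : R →+* T) (e t : R) (n d : R[X]) :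
    (twN e t n d).map g = twN (g e) (g t) (n.map g) (d.map g) := by
  simp [twN]

theorem twD_map {T : Type*} [CommRing T] (g : R →+* T) (e : R) (n d : R[X]) :
    (twD e n d).map g = twD (g e) (n.map g) (d.map g) := by
  simp [twD]

theorem tw_wr (e t : R) (n d : R[X]) :
    wr (twN e t n d) (twD e n d) = wr n d * ((n - C e * d) ^ 2 - C t * d ^ 2) := by
  simp only [wr, twN, twD, derivative_add, derivative_mul, derivative_sub, derivative_pow, derivative_C]
  push_cast
  simp only [map_ofNat]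
  ring

theorem tw_tgt (e a b t : R) (hb : b = -e ^ 3 - a * e) (ht : t = 3 * e ^ 2 + a) (n d : R[X]) :
    tgt (a - 5 * t) (b - 7 * t * e) (twN e t n d) (twD e n d) =
      tgt a b n d * ((n - C e * d) ^ 2 - C t * d ^ 2) ^ 2 := by
  subst hb ht
  simp only [tgt, twN, twD, C_add, C_sub, C_mul, C_pow, C_neg, map_ofNat]
  ring

theorem tw_cop {F : Type*} [Field F] {e t : F} (ht : t ≠ 0) {n d : F[X]} (h : IsCoprime n d) :
    IsCoprime (twN e t n d) (twD e n d) := by
  have c1 : IsCoprime (twN e t n d) d := by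
    have : twN e t n d = n ^ 2 + d * (-(C e * n) + C t * d) := by unfold twN; ring
    rw [this]
    exact (h.pow_left).add_mul_left_left _
  have hed : IsCoprime (n - C e * d) d := by
    have h2 := h.add_mul_left_left (-(C e))
    have e' : n + d * (-(C e)) = n - C e * d := by ring
    rw [e'] at h2
    exact h2
  have hu : IsUnit (C t : F[X]) := isUnit_C.mpr (isUnit_iff_ne_zero.mpr ht)
  have c2 : IsCoprime (twN e t n d) (n - C e * d) := by
    have : twN e t n d = C t * d ^ 2 + (n - C e * d) * n := by unfold twN; ring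
    rw [this]
    apply IsCoprime.add_mul_left_left
    rw [isCoprime_mul_unit_left_left hu]
    exact hed.symm.pow_left
  unfold twD
  exact IsCoprime.mul_right c2 c1

theorem twN_deg {R : Type*} [CommRing R] [IsDomain R] (e t : R) {n d : R[X]} (h : d.natDegree < n.natDegree) :
    (twN e t n d).natDegree = 2 * n.natDegree := by
  have hn : n ≠ 0 := by rintro rfl; simp at h
  have hN : twN e t n d = n ^ 2 + (C (-e) * (n * d) + C t * d ^ 2) := by
    unfold twN; rw [C_neg]; ring
  rw [hN, natDegree_add_eq_left_of_natDegree_lt]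
  · rw [natDegree_pow]
  · rw [natDegree_pow]
    have k1 : (C (-e) * (n * d)).natDegree < 2 * n.natDegree := by
      refine lt_of_le_of_lt (natDegree_C_mul_le _ _) ?_
      refine lt_of_le_of_lt natDegree_mul_le ?_
      omega
    have k2 : (C t * d ^ 2).natDegree < 2 * n.natDegree := by
      refine lt_of_le_of_lt (natDegree_C_mul_le _ _) ?_
      rw [natDegree_pow]
      omega
    exact lt_of_le_of_lt (natDegree_add_le _ _) (max_lt k1 k2)

theorem twD_ne {R : Type*} [CommRing R] [IsDomain R] (e : R) {n d : R[X]} (hd : d ≠ 0)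
    (h : d.natDegree < n.natDegree) : twD e n d ≠ 0 ∧ (twD e n d).natDegree < 2 * n.natDegree := by
  have h3d : (C e * d).natDegree < n.natDegree := lt_of_le_of_lt (natDegree_C_mul_le _ _) h
  have he : (n - C e * d).natDegree = n.natDegree := natDegree_sub_eq_left_of_natDegree_lt h3d
  have he0 : n - C e * d ≠ 0 := by intro h0; rw [h0] at he; simp at he; omega
  refine ⟨mul_ne_zero he0 hd, ?_⟩
  unfold twD
  refine lt_of_le_of_lt natDegree_mul_le ?_
  rw [he]
  omega

end two

variable {O K k : Type*} [CommRing O] [IsDomain O] [Field K] [Algebra O K] [Field k]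
  (S : DV O K k)

/-- composition with a 2-isogeny -/
theorem Dat_two {f : O[X]} {a b m e t : O} {l : ℕ} (h : Dat S f a b m l) (hb : b = -e ^ 3 - a * e)
    (ht : t = 3 * e ^ 2 + a) (ht0 : S.red t ≠ 0) :
    Dat S f (a - 5 * t) (b - 7 * t * e) m (2 * l) := by
  obtain ⟨n, d, ode, hd, hdeg, hnl, copK, copk, hl⟩ := h
  have htO : t ≠ 0 := by rintro rfl; exact ht0 (map_zero _)
  have htK : algebraMap O K t ≠ 0 := fun h0 => htO (S.inj (by rw [h0, map_zero]))
  refine ⟨twN e t n d, twD e n d, ?_, (twD_ne e hd hdeg).1, ?_, ?_, ?_, ?_, ?_⟩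
  · rw [tw_wr, tw_tgt e a b t hb ht]
    linear_combination ((n - C e * d) ^ 2 - C t * d ^ 2) ^ 2 * ode
  · rw [twN_deg e t hdeg]; exact (twD_ne e hd hdeg).2
  · rw [twN_deg e t hdeg, hnl]
  · rw [twN_map, twD_map]; exact tw_cop htK copK
  · rw [twN_map, twD_map]; exact tw_cop ht0 copk
  · rw [twN_map, twN_deg e t hdeg, twN_deg _ _ ?_, hl]
    rw [hl]
    exact lt_of_le_of_lt natDegree_map_le hdeg

/-- scaling of the target -/
theorem Dat_scale {f : O[X]} {a b m c m' : O} {l : ℕ} (h : Dat S f a b m l) (hc : S.red c ≠ 0)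
    (hm : m = c * m') : Dat S f (c ^ 4 * a) (c ^ 6 * b) m' l := by
  obtain ⟨n, d, ode, hd, hdeg, hnl, copK, copk, hl⟩ := h
  have hc2 : S.red (c ^ 2) ≠ 0 := by rw [map_pow]; exact pow_ne_zero _ hc
  have hcO : c ^ 2 ≠ 0 := by intro h0; rw [h0, map_zero] at hc2; exact hc2 rfl
  have hcK : algebraMap O K (c ^ 2) ≠ 0 := fun h0 => hcO (S.inj (by rw [h0, map_zero]))
  refine ⟨C (c ^ 2) * n, d, ?_, hd, ?_, ?_, ?_, ?_, ?_⟩
  · have e1 : wr (C (c ^ 2) * n) d = C (c ^ 2) * wr n d := by
      simp only [wr, derivative_mul, derivative_C]; ring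
    rw [e1, mul_pow]
    subst hm
    simp only [tgt, C_mul, C_pow] at ode ⊢
    linear_combination (C c ^ 4) * ode
  · rw [natDegree_C_mul hcO]; exact hdeg
  · rw [natDegree_C_mul hcO, hnl]
  · rw [Polynomial.map_mul, map_C, isCoprime_mul_unit_left_left (isUnit_C.mpr (isUnit_iff_ne_zero.mpr hcK))]
    exact copK
  · rw [Polynomial.map_mul, map_C, isCoprime_mul_unit_left_left (isUnit_C.mpr (isUnit_iff_ne_zero.mpr hc2))]
    exact copk
  · rw [Polynomial.map_mul, map_C, natDegree_C_mul hc2, natDegree_C_mul hcO, hl]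

/-- the multiplier may be changed by a sign -/
theorem Dat_neg {f : O[X]} {a b m : O} {l : ℕ} (h : Dat S f a b m l) : Dat S f a b (-m) l := by
  obtain ⟨n, d, ode, h⟩ := h
  refine ⟨n, d, ?_, h⟩
  rw [ode, C_neg]; ring

/-- the parameter of the cubic family on the curve of level 6 -/
def am {R : Type*} [CommRing R] (m : R) : R := (m - 1) ^ 2 * (m + 2)

theorem am_map {R T : Type*} [CommRing R] [CommRing T] (g : R →+* T) (m : R) : g (am m) = am (g m) := by
  simp [am, map_ofNat]

theorem am_neg {R : Type*} [CommRing R] (m : R) : am (-m) = 4 - am m := by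
  simp only [am]; ring

theorem psi_t {R : Type*} [CommRing R] (m : R) :
    (3 * (m - 1) ^ 3 * (m + 1) : R) = 3 * (3 - (m - 1) ^ 2) ^ 2 + ca (am m) := by
  simp only [am, ca]; ring

theorem psi_b {R : Type*} [CommRing R] (m : R) :
    cb (am m) = -(3 - (m - 1) ^ 2) ^ 3 - ca (am m) * (3 - (m - 1) ^ 2) := by
  simp only [am, ca, cb]; ring

theorem psi_ca {R : Type*} [CommRing R] {m v : R} (hv : m * v = 1) :
    v ^ 4 * (ca (am m) - 5 * (3 * (m - 1) ^ 3 * (m + 1))) = ca (am (-2 * v)) := by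
  simp only [am, ca]
  linear_combination (-15 * m ^ 3 * v ^ 3 + 36 * m ^ 2 * v ^ 3 - 15 * m ^ 2 * v ^ 2 + 36 * m * v ^ 2 - 48 * v ^ 3 - 15 * m * v + 36 * v - 15) * hv

theorem psi_cb {R : Type*} [CommRing R] {m v : R} (hv : m * v = 1) :
    v ^ 6 * (cb (am m) - 7 * (3 * (m - 1) ^ 3 * (m + 1)) * (3 - (m - 1) ^ 2)) = cb (am (-2 * v)) := by
  simp only [am, cb]
  linear_combination (22 * m ^ 5 * v ^ 5 - 84 * m ^ 4 * v ^ 5 + 36 * m ^ 3 * v ^ 5 + 22 * m ^ 4 * v ^ 4 + 112 * m ^ 2 * v ^ 5 - 84 * m ^ 3 * v ^ 4 - 96 * m * v ^ 5 + 36 * m ^ 2 * v ^ 4 + 22 * m ^ 3 * v ^ 3 + 112 * m * v ^ 4 - 84 * m ^ 2 * v ^ 3 + 36 * m * v ^ 3 + 22 * m ^ 2 * v ^ 2 - 96 * v ^ 4 - 84 * m * v ^ 2 + 112 * v ^ 3 + 22 * m * v + 36 * v ^ 2 - 84 * v + 22) * hv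

/-- **the 2-isogeny of the level 6 structure** -/
theorem Dat_psi {f : O[X]} {A A' m μ v : O} {l : ℕ} (h : Dat S f (ca A) (cb A) m l)
    (hv : μ * v = 1) (hA : A = am μ) (hA' : A' = am (-2 * v)) (h3 : (3 : k) ≠ 0)
    (hw : S.red (μ - 1) ≠ 0) (hw1 : S.red (μ + 1) ≠ 0) :
    Dat S f (ca A') (cb A') (m * μ) (2 * l) := by
  subst hA hA'
  have ht0 : S.red (3 * (μ - 1) ^ 3 * (μ + 1) : O) ≠ 0 := by
    rw [map_mul, map_mul, map_pow, map_ofNat]
    exact mul_ne_zero (mul_ne_zero h3 (pow_ne_zero _ hw)) hw1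
  have d1 := Dat_two S h (psi_b μ) (psi_t μ) ht0
  have hc : S.red v ≠ 0 := by
    intro h0
    have := congrArg S.red hv
    rw [map_mul, h0, mul_zero, map_one] at this
    exact zero_ne_one this
  have d2 := Dat_scale S d1 (c := v) (m' := m * μ) hc (by linear_combination (-m) * hv)
  rw [psi_ca hv, psi_cb hv] at d2
  exact d2

end Pool.Agent.H547
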