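import Pool.Agent.H547.DA

set_option autoImplicit false
set_option linter.unusedSectionVars false

/-!
# Relations between Hasse coefficients
-/

namespace Pool.Agent.H547

open Polynomial Pool.Agent.H546

section

variable {k : Type*} [Field k] {p : ℕ} [hp : Fact p.Prime] [CharP k p]

/-- the middle coefficient is invariant under translation -/
theorem coeff_trans (F : k[X]) (hF : F.natDegree ≤ 2 * p - 2) (c : k) :
    (F.comp (X + C c)).coeff (p - 1) = F.coeff (p - 1) := by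
  have hp1 := hp.out.two_le
  have e1 : F.comp (X + C c) = taylor c F := rfl
  rw [e1, taylor_coeff, hasseDeriv_apply, sum_def, eval_finsetSum]
  have h0 : ∀ i ∈ F.support, eval c (monomial (i - (p - 1)) ((i.choose (p - 1) : k) * F.coeff i)) =
      if i = p - 1 then F.coeff (p - 1) else 0 := by
    intro i hi
    rw [eval_monomial]
    split_ifs with h
    · rw [h, Nat.choose_self, Nat.sub_self, Nat.cast_one, pow_zero, one_mul, mul_one]
    · rcases lt_or_gt_of_ne h with h1 | h1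
      · rw [Nat.choose_eq_zero_of_lt h1, Nat.cast_zero, zero_mul, zero_mul]
      · have hi2 : i ≤ F.natDegree := le_natDegree_of_mem_supp i hi
        have hd : p ∣ i.choose (p - 1) := by
          have := hp.out.dvd_choose_add (a := p - 1) (b := i - (p - 1)) (by omega) (by omega) (by omega)
          rwa [show p - 1 + (i - (p - 1)) = i by omega] at this
        rw [(CharP.cast_eq_zero_iff k p _).mpr hd, zero_mul, zero_mul]
  rw [Finset.sum_congr rfl h0, Finset.sum_ite_eq']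
  split_ifs with h
  · rfl
  · exact (notMem_support_iff.mp h).symm

/-- the Hasse coefficient from the Weierstrass equation -/
theorem hs_cub (hp2 : p ≠ 2) {A : k} (hA : A ≠ 0) :
    hs p A = ((cub (ca A) (cb A)) ^ ((p - 1) / 2)).coeff (p - 1) := by
  obtain ⟨e, he⟩ := hp.out.odd_of_ne_two hp2
  have e1 : (p - 1) / 2 = e := by omega
  have e2 : p - 1 = 2 * e := by omega
  rw [e1]
  set F : k[X] := (cub (ca A) (cb A)) ^ e with hF
  have hFd : F.natDegree ≤ 2 * p - 2 := by
    have h3 : (cub (ca A) (cb A)).natDegree ≤ 3 := by unfold cub; compute_degree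
    refine natDegree_pow_le.trans ?_
    have := Nat.mul_le_mul (le_refl e) h3
    omega
  have h1 := coeff_trans (p := p) F hFd 3
  have hc : (C A * X + 3 : k[X]) = (X + C (3 : k)).comp (C A * X) := by
    rw [add_comp, X_comp, C_comp, map_ofNat]
  have h2 : F.comp (C A * X + 3) = C (A ^ (2 * e)) * wu A ^ e := by
    rw [hF, pow_comp, cub_comp, mul_pow, ← pow_mul, C_pow]
  have h3 : (F.comp (X + C (3 : k))).comp (C A * X) = F.comp (C A * X + 3) := by
    rw [comp_assoc, ← hc]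
  have h4 : ((F.comp (X + C (3 : k))).comp (C A * X)).coeff (p - 1) = (F.comp (C A * X + 3)).coeff (p - 1) := by
    rw [h3]
  rw [comp_C_mul_X_coeff, h1, h2, coeff_C_mul] at h4
  unfold hs
  rw [e1]
  rw [← e2] at h4
  apply mul_left_cancel₀ (pow_ne_zero (p - 1) hA)
  rw [← h4]; ring

/-- the relation of the Hasse coefficients of two curves -/
def HR (p : ℕ) (A A' m : k) : Prop := m * hs p A = m ^ p * hs p A'

theorem HR.trans {A A' A'' m m' : k} (h : HR p A A' m) (h' : HR p A' A'' m') : HR p A A'' (m * m') := by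
  unfold HR at *
  rw [mul_pow]
  linear_combination m' * h + m ^ p * h'

/-- scaling -/
theorem HR_scale (hp2 : p ≠ 2) {A A' c v : k} (hA : A ≠ 0) (hA' : A' ≠ 0) (hcv : c * v = 1)
    (h4 : ca A' = c ^ 4 * ca A) (h6 : cb A' = c ^ 6 * cb A) : HR p A A' v := by
  have hc : c ≠ 0 := by rintro rfl; rw [zero_mul] at hcv; exact zero_ne_one hcv
  obtain ⟨e, he⟩ := hp.out.odd_of_ne_two hp2
  have e1 : (p - 1) / 2 = e := by omega
  have e2 : p - 1 = 2 * e := by omega
  unfold HR
  rw [hs_cub hp2 hA, hs_cub hp2 hA', e1]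
  have h1 : (cub (ca A') (cb A')).comp (C (c ^ 2) * X) = C (c ^ 6) * cub (ca A) (cb A) := by
    rw [h4, h6]
    simp only [cub, add_comp, mul_comp, pow_comp, X_comp, C_comp, C_mul, C_pow]
    ring
  have h2 : ((cub (ca A') (cb A')) ^ e).comp (C (c ^ 2) * X) = C ((c ^ 6) ^ e) * (cub (ca A) (cb A)) ^ e := by
    rw [pow_comp, h1, mul_pow, C_pow (n := e)]
  have h3 : (((cub (ca A') (cb A')) ^ e).comp (C (c ^ 2) * X)).coeff (p - 1) =
      (C ((c ^ 6) ^ e) * (cub (ca A) (cb A)) ^ e).coeff (p - 1) := by rw [h2]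
  rw [comp_C_mul_X_coeff, coeff_C_mul] at h3
  set a := ((cub (ca A) (cb A)) ^ e).coeff (p - 1)
  set b := ((cub (ca A') (cb A')) ^ e).coeff (p - 1)
  -- `h3 : b * (c^2)^(p-1) = (c^6)^e * a`
  have h5 : c ^ (2 * (2 * e)) ≠ 0 := pow_ne_zero _ hc
  have h7 : b = c ^ (2 * e) * a := by
    apply mul_left_cancel₀ h5
    have : (c ^ 2) ^ (p - 1) = c ^ (2 * (2 * e)) := by rw [e2, ← pow_mul]
    rw [this] at h3
    have h8 : (c ^ 6) ^ e = c ^ (2 * (2 * e)) * c ^ (2 * e) := by
      rw [← pow_mul, ← pow_add]; congr 1; ring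
    rw [h8] at h3
    linear_combination h3
  have h9 : v ^ p * c ^ (2 * e) = v := by
    rw [he, pow_succ]
    have : v ^ (2 * e) * c ^ (2 * e) = 1 := by rw [← mul_pow, mul_comm, hcv, one_pow]
    linear_combination v * this
  rw [h7]
  linear_combination (-a) * h9

/-- the 2-isogeny -/
theorem HR_psi (hp2 : p ≠ 2) {m v : k} (hv : m * v = 1) (h1 : m ≠ 1)
    (hA' : am (-2 * v) ≠ 0) : HR p (am m) (am (-2 * v)) m := by
  have hm : m ≠ 0 := by rintro rfl; rw [zero_mul] at hv; exact zero_ne_one hv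
  have hm1 : m - 1 ≠ 0 := sub_ne_zero.mpr h1
  unfold HR
  refine hasse_w (p := p) hp2 hA' (n := C (v ^ 2) * twN (3 - (m - 1) ^ 2) (3 * (m - 1) ^ 3 * (m + 1)) X 1)
    (d := twD (3 - (m - 1) ^ 2) X 1) ?_ ?_ hm ?_
  · simp only [twN, twD, eval_mul, eval_add, eval_sub, eval_pow, eval_C, eval_X, eval_one]
    linear_combination (3 * (m - 1) ^ 2 * (m * v + 1)) * hv
  · simp only [twD, eval_mul, eval_sub, eval_C, eval_X, eval_one]
    have : (3 - (3 - (m - 1) ^ 2) * 1) * 1 = (m - 1) ^ 2 := by ring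
    rw [this]
    exact pow_ne_zero _ hm1
  · have e1 : wr (C (v ^ 2) * twN (3 - (m - 1) ^ 2) (3 * (m - 1) ^ 3 * (m + 1)) X 1) (twD (3 - (m - 1) ^ 2) X 1) =
        C (v ^ 2) * wr (twN (3 - (m - 1) ^ 2) (3 * (m - 1) ^ 3 * (m + 1)) X 1) (twD (3 - (m - 1) ^ 2) X 1) := by
      simp only [wr, derivative_mul, derivative_C]; ring
    have e2 := tw_tgt (3 - (m - 1) ^ 2) (ca (am m)) (cb (am m)) (3 * (m - 1) ^ 3 * (m + 1)) (psi_b m) (psi_t m) X 1
    have e3 := tw_wr (3 - (m - 1) ^ 2) (3 * (m - 1) ^ 3 * (m + 1)) (X : k[X]) 1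
    rw [e1, ← psi_ca hv, ← psi_cb hv]
    set N := twN (3 - (m - 1) ^ 2) (3 * (m - 1) ^ 3 * (m + 1)) (X : k[X]) 1
    set D := twD (3 - (m - 1) ^ 2) (X : k[X]) 1
    have e4 : wr (X : k[X]) 1 = 1 := by simp [wr]
    have e5 : tgt (ca (am m)) (cb (am m)) (X : k[X]) 1 = cub (ca (am m)) (cb (am m)) := by
      simp only [tgt, cub]; ring
    rw [e4, one_mul] at e3
    rw [e5] at e2
    set T : k[X] := (X - C (3 - (m - 1) ^ 2) * 1) ^ 2 - C (3 * (m - 1) ^ 3 * (m + 1)) * 1 ^ 2
    have hCv : (C m : k[X]) * C v = 1 := by rw [← C_mul, hv, C_1]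
    have e6 : tgt (v ^ 4 * (ca (am m) - 5 * (3 * (m - 1) ^ 3 * (m + 1))))
        (v ^ 6 * (cb (am m) - 7 * (3 * (m - 1) ^ 3 * (m + 1)) * (3 - (m - 1) ^ 2))) (C (v ^ 2) * N) D =
        C v ^ 6 * tgt (ca (am m) - 5 * (3 * (m - 1) ^ 3 * (m + 1)))
          (cb (am m) - 7 * (3 * (m - 1) ^ 3 * (m + 1)) * (3 - (m - 1) ^ 2)) N D := by
      simp only [tgt, C_mul, C_pow]
      ring
    rw [e6, e2, mul_pow, e3, C_pow]
    linear_combination (-(C v ^ 4 * cub (ca (am m)) (cb (am m)) * T ^ 2 * (C m * C v + 1))) * hCv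

/-- the 3-isogeny -/
theorem HR_nu (hp2 : p ≠ 2) (hp3 : p ≠ 3) {A r : k} (hr : r ^ 2 = -3) : HR p A (4 - A) r := by
  have h4 : (4 : k) ≠ 0 := by
    intro h0
    have h1 : ((4 : ℕ) : k) = 0 := by exact_mod_cast h0
    rw [CharP.cast_eq_zero_iff k p] at h1
    have h2 : p ∣ 2 ^ 2 := by exact_mod_cast h1
    exact hp2 ((Nat.prime_dvd_prime_iff_eq hp.out Nat.prime_two).mp (hp.out.dvd_of_dvd_pow h2))
  unfold HR
  have e1 : A = 4 * (A / 4) := by field_simp
  have e2 : 4 - A = 4 * (1 - A / 4) := by field_simp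
  have hp3' : p % 3 = 1 ∨ p % 3 = 2 := by
    have : p % 3 ≠ 0 := by
      intro h
      exact hp3 ((Nat.prime_dvd_prime_iff_eq Nat.prime_three hp.out).mp (Nat.dvd_of_mod_eq_zero h)).symm
    omega
  have hr' : r ^ p = (-1) ^ (p / 3) * r := by
    have h1 := frob_sqrt (p := p) hp2 (d := -3) (y := r) (by push_cast; exact hr)
    rw [h1, legm3 hp2 hp3]
    congr 1
    rcases hp3' with h | h
    · rw [if_pos h]
      rw [(Even.neg_one_pow (Nat.even_iff.mpr (by
        have := hp.out.eq_two_or_odd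
        omega)))]
      simp
    · rw [if_neg (by omega)]
      rw [(Odd.neg_one_pow (Nat.odd_iff.mpr (by
        have := hp.out.eq_two_or_odd
        omega)))]
      simp
  rw [e2]
  conv_lhs => rw [e1]
  rw [hs_lg hp2 hp3, hs_lg hp2 hp3, lg_neg, hr']
  have : ((-1 : k) ^ (p / 3)) * ((-1) ^ (p / 3)) = 1 := by
    rw [← mul_pow]; norm_num
  linear_combination (-(r * lg (p / 3) (A / 4))) * this

/-- an endomorphism moved by the Frobenius gives the vanishing of the Hasse coefficient -/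
theorem HR.zero {A m : k} (h : HR p A A m) (hm : m ^ p ≠ m) : hs p A = 0 := by
  unfold HR at h
  have : (m ^ p - m) * hs p A = 0 := by linear_combination -h
  exact (mul_eq_zero.mp this).resolve_left (sub_ne_zero.mpr hm)

end

end Pool.Agent.H547
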