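import Pool.Agent.H547.DB
import Pool.Agent.H547.ZJ

set_option autoImplicit false
set_option linter.unusedSectionVars false

/-!
# The sums over the quotient by `p²`, from unit roots
-/

namespace Pool.Agent.H547

open Finset Pool.Agent.H546
open Pool.Agent.Q267.Seven (dl)
open Pool.Agent.Q267.MW (dl_vanish u3 u3_leg sum_three clausen_gen)
open Pool.Agent.Q267.CDE (R)

section sq

variable {p : ℕ} [hp : Fact p.Prime]

/-- nine times the sum as a square -/
theorem SS_sq (hp5 : 5 ≤ p) {A : Type*} [CommRing A] (th : R p →+* A) (z Y : A)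
    (hz : z * (1 - z) = 27 * Y) :
    9 * SS p Y = (2 * lg (p / 3) z + lg (2 * p / 3) z) ^ 2 ∧ (p : A) * lg (p / 3) z = p * lg (2 * p / 3) z := by
  have hp3 : p ≠ 3 := by omega
  have c1 := clausen_gen p (p / 3) (by omega) z _ hz
  have c2 := clausen_gen p (2 * p / 3) (by omega) z _ hz
  rw [lg_ext _ _ (by omega)] at c1 c2
  have hS : 3 * SS p Y = 2 * ∑ x ∈ range p, (dl (p / 3) x : A) * (x.centralBinom : A) * (27 * Y) ^ x +
      ∑ x ∈ range p, (dl (2 * p / 3) x : A) * (x.centralBinom : A) * (27 * Y) ^ x := by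
    unfold SS
    rw [mul_sum, mul_sum, ← sum_add_distrib]
    refine sum_congr rfl fun x hx => ?_
    obtain ⟨h1, -⟩ := u3_leg p hp3 x (mem_range.mp hx)
    have h2 := congrArg th h1
    rw [map_mul, map_ofNat, map_natCast, map_mul, map_pow, map_ofNat, map_add, map_mul, map_ofNat, map_intCast,
      map_intCast] at h2
    have e : ((ak x : ℕ) : A) = (x.centralBinom : A) * ((u3 x : ℕ) : A) := by
      unfold ak u3; push_cast; ring
    rw [e, mul_pow]
    linear_combination (x.centralBinom : A) * Y ^ x * h2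
  rw [← c1, ← c2] at hS
  have hP : (p : A) * lg (p / 3) z = p * lg (2 * p / 3) z := by
    rw [← lg_ext (p / 3) p (by omega), ← lg_ext (2 * p / 3) p (by omega), mul_sum, mul_sum]
    refine sum_congr rfl fun x hx => ?_
    obtain ⟨-, h2⟩ := u3_leg p hp3 x (mem_range.mp hx)
    have := congrArg th h2
    rw [map_mul, map_mul, map_natCast, map_intCast, map_intCast] at this
    linear_combination z ^ x * this
  refine ⟨?_, hP⟩
  set a := lg (p / 3) z
  set b := lg (2 * p / 3) z
  have hd : (a - b) ^ 2 = 0 := by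
    have hcoef : ∀ x ∈ range p, ∃ y : R p, (dl (p / 3) x : R p) - (dl (2 * p / 3) x : R p) = p * y := by
      intro x hx
      obtain ⟨-, h2⟩ := u3_leg p hp3 x (mem_range.mp hx)
      have h3 : ((dl (p / 3) x : ℤ) : R p) * p = ((dl (2 * p / 3) x : ℤ) : R p) * p := by
        linear_combination h2
      have h4 : (((dl (p / 3) x - dl (2 * p / 3) x) * p : ℤ) : ZMod (p ^ 2)) = 0 := by
        push_cast
        linear_combination h3
      rw [ZMod.intCast_zmod_eq_zero_iff_dvd] at h4
      obtain ⟨c, hc⟩ := h4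
      refine ⟨(c : R p), ?_⟩
      have hp0 : (p : ℤ) ≠ 0 := by exact_mod_cast hp.out.ne_zero
      have h5 : dl (p / 3) x - dl (2 * p / 3) x = p * c := by
        apply mul_right_cancel₀ hp0
        rw [hc]; push_cast; ring
      have := congrArg (Int.cast : ℤ → R p) h5
      push_cast at this
      exact this
    choose! y hy using hcoef
    have hab : a - b = (p : A) * ∑ x ∈ range p, th (y x) * z ^ x := by
      show lg (p / 3) z - lg (2 * p / 3) z = _
      rw [← lg_ext (p / 3) p (by omega), ← lg_ext (2 * p / 3) p (by omega), ← sum_sub_distrib, mul_sum]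
      refine sum_congr rfl fun x hx => ?_
      have := congrArg th (hy x hx)
      rw [map_sub, map_mul, map_natCast, map_intCast, map_intCast] at this
      linear_combination z ^ x * this
    have hpp : (p : A) ^ 2 = 0 := by
      have := congrArg th (Pool.Agent.Q267.CDE.p_sq p)
      rw [map_pow, map_natCast, map_zero] at this
      exact this
    rw [hab, mul_pow, hpp, zero_mul]
  linear_combination 3 * hS + 2 * hd

end sq

section key

variable {O K k : Type*} [CommRing O] [IsDomain O] [Field K] [Algebra O K] [Field k]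
  (S : DV O K k)

/-- `w` is the inverse of a unit root at `z` -/
def Key (p : ℕ) (z w : O) : Prop :=
  ∃ ε : O, ε ^ 2 = 1 ∧ (p : O) ^ 2 ∣ ε * w * (2 * lg (p / 3) z + lg (2 * p / 3) z) - 3

theorem Key.neg {p : ℕ} {z w : O} (h : Key p z w) : Key p z (-w) := by
  obtain ⟨ε, h1, h2⟩ := h
  exact ⟨-ε, by rw [neg_sq, h1], by rw [neg_mul_neg]; exact h2⟩

/-- the projection -/
abbrev mq (O : Type*) [CommRing O] (p : ℕ) : O →+* QO O p := Ideal.Quotient.mk (Ideal.span {(p : O) ^ 2})

theorem mq_zero {p : ℕ} {x : O} : mq O p x = 0 ↔ (p : O) ^ 2 ∣ x := by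
  rw [Ideal.Quotient.eq_zero_iff_mem, Ideal.mem_span_singleton]

/-- the map from `ZMod (p ^ 2)` -/
noncomputable def tq (O : Type*) [CommRing O] (p : ℕ) [CharP (QO O p) (p ^ 2)] : R p →+* QO O p :=
  ZMod.castHom (dvd_refl _) (QO O p)

theorem tq_inj {p : ℕ} [CharP (QO O p) (p ^ 2)] : Function.Injective (tq O p) := ZMod.castHom_injective _

variable {p : ℕ} [hp : Fact p.Prime] [CharP k p]

theorem mq_p2 : ((p : ℕ) : QO O p) ^ 2 = 0 := by
  have : mq O p ((p : O) ^ 2) = 0 := mq_zero.mpr dvd_rfl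
  rw [map_pow, map_natCast] at this
  exact this

include S in
theorem unit_mq {x : O} (hx : S.red x ≠ 0) : IsUnit (mq O p x) := (S.unit_of_red hx).map _

include S in
theorem unit3 (hp5 : 5 ≤ p) : IsUnit (3 : QO O p) := by
  have h : S.red 3 ≠ 0 := by
    rw [map_ofNat]
    have := small_ne (k := k) (p := p) (n := 3) (by norm_num) (by omega)
    exact_mod_cast this
  have := unit_mq S (p := p) h
  rwa [map_ofNat] at this

include S in
/-- the sum from the unit root -/
theorem SS_unit (hp5 : 5 ≤ p) (hq : S.q = (p : O)) {z w : O} {Y : QO O p}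
    (hz : mq O p (z * (1 - z)) = 27 * Y) (key : Key p z w) : mq O p w ^ 2 * SS p Y = 1 := by
  have := charQ S (p := p) hq
  rw [map_mul, map_sub, map_one] at hz
  obtain ⟨h9, -⟩ := SS_sq (p := p) hp5 (tq O p) (mq O p z) Y hz
  obtain ⟨ε, hε, hk⟩ := key
  have k1 := mq_zero.mpr hk
  rw [map_sub, map_mul, map_mul, map_add, map_mul, map_ofNat, map_ofNat, lg_cast, lg_cast] at k1
  have hε' : mq O p ε ^ 2 = 1 := by rw [← map_pow, hε, map_one]
  have h3 := unit3 S (p := p) hp5
  have h9u : IsUnit (9 : QO O p) := by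
    have : (9 : QO O p) = 3 * 3 := by norm_num
    rw [this]; exact h3.mul h3
  apply h9u.mul_left_cancel
  set L := 2 * lg (p / 3) (mq O p z) + lg (2 * p / 3) (mq O p z) with hL
  have k3 : mq O p ε * mq O p w * L = 3 := by linear_combination k1
  have k4 : mq O p w ^ 2 * L ^ 2 = 9 := by
    linear_combination (mq O p ε * mq O p w * L + 3) * k3 - (mq O p w ^ 2 * L ^ 2) * hε'
  linear_combination mq O p w ^ 2 * h9 + k4

include S in
/-- the sum in the supersingular case -/
theorem SS_ss (hp5 : 5 ≤ p) (hq : S.q = (p : O)) {z : O} {Y : QO O p}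
    (hz : mq O p (z * (1 - z)) = 27 * Y) (hss : S.red (lg (p / 3) z) = 0) : SS p Y = 0 := by
  have := charQ S (p := p) hq
  rw [map_mul, map_sub, map_one] at hz
  obtain ⟨h9, hP⟩ := SS_sq (p := p) hp5 (tq O p) (mq O p z) Y hz
  have hpp := mq_p2 (O := O) (p := p)
  obtain ⟨y, hy⟩ := (S.red_iff _).mp hss
  rw [hq] at hy
  have e1 : lg (p / 3) (mq O p z) = (p : QO O p) * mq O p y := by
    rw [← lg_cast, hy, map_mul, map_natCast]
  have hP' : (p : QO O p) * lg (2 * p / 3) (mq O p z) = 0 := by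
    rw [← hP, e1]
    linear_combination mq O p y * hpp
  have hb : ∃ y', lg (2 * p / 3) z = (p : O) * y' := by
    have h1 : mq O p ((p : O) * lg (2 * p / 3) z) = 0 := by
      rw [map_mul, map_natCast, lg_cast]; exact hP'
    obtain ⟨c, hc⟩ := mq_zero.mp h1
    refine ⟨c, ?_⟩
    have hp0 : (p : O) ≠ 0 := by rw [← hq]; exact S.q_ne
    apply mul_left_cancel₀ hp0
    rw [hc]; ring
  obtain ⟨y', hy'⟩ := hb
  have e2 : lg (2 * p / 3) (mq O p z) = (p : QO O p) * mq O p y' := by rw [← lg_cast, hy', map_mul, map_natCast]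
  have h3 := unit3 S (p := p) hp5
  have h9u : IsUnit (9 : QO O p) := by
    have : (9 : QO O p) = 3 * 3 := by norm_num
    rw [this]; exact h3.mul h3
  apply h9u.mul_left_cancel
  rw [h9, e1, e2, mul_zero]
  linear_combination (2 * mq O p y + mq O p y') ^ 2 * hpp

/-- the unit root from two isogenies whose combination has degree `p` -/
theorem keyForm [IsAlgClosed k] (hp5 : 5 ≤ p) (hq : S.q = (p : O))
    {z z' : O} (hz : S.red z ≠ 0) (hz1 : S.red (1 - z) ≠ 0) (hz' : S.red z' = S.red z ^ p)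
    (ha0 : S.red (ca (4 * z)) ≠ 0) (hb0 : S.red (cb (4 * z)) ≠ 0) {m1 m2 : O} {l1 l2 : ℕ}
    (hm1 : m1 ≠ 0) (hm2 : m2 ≠ 0)
    (d1 : Dat S (cub (ca (4 * z)) (cb (4 * z))) (ca (4 * z')) (cb (4 * z')) m1 l1)
    (d2 : Dat S (cub (ca (4 * z)) (cb (4 * z))) (ca (4 * z')) (cb (4 * z')) m2 l2)
    (r s t0 : ℤ) (hform : (p : ℤ) = r ^ 2 * l1 + r * s * t0 + s ^ 2 * l2)
    (hl1 : ¬ (p : ℤ) ∣ l1) (hl2 : ¬ (p : ℤ) ∣ l2) (ht0 : t0 ^ 2 ≤ 4 * l1 * l2)
    (hbig : 16 * (l1 * l2) < p ^ 2) {al w : O} (hal : (r : O) * m1 + (s : O) * m2 = al)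
    (hw : al = p * w) (hwr : S.red w ≠ 0) : Key p z w := by
  exact lift3 S hp5 hq hz hz1 hz' ha0 hb0 hm1 hm2 d1 d2 r s t0 hform
    (form_ndvd hform hl2) (form_ndvd (r := s) (s := r) (t0 := t0) (l1 := l2) (l2 := l1)
      (by rw [hform]; ring) hl1) ht0 hbig (w := w) (by rw [hal, hw]) hwr

include S in
/-- the square of the unit root -/
theorem w_val (hq : S.q = (p : O)) {al be u : O} (hred : S.red al = 0) (hprod : al * be = p * u)
    (hu : S.red u ≠ 0) : ∃ w : O, al = p * w ∧ S.red w ≠ 0 ∧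
      mq O p (w ^ 2 * ((al + be) ^ 2 - 2 * p * u)) = mq O p (u ^ 2) := by
  have hp0 : (p : O) ≠ 0 := by rw [← hq]; exact S.q_ne
  obtain ⟨w, hw⟩ := (S.red_iff _).mp hred
  rw [hq] at hw
  have h1 : w * be = u := by
    apply mul_left_cancel₀ hp0
    rw [← hprod, hw]; ring
  refine ⟨w, hw, ?_, ?_⟩
  · intro h0
    apply hu
    rw [← h1, map_mul, h0, zero_mul]
  · rw [← sub_eq_zero, ← map_sub, mq_zero]
    refine ⟨w ^ 4, ?_⟩
    rw [← h1, hw]
    ring

end key

end Pool.Agent.H547
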