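import Pool.Agent.H547.DC

set_option autoImplicit false
set_option linter.unusedSectionVars false

/-!
# The Franel sum at a point of the curve of level 6
-/

namespace Pool.Agent.H547

open Finset Pool.Agent.H546
open Pool.Agent.Q267.CDE (R)

variable {O K k : Type*} [CommRing O] [IsDomain O] [Field K] [Algebra O K] [Field k]
  (S : DV O K k) {p : ℕ} [hp : Fact p.Prime] [CharP k p]

include S in
theorem red2 (hp5 : 5 ≤ p) : S.red 2 ≠ 0 := by
  have := small_ne (k := k) (p := p) (n := 2) (by norm_num) (by omega)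
  rw [map_ofNat]
  exact_mod_cast this

include S in
theorem red3 (hp5 : 5 ≤ p) : S.red 3 ≠ 0 := by
  have := small_ne (k := k) (p := p) (n := 3) (by norm_num) (by omega)
  rw [map_ofNat]
  exact_mod_cast this

include S in
theorem frob_lift (hq : S.q = (p : O)) {s s' : O} (h : S.red s' = S.red s ^ p) :
    ∃ δ : QO O p, mq O p s ^ p = mq O p s' + (p : QO O p) * δ := by
  have h1 : S.red (s ^ p - s') = 0 := by rw [map_sub, map_pow, h, sub_self]
  obtain ⟨d, hd⟩ := (S.red_iff _).mp h1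
  rw [hq] at hd
  refine ⟨mq O p d, ?_⟩
  rw [← map_pow, ← map_natCast (mq O p) p, ← map_mul, ← map_add]
  congr 1
  linear_combination hd

include S in
theorem zF (hp5 : 5 ≤ p) {μ μσ z z' : O} (hz : 4 * z = am μ) (hz' : 4 * z' = am μσ)
    (hσ : S.red μσ = S.red μ ^ p) : S.red z' = S.red z ^ p := by
  have frob : ∀ x : k, x ^ p = frobenius k p x := fun x => rfl
  have r2 : (2 : k) ≠ 0 := by have := red2 S hp5; rwa [map_ofNat] at this
  have r4 : (4 : k) ≠ 0 := by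
    have : (4 : k) = 2 * 2 := by norm_num
    rw [this]; exact mul_ne_zero r2 r2
  have h1 := congrArg S.red hz
  have h2 := congrArg S.red hz'
  rw [map_mul, map_ofNat, am_map] at h1 h2
  apply mul_left_cancel₀ r4
  rw [h2, hσ]
  have h3 := congrArg (frobenius k p) h1
  rw [map_mul, map_ofNat, am_map] at h3
  rw [frob, frob, ← h3]

/-- the data in the quotient ring -/
structure Q6 (A : Type*) [CommRing A] where
  μ : A
  v : A
  v2 : A
  v3 : A
  i : A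
  j : A
  hv : μ * v = 1
  h2 : 2 * v2 = 1
  h3 : 3 * v3 = 1
  hi : (4 - μ ^ 2) * i = 1
  hj : (μ ^ 2 + 2) * j = 1

namespace Q6

variable {A : Type*} [CommRing A] (D : Q6 A)

def s : A := (D.μ ^ 2 - 1) * D.i * D.v2 ^ 2
def i4 : A := (4 - D.μ ^ 2) * D.v3
def i8 : A := (4 - D.μ ^ 2) * D.j
def i16 : A := (4 - D.μ ^ 2) * D.v3 * D.v ^ 2

theorem e4 : 1 + 4 * D.s = 3 * D.i := by
  unfold s
  linear_combination ((D.μ ^ 2 - 1) * D.i * (2 * D.v2 + 1)) * D.h2 - D.hi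

theorem e8 : 1 + 8 * D.s = (D.μ ^ 2 + 2) * D.i := by
  unfold s
  linear_combination (2 * (D.μ ^ 2 - 1) * D.i * (2 * D.v2 + 1)) * D.h2 - D.hi

theorem e16 : 1 + 16 * D.s = 3 * D.μ ^ 2 * D.i := by
  unfold s
  linear_combination (4 * (D.μ ^ 2 - 1) * D.i * (2 * D.v2 + 1)) * D.h2 - D.hi

theorem k4 : (1 + 4 * D.s) * D.i4 = 1 := by
  rw [e4]; unfold i4
  linear_combination D.h3 + 3 * D.v3 * D.hi

theorem k8 : (1 + 8 * D.s) * D.i8 = 1 := by
  rw [e8]; unfold i8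
  linear_combination D.hj + (D.μ ^ 2 + 2) * D.j * D.hi

theorem k16 : (1 + 16 * D.s) * D.i16 = 1 := by
  rw [e16]; unfold i16
  linear_combination D.h3 + 3 * D.v3 * D.hi + (3 * D.v3 * (4 - D.μ ^ 2) * D.i * (D.μ * D.v + 1)) * D.hv

theorem y4 {z : A} (hz : 4 * z = am D.μ) : z * (1 - z) = 27 * (D.s ^ 2 * D.i4 ^ 3) := by
  have h16 : 16 * (z * (1 - z)) = (D.μ ^ 2 - 1) ^ 2 * (4 - D.μ ^ 2) := by
    unfold am at hz
    linear_combination (4 * (1 - z)) * hz - ((D.μ - 1) ^ 2 * (D.μ + 2)) * hz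
  have hY : 16 * (27 * (D.s ^ 2 * D.i4 ^ 3)) = (D.μ ^ 2 - 1) ^ 2 * (4 - D.μ ^ 2) := by
    have a1 : 27 * D.v3 ^ 3 = 1 := by linear_combination ((3 * D.v3) ^ 2 + 3 * D.v3 + 1) * D.h3
    have a2 : 16 * D.v2 ^ 4 = 1 := by
      linear_combination (8 * D.v2 ^ 3 + 4 * D.v2 ^ 2 + 2 * D.v2 + 1) * D.h2
    have a3 : (4 - D.μ ^ 2) ^ 2 * D.i ^ 2 = 1 := by linear_combination ((4 - D.μ ^ 2) * D.i + 1) * D.hi
    unfold s i4
    linear_combination ((D.μ ^ 2 - 1) ^ 2 * D.i ^ 2 * (16 * D.v2 ^ 4) * (4 - D.μ ^ 2) ^ 3) * a1 +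
      ((D.μ ^ 2 - 1) ^ 2 * D.i ^ 2 * (4 - D.μ ^ 2) ^ 3) * a2 +
      ((D.μ ^ 2 - 1) ^ 2 * (4 - D.μ ^ 2)) * a3
  have hu : IsUnit (16 : A) := IsUnit.of_mul_eq_one (D.v2 ^ 4) (by
    linear_combination (8 * D.v2 ^ 3 + 4 * D.v2 ^ 2 + 2 * D.v2 + 1) * D.h2)
  apply hu.mul_left_cancel
  rw [h16, hY]

theorem y16 {z : A} (hz : 4 * z = am (-2 * D.v)) : z * (1 - z) = 27 * (D.s * D.i16 ^ 3) := by
  have h16 : 16 * (z * (1 - z)) = (4 * D.v ^ 2 - 1) ^ 2 * (4 - 4 * D.v ^ 2) := by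
    unfold am at hz
    linear_combination (4 * (1 - z)) * hz - ((-2 * D.v - 1) ^ 2 * (-2 * D.v + 2)) * hz
  have hm : D.μ ^ 6 * ((4 * D.v ^ 2 - 1) ^ 2 * (4 - 4 * D.v ^ 2)) = 4 * (4 - D.μ ^ 2) ^ 2 * (D.μ ^ 2 - 1) := by
    linear_combination (-64 * D.μ ^ 5 * D.v ^ 5 - 64 * D.μ ^ 4 * D.v ^ 4 + 96 * D.μ ^ 5 * D.v ^ 3 - 64 * D.μ ^ 3 * D.v ^ 3 + 96 * D.μ ^ 4 * D.v ^ 2 - 36 * D.μ ^ 5 * D.v - 64 * D.μ ^ 2 * D.v ^ 2 + 96 * D.μ ^ 3 * D.v - 36 * D.μ ^ 4 - 64 * D.μ * D.v + 96 * D.μ ^ 2 - 64) * D.hv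
  have hY : D.μ ^ 6 * (16 * (27 * (D.s * D.i16 ^ 3))) = 4 * (4 - D.μ ^ 2) ^ 2 * (D.μ ^ 2 - 1) := by
    have a1 : 27 * D.v3 ^ 3 = 1 := by linear_combination ((3 * D.v3) ^ 2 + 3 * D.v3 + 1) * D.h3
    have a2 : 4 * D.v2 ^ 2 = 1 := by
      linear_combination (2 * D.v2 + 1) * D.h2
    have a3 : D.μ ^ 6 * D.v ^ 6 = 1 := by
      have : (D.μ * D.v) ^ 6 = 1 := by rw [D.hv, one_pow]
      linear_combination this
    unfold s i16
    linear_combination (4 * (D.μ ^ 2 - 1) * D.i * (4 * D.v2 ^ 2) * (4 - D.μ ^ 2) ^ 3 * (D.μ ^ 6 * D.v ^ 6)) * a1 +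
      (4 * (D.μ ^ 2 - 1) * D.i * (4 - D.μ ^ 2) ^ 3 * (D.μ ^ 6 * D.v ^ 6)) * a2 +
      (4 * (D.μ ^ 2 - 1) * D.i * (4 - D.μ ^ 2) ^ 3) * a3 + (4 * (D.μ ^ 2 - 1) * (4 - D.μ ^ 2) ^ 2) * D.hi
  have hu : IsUnit (16 : A) := IsUnit.of_mul_eq_one (D.v2 ^ 4) (by
    linear_combination (8 * D.v2 ^ 3 + 4 * D.v2 ^ 2 + 2 * D.v2 + 1) * D.h2)
  have hu2 : IsUnit (D.μ ^ 6) := (IsUnit.of_mul_eq_one _ D.hv).pow 6
  apply hu.mul_left_cancel
  apply hu2.mul_left_cancel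
  rw [h16, hY, hm]

theorem x8 {X : A} (hX : 4 * (D.μ ^ 2 + 2) ^ 2 * X = (D.μ ^ 2 - 1) * (4 - D.μ ^ 2)) : X = D.s * D.i8 ^ 2 := by
  have a2 : 4 * D.v2 ^ 2 = 1 := by linear_combination (2 * D.v2 + 1) * D.h2
  have h1 : 4 * (D.μ ^ 2 + 2) ^ 2 * (D.s * D.i8 ^ 2) = (D.μ ^ 2 - 1) * (4 - D.μ ^ 2) := by
    unfold s i8
    linear_combination ((D.μ ^ 2 - 1) * (4 - D.μ ^ 2) ^ 2 * D.i * ((D.μ ^ 2 + 2) * D.j) ^ 2) * a2 +
      ((D.μ ^ 2 - 1) * (4 - D.μ ^ 2) * ((D.μ ^ 2 + 2) * D.j) ^ 2) * D.hi +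
      ((D.μ ^ 2 - 1) * (4 - D.μ ^ 2) * ((D.μ ^ 2 + 2) * D.j + 1)) * D.hj
  have hu : IsUnit (4 * (D.μ ^ 2 + 2) ^ 2) :=
    (IsUnit.of_mul_eq_one _ a2).mul ((IsUnit.of_mul_eq_one _ D.hj).pow 2)
  apply hu.mul_left_cancel
  rw [hX, h1]

end Q6

include S in
/-- the ordinary case -/
theorem AA_final (hp5 : 5 ≤ p) (hq : S.q = (p : O)) {μ v μσ zA zB wA wB : O} (hv : μ * v = 1)
    (hzA : 4 * zA = am μ) (hzB : 4 * zB = am (-2 * v)) (hσ : S.red μσ = S.red μ ^ p)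
    (u1 : S.red (4 - μ ^ 2) ≠ 0) (u2 : S.red (μ ^ 2 + 2) ≠ 0)
    (kA : Key p zA wA) (kB : Key p zB wB) (hw : wB ^ 2 * μ ^ 2 = wA ^ 2 * μσ ^ 2)
    {X E : QO O p} (hX : 4 * (mq O p μ ^ 2 + 2) ^ 2 * X = (mq O p μ ^ 2 - 1) * (4 - mq O p μ ^ 2))
    (hE : (mq O p μσ ^ 2 + 2) * mq O p wA ^ 2 * E = mq O p μ ^ 2 + 2) : AA p X = E := by
  have frob : ∀ x : k, x ^ p = frobenius k p x := fun x => rfl
  obtain ⟨v2, hv2⟩ := (S.unit_of_red (red2 S hp5)).exists_right_inv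
  obtain ⟨v3, hv3⟩ := (S.unit_of_red (red3 S hp5)).exists_right_inv
  obtain ⟨i, hi⟩ := (S.unit_of_red u1).exists_right_inv
  obtain ⟨j, hj⟩ := (S.unit_of_red u2).exists_right_inv
  have u1σ : S.red (4 - μσ ^ 2) = S.red (4 - μ ^ 2) ^ p := by
    rw [map_sub, map_pow, hσ, frob, frob, map_ofNat, map_sub, map_pow, map_sub, map_pow, map_ofNat, map_ofNat]
  have u2σ : S.red (μσ ^ 2 + 2) = S.red (μ ^ 2 + 2) ^ p := by
    rw [map_add, map_pow, hσ, frob, frob, map_ofNat, map_add, map_pow, map_add, map_pow, map_ofNat, map_ofNat]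
  have u1' : S.red (4 - μσ ^ 2) ≠ 0 := by rw [u1σ]; exact pow_ne_zero _ u1
  have u2' : S.red (μσ ^ 2 + 2) ≠ 0 := by rw [u2σ]; exact pow_ne_zero _ u2
  obtain ⟨iσ, hiσ⟩ := (S.unit_of_red u1').exists_right_inv
  -- the Frobenius lift of `s`
  have hFv2 : S.red v2 ^ p = S.red v2 := by
    have h1 : (2 : k) * S.red v2 = 1 := by
      have := congrArg S.red hv2
      rwa [map_mul, map_ofNat, map_one] at this
    have h2 := congrArg (frobenius k p) h1
    rw [map_mul, map_ofNat, map_one, ← frob] at h2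
    have r2 : (2 : k) ≠ 0 := by have := red2 S hp5; rwa [map_ofNat] at this
    apply mul_left_cancel₀ r2
    rw [h1, h2]
  have hFi : S.red iσ = S.red i ^ p := by
    have h1 := congrArg S.red hi
    rw [map_mul, map_one] at h1
    have h2 := congrArg (frobenius k p) h1
    rw [map_mul, map_one, ← frob, ← frob, ← u1σ] at h2
    have h3 := congrArg S.red hiσ
    rw [map_mul, map_one] at h3
    apply mul_left_cancel₀ u1'
    rw [h3, h2]
  have hs : S.red ((μσ ^ 2 - 1) * iσ * v2 ^ 2) = S.red ((μ ^ 2 - 1) * i * v2 ^ 2) ^ p := by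
    rw [map_mul, map_mul, hFi, map_sub, map_pow, hσ, map_one, map_pow, map_mul, map_mul, map_sub, map_pow, map_one,
      map_pow, mul_pow, mul_pow]
    congr 1
    · congr 1
      rw [frob, frob, map_sub, map_pow, map_one]
    · rw [← pow_mul, mul_comm 2 p, pow_mul, hFv2]
  obtain ⟨δ, hδ⟩ := frob_lift S hq hs
  have h4v2 : 4 * v2 ^ 2 = 1 := by linear_combination (2 * v2 + 1) * hv2
  -- the quotient
  set D : Q6 (QO O p) :=
    { μ := mq O p μ, v := mq O p v, v2 := mq O p v2, v3 := mq O p v3, i := mq O p i, j := mq O p j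
      hv := by rw [← map_mul, hv, map_one]
      h2 := by rw [← map_ofNat (mq O p) 2, ← map_mul, hv2, map_one]
      h3 := by rw [← map_ofNat (mq O p) 3, ← map_mul, hv3, map_one]
      hi := by rw [← map_ofNat (mq O p) 4, ← map_pow, ← map_sub, ← map_mul, hi, map_one]
      hj := by rw [← map_ofNat (mq O p) 2, ← map_pow, ← map_add, ← map_mul, hj, map_one] } with hD
  have hDs : D.s = mq O p ((μ ^ 2 - 1) * i * v2 ^ 2) := by
    unfold Q6.s
    rw [map_mul, map_mul, map_sub, map_pow, map_pow, map_one]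
  set s' := mq O p ((μσ ^ 2 - 1) * iσ * v2 ^ 2) with hs'
  have q4 : 1 + 4 * s' = 3 * mq O p iσ := by
    rw [hs', ← map_ofNat (mq O p) 4, ← map_ofNat (mq O p) 3, ← map_one (mq O p), ← map_mul, ← map_add, ← map_mul]
    congr 1
    linear_combination ((μσ ^ 2 - 1) * iσ) * h4v2 - hiσ
  have q8 : 1 + 8 * s' = (mq O p μσ ^ 2 + 2) * mq O p iσ := by
    rw [hs', ← map_ofNat (mq O p) 8, ← map_ofNat (mq O p) 2, ← map_one (mq O p), ← map_mul, ← map_add, ← map_pow,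
      ← map_add, ← map_mul]
    congr 1
    linear_combination (2 * (μσ ^ 2 - 1) * iσ) * h4v2 - hiσ
  have q16 : 1 + 16 * s' = 3 * mq O p μσ ^ 2 * mq O p iσ := by
    rw [hs', ← map_ofNat (mq O p) 16, ← map_ofNat (mq O p) 3, ← map_one (mq O p), ← map_mul, ← map_add, ← map_pow,
      ← map_mul, ← map_mul]
    congr 1
    linear_combination (4 * (μσ ^ 2 - 1) * iσ) * h4v2 - hiσ
  have hqi : (4 - mq O p μσ ^ 2) * mq O p iσ = 1 := by
    rw [← map_ofNat (mq O p) 4, ← map_pow, ← map_sub, ← map_mul, hiσ, map_one]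
  -- the two sums
  have zA' : 4 * mq O p zA = am (D.μ) := by
    rw [← map_ofNat (mq O p) 4, ← map_mul, hzA, am_map]
  have zB' : 4 * mq O p zB = am (-2 * D.v) := by
    rw [← map_ofNat (mq O p) 4, ← map_mul, hzB, am_map, map_mul, map_neg, map_ofNat]
  have kSA := SS_unit S (p := p) hp5 hq (z := zA) (w := wA) (Y := D.s ^ 2 * D.i4 ^ 3)
    (by rw [map_mul, map_sub, map_one]; exact D.y4 zA') kA
  have kSB := SS_unit S (p := p) hp5 hq (z := zB) (w := wB) (Y := D.s * D.i16 ^ 3)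
    (by rw [map_mul, map_sub, map_one]; exact D.y16 zB') kB
  have hw' : mq O p wB ^ 2 * D.μ ^ 2 = mq O p wA ^ 2 * mq O p μσ ^ 2 := by
    have := congrArg (mq O p) hw
    rw [map_mul, map_pow, map_pow, map_mul, map_pow, map_pow] at this
    exact this
  have hrel : D.i16 * (1 + 16 * s') * SS p (D.s * D.i16 ^ 3) = D.i4 * (1 + 4 * s') * SS p (D.s ^ 2 * D.i4 ^ 3) := by
    set SA := SS p (D.s ^ 2 * D.i4 ^ 3)
    set SB := SS p (D.s * D.i16 ^ 3)
    have h1 : mq O p μσ ^ 2 * D.v ^ 2 * SB = SA := by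
      have hvv : D.μ ^ 2 * D.v ^ 2 = 1 := by linear_combination (D.μ * D.v + 1) * D.hv
      linear_combination (-(mq O p μσ ^ 2 * D.v ^ 2 * SB)) * kSA - (SA * SB * D.v ^ 2) * hw' +
        (SA * SB * mq O p wB ^ 2) * hvv + SA * kSB
    rw [q4, q16, Q6.i16, Q6.i4]
    linear_combination (3 * D.v3 * (4 - D.μ ^ 2) * mq O p iσ) * h1
  have u8 : IsUnit (1 + 8 * s') := by
    rw [q8]
    refine IsUnit.mul ?_ (IsUnit.of_mul_eq_one (4 - mq O p μσ ^ 2) (by linear_combination hqi))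
    have := unit_mq S (p := p) u2'
    rwa [map_add, map_pow, map_ofNat] at this
  rw [← hDs] at hδ
  have key := club_fin (p := p) mq_p2 (by omega) D.k4 D.k8 D.k16 hδ u8 (unit3 S hp5) hrel
  rw [← D.x8 hX] at key
  generalize SS p (D.s ^ 2 * D.i4 ^ 3) = SA at key kSA
  rw [q4, q8, Q6.i8, Q6.i4] at key
  have uu : IsUnit ((mq O p μσ ^ 2 + 2) * mq O p wA ^ 2) := by
    refine IsUnit.mul ?_ (IsUnit.of_mul_eq_one SA kSA)
    have := unit_mq S (p := p) u2'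
    rwa [map_add, map_pow, map_ofNat] at this
  apply uu.mul_left_cancel
  rw [hE]
  have uw : IsUnit ((4 - D.μ ^ 2) * mq O p iσ * D.j) := by
    refine IsUnit.mul (IsUnit.mul (IsUnit.of_mul_eq_one _ D.hi) (IsUnit.of_mul_eq_one (4 - mq O p μσ ^ 2)
      (by linear_combination hqi))) (IsUnit.of_mul_eq_one (D.μ ^ 2 + 2) (by linear_combination D.hj))
  apply uw.mul_left_cancel
  linear_combination (mq O p wA ^ 2) * key + ((4 - D.μ ^ 2) * mq O p iσ * (3 * D.v3)) * kSA +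
    ((4 - D.μ ^ 2) * mq O p iσ) * D.h3 - ((4 - D.μ ^ 2) * mq O p iσ) * D.hj

include S in
/-- the supersingular case -/
theorem AA_ss (hp5 : 5 ≤ p) (hq : S.q = (p : O)) {μ v : O} (hv : μ * v = 1)
    (u1 : S.red (4 - μ ^ 2) ≠ 0) (u2 : S.red (μ ^ 2 + 2) ≠ 0) (u3 : S.red (μ ^ 2 - 1) ≠ 0)
    (hA : hs p (S.red (am μ)) = 0)
    {X : QO O p} (hX : 4 * (mq O p μ ^ 2 + 2) ^ 2 * X = (mq O p μ ^ 2 - 1) * (4 - mq O p μ ^ 2)) :
    AA p X = 0 := by
  obtain ⟨v2, hv2⟩ := (S.unit_of_red (red2 S hp5)).exists_right_inv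
  obtain ⟨v3, hv3⟩ := (S.unit_of_red (red3 S hp5)).exists_right_inv
  obtain ⟨i, hi⟩ := (S.unit_of_red u1).exists_right_inv
  obtain ⟨j, hj⟩ := (S.unit_of_red u2).exists_right_inv
  have h4v2 : 4 * v2 ^ 2 = 1 := by linear_combination (2 * v2 + 1) * hv2
  set D : Q6 (QO O p) :=
    { μ := mq O p μ, v := mq O p v, v2 := mq O p v2, v3 := mq O p v3, i := mq O p i, j := mq O p j
      hv := by rw [← map_mul, hv, map_one]
      h2 := by rw [← map_ofNat (mq O p) 2, ← map_mul, hv2, map_one]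
      h3 := by rw [← map_ofNat (mq O p) 3, ← map_mul, hv3, map_one]
      hi := by rw [← map_ofNat (mq O p) 4, ← map_pow, ← map_sub, ← map_mul, hi, map_one]
      hj := by rw [← map_ofNat (mq O p) 2, ← map_pow, ← map_add, ← map_mul, hj, map_one] } with hD
  have hzA : 4 * (v2 ^ 2 * am μ) = am μ := by linear_combination (am μ) * h4v2
  have hzB : 4 * (v2 ^ 2 * am (-2 * v)) = am (-2 * v) := by linear_combination (am (-2 * v)) * h4v2
  have zA' : 4 * mq O p (v2 ^ 2 * am μ) = am (D.μ) := by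
    rw [← map_ofNat (mq O p) 4, ← map_mul, hzA, am_map]
  have zB' : 4 * mq O p (v2 ^ 2 * am (-2 * v)) = am (-2 * D.v) := by
    rw [← map_ofNat (mq O p) 4, ← map_mul, hzB, am_map, map_mul, map_neg, map_ofNat]
  have r2 : (2 : k) ≠ 0 := by have := red2 S hp5; rwa [map_ofNat] at this
  have r3 : (3 : k) ≠ 0 := by have := red3 S hp5; rwa [map_ofNat] at this
  have hm1 : S.red μ ≠ 1 := by
    intro h0
    apply u3
    rw [map_sub, map_pow, h0, map_one]; ring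
  have hvr : S.red μ * S.red v = 1 := by rw [← map_mul, hv, map_one]
  have hvr0 : S.red v ≠ 0 := by intro h0; rw [h0, mul_zero] at hvr; exact zero_ne_one hvr
  have hmr0 : S.red μ ≠ 0 := by intro h0; rw [h0, zero_mul] at hvr; exact zero_ne_one hvr
  -- the second curve
  have hB0 : am (-2 * S.red v) ≠ 0 := by
    unfold am
    refine mul_ne_zero (pow_ne_zero _ ?_) ?_
    · intro h0
      apply u1
      rw [map_sub, map_pow, map_ofNat]
      linear_combination (-(2 - S.red μ) * S.red μ) * h0 - 2 * (2 - S.red μ) * hvr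
    · intro h0
      apply u3
      rw [map_sub, map_pow, map_one]
      have h1 : S.red μ * (-2 * S.red v + 2) = 2 * (S.red μ - 1) := by linear_combination (-2) * hvr
      rw [h0, mul_zero] at h1
      have h2 : S.red μ - 1 = 0 := by
        rcases mul_eq_zero.mp h1.symm with h | h
        · exact absurd h r2
        · exact h
      linear_combination (S.red μ + 1) * h2
  have hB : hs p (am (-2 * S.red v)) = 0 := by
    have := HR_psi (p := p) (by omega) hvr hm1 hB0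
    unfold HR at this
    rw [am_map] at hA
    rw [hA, mul_zero] at this
    rcases mul_eq_zero.mp this.symm with h | h
    · exact absurd h (pow_ne_zero _ hmr0)
    · exact h
  have sA : S.red (lg (p / 3) (v2 ^ 2 * am μ)) = 0 := by
    rw [lg_cast, ← hs_lg (p := p) (by omega) (by omega)]
    have : 4 * S.red (v2 ^ 2 * am μ) = S.red (am μ) := by
      rw [← map_ofNat S.red 4, ← map_mul, hzA]
    rw [this]; exact hA
  have sB : S.red (lg (p / 3) (v2 ^ 2 * am (-2 * v))) = 0 := by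
    rw [lg_cast, ← hs_lg (p := p) (by omega) (by omega)]
    have : 4 * S.red (v2 ^ 2 * am (-2 * v)) = am (-2 * S.red v) := by
      rw [← map_ofNat S.red 4, ← map_mul, hzB, am_map, map_mul, map_neg, map_ofNat]
    rw [this]; exact hB
  have kSA := SS_ss S (p := p) hp5 hq (Y := D.s ^ 2 * D.i4 ^ 3)
    (by rw [map_mul, map_sub, map_one]; exact D.y4 zA') sA
  have kSB := SS_ss S (p := p) hp5 hq (Y := D.s * D.i16 ^ 3)
    (by rw [map_mul, map_sub, map_one]; exact D.y16 zB') sB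
  have key := club_zero (p := p) mq_p2 (by omega) D.k4 D.k8 D.k16 (unit3 S hp5) kSB kSA
  rw [← D.x8 hX] at key
  exact key

end Pool.Agent.H547
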