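import Pool.Agent.H547.DD

set_option autoImplicit false
set_option linter.unusedSectionVars false

/-!
# Bookkeeping for the evaluation of Franel sums
-/

namespace Pool.Agent.H547

open Finset Pool.Agent.H546
open Pool.Agent.Q267.CDE (R)

theorem leg2 (p : ℕ) [hp : Fact p.Prime] (hp2 : p ≠ 2) :
    legendreSym p 2 = if p % 8 = 1 ∨ p % 8 = 7 then 1 else -1 := by
  rw [legendreSym.at_two hp2, ZMod.χ₈_nat_eq_if_mod_eight, if_neg]
  have := hp.out.eq_two_or_odd
  omega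

theorem legm1 (p : ℕ) [hp : Fact p.Prime] (hp2 : p ≠ 2) :
    legendreSym p (-1) = if p % 4 = 1 then 1 else -1 := by
  rw [legendreSym.at_neg_one hp2, ZMod.χ₄_nat_eq_if_mod_four, if_neg]
  have := hp.out.eq_two_or_odd
  omega

theorem ndvd1 (p : ℕ) [hp : Fact p.Prime] : ¬ (p : ℤ) ∣ ((1 : ℕ) : ℤ) := by
  intro h
  exact (Nat.prime_iff_prime_int.mp hp.out).not_isUnit (isUnit_of_dvd_one (by exact_mod_cast h))

theorem ndvd1' (p : ℕ) [hp : Fact p.Prime] : ¬ (p : ℤ) ∣ 1 := by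
  intro h
  exact (Nat.prime_iff_prime_int.mp hp.out).not_isUnit (isUnit_of_dvd_one h)

variable {O K k : Type*} [CommRing O] [IsDomain O] [Field K] [Algebra O K] [Field k]
  (S : DV O K k) {p : ℕ} [hp : Fact p.Prime] [CharP k p]

include S in
theorem sred_int {n : ℤ} (h : ¬ (p : ℤ) ∣ n) : S.red (n : O) ≠ 0 := by
  rw [map_intCast]
  intro h0
  exact h ((CharP.intCast_eq_zero_iff k p n).mp h0)

include S in
theorem sred_ne {x y : O} {n : ℤ} (h : x * y = (n : O)) (hn : ¬ (p : ℤ) ∣ n) : S.red x ≠ 0 := by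
  intro h0
  apply sred_int S (p := p) hn
  rw [← h, map_mul, h0, zero_mul]

include S in
theorem sqrt_ne {x : O} {n : ℤ} (h : x ^ 2 = (n : O)) (hn : ¬ (p : ℤ) ∣ n) : x ≠ 0 ∧ S.red x ≠ 0 := by
  have h1 : S.red x ≠ 0 := sred_ne S (p := p) (y := x) (n := n) (by rw [← h]; ring) hn
  exact ⟨by rintro rfl; exact h1 (map_zero _), h1⟩

include S in
theorem frobS (hp2 : p ≠ 2) {x : O} {n : ℤ} (h : x ^ 2 = (n : O)) :
    S.red x ^ p = (legendreSym p n : k) * S.red x := by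
  refine frob_sqrt hp2 (d := n) ?_
  rw [← map_pow, h, map_intCast]

include S in
theorem frobInt (n : ℤ) : S.red (n : O) ^ p = S.red (n : O) := by
  rw [map_intCast]
  have : ((n : ZMod p)) ^ p = n := ZMod.pow_card _
  have h2 := congrArg (ZMod.castHom (dvd_refl p) k) this
  rw [map_pow, map_intCast] at h2
  exact h2

include S in
/-- from the value in the quotient to the value modulo `p²` -/
theorem to_R [CharP (QO O p) (p ^ 2)] {wi : R p} {E : ℤ}
    (h : AA p (tq O p wi) = (E : QO O p)) : AA p wi = (E : R p) := by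
  apply tq_inj (O := O)
  rw [AA_map, h, map_intCast]

include S in
/-- the equation of the argument -/
theorem arg_eq [CharP (QO O p) (p ^ 2)] {μ : O} {m : ℤ} {wi : R p} (hwi : (m : R p) * wi = 1)
    (hm : 4 * (μ ^ 2 + 2) ^ 2 = (m : O) * ((μ ^ 2 - 1) * (4 - μ ^ 2))) :
    4 * (mq O p μ ^ 2 + 2) ^ 2 * tq O p wi = (mq O p μ ^ 2 - 1) * (4 - mq O p μ ^ 2) := by
  have h1 := congrArg (tq O p) hwi
  rw [map_mul, map_intCast, map_one] at h1
  have h2 := congrArg (mq O p) hm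
  rw [map_mul, map_pow, map_add, map_pow, map_ofNat, map_ofNat, map_mul, map_intCast, map_mul, map_sub, map_pow,
    map_one, map_sub, map_pow, map_ofNat] at h2
  linear_combination (tq O p wi) * h2 + ((mq O p μ ^ 2 - 1) * (4 - mq O p μ ^ 2)) * h1

include S in
/-- the ordinary case -/
theorem ord_val (hp5 : 5 ≤ p) (hq : S.q = (p : O)) [CharP (QO O p) (p ^ 2)] {μ v μσ zA zB : O} (hv : μ * v = 1)
    (hzA : 4 * zA = am μ) (hzB : 4 * zB = am (-2 * v)) (hσ : S.red μσ = S.red μ ^ p)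
    (u1 : S.red (4 - μ ^ 2) ≠ 0) (u2 : S.red (μ ^ 2 + 2) ≠ 0)
    {al be u : O} (hred : S.red al = 0) (hprod : al * be = p * u) (hu : S.red u ≠ 0)
    (kA : ∀ w : O, al = p * w → S.red w ≠ 0 → Key p zA w)
    (kB : ∀ w : O, al = p * w → S.red w ≠ 0 → ∃ wB : O, Key p zB wB ∧ wB ^ 2 * μ ^ 2 = w ^ 2 * μσ ^ 2)
    {X : QO O p} {E : ℤ} (hX : 4 * (mq O p μ ^ 2 + 2) ^ 2 * X = (mq O p μ ^ 2 - 1) * (4 - mq O p μ ^ 2))
    (hE : (E : O) * (μσ ^ 2 + 2) * u ^ 2 = (μ ^ 2 + 2) * ((al + be) ^ 2 - 2 * p * u)) :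
    AA p X = (E : QO O p) := by
  obtain ⟨w, hw, hwr, hval⟩ := w_val S hq hred hprod hu
  obtain ⟨wB, k2, hwB⟩ := kB w hw hwr
  refine AA_final S hp5 hq hv hzA hzB hσ u1 u2 (kA w hw hwr) k2 hwB hX ?_
  have hu2 : IsUnit (mq O p u ^ 2) := (unit_mq S (p := p) hu).pow 2
  apply hu2.mul_left_cancel
  have h1 := congrArg (mq O p) hE
  generalize (al + be) ^ 2 - 2 * p * u = T at h1 hval
  rw [map_mul, map_pow, map_pow] at hval
  rw [map_mul, map_mul, map_intCast, map_add, map_pow, map_pow, map_ofNat, map_mul, map_add, map_pow, map_ofNat] at h1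
  linear_combination (mq O p w ^ 2) * h1 + (mq O p μ ^ 2 + 2) * hval

end Pool.Agent.H547
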