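import Pool.Agent.H547.Rel

set_option autoImplicit false
set_option linter.unusedSectionVars false

/-!
Double harmonic sums of weight four: `∑_{l<p/2} (H_{2l} - H_l)/l³ ≡ 0` modulo `p`.
-/

namespace Pool.Agent.H547

open Finset Pool.Agent.R439.PL

/-- reflection of a triangular sum -/
theorem tri_refl (n : ℕ) (f : ℕ → ℕ → ℚ) : ∑ m ∈ range n, ∑ i ∈ range m, f i m =
    ∑ m ∈ range n, ∑ i ∈ range m, f (n - 1 - m) (n - 1 - i) := by
  rw [sum_sigma', sum_sigma']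
  refine sum_bij' (fun x _ => ⟨n - 1 - x.2, n - 1 - x.1⟩) (fun x _ => ⟨n - 1 - x.2, n - 1 - x.1⟩)
    ?_ ?_ ?_ ?_ ?_
  · rintro ⟨m, i⟩ h
    simp only [mem_sigma, mem_range] at h ⊢
    omega
  · rintro ⟨m, i⟩ h
    simp only [mem_sigma, mem_range] at h ⊢
    omega
  · rintro ⟨m, i⟩ h
    simp only [mem_sigma, mem_range] at h
    have h1 : n - 1 - (n - 1 - m) = m := by omega
    have h2 : n - 1 - (n - 1 - i) = i := by omega
    simp only [h1, h2]
  · rintro ⟨m, i⟩ h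
    simp only [mem_sigma, mem_range] at h
    have h1 : n - 1 - (n - 1 - m) = m := by omega
    have h2 : n - 1 - (n - 1 - i) = i := by omega
    simp only [h1, h2]
  · rintro ⟨m, i⟩ h
    simp only [mem_sigma, mem_range] at h
    have h1 : n - 1 - (n - 1 - m) = m := by omega
    have h2 : n - 1 - (n - 1 - i) = i := by omega
    simp only [h1, h2]

/-- twice the symmetric triangular sum -/
theorem tri_sq (n : ℕ) (x : ℕ → ℚ) : 2 * ∑ m ∈ range n, (∑ i ∈ range m, x i) * x m +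
    ∑ m ∈ range n, x m ^ 2 = (∑ m ∈ range n, x m) ^ 2 := by
  induction n with
  | zero => simp
  | succ n ih =>
    rw [sum_range_succ, sum_range_succ (fun m => x m ^ 2), sum_range_succ x]
    linear_combination ih

/-- `∑_{i ≤ n} (-1)^i/i^r` -/
def Al (n r : ℕ) : ℚ := ∑ i ∈ range n, (-1) ^ (i + 1) / ((i : ℚ) + 1) ^ r

theorem Al_succ (n r : ℕ) : Al (n + 1) r = Al n r + (-1) ^ (n + 1) / ((n : ℚ) + 1) ^ r := by
  rw [Al, sum_range_succ]; rfl

theorem Al_zero (r : ℕ) : Al 0 r = 0 := by simp [Al]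

theorem Al_even (l : ℕ) : Al (2 * l) 1 = -(H (2 * l) 1 - H l 1) := by
  induction l with
  | zero => simp [Al, H]
  | succ l ih =>
    rw [show 2 * (l + 1) = 2 * l + 1 + 1 by ring, Al_succ, Al_succ, ih, H_succ, H_succ, H_succ]
    have e1 : (-1 : ℚ) ^ (2 * l + 1) = -1 := by rw [pow_succ, pow_mul]; norm_num
    have e2 : (-1 : ℚ) ^ (2 * l + 1 + 1) = 1 := by rw [pow_succ, e1]; norm_num
    rw [e1, e2]
    have h0 : (l : ℚ) + 1 ≠ 0 := by positivity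
    have h1 : 2 * (l : ℚ) + 1 ≠ 0 := by positivity
    have h2 : 2 * (l : ℚ) + 1 + 1 ≠ 0 := by positivity
    push_cast
    field_simp
    ring

/-- the partial fraction decomposition, summed -/
theorem pfrac (M : ℕ) : ∑ i ∈ range M, (-1) ^ (i + 1) / (((i : ℚ) + 1) * ((M : ℚ) - i) ^ 3) =
    Al M 1 / ((M : ℚ) + 1) ^ 3 + (-1) ^ (M + 1) * Al M 1 / ((M : ℚ) + 1) ^ 3 +
    (-1) ^ (M + 1) * Al M 2 / ((M : ℚ) + 1) ^ 2 + (-1) ^ (M + 1) * Al M 3 / ((M : ℚ) + 1) := by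
  have h0 : (M : ℚ) + 1 ≠ 0 := by positivity
  have e1 : ∑ i ∈ range M, (-1) ^ (i + 1) / (((i : ℚ) + 1) * ((M : ℚ) - i) ^ 3) =
      ∑ i ∈ range M, ((-1) ^ (i + 1) / ((i : ℚ) + 1) / ((M : ℚ) + 1) ^ 3 +
        (-1) ^ (i + 1) * (1 / ((M : ℚ) - i) / ((M : ℚ) + 1) ^ 3 +
          1 / ((M : ℚ) - i) ^ 2 / ((M : ℚ) + 1) ^ 2 + 1 / ((M : ℚ) - i) ^ 3 / ((M : ℚ) + 1))) := by
    refine sum_congr rfl fun i hi => ?_
    have hi' := mem_range.1 hi
    obtain ⟨t, ht⟩ : ∃ t : ℚ, t = (M : ℚ) - i := ⟨_, rfl⟩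
    have ht0 : t ≠ 0 := by
      rw [ht, sub_ne_zero]
      intro h
      have : M = i := by exact_mod_cast h
      omega
    have hM : (M : ℚ) = t + i := by rw [ht]; ring
    have hi0 : (i : ℚ) + 1 ≠ 0 := by positivity
    rw [← ht]
    have hM1 : (M : ℚ) + 1 = t + i + 1 := by rw [hM]
    rw [hM1] at h0 ⊢
    field_simp
    ring
  rw [e1, sum_add_distrib]
  have e2 : ∀ (a b c : ℚ), ∑ i ∈ range M, (-1 : ℚ) ^ (i + 1) * (1 / ((M : ℚ) - i) * a +
      1 / ((M : ℚ) - i) ^ 2 * b + 1 / ((M : ℚ) - i) ^ 3 * c) =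
      (-1) ^ (M + 1) * (Al M 1 * a + Al M 2 * b + Al M 3 * c) := by
    intro a b c
    rw [← sum_range_reflect, Al, Al, Al, sum_mul, sum_mul, sum_mul, ← sum_add_distrib,
      ← sum_add_distrib, mul_sum]
    refine sum_congr rfl fun i hi => ?_
    have hi' := mem_range.1 hi
    have e3 : (M : ℚ) - ((M - 1 - i : ℕ) : ℚ) = (i : ℚ) + 1 := by
      rw [Nat.cast_sub (by omega), Nat.cast_sub (by omega)]
      push_cast
      ring
    have e4 : (-1 : ℚ) ^ (M - 1 - i + 1) = (-1) ^ (M + 1) * (-1) ^ (i + 1) := by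
      rw [← pow_add]
      have : M + 1 + (i + 1) = (M - 1 - i + 1) + 2 * (i + 1) := by omega
      rw [this, pow_add _ (M - 1 - i + 1), pow_mul]
      norm_num
    rw [e3, e4, pow_one]
    ring
  have e5 := e2 (1 / ((M : ℚ) + 1) ^ 3) (1 / ((M : ℚ) + 1) ^ 2) (1 / ((M : ℚ) + 1))
  have e6 : ∑ i ∈ range M, (-1 : ℚ) ^ (i + 1) * (1 / ((M : ℚ) - i) / ((M : ℚ) + 1) ^ 3 +
      1 / ((M : ℚ) - i) ^ 2 / ((M : ℚ) + 1) ^ 2 + 1 / ((M : ℚ) - i) ^ 3 / ((M : ℚ) + 1)) =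
      ∑ i ∈ range M, (-1 : ℚ) ^ (i + 1) * (1 / ((M : ℚ) - i) * (1 / ((M : ℚ) + 1) ^ 3) +
      1 / ((M : ℚ) - i) ^ 2 * (1 / ((M : ℚ) + 1) ^ 2) +
      1 / ((M : ℚ) - i) ^ 3 * (1 / ((M : ℚ) + 1))) :=
    sum_congr rfl fun i _ => by ring
  have e7 : ∑ i ∈ range M, (-1 : ℚ) ^ (i + 1) / ((i : ℚ) + 1) / ((M : ℚ) + 1) ^ 3 =
      Al M 1 / ((M : ℚ) + 1) ^ 3 := by
    rw [Al, sum_div]
    simp only [pow_one]
  rw [e6, e5, e7]
  ring

/-- exchange of the order of summation -/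
theorem tri_exch (n : ℕ) (f : ℕ → ℚ) : ∑ M ∈ range n, ∑ i ∈ range M, f i / ((M : ℚ) - i) ^ 3 =
    ∑ i ∈ range n, f i * H (n - 1 - i) 3 := by
  induction n with
  | zero => simp
  | succ n ih =>
    rw [sum_range_succ, ih, sum_range_succ (fun i => f i * H (n + 1 - 1 - i) 3)]
    have e0 : n + 1 - 1 - n = 0 := by omega
    rw [e0, H_zero, mul_zero, add_zero, ← sum_add_distrib]
    refine sum_congr rfl fun i hi => ?_
    have hi' := mem_range.1 hi
    have e1 : n + 1 - 1 - i = (n - 1 - i) + 1 := by omega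
    rw [e1, H_succ]
    have e2 : ((n - 1 - i : ℕ) : ℚ) + 1 = (n : ℚ) - i := by
      rw [Nat.cast_sub (by omega), Nat.cast_sub (by omega)]
      push_cast
      ring
    rw [e2]
    ring

/-- exchange of the order of summation -/
theorem tri_exch2 (n : ℕ) (f : ℕ → ℚ) : ∑ M ∈ range n, (∑ i ∈ range M, f i) / ((M : ℚ) + 1) ^ 3 =
    ∑ i ∈ range n, f i * (H n 3 - H (i + 1) 3) := by
  induction n with
  | zero => simp
  | succ n ih =>
    rw [sum_range_succ, ih, sum_range_succ (fun i => f i * (H (n + 1) 3 - H (i + 1) 3)), sub_self,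
      mul_zero, add_zero, sum_div, ← sum_add_distrib]
    refine sum_congr rfl fun i hi => ?_
    rw [H_succ n 3]
    ring

variable {p : ℕ} [hp : Fact p.Prime]

/-- congruent to its inverse negative -/
theorem invp (r : ℕ) {u : ℚ} (hu : U p u) : I p 1 (1 / ((p : ℚ) - u) ^ r - (-1) ^ r * (1 / u ^ r)) := by
  have hv := psub hu
  have h1 : EQ p 1 ((p : ℚ) - u) (-u) := ⟨hv.2.1, neg_mem hu.2.1, icg (I_p (p := p)) (by ring)⟩
  have h2 := ((h1.inv one_pos hv).pow r).2.2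
  refine icg h2 ?_
  rw [inv_neg, neg_pow, inv_pow, inv_pow]
  ring

theorem Al_mem {n : ℕ} (hn : n < p) (r : ℕ) : Al n r ∈ Zp p :=
  sum_mem fun _ hi => dmem (pow_mem (neg_mem (one_mem _)) _) ((uSucc (mem_range.1 hi) hn).pow r)

section rel

variable {y : ℕ} (hy : p = 2 * y + 1)
include hy

omit hp in
theorem crefl {i : ℕ} (hi : i < 2 * y) : ((2 * y - 1 - i : ℕ) : ℚ) + 1 = (p : ℚ) - ((i : ℚ) + 1) := by
  have : ((2 * y - 1 - i : ℕ) : ℚ) + 1 + ((i : ℚ) + 1) = (p : ℚ) := by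
    have h2 : 2 * y - 1 - i + 1 + (i + 1) = p := by omega
    exact_mod_cast h2
  linarith

theorem H3_I (h3 : 3 < p) : I p 1 (H (2 * y) 3) := by
  have h := ((relC3 hy).mono (by norm_num : 1 ≤ 2)).mulL (x := 1 / 2) (m23 h3 1 1 0 (by norm_num))
  have k : I p 1 (p * (3 / 2 * H (2 * y) 4)) := (I_p (p := p)).mulR
    (mul_mem (m23 h3 3 1 0 (by norm_num)) (H_mem (by omega) 4))
  exact icg (h.sub k) (by ring)

theorem H_refl3 (i : ℕ) (hi : i ≤ 2 * y) (h3 : 3 < p) : I p 1 (H (2 * y - i) 3 - H i 3) := by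
  induction i with
  | zero => rw [H_zero]; exact icg (H3_I hy h3) (by simp)
  | succ i ih =>
    have ih := ih (by omega)
    have hu := uSucc (p := p) (Nat.lt_succ_self i) (by omega)
    have e1 : 2 * y - i = (2 * y - 1 - i) + 1 := by omega
    rw [e1, H_succ, crefl hy (by omega)] at ih
    have e2 : 2 * y - (i + 1) = 2 * y - 1 - i := by omega
    rw [e2, H_succ]
    have k := invp 3 hu
    exact icg (ih.sub k) (by ring)

/-- `∑ (-1)^m/m² ≡ 0` over `0 < m < p` -/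
theorem Al2_I (h3 : 3 < p) : I p 1 (Al (2 * y) 2) := by
  have h1 : I p 1 (Al (2 * y) 2 + Al (2 * y) 2) := by
    have e : Al (2 * y) 2 = ∑ i ∈ range (2 * y), (-1) ^ (2 * y - 1 - i + 1) /
        ((p : ℚ) - ((i : ℚ) + 1)) ^ 2 := by
      rw [Al, ← sum_range_reflect]
      refine sum_congr rfl fun i hi => ?_
      rw [crefl hy (mem_range.1 hi)]
    have k : I p 1 (∑ i ∈ range (2 * y), (-1) ^ (2 * y - 1 - i + 1) /
        ((p : ℚ) - ((i : ℚ) + 1)) ^ 2 - (-(Al (2 * y) 2))) := by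
      refine Isum_sub (g := fun i => -((-1) ^ (i + 1) / ((i : ℚ) + 1) ^ 2)) (fun i hi => ?_) rfl
        (by rw [Al, sum_neg_distrib])
      have hi' := mem_range.1 hi
      have hu := uSucc (p := p) (Nat.lt_succ_self i) (by omega)
      have k := (invp 2 hu).mulL (x := (-1) ^ i) (pow_mem (neg_mem (one_mem _)) _)
      have e4 : (-1 : ℚ) ^ (2 * y - 1 - i + 1) = (-1) ^ i := by
        have : 2 * y = (2 * y - 1 - i + 1) + i := by omega
        have h5 : (-1 : ℚ) ^ (2 * y) = (-1) ^ (2 * y - 1 - i + 1) * (-1) ^ i := by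
          rw [← pow_add, ← this]
        rw [pow_mul] at h5
        have h6 : (-1 : ℚ) ^ i * (-1) ^ i = 1 := by rw [← mul_pow]; norm_num
        norm_num at h5
        linear_combination (-((-1) ^ i) : ℚ) * h5 - ((-1) ^ (2 * y - 1 - i + 1) : ℚ) * h6
      rw [e4]
      refine icg k ?_
      rw [pow_succ (-1 : ℚ) i]
      ring
    rw [← e] at k
    exact icg k (by ring)
  have := h1.mulL (x := 1 / 2) (m23 h3 1 1 0 (by norm_num))
  exact icg this (by ring)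

/-- the basic congruence -/
theorem bc_I (h5 : 5 < p) :
    I p 1 (∑ M ∈ range (2 * y), Al M 1 / ((M : ℚ) + 1) ^ 3 +
      ∑ M ∈ range (2 * y), (-1) ^ (M + 1) * Al M 1 / ((M : ℚ) + 1) ^ 3) := by
  have h3 : 3 < p := by omega
  obtain ⟨b, hb⟩ : ∃ b, b = ∑ M ∈ range (2 * y), Al M 1 / ((M : ℚ) + 1) ^ 3 := ⟨_, rfl⟩
  obtain ⟨c, hc⟩ : ∃ c, c = ∑ M ∈ range (2 * y), (-1) ^ (M + 1) * Al M 1 / ((M : ℚ) + 1) ^ 3 :=
    ⟨_, rfl⟩
  obtain ⟨d, hd⟩ : ∃ d, d = ∑ M ∈ range (2 * y), (-1) ^ (M + 1) * Al M 2 / ((M : ℚ) + 1) ^ 2 :=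
    ⟨_, rfl⟩
  obtain ⟨e, he⟩ : ∃ e, e = ∑ M ∈ range (2 * y), (-1) ^ (M + 1) * Al M 3 / ((M : ℚ) + 1) :=
    ⟨_, rfl⟩
  rw [← hb, ← hc]
  have hP : ∑ M ∈ range (2 * y), ∑ i ∈ range M, (-1) ^ (i + 1) / (((i : ℚ) + 1) *
      ((M : ℚ) - i) ^ 3) = b + c + d + e := by
    rw [hb, hc, hd, he, ← sum_add_distrib, ← sum_add_distrib, ← sum_add_distrib]
    exact sum_congr rfl fun M _ => pfrac M
  -- the first evaluation
  have k1 : I p 1 ((b + c + d + e) + b) := by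
    rw [← hP]
    have e1 : ∑ M ∈ range (2 * y), ∑ i ∈ range M, (-1) ^ (i + 1) / (((i : ℚ) + 1) *
        ((M : ℚ) - i) ^ 3) = ∑ i ∈ range (2 * y), (-1) ^ (i + 1) / ((i : ℚ) + 1) *
          H (2 * y - 1 - i) 3 := by
      rw [← tri_exch]
      refine sum_congr rfl fun M _ => sum_congr rfl fun i _ => ?_
      rw [div_div]
    have e2 : b = ∑ i ∈ range (2 * y), (-1) ^ (i + 1) / ((i : ℚ) + 1) *
        (H (2 * y) 3 - H (i + 1) 3) := by
      rw [hb, ← tri_exch2]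
      refine sum_congr rfl fun M _ => ?_
      simp only [Al, pow_one]
    rw [e1, e2, ← sum_add_distrib]
    refine I.sum fun i hi => ?_
    have hi' := mem_range.1 hi
    have hu := uSucc (p := p) (Nat.lt_succ_self i) (by omega)
    have k := H_refl3 hy (i + 1) (by omega) h3
    have e3 : 2 * y - (i + 1) = 2 * y - 1 - i := by omega
    rw [e3] at k
    have k2 := (k.add (H3_I hy h3)).mulL (x := (-1) ^ (i + 1) / ((i : ℚ) + 1))
      (dmem (pow_mem (neg_mem (one_mem _)) _) hu)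
    exact icg k2 (by ring)
  -- `d`
  have k2 : I p 1 d := by
    have e1 := tri_sq (2 * y) (fun i => (-1) ^ (i + 1) / ((i : ℚ) + 1) ^ 2)
    have e2 : ∑ m ∈ range (2 * y), ((-1 : ℚ) ^ (m + 1) / ((m : ℚ) + 1) ^ 2) ^ 2 = H (2 * y) 4 := by
      unfold H
      refine sum_congr rfl fun m _ => ?_
      rw [div_pow, ← pow_mul, mul_comm (m + 1) 2, pow_mul, ← pow_mul]
      norm_num
      ring
    have e3 : ∑ m ∈ range (2 * y), (∑ i ∈ range m, (-1 : ℚ) ^ (i + 1) / ((i : ℚ) + 1) ^ 2) *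
        ((-1 : ℚ) ^ (m + 1) / ((m : ℚ) + 1) ^ 2) = d := by
      rw [hd]
      refine sum_congr rfl fun m _ => ?_
      unfold Al
      ring
    have e4 : ∑ m ∈ range (2 * y), (-1 : ℚ) ^ (m + 1) / ((m : ℚ) + 1) ^ 2 = Al (2 * y) 2 := rfl
    rw [e2, e3, e4] at e1
    have a := Al2_I hy h3
    have a2 : I p 1 (Al (2 * y) 2 * Al (2 * y) 2) := a.mulL a.mem
    have k := (a2.sub (H4e hy h5)).mulL (x := 1 / 2) (m23 h3 1 1 0 (by norm_num))
    refine icg k ?_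
    linear_combination (-1 / 2 : ℚ) * e1
  -- `e ≡ c`
  have k3 : I p 1 (e - c) := by
    have e1 : e = ∑ M ∈ range (2 * y), ∑ i ∈ range M,
        ((-1) ^ (M + 1) * (-1) ^ (i + 1)) * (1 / ((i : ℚ) + 1) ^ 3 * (1 / ((M : ℚ) + 1) ^ 1)) := by
      rw [he]
      refine sum_congr rfl fun M _ => ?_
      rw [Al, mul_sum, sum_div]
      refine sum_congr rfl fun i _ => ?_
      ring
    have e2 : c = ∑ M ∈ range (2 * y), ∑ i ∈ range M,
        ((-1) ^ (M + 1) * (-1) ^ (i + 1)) * (1 / ((i : ℚ) + 1) ^ 1 * (1 / ((M : ℚ) + 1) ^ 3)) := by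
      rw [hc]
      refine sum_congr rfl fun M _ => ?_
      rw [Al, mul_sum, sum_div]
      refine sum_congr rfl fun i _ => ?_
      ring
    rw [e1, tri_refl (2 * y) (fun i M => ((-1) ^ (M + 1) * (-1) ^ (i + 1)) *
      (1 / ((i : ℚ) + 1) ^ 3 * (1 / ((M : ℚ) + 1) ^ 1))), e2, ← sum_sub_distrib]
    refine I.sum fun M hM => ?_
    rw [← sum_sub_distrib]
    refine I.sum fun i hi => ?_
    have hM' := mem_range.1 hM
    have hi' := mem_range.1 hi
    have hu := uSucc (p := p) (Nat.lt_succ_self i) (by omega)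
    have hv := uSucc (p := p) (Nat.lt_succ_self M) (by omega)
    rw [crefl hy (by omega), crefl hy (by omega)]
    have s1 : (-1 : ℚ) ^ (2 * y - 1 - i + 1) * (-1) ^ (2 * y - 1 - M + 1) =
        (-1) ^ (M + 1) * (-1) ^ (i + 1) := by
      rw [← pow_add, ← pow_add]
      have : (2 * y - 1 - i + 1 + (2 * y - 1 - M + 1)) + 2 * (i + M + 1) =
          (M + 1 + (i + 1)) + 2 * (2 * y) := by omega
      have h6 : (-1 : ℚ) ^ ((2 * y - 1 - i + 1 + (2 * y - 1 - M + 1)) + 2 * (i + M + 1)) =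
          (-1) ^ ((M + 1 + (i + 1)) + 2 * (2 * y)) := by rw [this]
      rw [pow_add, pow_add _ _ (2 * (2 * y)), pow_mul (-1 : ℚ) 2, pow_mul (-1 : ℚ) 2] at h6
      norm_num at h6
      exact h6
    rw [s1]
    have q1 := (invp 3 hv).mulR (y := 1 / ((p : ℚ) - ((i : ℚ) + 1)) ^ 1)
      (dmem (one_mem _) ((psub hu).pow 1))
    have q2 := (invp 1 hu).mulL (x := -(1 / ((M : ℚ) + 1) ^ 3))
      (neg_mem (dmem (one_mem _) (hv.pow 3)))
    have q3 := (q1.add q2).mulL (x := (-1) ^ (M + 1) * (-1) ^ (i + 1))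
      (mul_mem (pow_mem (neg_mem (one_mem _)) _) (pow_mem (neg_mem (one_mem _)) _))
    exact icg q3 (by ring)
  have := ((k1.sub k2).sub k3).mulL (x := 1 / 2) (m23 h3 1 1 0 (by norm_num))
  exact icg this (by ring)

/-- `∑_{l<p/2} (H_{2l} - H_l)/l³` -/
theorem N_I (h5 : 5 < p) :
    I p 1 (∑ l ∈ range y, (H (2 * (l + 1)) 1 - H (l + 1) 1) / ((l : ℚ) + 1) ^ 3) := by
  have h3 : 3 < p := by omega
  have h := bc_I hy h5
  rw [← sum_add_distrib, evenodd (fun M => Al M 1 / ((M : ℚ) + 1) ^ 3 +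
    (-1) ^ (M + 1) * Al M 1 / ((M : ℚ) + 1) ^ 3) y] at h
  have e1 : ∑ i ∈ range y, (Al (2 * i) 1 / (((2 * i : ℕ) : ℚ) + 1) ^ 3 +
    (-1) ^ (2 * i + 1) * Al (2 * i) 1 / (((2 * i : ℕ) : ℚ) + 1) ^ 3) = 0 := by
    refine sum_eq_zero fun i _ => ?_
    rw [pow_succ (-1 : ℚ), pow_mul]
    norm_num
    ring
  have e2 : ∑ i ∈ range y, (Al (2 * i + 1) 1 / (((2 * i + 1 : ℕ) : ℚ) + 1) ^ 3 +
    (-1) ^ (2 * i + 1 + 1) * Al (2 * i + 1) 1 / (((2 * i + 1 : ℕ) : ℚ) + 1) ^ 3) =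
      -(1 / 4) * ∑ l ∈ range y, (H (2 * (l + 1)) 1 - H (l + 1) 1) / ((l : ℚ) + 1) ^ 3 -
        1 / 8 * H y 4 := by
    rw [H, mul_sum, mul_sum, ← sum_sub_distrib]
    refine sum_congr rfl fun i _ => ?_
    have a1 := Al_succ (2 * i + 1) 1
    rw [show 2 * i + 1 + 1 = 2 * (i + 1) by ring, Al_even] at a1
    have a2 : (-1 : ℚ) ^ (2 * i + 1 + 1) = 1 := by
      rw [show 2 * i + 1 + 1 = 2 * (i + 1) by ring, pow_mul]; norm_num
    rw [show 2 * i + 1 + 1 = 2 * (i + 1) by ring] at a2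
    rw [a2] at a1
    have a3 : Al (2 * i + 1) 1 = -(H (2 * (i + 1)) 1 - H (i + 1) 1) -
        1 / (((2 * i + 1 : ℕ) : ℚ) + 1) ^ 1 := by linear_combination (-1 : ℚ) * a1
    rw [show 2 * i + 1 + 1 = 2 * (i + 1) by ring, a2, a3]
    have h0 : (i : ℚ) + 1 ≠ 0 := by positivity
    push_cast
    have h1 : 2 * (i : ℚ) + 1 + 1 = 2 * ((i : ℚ) + 1) := by ring
    rw [h1]
    field_simp
    ring
  rw [e1, e2] at h
  have k := (h.mulL (x := -4) (neg_mem (nm 4))).sub ((h4e hy h5).mulL (x := 1 / 2)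
    (m23 h3 1 1 0 (by norm_num)))
  exact icg k (by ring)

end rel

end Pool.Agent.H547
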