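import Pool.Agent.H547.DE

set_option autoImplicit false
set_option linter.unusedSectionVars false

/-!
# The Franel sum with `16`
-/

namespace Pool.Agent.H547

open Finset Pool.Agent.H546
open Pool.Agent.Q267.CDE (R)

variable {O K k : Type*} [CommRing O] [IsDomain O] [Field K] [Algebra O K] [Field k]
  (S : DV O K k) {p : ℕ} [hp : Fact p.Prime] [CharP k p]

section alg

theorem e16_A {i t : O} (hi : i ^ 2 = -1) (ht : 5 * t ^ 2 = 1) : am ((3 + i) * t) = 2 + (11 * i - 27) * t ^ 3 := by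
  unfold am
  linear_combination (i * t ^ 3 + 9 * t ^ 3) * hi + (3 * i * t + 9 * t) * ht

theorem e16_A' {i t : O} (hi : i ^ 2 = -1) (ht : 5 * t ^ 2 = 1) : am ((3 - i) * t) = 2 - (11 * i + 27) * t ^ 3 := by
  have := e16_A (i := -i) (t := t) (by rw [neg_sq]; exact hi) ht
  have e : (3 + -i) * t = (3 - i) * t := by ring
  rw [e] at this
  rw [this]; ring

/-- the scaling between two of the curves -/
theorem e16_scale {i t r v2 v3 c : O} (hi : i ^ 2 = -1) (ht : 5 * t ^ 2 = 1) (hr : r ^ 2 = -3) (hv2 : 2 * v2 = 1)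
    (hv3 : 3 * v3 = 1) (hc : c = r * (3 + i) * (i + t) * v2 * v3) :
    c ^ 4 * ca (am ((3 - i) * t)) = ca (am ((3 + i) * t)) ∧
    c ^ 6 * cb (am ((3 - i) * t)) = cb (am ((3 + i) * t)) ∧ (3 + i) * t * r = c * (1 - 5 * i * t) := by
  have h5u : IsUnit (5 : O) := IsUnit.of_mul_eq_one _ ht
  have h125 : IsUnit (125 : O) := by
    have : (125 : O) = 5 ^ 3 := by norm_num
    rw [this]; exact h5u.pow 3
  have c2 : c ^ 2 = -(4 + 3 * i) * t * (i - 2 * t) * v3 := by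
    rw [hc]
    apply h5u.mul_left_cancel
    linear_combination (10 * i * t * r ^ 2 * v2 ^ 2 * v3 ^ 2 + 5 * i ^ 2 * r ^ 2 * v2 ^ 2 * v3 ^ 2 + 5 * t ^ 2 * r ^ 2 * v2 ^ 2 * v3 ^ 2 + 30 * i * r ^ 2 * v2 ^ 2 * v3 ^ 2 + 60 * t * r ^ 2 * v2 ^ 2 * v3 ^ 2 + 40 * r ^ 2 * v2 ^ 2 * v3 ^ 2 + 15 * t * v3) * hi + (6 * i * r ^ 2 * v2 ^ 2 * v3 ^ 2 + 8 * r ^ 2 * v2 ^ 2 * v3 ^ 2 - 6 * i * v3 - 8 * v3) * ht + (80 * i * t * v2 ^ 2 * v3 ^ 2 - 24 * i * v2 ^ 2 * v3 ^ 2 - 60 * t * v2 ^ 2 * v3 ^ 2 - 32 * v2 ^ 2 * v3 ^ 2) * hr + (-120 * i * t * v2 * v3 ^ 2 - 60 * i * t * v3 ^ 2 + 36 * i * v2 * v3 ^ 2 + 90 * t * v2 * v3 ^ 2 + 18 * i * v3 ^ 2 + 45 * t * v3 ^ 2 + 48 * v2 * v3 ^ 2 + 24 * v3 ^ 2) * hv2 + (-20 * i * t * v3 + 6 * i * v3 + 15 * t * v3 + 8 * v3) * hv3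
  have c4 : c ^ 4 = -(7 + 24 * i) * t ^ 3 * (t + 4 * i) * v3 ^ 2 := by
    have : c ^ 4 = (c ^ 2) ^ 2 := by ring
    rw [this, c2]
    linear_combination (-36 * i * t ^ 3 * v3 ^ 2 + 9 * i ^ 2 * t ^ 2 * v3 ^ 2 + 36 * t ^ 4 * v3 ^ 2 + 24 * i * t ^ 2 * v3 ^ 2 + 7 * t ^ 2 * v3 ^ 2) * hi + (24 * i * t ^ 2 * v3 ^ 2 + 7 * t ^ 2 * v3 ^ 2) * ht
  have c6 : c ^ 6 = -(-44 + 117 * i) * t ^ 5 * (22 * t + 7 * i) * v3 ^ 3 := by
    have : c ^ 6 = c ^ 4 * c ^ 2 := by ring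
    rw [this, c2, c4]
    linear_combination (-504 * i * t ^ 5 * v3 ^ 3 + 288 * i ^ 2 * t ^ 4 * v3 ^ 3 - 144 * t ^ 6 * v3 ^ 3 + 468 * i * t ^ 4 * v3 ^ 3 - 176 * t ^ 4 * v3 ^ 3) * hi + (468 * i * t ^ 4 * v3 ^ 3 - 176 * t ^ 4 * v3 ^ 3) * ht
  refine ⟨?_, ?_, ?_⟩
  · rw [c4, e16_A hi ht, e16_A' hi ht]
    unfold ca
    apply h5u.mul_left_cancel
    linear_combination (31680 * i * t ^ 6 * v3 ^ 2 + 7920 * t ^ 7 * v3 ^ 2 + 87000 * t ^ 6 * v3 ^ 2 + 7200 * t ^ 3 * v3 ^ 2) * hi + (4350 * i * t ^ 5 * v3 ^ 2 - 1800 * i * t ^ 4 * v3 ^ 2 - 450 * t ^ 5 * v3 ^ 2 + 870 * i * t ^ 3 * v3 ^ 2 - 17400 * t ^ 4 * v3 ^ 2 - 90 * t ^ 3 * v3 ^ 2 + 594 * i * t * v3 ^ 2 - 3375 * t ^ 2 * v3 ^ 2 - 1458 * t * v3 ^ 2 - 66 * i * t - 675 * v3 ^ 2 + 162 * t) * ht + (198 * i * t * v3 + 66 * i * t - 486 * t * v3 - 162 * t - 225 * v3 - 75) * hv3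
  · rw [c6, e16_A hi ht, e16_A' hi ht]
    unfold cb
    apply h125.mul_left_cancel
    linear_combination (-38931750 * i * t ^ 12 * v3 ^ 3 - 12387375 * i ^ 2 * t ^ 11 * v3 ^ 3 - 56152250 * i * t ^ 11 * v3 ^ 3 - 176478500 * t ^ 12 * v3 ^ 3 - 39375000 * t ^ 11 * v3 ^ 3 - 15765750 * i * t ^ 8 * v3 ^ 3 - 49549500 * t ^ 9 * v3 ^ 3 - 32768750 * t ^ 8 * v3 ^ 3 - 2252250 * t ^ 5 * v3 ^ 3 - 15125 * t ^ 6) * hi + (-24750000 * i * t ^ 10 * v3 ^ 3 + 16843750 * i * t ^ 9 * v3 ^ 3 + 52937500 * t ^ 10 * v3 ^ 3 - 4950000 * i * t ^ 8 * v3 ^ 3 + 7875000 * t ^ 9 * v3 ^ 3 - 17228750 * i * t ^ 7 * v3 ^ 3 + 10587500 * t ^ 8 * v3 ^ 3 + 5073750 * i * t ^ 6 * v3 ^ 3 + 20632500 * t ^ 7 * v3 ^ 3 - 3445750 * i * t ^ 5 * v3 ^ 3 + 8671250 * t ^ 6 * v3 ^ 3 - 400950 * i * t ^ 4 * v3 ^ 3 + 4126500 * t ^ 5 * v3 ^ 3 - 519750 * i * t ^ 3 * v3 ^ 3 + 2266650 * t ^ 4 * v3 ^ 3 - 80190 * i * t ^ 2 * v3 ^ 3 + 1275750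 * t ^ 3 * v3 ^ 3 - 103950 * i * t * v3 ^ 3 + 14850 * i * t ^ 4 + 453330 * t ^ 2 * v3 ^ 3 - 16038 * i * v3 ^ 3 + 255150 * t * v3 ^ 3 - 15200 * t ^ 4 + 2970 * i * t ^ 2 + 90666 * v3 ^ 3 + 3850 * i * t - 3040 * t ^ 2 + 594 * i - 9450 * t - 608) * ht + (-34650 * i * t * v3 ^ 2 - 11550 * i * t * v3 - 5346 * i * v3 ^ 2 + 85050 * t * v3 ^ 2 - 3850 * i * t - 1782 * i * v3 + 28350 * t * v3 + 30222 * v3 ^ 2 - 594 * i + 9450 * t + 10074 * v3 + 3358) * hv3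
  · rw [hc]
    linear_combination (5 * i * t * r * v2 * v3 + 5 * t ^ 2 * r * v2 * v3 + 15 * t * r * v2 * v3 - r * v2 * v3) * hi + (3 * i * r * v2 * v3 - r * v2 * v3) * ht + (-3 * i * t * r * v3 - 9 * t * r * v3) * hv2 + (-i * t * r - 3 * t * r) * hv3

end alg

/-- general nonvanishing -/
theorem zne {μ z : O} (hz : 4 * z = am μ) (u1 : S.red (4 - μ ^ 2) ≠ 0) (u3 : S.red (μ ^ 2 - 1) ≠ 0) :
    S.red z ≠ 0 ∧ S.red (1 - z) ≠ 0 ∧ S.red (μ - 1) ≠ 0 ∧ S.red (μ + 1) ≠ 0 ∧ S.red (am μ) ≠ 0 ∧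
      S.red (am (-μ)) ≠ 0 := by
  have e1 : 4 - μ ^ 2 = (2 - μ) * (2 + μ) := by ring
  have e3 : μ ^ 2 - 1 = (μ - 1) * (μ + 1) := by ring
  rw [e1, map_mul] at u1
  rw [e3, map_mul] at u3
  have a1 := left_ne_zero_of_mul u1
  have a2 := right_ne_zero_of_mul u1
  have a3 := left_ne_zero_of_mul u3
  have a4 := right_ne_zero_of_mul u3
  have hA : S.red (am μ) ≠ 0 := by
    have : am μ = (μ - 1) ^ 2 * (2 + μ) := by unfold am; ring
    rw [this, map_mul, map_pow]; exact mul_ne_zero (pow_ne_zero _ a3) a2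
  have hA' : S.red (am (-μ)) ≠ 0 := by
    have : am (-μ) = (μ + 1) ^ 2 * (2 - μ) := by unfold am; ring
    rw [this, map_mul, map_pow]; exact mul_ne_zero (pow_ne_zero _ a4) a1
  refine ⟨?_, ?_, a3, a4, hA, hA'⟩
  · rw [← hz, map_mul] at hA
    exact right_ne_zero_of_mul hA
  · have : am (-μ) = 4 * (1 - z) := by rw [am_neg, ← hz]; ring
    rw [this, map_mul] at hA'
    exact right_ne_zero_of_mul hA'

section pts

include S in
theorem e16_u (hp7 : 7 ≤ p) {i t : O} (hi : i ^ 2 = -1) (ht : 5 * t ^ 2 = 1) :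
    S.red (4 - ((3 + i) * t) ^ 2) ≠ 0 ∧ S.red (((3 + i) * t) ^ 2 + 2) ≠ 0 ∧ S.red (((3 + i) * t) ^ 2 - 1) ≠ 0 := by
  refine ⟨?_, ?_, ?_⟩
  · refine sred_ne S (y := i + 2) (n := 6) ?_ ?_
    · push_cast; linear_combination (-i * t ^ 2 - 8 * t ^ 2) * hi + (-4 * i - 2) * ht
    · have := ndvd_of_primes p (n := 6) (l := [2, 3]) (by simp; norm_num) (by norm_num) (by simp; omega)
      exact_mod_cast this
  · refine sred_ne S (y := 3 - i) (n := 12) ?_ ?_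
    · push_cast; linear_combination (-i * t ^ 2 - 3 * t ^ 2) * hi + (2 * i + 6) * ht
    · have := ndvd_of_primes p (n := 12) (l := [2, 2, 3]) (by simp; norm_num) (by norm_num) (by simp; omega)
      exact_mod_cast this
  · refine sred_ne S (y := 1 - 2 * i) (n := 3) ?_ ?_
    · push_cast; linear_combination (-2 * i * t ^ 2 - 11 * t ^ 2) * hi + (-2 * i + 4) * ht
    · have := ndvd_of_primes p (n := 3) (l := [3]) (by simp; norm_num) (by norm_num) (by simp; omega)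
      exact_mod_cast this

include S in
theorem e16_ab (hp7 : 7 ≤ p) (h11 : p ≠ 11) (h19 : p ≠ 19) {i t z : O} (hi : i ^ 2 = -1) (ht : 5 * t ^ 2 = 1)
    (hz : 4 * z = am ((3 + i) * t)) : S.red (ca (4 * z)) ≠ 0 ∧ S.red (cb (4 * z)) ≠ 0 := by
  rw [hz, e16_A hi ht]
  constructor
  · refine sred_ne S (y := -58 * i * t + 24 * i - 6 * t - 7) (n := 297) ?_ ?_
    · unfold ca; push_cast; linear_combination (-3828 * t ^ 4 + 1584 * t ^ 3) * hi + (1800 * i * t ^ 2 - 870 * i * t + 960 * t ^ 2 + 360 * i - 90 * t + 192) * ht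
    · have := ndvd_of_primes p (n := 297) (l := [3, 3, 3, 11]) (by simp; norm_num) (by norm_num) (by simp; omega)
      exact_mod_cast this
  · refine sred_ne S (y := 3745 * i * t - 1467 * i + 3465 * t - 869) (n := 45144) ?_ ?_
    · unfold cb; push_cast; linear_combination (453145 * i * t ^ 7 - 177507 * i * t ^ 6 - 1805265 * t ^ 7 + 766249 * t ^ 6 - 576730 * t ^ 4 + 225918 * t ^ 3) * hi + (43750 * i * t ^ 5 - 75150 * i * t ^ 4 + 866250 * t ^ 5 + 8750 * i * t ^ 3 - 279950 * t ^ 4 + 161370 * i * t ^ 2 + 173250 * t ^ 3 - 82390 * i * t + 321310 * t ^ 2 + 32274 * i - 76230 * t + 64262) * ht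
    · have := ndvd_of_primes p (n := 45144) (l := [2, 2, 2, 3, 3, 3, 11, 19]) (by simp; norm_num) (by norm_num)
        (by simp; omega)
      exact_mod_cast this

/-- the isogenies of degree `1` and `6` -/
theorem e16_key1 [IsAlgClosed k] (hq : S.q = (p : O)) (hp11 : 11 < p) (h19 : p ≠ 19)
    {i t r z w v2 v3 : O} (hi : i ^ 2 = -1) (ht : 5 * t ^ 2 = 1) (hr : r ^ 2 = -3) (hv2 : 2 * v2 = 1)
    (hv3 : 3 * v3 = 1) (hz : 4 * z = am ((3 + i) * t)) (hF : S.red ((3 + i) * t) = S.red ((3 + i) * t) ^ p)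
    (x y : ℤ) (hxy : (p : ℤ) = x ^ 2 + 5 * y ^ 2)
    (hw : (x : O) + y * (5 * i * t) = p * w) (hwr : S.red w ≠ 0) : Key p z w := by
  have r2' : (2 : k) ≠ 0 := by have := red2 S (p := p) (by omega); rwa [map_ofNat] at this
  have r3' : (3 : k) ≠ 0 := by have := red3 S (p := p) (by omega); rwa [map_ofNat] at this
  obtain ⟨u1, u2, u3⟩ := e16_u S (p := p) (by omega) hi ht
  obtain ⟨hzr, hz1r, hm1, hm2, ha1, ha2⟩ := zne S hz u1 u3
  obtain ⟨ha0, hb0⟩ := e16_ab S (p := p) (by omega) (by omega) h19 hi ht hz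
  obtain ⟨s4, s6, sm⟩ := e16_scale hi ht hr hv2 hv3 rfl
  set c := r * (3 + i) * (i + t) * v2 * v3 with hc
  have hv : (3 + i) * t * ((3 - i) * t * v2) = 1 := by linear_combination (-t ^ 2 * v2) * hi + (2 * v2) * ht + (1) * hv2
  have e2v : -2 * ((3 - i) * t * v2) = (3 - i) * (-t) := by linear_combination (i * t - 3 * t) * hv2
  have hmB : (4 * z = am ((3 + i) * t)) := hz
  -- the second curve
  have hi' : (-i) ^ 2 = -1 := by rw [neg_sq]; exact hi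
  have ht' : 5 * (-t) ^ 2 = 1 := by rw [neg_sq]; exact ht
  obtain ⟨u1', u2', u3'⟩ := e16_u S (p := p) (by omega) hi' ht'
  have eB : (3 + -i) * -t = (3 - i) * (-t) := by ring
  rw [eB] at u1' u2' u3'
  obtain ⟨-, -, -, -, hb1, hb2⟩ := zne S (μ := (3 - i) * (-t))
    (z := v2 ^ 2 * am ((3 - i) * (-t))) (by linear_combination (am ((3 - i) * (-t)) * (2 * v2 + 1)) * hv2) u1' u3'
  have n6 : ¬ (p : ℤ) ∣ ((3 * (2 * 1) : ℕ) : ℤ) := by
    have := ndvd_of_primes p (n := 6) (l := [2, 3]) (by simp; norm_num) (by norm_num) (by simp; omega)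
    exact_mod_cast this
  have n3 : ¬ (p : ℤ) ∣ -3 := by
    rw [dvd_neg]
    have := ndvd_of_primes p (n := 3) (l := [3]) (by simp; norm_num) (by norm_num) (by simp; omega)
    exact_mod_cast this
  have hr0 := (sqrt_ne S (p := p) (x := r) (n := -3) (by push_cast; exact hr) n3)
  have hM0 : (3 + i) * t ≠ 0 := by
    intro h0; rw [h0, zero_mul] at hv; exact zero_ne_one hv
  have hMr0 : S.red ((3 + i) * t) ≠ 0 := by
    intro h0
    have := congrArg S.red hv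
    rw [map_mul, h0, zero_mul, map_one] at this
    exact zero_ne_one this
  have hcr : S.red c ≠ 0 := by
    intro h0
    have := congrArg S.red sm
    rw [map_mul, map_mul S.red c, h0, zero_mul] at this
    exact (mul_ne_zero hMr0 hr0.2) this
  have hm0 : (1 - 5 * i * t : O) ≠ 0 := by
    intro h0
    rw [h0, mul_zero] at sm
    exact (mul_ne_zero hM0 hr0.1) sm
  have d0 := Dat.id S (ca (4 * z)) (cb (4 * z))
  have d1 := Dat_psi S d0 hv hz rfl r3' hm1 hm2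
  have d2 := Dat.nu S (r := r) d1 r2' r3' (by rw [e2v]; exact hb1) hr
  have e4 : 4 - am (-2 * ((3 - i) * t * v2)) = am ((3 - i) * t) := by
    rw [e2v, ← am_neg]; congr 1; ring
  rw [e4] at d2
  have d3 := Dat_scale S (c := c) (m' := 1 - 5 * i * t) d2 hcr (by rw [← sm]; ring)
  rw [s4, s6, ← hz] at d3
  refine keyForm S (by omega) hq hzr hz1r (z' := z) (zF S (by omega) hz hz hF) ha0 hb0 one_ne_zero
    hm0 d0 d3 (x + y) (-y) 2 ?_ (ndvd1 p) n6 (by norm_num) ?_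
    (al := (x : O) + y * (5 * i * t)) (by push_cast; ring) hw hwr
  · rw [hxy]; push_cast; ring
  · push_cast; nlinarith

/-- the isogenies of degree `2` and `3` -/
theorem e16_key2 [IsAlgClosed k] (hq : S.q = (p : O)) (hp11 : 11 < p) (h19 : p ≠ 19)
    {i t r z w v2 v3 : O} (hi : i ^ 2 = -1) (ht : 5 * t ^ 2 = 1) (hr : r ^ 2 = -3) (hv2 : 2 * v2 = 1)
    (hv3 : 3 * v3 = 1) (hz : 4 * z = am ((3 + i) * t)) (hF : S.red ((3 - i) * (-t)) = S.red ((3 + i) * t) ^ p)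
    (x y : ℤ) (h2 : ∃ n : ℤ, x = 2 * n + y) (hxy : 2 * (p : ℤ) = x ^ 2 + 5 * y ^ 2)
    (hw : (3 + i) * t * ((x : O) + y * (5 * i * t)) * v2 = p * w) (hwr : S.red w ≠ 0) : Key p z w := by
  have r2' : (2 : k) ≠ 0 := by have := red2 S (p := p) (by omega); rwa [map_ofNat] at this
  have r3' : (3 : k) ≠ 0 := by have := red3 S (p := p) (by omega); rwa [map_ofNat] at this
  obtain ⟨u1, u2, u3⟩ := e16_u S (p := p) (by omega) hi ht
  obtain ⟨hzr, hz1r, hm1, hm2, ha1, ha2⟩ := zne S hz u1 u3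
  obtain ⟨ha0, hb0⟩ := e16_ab S (p := p) (by omega) (by omega) h19 hi ht hz
  have hi' : (-i) ^ 2 = -1 := by rw [neg_sq]; exact hi
  have ht' : 5 * (-t) ^ 2 = 1 := by rw [neg_sq]; exact ht
  obtain ⟨s4, s6, sm⟩ := e16_scale hi' ht' hr hv2 hv3 rfl
  set c := r * (3 + -i) * (-i + -t) * v2 * v3 with hc
  have hv : (3 + i) * t * ((3 - i) * t * v2) = 1 := by linear_combination (-t ^ 2 * v2) * hi + (2 * v2) * ht + (1) * hv2
  have e2v : -2 * ((3 - i) * t * v2) = (3 - i) * (-t) := by linear_combination (i * t - 3 * t) * hv2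
  have n2 : ¬ (p : ℤ) ∣ ((2 * 1 : ℕ) : ℤ) := by
    have := ndvd_of_primes p (n := 2) (l := [2]) (by simp; norm_num) (by norm_num) (by simp; omega)
    exact_mod_cast this
  have n3' : ¬ (p : ℤ) ∣ ((3 * 1 : ℕ) : ℤ) := by
    have := ndvd_of_primes p (n := 3) (l := [3]) (by simp; norm_num) (by norm_num) (by simp; omega)
    exact_mod_cast this
  have n3 : ¬ (p : ℤ) ∣ -3 := by rw [dvd_neg]; exact_mod_cast n3'
  have hr0 := (sqrt_ne S (p := p) (x := r) (n := -3) (by push_cast; exact hr) n3)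
  have hM0 : (3 + i) * t ≠ 0 := by
    intro h0; rw [h0, zero_mul] at hv; exact zero_ne_one hv
  -- `r = c m'` with `m' = -(3 + i) t (1 - 5 i t) / 2`
  have sm2 : r = c * (-((3 + i) * t * (1 - 5 * i * t) * v2)) := by
    have h1 : (3 - i) * (-t) * r = c * (1 - 5 * i * t) := by
      have e1 : (3 + -i) * -t * r = (3 - i) * (-t) * r := by ring
      have e2 : c * (1 - 5 * -i * -t) = c * (1 - 5 * i * t) := by ring
      rw [← e1, sm, e2]
    linear_combination (-((3 + i) * t * v2)) * h1 - r * hv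
  have hcr : S.red c ≠ 0 := by
    intro h0
    apply hr0.2
    rw [sm2, map_mul, h0, zero_mul]
  have hm0 : (-((3 + i) * t * (1 - 5 * i * t) * v2) : O) ≠ 0 := by
    intro h0
    apply hr0.1
    rw [sm2, h0, mul_zero]
  have d0 := Dat.id S (ca (4 * z)) (cb (4 * z))
  have d1 := Dat_psi S d0 hv hz rfl r3' hm1 hm2
  have d2 := Dat.nu S (r := r) d0 r2' r3' (by rw [hz]; exact ha1) hr
  have e4 : 4 - 4 * z = am ((3 - -i) * -t) := by
    rw [hz, ← am_neg]; congr 1; ring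
  rw [e4] at d2
  have d3 := Dat_scale S (c := c) (m' := -((3 + i) * t * (1 - 5 * i * t) * v2)) d2 hcr
    (by rw [one_mul]; exact sm2)
  rw [s4, s6] at d3
  obtain ⟨z', hz'⟩ : ∃ z', z' = v2 ^ 2 * am ((3 - i) * (-t)) := ⟨_, rfl⟩
  have h4z' : 4 * z' = am ((3 - i) * (-t)) := by
    rw [hz']; linear_combination (am ((3 - i) * (-t)) * (2 * v2 + 1)) * hv2
  have e5 : am ((3 + -i) * -t) = 4 * z' := by rw [h4z']; congr 1; ring
  rw [e5] at d3
  rw [e2v, ← h4z'] at d1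
  obtain ⟨n, hn⟩ := h2
  have hnO : (x : O) = 2 * n + y := by
    have := congrArg (Int.cast : ℤ → O) hn
    push_cast at this
    exact this
  have hform : (p : ℤ) = (n + y) ^ 2 * ((2 * 1 : ℕ) : ℤ) + (n + y) * y * (-2) + y ^ 2 * ((3 * 1 : ℕ) : ℤ) := by
    have : 2 * (p : ℤ) = 2 * ((n + y) ^ 2 * ((2 * 1 : ℕ) : ℤ) + (n + y) * y * (-2) + y ^ 2 * ((3 * 1 : ℕ) : ℤ)) := by
      rw [hxy, hn]; push_cast; ring
    linarith
  refine keyForm S (by omega) hq hzr hz1r (z' := z') (zF S (by omega) hz h4z' hF) ha0 hb0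
    (m1 := 1 * ((3 + i) * t)) (by rw [one_mul]; exact hM0) hm0 d1 d3 (n + y) y (-2) hform n2 n3' (by norm_num) ?_
    (al := (3 + i) * t * ((x : O) + y * (5 * i * t)) * v2) ?_ hw hwr
  · push_cast; nlinarith
  · rw [hnO]; push_cast
    linear_combination (-(3 + i) * t * (n + y)) * hv2

end pts

end Pool.Agent.H547
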