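import Pool.Agent.H547.DE

set_option autoImplicit false
set_option linter.unusedSectionVars false

/-!
# The Franel sum with `32`
-/

namespace Pool.Agent.H547

open Finset Pool.Agent.H546
open Pool.Agent.Q267.CDE (R)

section e32

variable {O K k : Type*} [CommRing O] [IsDomain O] [Field K] [Algebra O K] [Field k]
  (S : DV O K k) {p : ℕ} [hp : Fact p.Prime] [CharP k p]

include S in
/-- facts on the curve with `μ² = 2` -/
theorem e32_facts (hp5 : 5 ≤ p) {μ z v2 : O} (hμ : μ ^ 2 = 2) (hv2 : 2 * v2 = 1) (hz : 4 * z = am μ) :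
    S.red z ≠ 0 ∧ S.red (1 - z) ≠ 0 ∧ S.red (μ - 1) ≠ 0 ∧ S.red (μ + 1) ≠ 0 ∧
    μ * (μ * v2) = 1 ∧ -2 * (μ * v2) = -μ ∧ S.red (am (-μ)) ≠ 0 ∧ S.red (am μ) ≠ 0 := by
  have n2 : ¬ (p : ℤ) ∣ 2 := by
    have := ndvd_of_primes p (n := 2) (l := [2]) (by simp; norm_num) (by norm_num) (by simp; omega)
    exact_mod_cast this
  have ham : am μ = 2 - μ := by unfold am; linear_combination μ * hμ
  have ham' : am (-μ) = 2 + μ := by unfold am; linear_combination (-μ) * hμ
  refine ⟨?_, ?_, ?_, ?_, by linear_combination v2 * hμ + hv2, by linear_combination (-μ) * hv2, ?_, ?_⟩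
  · refine sred_ne S (y := 4 * (2 + μ)) (n := 2) ?_ n2
    rw [ham] at hz; push_cast; linear_combination (2 + μ) * hz - hμ
  · refine sred_ne S (y := 4 * (2 - μ)) (n := 2) ?_ n2
    rw [ham] at hz; push_cast; linear_combination (-(2 - μ)) * hz - hμ
  · refine sred_ne S (y := μ + 1) (n := 1) ?_ (ndvd1' p)
    push_cast; linear_combination hμ
  · refine sred_ne S (y := μ - 1) (n := 1) ?_ (ndvd1' p)
    push_cast; linear_combination hμ
  · rw [ham']
    refine sred_ne S (y := 2 - μ) (n := 2) ?_ n2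
    push_cast; linear_combination (-1 : O) * hμ
  · rw [ham]
    refine sred_ne S (y := 2 + μ) (n := 2) ?_ n2
    push_cast; linear_combination (-1 : O) * hμ

include S in
theorem e32_ab (hp5 : 5 ≤ p) (h17 : p ≠ 17) (h23 : p ≠ 23) {μ z : O} (hμ : μ ^ 2 = 2) (hz : 4 * z = am μ) :
    S.red (ca (4 * z)) ≠ 0 ∧ S.red (cb (4 * z)) ≠ 0 := by
  have ham : am μ = 2 - μ := by unfold am; linear_combination μ * hμ
  constructor
  · refine sred_ne S (y := -15 + 6 * μ) (n := 153) ?_ ?_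
    · rw [hz, ham]; simp only [ca]; push_cast; linear_combination (-36) * hμ
    · have := ndvd_of_primes p (n := 153) (l := [3, 3, 17]) (by simp; norm_num) (by norm_num) (by simp; omega)
      exact_mod_cast this
  · refine sred_ne S (y := 24 - 14 * μ) (n := 184) ?_ ?_
    · rw [hz, ham]; simp only [cb]; push_cast; linear_combination (-172 - 14 * μ) * hμ
    · have := ndvd_of_primes p (n := 184) (l := [2, 2, 2, 23]) (by simp; norm_num) (by norm_num) (by simp; omega)
      exact_mod_cast this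

/-- the isogenies of degree `1` and `6` -/
theorem e32_key1 [IsAlgClosed k] (hq : S.q = (p : O)) (hp11 : 11 ≤ p) (h17 : p ≠ 17) (h23 : p ≠ 23)
    {μ r z w v2 : O} (hμ : μ ^ 2 = 2) (hr : r ^ 2 = -3) (hv2 : 2 * v2 = 1)
    (hz : 4 * z = am μ) (hF : S.red μ = S.red μ ^ p) (x y : ℤ) (hxy : (p : ℤ) = x ^ 2 + 6 * y ^ 2)
    (hw : (x : O) + y * (μ * r) = p * w) (hwr : S.red w ≠ 0) : Key p z w := by
  have r2' : (2 : k) ≠ 0 := by have := red2 S (p := p) (by omega); rwa [map_ofNat] at this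
  have r3' : (3 : k) ≠ 0 := by have := red3 S (p := p) (by omega); rwa [map_ofNat] at this
  obtain ⟨hzr, hz1r, hm1, hm2, hv, e2v, ha1, ha2⟩ := e32_facts S (p := p) (by omega) hμ hv2 hz
  obtain ⟨ha0, hb0⟩ := e32_ab S (p := p) (by omega) h17 h23 hμ hz
  have n6 : ¬ (p : ℤ) ∣ ((3 * (2 * 1) : ℕ) : ℤ) := by
    have := ndvd_of_primes p (n := 6) (l := [2, 3]) (by simp; norm_num) (by norm_num) (by simp; omega)
    exact_mod_cast this
  have n2 : ¬ (p : ℤ) ∣ 2 := by
    have := ndvd_of_primes p (n := 2) (l := [2]) (by simp; norm_num) (by norm_num) (by simp; omega)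
    exact_mod_cast this
  have n3 : ¬ (p : ℤ) ∣ -3 := by
    rw [dvd_neg]
    have := ndvd_of_primes p (n := 3) (l := [3]) (by simp; norm_num) (by norm_num) (by simp; omega)
    exact_mod_cast this
  have hμ0 := (sqrt_ne S (p := p) (x := μ) (n := 2) (by push_cast; exact hμ) n2).1
  have hr0 := (sqrt_ne S (p := p) (x := r) (n := -3) (by push_cast; exact hr) n3).1
  have d0 := Dat.id S (ca (4 * z)) (cb (4 * z))
  have d1 := Dat_psi S d0 hv hz rfl r3' hm1 hm2
  have d2 := Dat.nu S (r := r) d1 r2' r3' (by rw [e2v]; exact ha1) hr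
  have e4 : 4 - am (-2 * (μ * v2)) = 4 * z := by rw [e2v, am_neg, hz]; ring
  rw [e4] at d2
  refine keyForm S (by omega) hq hzr hz1r (z' := z) (zF S (by omega) hz hz hF) ha0 hb0 one_ne_zero
    (m2 := 1 * μ * r) (by rw [one_mul]; exact mul_ne_zero hμ0 hr0) d0 d2 x y 0 ?_ (ndvd1 p) n6 (by norm_num) ?_
    (al := (x : O) + y * (μ * r)) (by ring) hw hwr
  · rw [hxy]; push_cast; ring
  · push_cast; nlinarith

/-- the isogenies of degree `2` and `3` -/
theorem e32_key2 [IsAlgClosed k] (hq : S.q = (p : O)) (hp11 : 11 ≤ p) (h17 : p ≠ 17) (h23 : p ≠ 23)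
    {μ r z w v2 : O} (hμ : μ ^ 2 = 2) (hr : r ^ 2 = -3) (hv2 : 2 * v2 = 1)
    (hz : 4 * z = am μ) (hF : S.red (-μ) = S.red μ ^ p) (x y : ℤ)
    (hxy : (p : ℤ) = 2 * x ^ 2 + 3 * y ^ 2)
    (hw : (x : O) * μ + y * r = p * w) (hwr : S.red w ≠ 0) : Key p z w := by
  have r2' : (2 : k) ≠ 0 := by have := red2 S (p := p) (by omega); rwa [map_ofNat] at this
  have r3' : (3 : k) ≠ 0 := by have := red3 S (p := p) (by omega); rwa [map_ofNat] at this
  obtain ⟨hzr, hz1r, hm1, hm2, hv, e2v, ha1, ha2⟩ := e32_facts S (p := p) (by omega) hμ hv2 hz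
  obtain ⟨ha0, hb0⟩ := e32_ab S (p := p) (by omega) h17 h23 hμ hz
  have n2' : ¬ (p : ℤ) ∣ ((2 * 1 : ℕ) : ℤ) := by
    have := ndvd_of_primes p (n := 2) (l := [2]) (by simp; norm_num) (by norm_num) (by simp; omega)
    exact_mod_cast this
  have n3' : ¬ (p : ℤ) ∣ ((3 * 1 : ℕ) : ℤ) := by
    have := ndvd_of_primes p (n := 3) (l := [3]) (by simp; norm_num) (by norm_num) (by simp; omega)
    exact_mod_cast this
  have n2 : ¬ (p : ℤ) ∣ 2 := by exact_mod_cast n2'
  have n3 : ¬ (p : ℤ) ∣ -3 := by rw [dvd_neg]; exact_mod_cast n3'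
  have hμ0 := (sqrt_ne S (p := p) (x := μ) (n := 2) (by push_cast; exact hμ) n2).1
  have hr0 := (sqrt_ne S (p := p) (x := r) (n := -3) (by push_cast; exact hr) n3).1
  have d0 := Dat.id S (ca (4 * z)) (cb (4 * z))
  have d1 := Dat_psi S d0 hv hz rfl r3' hm1 hm2
  have d2 := Dat.nu S (r := r) d0 r2' r3' (by rw [hz]; exact ha2) hr
  obtain ⟨z', hz'⟩ : ∃ z', z' = v2 ^ 2 * am (-μ) := ⟨_, rfl⟩
  have h4z' : 4 * z' = am (-μ) := by
    rw [hz']; linear_combination (am (-μ) * (2 * v2 + 1)) * hv2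
  have e1 : am (-2 * (μ * v2)) = 4 * z' := by rw [e2v, h4z']
  have e2 : 4 - 4 * z = 4 * z' := by rw [h4z', am_neg, hz]
  rw [e1] at d1
  rw [e2] at d2
  refine keyForm S (by omega) hq hzr hz1r (z' := z') (zF S (by omega) hz h4z' hF) ha0 hb0
    (m1 := 1 * μ) (by rw [one_mul]; exact hμ0)
    (m2 := 1 * r) (by rw [one_mul]; exact hr0) d1 d2 x y 0 ?_ n2' n3' (by norm_num) ?_
    (al := (x : O) * μ + y * r) (by ring) hw hwr
  · rw [hxy]; push_cast; ring
  · push_cast; nlinarith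

/-- **the sum with `32`** -/
theorem e32_gen [IsAlgClosed k] (hq : S.q = (p : O)) (hp11 : 11 ≤ p) {μ r : O} (hμ : μ ^ 2 = 2)
    (hr : r ^ 2 = -3) {wi : R p} (hwi : ((32 : ℤ) : R p) * wi = 1) :
    (∀ x y : ℤ, (p % 24 = 1 ∨ p % 24 = 7) → (p : ℤ) = x ^ 2 + 6 * y ^ 2 →
      AA p wi = ((4 * x ^ 2 - 2 * p : ℤ) : R p)) ∧
    (∀ x y : ℤ, (p % 24 = 5 ∨ p % 24 = 11) → (p : ℤ) = 2 * x ^ 2 + 3 * y ^ 2 →
      AA p wi = ((8 * x ^ 2 - 2 * p : ℤ) : R p)) ∧
    ((p % 24 = 13 ∨ p % 24 = 17 ∨ p % 24 = 19 ∨ p % 24 = 23) → AA p wi = 0) := by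
  have hp2 : p ≠ 2 := by omega
  have hp3 : p ≠ 3 := by omega
  have hp5 : 5 ≤ p := by omega
  have hodd : Odd p := hp.out.odd_of_ne_two hp2
  have r2 := red2 S (p := p) hp5
  have r2' : (2 : k) ≠ 0 := by rwa [map_ofNat] at r2
  obtain ⟨v2, hv2⟩ := (S.unit_of_red r2).exists_right_inv
  have hm2 : (-μ) ^ 2 = 2 := by rw [neg_sq]; exact hμ
  obtain ⟨z, hz⟩ : ∃ z, z = v2 ^ 2 * am μ := ⟨_, rfl⟩
  have h4z : 4 * z = am μ := by rw [hz]; linear_combination (am μ * (2 * v2 + 1)) * hv2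
  obtain ⟨z', hz'⟩ : ∃ z', z' = v2 ^ 2 * am (-μ) := ⟨_, rfl⟩
  have h4z' : 4 * z' = am (-μ) := by rw [hz']; linear_combination (am (-μ) * (2 * v2 + 1)) * hv2
  obtain ⟨hzr, hz1r, hm1, hm2', hv, e2v, ha1, ha2⟩ := e32_facts S (p := p) (by omega) hμ hv2 h4z
  have u1 : S.red (4 - μ ^ 2) ≠ 0 := by
    have : 4 - μ ^ 2 = 2 := by linear_combination -hμ
    rw [this]; exact r2
  have u2 : S.red (μ ^ 2 + 2) ≠ 0 := by
    have : μ ^ 2 + 2 = 2 * 2 := by linear_combination hμ
    rw [this, map_mul]; exact mul_ne_zero r2 r2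
  have u3 : S.red (μ ^ 2 - 1) ≠ 0 := by
    have : μ ^ 2 - 1 = (μ - 1) * (μ + 1) := by ring
    rw [this, map_mul]; exact mul_ne_zero hm1 hm2'
  have := charQ S (p := p) hq
  have qX := arg_eq S (p := p) (μ := μ) hwi (by rw [hμ]; push_cast; ring)
  have hsF2 := frobS S (p := p) hp2 (x := μ) (n := 2) (by push_cast; exact hμ)
  have hrF := frobS S (p := p) hp2 (x := r) (n := -3) (by push_cast; exact hr)
  have e4z : 4 * z' = am (-2 * (μ * v2)) := by rw [h4z', e2v]
  refine ⟨fun x y hc hxy => ?_, fun x y hc hxy => ?_, fun hc => ?_⟩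
  · apply to_R S (p := p)
    have hF : S.red μ = S.red μ ^ p := by
      rw [hsF2, leg2 p hp2, if_pos (by omega)]; simp
    have hF' : S.red (-μ) = S.red (-μ) ^ p := by rw [map_neg, hodd.neg_pow, ← hF]
    have main : ∀ y : ℤ, (p : ℤ) = x ^ 2 + 6 * y ^ 2 → S.red ((x : O) + y * (μ * r)) = 0 →
        AA p (tq O p wi) = ((4 * x ^ 2 - 2 * p : ℤ) : QO O p) := by
      intro y hxy h0
      have hO : (p : O) = (x : O) ^ 2 + 6 * (y : O) ^ 2 := by
        exact_mod_cast congrArg (Int.cast : ℤ → O) hxy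
      refine ord_val S (p := p) hp5 hq hv h4z e4z (μσ := μ) hF u1 u2 (be := (x : O) - y * (μ * r)) (u := 1) h0
        ?_ (by rw [map_one]; exact one_ne_zero) ?_ ?_ qX ?_
      · rw [hO]; linear_combination (-(y : O) ^ 2 * r ^ 2) * hμ - (2 * (y : O) ^ 2) * hr
      · intro w hw hwr
        exact e32_key1 S hq hp11 (by omega) (by omega) hμ hr hv2 h4z hF x y hxy hw hwr
      · intro w hw hwr
        refine ⟨w, e32_key1 S hq hp11 (by omega) (by omega) hm2 hr hv2 h4z' hF' x (-y) (by rw [hxy]; ring) ?_ hwr, rfl⟩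
        rw [← hw]; push_cast; ring
      · push_cast; rw [hμ]; ring
    have hprod : S.red ((x : O) + y * (μ * r)) * S.red ((x : O) - y * (μ * r)) = 0 := by
      have hO : (p : O) = (x : O) ^ 2 + 6 * (y : O) ^ 2 := by
        exact_mod_cast congrArg (Int.cast : ℤ → O) hxy
      have : ((x : O) + y * (μ * r)) * ((x : O) - y * (μ * r)) = S.q := by
        rw [hq, hO]; linear_combination (-(y : O) ^ 2 * r ^ 2) * hμ - (2 * (y : O) ^ 2) * hr
      rw [← map_mul, this, S.red_q]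
    rcases mul_eq_zero.mp hprod with h | h
    · exact main y hxy h
    · refine main (-y) (by rw [hxy]; ring) ?_
      rw [← h]; congr 1; push_cast; ring
  · apply to_R S (p := p)
    have hF : S.red (-μ) = S.red μ ^ p := by
      rw [hsF2, leg2 p hp2, if_neg (by omega)]; simp
    have hF' : S.red (- -μ) = S.red (-μ) ^ p := by
      rw [neg_neg, map_neg, hodd.neg_pow, ← hF, map_neg, neg_neg]
    have main : ∀ y : ℤ, (p : ℤ) = 2 * x ^ 2 + 3 * y ^ 2 → S.red ((x : O) * μ + y * r) = 0 →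
        AA p (tq O p wi) = ((8 * x ^ 2 - 2 * p : ℤ) : QO O p) := by
      intro y hxy h0
      have hO : (p : O) = 2 * (x : O) ^ 2 + 3 * (y : O) ^ 2 := by
        exact_mod_cast congrArg (Int.cast : ℤ → O) hxy
      refine ord_val S (p := p) hp5 hq hv h4z e4z (μσ := -μ) hF u1 u2 (be := (x : O) * μ - y * r) (u := 1) h0
        ?_ (by rw [map_one]; exact one_ne_zero) ?_ ?_ qX ?_
      · rw [hO]; linear_combination ((x : O) ^ 2) * hμ - ((y : O) ^ 2) * hr
      · intro w hw hwr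
        exact e32_key2 S hq hp11 (by omega) (by omega) hμ hr hv2 h4z hF x y hxy hw hwr
      · intro w hw hwr
        refine ⟨-w, e32_key2 S hq hp11 (by omega) (by omega) hm2 hr hv2 h4z' hF' x (-y) (by rw [hxy]; ring) ?_
          (by rw [map_neg]; exact neg_ne_zero.mpr hwr), by ring⟩
        push_cast; linear_combination (-1 : O) * hw
      · push_cast; linear_combination (-4 * (x : O) ^ 2 * (μ ^ 2 + 2)) * hμ
    have hprod : S.red ((x : O) * μ + y * r) * S.red ((x : O) * μ - y * r) = 0 := by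
      have hO : (p : O) = 2 * (x : O) ^ 2 + 3 * (y : O) ^ 2 := by
        exact_mod_cast congrArg (Int.cast : ℤ → O) hxy
      have : ((x : O) * μ + y * r) * ((x : O) * μ - y * r) = S.q := by
        rw [hq, hO]; linear_combination ((x : O) ^ 2) * hμ - ((y : O) ^ 2) * hr
      rw [← map_mul, this, S.red_q]
    rcases mul_eq_zero.mp hprod with h | h
    · exact main y hxy h
    · refine main (-y) (by rw [hxy]; ring) ?_
      rw [← h]; congr 1; push_cast; ring
  · have hz0 : AA p (tq O p wi) = ((0 : ℤ) : QO O p) := by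
      rw [Int.cast_zero]
      refine AA_ss S hp5 hq hv u1 u2 u3 ?_ qX
      have hμr : S.red μ ^ 2 = 2 := by rw [← map_pow, hμ, map_ofNat]
      have hrr : S.red r ^ 2 = -3 := by rw [← map_pow, hr, map_neg, map_ofNat]
      have hvr : S.red μ * S.red (μ * v2) = 1 := by rw [← map_mul, hv, map_one]
      have e2r : -2 * S.red (μ * v2) = -S.red μ := by
        have := congrArg S.red e2v
        rw [map_mul, map_neg, map_neg, map_ofNat] at this
        exact this
      have h1 := HR_psi (p := p) hp2 hvr (by intro h0; apply hm1; rw [map_sub, h0, map_one, sub_self])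
        (by rw [e2r, ← map_neg, ← am_map]; exact ha1)
      have h2 := HR_nu (p := p) hp2 hp3 (A := am (-2 * S.red (μ * v2))) hrr
      have h3 := h1.trans h2
      have e4 : 4 - am (-2 * S.red (μ * v2)) = am (S.red μ) := by rw [e2r, am_neg]; ring
      rw [e4] at h3
      rw [am_map]
      refine h3.zero ?_
      rw [mul_pow, hsF2, hrF, leg2 p hp2, legm3 hp2 hp3]
      have hne : S.red μ * S.red r ≠ 0 := by
        refine mul_ne_zero ?_ ?_
        · intro h0; rw [h0] at hvr; rw [zero_mul] at hvr; exact zero_ne_one hvr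
        · intro h0; rw [h0] at hrr
          have r3 := red3 S (p := p) hp5
          apply r3; rw [map_ofNat]; linear_combination hrr
      have hne2 := mul_ne_zero r2' hne
      intro h0
      apply hne2
      rcases hc with h | h | h | h
      · rw [if_neg (by omega), if_pos (by omega)] at h0; push_cast at h0; linear_combination -h0
      · rw [if_pos (by omega), if_neg (by omega)] at h0; push_cast at h0; linear_combination -h0
      · rw [if_neg (by omega), if_pos (by omega)] at h0; push_cast at h0; linear_combination -h0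
      · rw [if_pos (by omega), if_neg (by omega)] at h0; push_cast at h0; linear_combination -h0
    rw [to_R S (p := p) hz0, Int.cast_zero]

end e32

variable (p : ℕ) [hp : Fact p.Prime]

theorem e32_main (hp11 : 11 ≤ p) {wi : R p} (hwi : ((32 : ℤ) : R p) * wi = 1) :
    (∀ x y : ℤ, (p % 24 = 1 ∨ p % 24 = 7) → (p : ℤ) = x ^ 2 + 6 * y ^ 2 →
      AA p wi = ((4 * x ^ 2 - 2 * p : ℤ) : R p)) ∧
    (∀ x y : ℤ, (p % 24 = 5 ∨ p % 24 = 11) → (p : ℤ) = 2 * x ^ 2 + 3 * y ^ 2 →
      AA p wi = ((8 * x ^ 2 - 2 * p : ℤ) : R p)) ∧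
    ((p % 24 = 13 ∨ p % 24 = 17 ∨ p % 24 = 19 ∨ p % 24 = 23) → AA p wi = 0) := by
  have n2 : ¬ (p : ℤ) ∣ 2 := by
    have := ndvd_of_primes p (n := 2) (l := [2]) (by simp; norm_num) (by norm_num) (by simp; omega)
    exact_mod_cast this
  have n3 : ¬ (p : ℤ) ∣ -3 := by
    rw [dvd_neg]
    have := ndvd_of_primes p (n := 3) (l := [3]) (by simp; norm_num) (by norm_num) (by simp; omega)
    exact_mod_cast this
  obtain ⟨μ, hμ⟩ := wo_isqrt p (by omega) n2
  obtain ⟨r, hr⟩ := wo_isqrt p (by omega) n3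
  push_cast at hμ hr
  exact e32_gen (SW p) (SW_q p) hp11 hμ hr hwi

end Pool.Agent.H547
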