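import Pool.Agent.H547.ZJ
import Pool.Agent.H547.CcfFin
import Pool.Agent.H546.CFfin

set_option autoImplicit false

/-!
# The Franel sums with `5` and `-49`
-/

namespace Pool.Agent.H547

open Finset Pool.Agent.H546
open Pool.Agent.Q267.CDE (R)
open Pool.Agent.Q267.MW (u3)

section ec

variable (p : ℕ) [hp : Fact p.Prime]

theorem R_p2 : (p : R p) ^ 2 = 0 := Pool.Agent.Q267.CDE.p_sq p

/-- the values of the two cubic sums -/
theorem both (h5 : 5 < p) {w1 w2 : R p} (h1 : ((-27 : ℤ) : R p) * w1 = 1) (h2 : ((3375 : ℤ) : R p) * w2 = 1) :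
    (∀ x y : ℤ, (p % 15 = 1 ∨ p % 15 = 4) → (p : ℤ) = x ^ 2 + 15 * y ^ 2 →
      SS p w1 = ((4 * x ^ 2 - 2 * p : ℤ) : R p) ∧ SS p w2 = ((4 * x ^ 2 - 2 * p : ℤ) : R p)) ∧
    (∀ x y : ℤ, (p % 15 = 2 ∨ p % 15 = 8) → (p : ℤ) = 3 * x ^ 2 + 5 * y ^ 2 →
      SS p w1 = ((2 * p - 12 * x ^ 2 : ℤ) : R p) ∧ SS p w2 = ((2 * p - 12 * x ^ 2 : ℤ) : R p)) ∧
    ((p % 15 = 7 ∨ p % 15 = 11 ∨ p % 15 = 13 ∨ p % 15 = 14) → SS p w1 = 0 ∧ SS p w2 = 0) := by
  obtain ⟨a1, a2, a3⟩ := ccf_main p h5 h1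
  obtain ⟨b1, b2, b3⟩ := cf_main p h5 h2
  rw [SS_u3] at a1 a2 a3 b1 b2 b3
  refine ⟨fun x y hc hxy => ⟨a1 x y hc hxy, b1 x y hc hxy⟩, fun x y hc hxy => ⟨?_, b2 x y hc hxy⟩,
    fun hc => ⟨a3 hc, b3 hc⟩⟩
  rw [a2 y x hc (by linarith)]
  congr 1
  linarith

theorem m49 (h7 : 7 < p) {w1 w2 w3 : R p} (h1 : ((-27 : ℤ) : R p) * w1 = 1) (h2 : ((3375 : ℤ) : R p) * w2 = 1)
    (h3 : ((-49 : ℤ) : R p) * w3 = 1) : (SS p w2 = SS p w1 → AA p w3 = SS p w1) := by
  intro hrel
  push_cast at h1 h2 h3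
  have ho := odd_p (p := p) (by omega)
  have u3 : IsUnit (3 : R p) := IsUnit.of_mul_eq_one (-9 * w1) (by linear_combination h1)
  -- inverses
  have e1 : w1 = (-1 : R p) ^ 2 * (9 * w1) ^ 3 := by
    have : (27 * w1) ^ 2 = 1 := by linear_combination (-27 * w1 + 1) * h1
    linear_combination (-w1) * this
  have e2 : w2 = (-1 : R p) * (-225 * w2) ^ 3 := by
    have : (3375 * w2) ^ 2 = 1 := by linear_combination (3375 * w2 + 1) * h2
    linear_combination (-w2) * this
  have e3 : w3 = (-1 : R p) * (7 * w3) ^ 2 := by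
    linear_combination (-w3) * h3
  have h := club_same (p := p) (s := (-1 : R p)) (δ := 0) (i4 := 9 * w1) (i8 := 7 * w3) (i16 := -225 * w2) (R_p2 p)
    (by omega) (by linear_combination h1) (by linear_combination h3) (by linear_combination h2)
    (by rw [(Nat.odd_iff.mpr ho).neg_one_pow]; ring) u3 (by rw [← e1, ← e2]; exact hrel)
  rw [← e1, ← e3] at h
  exact h

theorem m49_zero (h7 : 7 < p) {w1 w2 w3 : R p} (h1 : ((-27 : ℤ) : R p) * w1 = 1) (h2 : ((3375 : ℤ) : R p) * w2 = 1)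
    (h3 : ((-49 : ℤ) : R p) * w3 = 1) (z1 : SS p w1 = 0) (z2 : SS p w2 = 0) : AA p w3 = 0 := by
  rw [m49 p h7 h1 h2 h3 (by rw [z1, z2]), z1]

/-- the algebraic number attached to `5` -/
theorem m5_s (h7 : 7 < p) {w1 w3 : R p} (h1 : ((-27 : ℤ) : R p) * w1 = 1) (h3 : ((5 : ℤ) : R p) * w3 = 1) :
    ((p % 15 = 1 ∨ p % 15 = 2 ∨ p % 15 = 4 ∨ p % 15 = 8) → AA p w3 = SS p w1) ∧
    (SS p w1 = 0 → AA p w3 = 0) := by
  have hp2 : p ≠ 2 := by omega
  have n2 : ¬ (p : ℤ) ∣ 2 := by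
    have := ndvd_of_primes p (n := 2) (l := [2]) (by simp; norm_num) (by norm_num) (by simp; omega)
    exact_mod_cast this
  have n3 : ¬ (p : ℤ) ∣ 3 := by
    have := ndvd_of_primes p (n := 3) (l := [3]) (by simp; norm_num) (by norm_num) (by simp; omega)
    exact_mod_cast this
  have n5 : ¬ (p : ℤ) ∣ 5 := by
    have := ndvd_of_primes p (n := 5) (l := [5]) (by simp; norm_num) (by norm_num) (by simp; omega)
    exact_mod_cast this
  have n15 : ¬ (p : ℤ) ∣ 15 := by
    have := ndvd_of_primes p (n := 15) (l := [3, 5]) (by simp; norm_num) (by norm_num) (by simp; omega)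
    exact_mod_cast this
  have r2 := red_int_ne n2
  have r3 := red_int_ne n3
  have r5 := red_int_ne n5
  rw [Int.cast_ofNat] at r2 r3 r5
  have r2' : (2 : kb p) ≠ 0 := by rw [map_ofNat] at r2; exact r2
  obtain ⟨v, hv⟩ := ((SW p).unit_of_red r2).exists_right_inv
  obtain ⟨v3, hv3⟩ := ((SW p).unit_of_red r3).exists_right_inv
  obtain ⟨v5, hv5⟩ := ((SW p).unit_of_red r5).exists_right_inv
  obtain ⟨g, hg⟩ := wo_isqrt p hp2 (d := -15) (by rwa [dvd_neg])
  push_cast at hg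
  obtain ⟨s, hs⟩ : ∃ s, s = v ^ 7 * (-11 + 3 * g) := ⟨_, rfl⟩
  have hs2 : 64 * s ^ 2 + 11 * s + 1 = 0 := by
    have h128 : (128 : WO p) * v ^ 7 = 1 := by
      linear_combination (64 * v ^ 6 + 32 * v ^ 5 + 16 * v ^ 4 + 8 * v ^ 3 + 4 * v ^ 2 + 2 * v + 1) * hv
    have h2s : 128 * s = -11 + 3 * g := by rw [hs]; linear_combination (-11 + 3 * g) * h128
    have h256 : (256 : WO p) ≠ 0 := by
      intro h0
      have : (SW p).red 256 = 0 := by rw [h0, map_zero]
      rw [map_ofNat] at this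
      have e : (256 : kb p) = 2 ^ 8 := by norm_num
      rw [e] at this
      exact r2' (pow_eq_zero_iff (by norm_num) |>.mp this)
    apply mul_left_cancel₀ h256
    linear_combination (128 * s + 3 * g - 11 + 22) * h2s + 9 * hg
  -- pass to the quotient
  have := charQ (SW p) (p := p) (SW_q p)
  set th : R p →+* QO (WO p) p := ZMod.castHom (dvd_refl _) (QO (WO p) p) with hth
  have thinj : Function.Injective th := ZMod.castHom_injective _
  set mk := Ideal.Quotient.mk (Ideal.span {(p : WO p) ^ 2}) with hmk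
  have hpp : ((p : ℕ) : QO (WO p) p) ^ 2 = 0 := by
    have := congrArg th (R_p2 p)
    rw [map_pow, map_natCast, map_zero] at this
    exact this
  obtain ⟨S, hS⟩ : ∃ S, S = mk s := ⟨_, rfl⟩
  have hS2 : 64 * S ^ 2 + 11 * S + 1 = 0 := by
    have := congrArg mk hs2
    rw [map_add, map_add, map_mul, map_mul, map_pow, map_ofNat, map_ofNat, map_one, map_zero, ← hS] at this
    exact this
  have q1 : (-27 : QO (WO p) p) * th w1 = 1 := by
    have := congrArg th h1
    rw [map_mul, map_intCast, map_one] at this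
    push_cast at this
    exact this
  have q3 : (5 : QO (WO p) p) * th w3 = 1 := by
    have := congrArg th h3
    rw [map_mul, map_intCast, map_one] at this
    push_cast at this
    exact this
  obtain ⟨W1, hW1⟩ : ∃ W, W = th w1 := ⟨_, rfl⟩
  obtain ⟨W3, hW3⟩ : ∃ W, W = th w3 := ⟨_, rfl⟩
  rw [← hW1] at q1
  rw [← hW3] at q3
  have u3 : IsUnit (3 : QO (WO p) p) := IsUnit.of_mul_eq_one (-9 * W1) (by linear_combination q1)
  obtain ⟨I, hI⟩ : ∃ I, I = -64 * S - 11 := ⟨_, rfl⟩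
  have hSI : S * I = 1 := by rw [hI]; linear_combination -hS2
  have c8 : (1 + 8 * S) ^ 2 = 5 * S := by linear_combination hS2
  have c4 : (1 + 4 * S) ^ 3 = -27 * S ^ 2 := by linear_combination (S + 1) * hS2
  have c16 : (1 + 16 * S) ^ 3 = -27 * S := by linear_combination (64 * S + 1) * hS2
  obtain ⟨i8, hi8⟩ : ∃ i, i = W3 * (1 + 8 * S) * I := ⟨_, rfl⟩
  obtain ⟨i4, hi4⟩ : ∃ i, i = W1 * (1 + 4 * S) ^ 2 * I ^ 2 := ⟨_, rfl⟩
  obtain ⟨i16, hi16⟩ : ∃ i, i = W1 * (1 + 16 * S) ^ 2 * I := ⟨_, rfl⟩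
  have k8 : (1 + 8 * S) * i8 = 1 := by
    rw [hi8]; linear_combination (W3 * I) * c8 + (5 * W3) * hSI + q3
  have k4 : (1 + 4 * S) * i4 = 1 := by
    rw [hi4]; linear_combination (W1 * I ^ 2) * c4 + (-27 * W1 * (S * I + 1)) * hSI + q1
  have k16 : (1 + 16 * S) * i16 = 1 := by
    rw [hi16]; linear_combination (W1 * I) * c16 + (-27 * W1) * hSI + q1
  have x8 : W3 = S * i8 ^ 2 := by
    have h1 : 5 * (S * i8 ^ 2) = 1 := by
      linear_combination (-i8 ^ 2) * c8 + ((1 + 8 * S) * i8 + 1) * k8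
    linear_combination (-W3) * h1 + (S * i8 ^ 2) * q3
  have x4 : W1 = S ^ 2 * i4 ^ 3 := by
    have h1 : -27 * (S ^ 2 * i4 ^ 3) = 1 := by
      linear_combination (-i4 ^ 3) * c4 + (((1 + 4 * S) * i4) ^ 2 + (1 + 4 * S) * i4 + 1) * k4
    linear_combination (-W1) * h1 + (S ^ 2 * i4 ^ 3) * q1
  have x16 : W1 = S * i16 ^ 3 := by
    have h1 : -27 * (S * i16 ^ 3) = 1 := by
      linear_combination (-i16 ^ 3) * c16 + (((1 + 16 * S) * i16) ^ 2 + (1 + 16 * S) * i16 + 1) * k16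
    linear_combination (-W1) * h1 + (S * i16 ^ 3) * q1
  constructor
  · intro hc
    -- Frobenius fixes `g`
    have hFg : (SW p).red g ^ p = (SW p).red g := by
      have h1 : (SW p).red g ^ p = (legendreSym p (-15) : kb p) * (SW p).red g := by
        refine frob_sqrt hp2 (d := -15) ?_
        rw [← map_pow]
        have : g ^ 2 = ((-15 : ℤ) : WO p) := by push_cast; exact hg
        rw [this, map_intCast]
      have h2 : legendreSym p (-15) = 1 := by
        have e : (-15 : ℤ) = -3 * 5 := by norm_num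
        rw [e, legendreSym.mul, legm3 hp2 (by omega), leg5 (by omega)]
        rcases hc with h | h | h | h
        · rw [if_pos (by omega), if_pos (by omega)]; norm_num
        · rw [if_neg (by omega), if_neg (by omega)]; norm_num
        · rw [if_pos (by omega), if_pos (by omega)]; norm_num
        · rw [if_neg (by omega), if_neg (by omega)]; norm_num
      rw [h1, h2]; simp
    set F := frobenius (kb p) p with hF
    have hFv : F ((SW p).red v) = (SW p).red v := by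
      have h1 : (2 : kb p) * (SW p).red v = 1 := by
        have := congrArg (SW p).red hv
        rwa [map_mul, map_ofNat, map_one] at this
      have h2 := congrArg F h1
      rw [map_mul, map_ofNat, map_one] at h2
      apply mul_left_cancel₀ r2'
      rw [h1, h2]
    have hFs : (SW p).red s ^ p = (SW p).red s := by
      have h1 : (SW p).red s ^ p = F ((SW p).red s) := rfl
      have h2 : (SW p).red s = (SW p).red v ^ 7 * (-11 + 3 * (SW p).red g) := by
        rw [hs, map_mul, map_pow, map_add, map_neg, map_mul, map_ofNat, map_ofNat]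
      have h3 : F ((SW p).red g) = (SW p).red g := hFg
      rw [h1, h2, map_mul, map_pow, hFv, map_add, map_neg, map_mul, map_ofNat, map_ofNat, h3]
    obtain ⟨δ, hδ⟩ : ∃ δ, s ^ p = s + (p : WO p) * δ := by
      have h1 : (SW p).red (s ^ p - s) = 0 := by rw [map_sub, map_pow, hFs, sub_self]
      obtain ⟨d, hd⟩ := ((SW p).red_iff _).mp h1
      rw [SW_q] at hd
      exact ⟨d, by linear_combination hd⟩
    have hδ' : S ^ p = S + ((p : ℕ) : QO (WO p) p) * mk δ := by
      have := congrArg mk hδ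
      rw [map_pow, map_add, map_mul, map_natCast, ← hS] at this
      exact this
    have key := club_same (p := p) hpp (by omega) k4 k8 k16 hδ' u3 (by rw [← x4, ← x16])
    rw [← x4, ← x8, hW1, hW3, ← SS_map, ← AA_map] at key
    exact thinj key
  · intro h0
    have z1 : SS p W1 = 0 := by rw [hW1, ← SS_map, h0, map_zero]
    have key := club_zero (p := p) hpp (by omega) k4 k8 k16 u3 (by rw [← x16]; exact z1) (by rw [← x4]; exact z1)
    rw [← x8, hW3, ← AA_map] at key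
    apply thinj
    rw [key, map_zero]

/-- the two sums -/
theorem ec_main (h7 : 7 < p) {wi : R p} (h : ((5 : ℤ) : R p) * wi = 1 ∨ ((-49 : ℤ) : R p) * wi = 1) :
    (∀ x y : ℤ, (p % 15 = 1 ∨ p % 15 = 4) → (p : ℤ) = x ^ 2 + 15 * y ^ 2 →
      AA p wi = ((4 * x ^ 2 - 2 * p : ℤ) : R p)) ∧
    (∀ x y : ℤ, (p % 15 = 2 ∨ p % 15 = 8) → (p : ℤ) = 3 * x ^ 2 + 5 * y ^ 2 →
      AA p wi = ((2 * p - 12 * x ^ 2 : ℤ) : R p)) ∧
    ((p % 15 = 7 ∨ p % 15 = 11 ∨ p % 15 = 13 ∨ p % 15 = 14) → AA p wi = 0) := by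
  obtain ⟨w1, h1⟩ := inv_exists (p := p) (M := -27) (by
    rw [dvd_neg]
    have := ndvd_of_primes p (n := 27) (l := [3, 3, 3]) (by simp; norm_num) (by norm_num) (by simp; omega)
    exact_mod_cast this)
  obtain ⟨w2, h2⟩ := inv_exists (p := p) (M := 3375) (by
    have := ndvd_of_primes p (n := 3375) (l := [3, 3, 3, 5, 5, 5]) (by simp; norm_num) (by norm_num) (by simp; omega)
    exact_mod_cast this)
  obtain ⟨b1, b2, b3⟩ := both p (by omega) h1 h2
  rcases h with h | h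
  · obtain ⟨c1, c2⟩ := m5_s p h7 h1 h
    refine ⟨fun x y hc hxy => ?_, fun x y hc hxy => ?_, fun hc => c2 (b3 hc).1⟩
    · rw [c1 (by omega)]; exact (b1 x y hc hxy).1
    · rw [c1 (by omega)]; exact (b2 x y hc hxy).1
  · refine ⟨fun x y hc hxy => ?_, fun x y hc hxy => ?_, fun hc => m49_zero p h7 h1 h2 h (b3 hc).1 (b3 hc).2⟩
    · obtain ⟨e1, e2⟩ := b1 x y hc hxy
      rw [m49 p h7 h1 h2 h (by rw [e1, e2]), e1]
    · obtain ⟨e1, e2⟩ := b2 x y hc hxy
      rw [m49 p h7 h1 h2 h (by rw [e1, e2]), e1]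

end ec

end Pool.Agent.H547
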