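import Pool.Agent.H547.E16

set_option autoImplicit false
set_option linter.unusedSectionVars false

/-!
# The Franel sum with `16`, evaluation
-/

namespace Pool.Agent.H547

open Finset Pool.Agent.H546
open Pool.Agent.Q267.CDE (R)

section e16

variable {O K k : Type*} [CommRing O] [IsDomain O] [Field K] [Algebra O K] [Field k]
  (S : DV O K k) {p : ℕ} [hp : Fact p.Prime] [CharP k p]

include S in
theorem e16_frob (hp7 : 7 ≤ p) {i t : O} (hi : i ^ 2 = -1) (ht : 5 * t ^ 2 = 1) :
    S.red ((3 + i) * t) ^ p = (3 + (legendreSym p (-1) : k) * S.red i) * ((legendreSym p 5 : k) * S.red t) := by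
  have hi' := frobS S (p := p) (by omega) (x := i) (n := -1) (by push_cast; exact hi)
  have ht' := frobS S (p := p) (by omega) (x := 5 * t) (n := 5) (by push_cast; linear_combination 5 * ht)
  have h3 := frobInt S (p := p) 3
  have h5 := frobInt S (p := p) 5
  push_cast at h3 h5
  have h50 : S.red (5 : O) ≠ 0 := by
    refine sred_ne S (p := p) (y := 1) (n := 5) (by push_cast; ring) ?_
    have := ndvd_of_primes p (n := 5) (l := [5]) (by simp; norm_num) (by norm_num) (by simp; omega)
    exact_mod_cast this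
  have ht2 : S.red t ^ p = (legendreSym p 5 : k) * S.red t := by
    rw [map_mul, mul_pow, h5] at ht'
    apply mul_left_cancel₀ h50
    rw [ht']; ring
  have h3' : S.red (3 : O) = 3 := map_ofNat _ 3
  rw [map_mul, mul_pow, map_add, add_pow_char, hi', ht2, h3, h3']

include S in
theorem e16_delta (hp7 : 7 ≤ p) {i t : O} (hi : i ^ 2 = -1) (ht : 5 * t ^ 2 = 1) :
    S.red (1 - 5 * i * t) ^ p =
      1 - (legendreSym p (-1) : k) * (legendreSym p 5 : k) * S.red (5 * i * t) := by
  have hi' := frobS S (p := p) (by omega) (x := i) (n := -1) (by push_cast; exact hi)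
  have ht' := frobS S (p := p) (by omega) (x := 5 * t) (n := 5) (by push_cast; linear_combination 5 * ht)
  rw [map_sub, sub_pow_char, map_one, one_pow]
  have e : (5 * i * t : O) = i * (5 * t) := by ring
  rw [e, map_mul, mul_pow, hi', ht']; ring

/-- **the sum with `16`** -/
theorem e16_gen [IsAlgClosed k] (hq : S.q = (p : O)) (hp11 : 11 ≤ p) {i t r : O} (hi : i ^ 2 = -1)
    (ht : 5 * t ^ 2 = 1) (hr : r ^ 2 = -3) {wi : R p} (hwi : ((16 : ℤ) : R p) * wi = 1) :
    (∀ x y : ℤ, (p % 20 = 1 ∨ p % 20 = 9) → (p : ℤ) = x ^ 2 + 5 * y ^ 2 →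
      AA p wi = ((4 * x ^ 2 - 2 * p : ℤ) : R p)) ∧
    (∀ x y : ℤ, (p % 20 = 3 ∨ p % 20 = 7) → 2 * (p : ℤ) = x ^ 2 + 5 * y ^ 2 →
      AA p wi = ((2 * x ^ 2 - 2 * p : ℤ) : R p)) ∧
    ((p % 20 = 11 ∨ p % 20 = 13 ∨ p % 20 = 17 ∨ p % 20 = 19) → AA p wi = 0) := by
  have hp2 : p ≠ 2 := by omega
  have hp3 : p ≠ 3 := by omega
  have hp5 : 5 ≤ p := by omega
  have hodd : Odd p := hp.out.odd_of_ne_two hp2
  have r2 := red2 S (p := p) hp5
  have r2' : (2 : k) ≠ 0 := by rwa [map_ofNat] at r2
  obtain ⟨v2, hv2⟩ := (S.unit_of_red r2).exists_right_inv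
  obtain ⟨v3, hv3⟩ := (S.unit_of_red (red3 S (p := p) hp5)).exists_right_inv
  have hi' : (-i) ^ 2 = -1 := by rw [neg_sq]; exact hi
  have ht' : 5 * (-t) ^ 2 = 1 := by rw [neg_sq]; exact ht
  have hfr := e16_frob S (p := p) (by omega) hi ht
  have hfr' := e16_frob S (p := p) (by omega) hi' ht'
  obtain ⟨M, hM⟩ : ∃ M, M = (3 + i) * t := ⟨_, rfl⟩
  obtain ⟨Ms, hMs⟩ : ∃ M, M = (3 - i) * (-t) := ⟨_, rfl⟩
  obtain ⟨z, hz⟩ : ∃ z, z = v2 ^ 2 * am M := ⟨_, rfl⟩
  have h4z : 4 * z = am M := by rw [hz]; linear_combination (am M * (2 * v2 + 1)) * hv2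
  obtain ⟨z', hz'⟩ : ∃ z', z' = v2 ^ 2 * am Ms := ⟨_, rfl⟩
  have h4z' : 4 * z' = am Ms := by rw [hz']; linear_combination (am Ms * (2 * v2 + 1)) * hv2
  have hv : M * ((3 - i) * t * v2) = 1 := by
    rw [hM]; linear_combination (-t ^ 2 * v2) * hi + (2 * v2) * ht + (1) * hv2
  have e2v : -2 * ((3 - i) * t * v2) = Ms := by rw [hMs]; linear_combination (i * t - 3 * t) * hv2
  have hsm : Ms * M = -2 := by
    rw [← e2v]; linear_combination (-2) * hv
  obtain ⟨u1, u2, u3⟩ := e16_u S (p := p) (by omega) hi ht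
  rw [← hM] at u1 u2 u3
  obtain ⟨hzr, hz1r, hm1, hm2, ha1, ha2⟩ := zne S h4z u1 u3
  obtain ⟨u1', u2', u3'⟩ := e16_u S (p := p) (by omega) hi' ht'
  have eB : (3 + -i) * -t = Ms := by rw [hMs]; ring
  rw [eB] at u1' u2' u3'
  obtain ⟨-, -, -, -, hb1, hb2⟩ := zne S h4z' u1' u3'
  have := charQ S (p := p) hq
  have qX := arg_eq S (p := p) (μ := M) hwi (by
    rw [hM]; push_cast
    linear_combination (20 * i ^ 2 * t ^ 4 + 240 * i * t ^ 4 + 1060 * t ^ 4 - 64 * t ^ 2) * hi +
      (384 * i * t ^ 2 + 112 * t ^ 2 - 80) * ht)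
  have h4zB : 4 * z' = am (-2 * ((3 - i) * t * v2)) := by rw [e2v]; exact h4z'
  rw [← hM] at hfr
  rw [eB] at hfr'
  have hMsr : S.red Ms ≠ 0 := by
    intro h0
    have := congrArg S.red hsm
    rw [map_mul, h0, zero_mul, map_neg] at this
    exact r2 (neg_eq_zero.mp this.symm)
  have hMr : S.red M ≠ 0 := by
    intro h0
    have := congrArg S.red hsm
    rw [map_mul, h0, mul_zero, map_neg] at this
    exact r2 (neg_eq_zero.mp this.symm)
  refine ⟨fun x y hc hxy => ?_, fun x y hc hxy => ?_, fun hc => ?_⟩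
  · apply to_R S (p := p)
    have hl1 : legendreSym p (-1) = 1 := by rw [legm1 p hp2, if_pos (by omega)]
    have hl5 : legendreSym p 5 = 1 := by rw [leg5 (p := p) (by omega), if_pos (by omega)]
    have hF : S.red M = S.red M ^ p := by
      rw [hfr, hl1, hl5, hM, map_mul, map_add, map_ofNat]; push_cast; ring
    have hF' : S.red Ms = S.red Ms ^ p := by
      rw [hfr', hl1, hl5, hMs, map_mul, map_sub, map_ofNat, map_neg, map_neg]; push_cast; ring
    have main : ∀ y : ℤ, (p : ℤ) = x ^ 2 + 5 * y ^ 2 → S.red ((x : O) + y * (5 * i * t)) = 0 →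
        AA p (tq O p wi) = ((4 * x ^ 2 - 2 * p : ℤ) : QO O p) := by
      intro y hxy h0
      have hO : (p : O) = (x : O) ^ 2 + 5 * (y : O) ^ 2 := by
        exact_mod_cast congrArg (Int.cast : ℤ → O) hxy
      refine ord_val S (p := p) hp5 hq hv h4z h4zB (μσ := M) hF u1 u2 (be := (x : O) - y * (5 * i * t)) (u := 1) h0
        ?_ (by rw [map_one]; exact one_ne_zero) ?_ ?_ qX ?_
      · rw [hO]; linear_combination (-25 * t ^ 2 * y ^ 2) * hi + (5 * y ^ 2) * ht
      · intro w hw hwr
        exact e16_key1 S hq (by omega) (by omega) hi ht hr hv2 hv3 (by rw [h4z, hM]) (by rw [← hM]; exact hF)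
          x y hxy hw hwr
      · intro w hw hwr
        refine ⟨w, e16_key1 S hq (by omega) (by omega) hi' ht' hr hv2 hv3 (by rw [h4z', eB]) (by rw [eB]; exact hF')
          x y hxy ?_ hwr, rfl⟩
        rw [← hw]; ring
      · push_cast; ring
    have hprod : S.red ((x : O) + y * (5 * i * t)) * S.red ((x : O) - y * (5 * i * t)) = 0 := by
      have hO : (p : O) = (x : O) ^ 2 + 5 * (y : O) ^ 2 := by
        exact_mod_cast congrArg (Int.cast : ℤ → O) hxy
      have : ((x : O) + y * (5 * i * t)) * ((x : O) - y * (5 * i * t)) = S.q := by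
        rw [hq, hO]; linear_combination (-25 * t ^ 2 * y ^ 2) * hi + (5 * y ^ 2) * ht
      rw [← map_mul, this, S.red_q]
    rcases mul_eq_zero.mp hprod with h | h
    · exact main y hxy h
    · refine main (-y) (by rw [hxy]; ring) ?_
      rw [← h]; congr 1; push_cast; ring
  · apply to_R S (p := p)
    have hl1 : legendreSym p (-1) = -1 := by rw [legm1 p hp2, if_neg (by omega)]
    have hl5 : legendreSym p 5 = -1 := by rw [leg5 (p := p) (by omega), if_neg (by omega)]
    have hF : S.red Ms = S.red M ^ p := by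
      rw [hfr, hl1, hl5, hMs, map_mul, map_sub, map_ofNat, map_neg]; push_cast; ring
    have hF' : S.red M = S.red Ms ^ p := by
      rw [hfr', hl1, hl5, hM, map_mul, map_add, map_ofNat, map_neg, map_neg]; push_cast; ring
    have hpar : ∀ y : ℤ, 2 * (p : ℤ) = x ^ 2 + 5 * y ^ 2 → ∃ n : ℤ, x = 2 * n + y := by
      intro y hxy
      have h : Even (x ^ 2 + 5 * y ^ 2) := ⟨p, by linarith⟩
      have h2 : Even (x - y) := by
        rw [Int.even_sub]
        rw [Int.even_add, Int.even_mul, Int.even_pow' two_ne_zero, Int.even_pow' two_ne_zero] at h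
        have h5 : ¬ Even (5 : ℤ) := by decide
        tauto
      obtain ⟨n, hn⟩ := h2
      exact ⟨n, by linarith⟩
    have main : ∀ y : ℤ, 2 * (p : ℤ) = x ^ 2 + 5 * y ^ 2 → S.red ((x : O) + y * (5 * i * t)) = 0 →
        AA p (tq O p wi) = ((2 * x ^ 2 - 2 * p : ℤ) : QO O p) := by
      intro y hxy h0
      have hO : 2 * (p : O) = (x : O) ^ 2 + 5 * (y : O) ^ 2 := by
        exact_mod_cast congrArg (Int.cast : ℤ → O) hxy
      have hv2r : S.red v2 ≠ 0 := by
        intro h1
        have := congrArg S.red hv2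
        rw [map_mul, h1, mul_zero, map_one] at this
        exact zero_ne_one this
      refine ord_val S (p := p) hp5 hq hv h4z h4zB (μσ := Ms) hF u1 u2
        (al := (3 + i) * t * ((x : O) + y * (5 * i * t)) * v2)
        (be := (3 + i) * t * ((x : O) - y * (5 * i * t)) * v2) (u := M ^ 2 * v2) ?_ ?_ ?_ ?_ ?_ qX ?_
      · rw [map_mul, map_mul, h0, mul_zero, zero_mul]
      · rw [← hM]
        linear_combination (M ^ 2 * v2 ^ 2) * (-25 * t ^ 2 * y ^ 2 * hi + (5 * y ^ 2) * ht) -
          (M ^ 2 * v2 ^ 2) * hO + (M ^ 2 * v2 * p) * hv2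
      · rw [map_mul, map_pow]; exact mul_ne_zero (pow_ne_zero _ hMr) hv2r
      · intro w hw hwr
        exact e16_key2 S hq (by omega) (by omega) hi ht hr hv2 hv3 (by rw [h4z, hM]) (by rw [← hM, ← hMs]; exact hF)
          x y (hpar y hxy) hxy hw hwr
      · intro w hw hwr
        refine ⟨Ms * ((3 - i) * t * v2) * w, e16_key2 S hq (by omega) (by omega) hi' ht' hr hv2 hv3 (by rw [h4z', eB])
          (by
            have e : (3 - -i) * - -t = M := by rw [hM]; ring
            rw [e, eB]; exact hF') x y (hpar y hxy) hxy ?_ ?_, ?_⟩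
        · rw [eB]
          rw [← hM] at hw
          linear_combination (Ms * ((3 - i) * t * v2)) * hw - (Ms * (x + y * (5 * i * t)) * v2) * hv
        · rw [map_mul, map_mul]
          refine mul_ne_zero (mul_ne_zero hMsr ?_) hwr
          intro h1
          have := congrArg S.red hv
          rw [map_mul, h1, mul_zero, map_one] at this
          exact zero_ne_one this
        · linear_combination (Ms ^ 2 * w ^ 2 * (M * ((3 - i) * t * v2) + 1)) * hv
      · rw [← hM]; push_cast
        linear_combination (2 * Ms * M ^ 3 * v2 ^ 2 * x ^ 2 - 2 * Ms * M ^ 3 * v2 ^ 2 * p - 4 * M ^ 2 * v2 ^ 2 * x ^ 2 +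
          4 * M ^ 2 * v2 ^ 2 * p) * hsm + (-2 * M ^ 4 * v2 * p - 4 * M ^ 2 * v2 * p) * hv2
    have hprod : S.red ((x : O) + y * (5 * i * t)) * S.red ((x : O) - y * (5 * i * t)) = 0 := by
      have hO : 2 * (p : O) = (x : O) ^ 2 + 5 * (y : O) ^ 2 := by
        exact_mod_cast congrArg (Int.cast : ℤ → O) hxy
      have : ((x : O) + y * (5 * i * t)) * ((x : O) - y * (5 * i * t)) = 2 * S.q := by
        rw [hq, hO]; linear_combination (-25 * t ^ 2 * y ^ 2) * hi + (5 * y ^ 2) * ht
      rw [← map_mul, this, map_mul, S.red_q, mul_zero]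
    rcases mul_eq_zero.mp hprod with h | h
    · exact main y hxy h
    · refine main (-y) (by rw [hxy]; ring) ?_
      rw [← h]; congr 1; push_cast; ring
  · have hz0 : AA p (tq O p wi) = ((0 : ℤ) : QO O p) := by
      rw [Int.cast_zero]
      refine AA_ss S hp5 hq hv u1 u2 u3 ?_ qX
      obtain ⟨c, hcc⟩ : ∃ c, c = r * (3 + i) * (i + t) * v2 * v3 := ⟨_, rfl⟩
      obtain ⟨s4, s6, sm⟩ := e16_scale hi ht hr hv2 hv3 hcc
      rw [← hM] at s4 s6 sm
      have n3 : ¬ (p : ℤ) ∣ -3 := by
        rw [dvd_neg]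
        have := ndvd_of_primes p (n := 3) (l := [3]) (by simp; norm_num) (by norm_num) (by simp; omega)
        exact_mod_cast this
      have hr0 := (sqrt_ne S (p := p) (x := r) (n := -3) (by push_cast; exact hr) n3)
      have smr : S.red M * S.red r = S.red c * S.red (1 - 5 * i * t) := by
        rw [← map_mul, sm, map_mul]
      have hcr : S.red c ≠ 0 := by
        intro h0
        rw [h0, zero_mul] at smr
        exact (mul_ne_zero hMr hr0.2) smr
      have hrr : S.red r ^ 2 = -3 := by rw [← map_pow, hr, map_neg, map_ofNat]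
      have hvr : S.red M * S.red ((3 - i) * t * v2) = 1 := by rw [← map_mul, hv, map_one]
      have e2r : -2 * S.red ((3 - i) * t * v2) = S.red Ms := by
        have := congrArg S.red e2v
        rw [map_mul, map_neg, map_ofNat] at this
        exact this
      have h1 := HR_psi (p := p) hp2 hvr (by intro h0; apply hm1; rw [map_sub, h0, map_one, sub_self])
        (by rw [e2r, ← am_map]; exact hb1)
      rw [e2r] at h1
      have h2 := HR_nu (p := p) hp2 hp3 (A := am (S.red Ms)) hrr
      have h3 := h1.trans h2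
      have eN : (3 - i) * t = -Ms := by rw [hMs]; ring
      rw [eN] at s4 s6
      rw [← am_neg, ← map_neg] at h3
      have h4 := HR_scale (p := p) (A := am (S.red (-Ms))) (A' := am (S.red M)) (c := S.red c) (v := (S.red c)⁻¹) hp2
        (by rw [← am_map]; exact hb2) (by rw [← am_map]; exact ha1) (mul_inv_cancel₀ hcr)
        (by
          have := congrArg S.red s4
          rw [map_mul, map_pow, ca_map, ca_map, am_map, am_map] at this
          exact this.symm)
        (by
          have := congrArg S.red s6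
          rw [map_mul, map_pow, cb_map, cb_map, am_map, am_map] at this
          exact this.symm)
      have h5 := h3.trans h4
      rw [am_map]
      refine h5.zero ?_
      have em : S.red M * S.red r * (S.red c)⁻¹ = S.red (1 - 5 * i * t) := by
        rw [smr]; field_simp
      rw [em, e16_delta S (p := p) (by omega) hi ht, map_sub, map_one]
      have hd : S.red (5 * i * t) ≠ 0 := by
        refine sred_ne S (p := p) (y := 5 * i * t) (n := -5) ?_ ?_
        · push_cast; linear_combination (25 * t ^ 2) * hi - 5 * ht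
        · rw [dvd_neg]
          have := ndvd_of_primes p (n := 5) (l := [5]) (by simp; norm_num) (by norm_num) (by simp; omega)
          exact_mod_cast this
      have hne2 := mul_ne_zero r2' hd
      intro h0
      apply hne2
      rw [legm1 p hp2, leg5 (p := p) (by omega)] at h0
      rcases hc with h | h | h | h
      · rw [if_neg (by omega), if_pos (by omega)] at h0; push_cast at h0; linear_combination h0
      · rw [if_pos (by omega), if_neg (by omega)] at h0; push_cast at h0; linear_combination h0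
      · rw [if_pos (by omega), if_neg (by omega)] at h0; push_cast at h0; linear_combination h0
      · rw [if_neg (by omega), if_pos (by omega)] at h0; push_cast at h0; linear_combination h0
    rw [to_R S (p := p) hz0, Int.cast_zero]

end e16

variable (p : ℕ) [hp : Fact p.Prime]

theorem e16_main (hp11 : 11 ≤ p) {wi : R p} (hwi : ((16 : ℤ) : R p) * wi = 1) :
    (∀ x y : ℤ, (p % 20 = 1 ∨ p % 20 = 9) → (p : ℤ) = x ^ 2 + 5 * y ^ 2 →
      AA p wi = ((4 * x ^ 2 - 2 * p : ℤ) : R p)) ∧
    (∀ x y : ℤ, (p % 20 = 3 ∨ p % 20 = 7) → 2 * (p : ℤ) = x ^ 2 + 5 * y ^ 2 →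
      AA p wi = ((2 * x ^ 2 - 2 * p : ℤ) : R p)) ∧
    ((p % 20 = 11 ∨ p % 20 = 13 ∨ p % 20 = 17 ∨ p % 20 = 19) → AA p wi = 0) := by
  have n1 : ¬ (p : ℤ) ∣ -1 := by
    rw [dvd_neg]; exact ndvd1' p
  have n5 : ¬ (p : ℤ) ∣ 5 := by
    have := ndvd_of_primes p (n := 5) (l := [5]) (by simp; norm_num) (by norm_num) (by simp; omega)
    exact_mod_cast this
  have n3 : ¬ (p : ℤ) ∣ -3 := by
    rw [dvd_neg]
    have := ndvd_of_primes p (n := 3) (l := [3]) (by simp; norm_num) (by norm_num) (by simp; omega)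
    exact_mod_cast this
  obtain ⟨i, hi⟩ := wo_isqrt p (by omega) n1
  obtain ⟨s, hs⟩ := wo_isqrt p (by omega) n5
  obtain ⟨r, hr⟩ := wo_isqrt p (by omega) n3
  push_cast at hi hs hr
  have h50 : (SW p).red (5 : WO p) ≠ 0 := by
    refine sred_ne (SW p) (p := p) (y := 1) (n := 5) (by push_cast; ring) n5
  obtain ⟨v5, hv5⟩ := ((SW p).unit_of_red h50).exists_right_inv
  exact e16_gen (SW p) (SW_q p) hp11 hi (t := s * v5) (by linear_combination (5 * v5 ^ 2) * hs + (5 * v5 + 1) * hv5) hr hwi

end Pool.Agent.H547
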