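import Pool.Agent.H547.Rel

set_option autoImplicit false
set_option linter.unusedSectionVars false

/-!
The expansion of `f(cp) = ∑_{j<p} b(cp,j) z_j` modulo `p^4`.
-/

namespace Pool.Agent.H547

open Finset Pool.Agent.R439.PL

/-- `∏_{i ≤ j} (1 - N²/i²)` -/
def Q2 (N : ℚ) (j : ℕ) : ℚ := ∏ i ∈ range j, (1 - N ^ 2 / ((i : ℚ) + 1) ^ 2)

theorem b_form (N : ℚ) (j : ℕ) : b N (j + 1) =
    N / ((j : ℚ) + 1) * (1 - N / ((j : ℚ) + 1)) * Q2 N j := by
  induction j with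
  | zero =>
    rw [b_succ, b_zero]
    simp [Q2]
    ring
  | succ j ih =>
    rw [b_succ, ih, Q2, Q2, prod_range_succ]
    have h0 : (j : ℚ) + 1 ≠ 0 := by positivity
    have h1 : ((j + 1 : ℕ) : ℚ) + 1 ≠ 0 := by positivity
    push_cast at h1 ⊢
    field_simp
    ring

variable {p : ℕ} [hp : Fact p.Prime]

theorem Q2_mod {c : ℚ} (hc : c ∈ Zp p) (j : ℕ) (hj : j < p) :
    I p 4 (Q2 (c * p) j - (1 - (c * p) ^ 2 * H j 2)) := by
  induction j with
  | zero => rw [H_zero]; exact icg I.zero (by simp [Q2])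
  | succ j ih =>
    have ih := ih (by omega)
    have hu := uSucc (p := p) (Nat.lt_succ_self j) hj
    have hq : 1 - (c * p) ^ 2 / ((j : ℚ) + 1) ^ 2 ∈ Zp p :=
      sub_mem (one_mem _) (dmem (pow_mem (mul_mem hc p_mem) 2) (hu.pow 2))
    have k : I p 4 (p ^ 4 * (c ^ 4 * H j 2 / ((j : ℚ) + 1) ^ 2)) :=
      I_of_mem 4 (dmem (mul_mem (pow_mem hc 4) (H_mem (by omega) 2)) (hu.pow 2)) rfl
    have e : Q2 (c * p) (j + 1) = Q2 (c * p) j * (1 - (c * p) ^ 2 / ((j : ℚ) + 1) ^ 2) := by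
      rw [Q2, prod_range_succ]; rfl
    rw [e, H_succ]
    refine icg ((ih.mulR hq).add k) ?_
    have := hu.1
    field_simp
    ring

theorem b_mod {c : ℚ} (hc : c ∈ Zp p) (j : ℕ) (hj : j + 1 < p) :
    I p 4 (b (c * p) (j + 1) - (c * p / ((j : ℚ) + 1) - (c * p) ^ 2 / ((j : ℚ) + 1) ^ 2 -
      (c * p) ^ 3 * (H j 2 / ((j : ℚ) + 1)))) := by
  have hu := uSucc (p := p) (Nat.lt_succ_self j) hj
  rw [b_form]
  have hq : c * p / ((j : ℚ) + 1) * (1 - c * p / ((j : ℚ) + 1)) ∈ Zp p :=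
    mul_mem (dmem (mul_mem hc p_mem) hu) (sub_mem (one_mem _) (dmem (mul_mem hc p_mem) hu))
  have k : I p 4 (p ^ 4 * (c ^ 4 * H j 2 / ((j : ℚ) + 1) ^ 2)) :=
    I_of_mem 4 (dmem (mul_mem (pow_mem hc 4) (H_mem (by omega) 2)) (hu.pow 2)) rfl
  refine icg (((Q2_mod hc j (by omega)).mulR hq).add k) ?_
  have := hu.1
  field_simp
  ring

/-- `∑_{j<p} b(N,j) z_j` -/
def f (p : ℕ) (N : ℚ) : ℚ := ∑ j ∈ range p, b N j * z j

/-- linear coefficient -/
def A1 (y : ℕ) : ℚ := ∑ j ∈ range (2 * y), z (j + 1) / ((j : ℚ) + 1)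

/-- quadratic coefficient -/
def B2 (y : ℕ) : ℚ := ∑ j ∈ range (2 * y), z (j + 1) / ((j : ℚ) + 1) ^ 2

section rel

variable {y : ℕ} (hy : p = 2 * y + 1)
include hy

omit hp in
theorem f_split (N : ℚ) : f p N = 1 + ∑ j ∈ range (2 * y), b N (j + 1) * z (j + 1) := by
  unfold f
  have e : range p = range (2 * y + 1) := by rw [hy]
  rw [e, sum_range_succ', b_zero, z_zero]
  ring

theorem f_mod (h3 : 3 < p) {c : ℚ} (hc : c ∈ Zp p) :
    I p 4 (f p (c * p) - (1 + c * p * A1 y - (c * p) ^ 2 * B2 y - (c * p) ^ 3 * A3 y)) := by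
  rw [f_split hy]
  have h : I p 4 (∑ j ∈ range (2 * y), b (c * p) (j + 1) * z (j + 1) -
      (c * p * A1 y - (c * p) ^ 2 * B2 y - (c * p) ^ 3 * A3 y)) := by
    refine Isum_sub (g := fun j => (c * p / ((j : ℚ) + 1) - (c * p) ^ 2 / ((j : ℚ) + 1) ^ 2 -
      (c * p) ^ 3 * (H j 2 / ((j : ℚ) + 1))) * z (j + 1)) (fun j hj => ?_) rfl ?_
    · have hj' := mem_range.1 hj
      have k := (b_mod hc j (by omega)).mulR (z_mod hy h3 (j + 1) (by omega)).1
      exact icg k (by ring)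
    · unfold A1 B2 A3
      rw [mul_sum, mul_sum, mul_sum, ← sum_sub_distrib, ← sum_sub_distrib]
      exact sum_congr rfl fun j _ => by ring
  exact icg h (by ring)

theorem f_key (h3 : 3 < p) :
    I p 4 (f p (2 * p) - (3 * f p p + f p (-p) - 3 - 6 * p ^ 3 * A3 y)) := by
  have h2 := f_mod hy h3 (c := 2) (nm 2)
  have h1 := f_mod hy h3 (c := 1) (one_mem _)
  have hm := f_mod hy h3 (c := -1) (neg_mem (one_mem _))
  rw [one_mul] at h1
  rw [neg_one_mul] at hm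
  exact icg ((h2.sub (h1.mulL (x := 3) (nm 3))).sub hm) (by ring)

omit hp in
theorem f_p : f p p = z y ^ 2 := by
  have h := u_even y
  unfold u at h
  have e : (((2 * y : ℕ) : ℚ) + 1) = p := by rw [hy]; push_cast; ring
  rw [e] at h
  rw [← h, f]
  rw [← hy]

omit hp in
theorem f_negp : f p (-p) = (Nat.centralBinom p : ℚ) * z p := by
  have h := u_odd y
  rw [← hy, u, sum_range_succ, b_nat] at h
  have e1 : (p + p).choose p = Nat.centralBinom p := by
    rw [Nat.centralBinom_eq_two_mul_choose, two_mul]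
  have e2 : (-1 : ℚ) ^ p = -1 := by
    rw [hy, pow_succ, pow_mul]; norm_num
  rw [Nat.choose_self, e1, e2] at h
  have e3 : f p (-p) = ∑ j ∈ range p, b ((p : ℚ) + 1) j * z j := by
    unfold f
    refine sum_congr rfl fun j _ => ?_
    rw [← b_symm (-p) j]
    congr 2
    ring
  rw [e3]
  push_cast at h
  linear_combination h

end rel

end Pool.Agent.H547
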