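import Pool.Agent.H547.Harm

set_option autoImplicit false
set_option linter.unusedSectionVars false

/-!
Exact identities for alternating binomial sums.
-/

namespace Pool.Agent.H547

open Finset

/-- alternating binomial transform -/
def S (f : ℕ → ℚ) (n : ℕ) : ℚ := ∑ m ∈ range n, (-1) ^ (m + 1) * (n.choose (m + 1) : ℚ) * f m

theorem choose_absorb (n m : ℕ) : ((n : ℚ) + 1) * (n.choose m : ℚ) =
    ((n + 1).choose (m + 1) : ℚ) * ((m : ℚ) + 1) := by
  have := Nat.add_one_mul_choose_eq n m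
  exact_mod_cast this

theorem S_step0 (f : ℕ → ℚ) (n : ℕ) : S f (n + 1) = S f n +
    ∑ m ∈ range (n + 1), (-1) ^ (m + 1) * (n.choose m : ℚ) * f m := by
  have h1 : S f n = ∑ m ∈ range (n + 1), (-1) ^ (m + 1) * (n.choose (m + 1) : ℚ) * f m := by
    rw [sum_range_succ, Nat.choose_succ_self]
    simp [S]
  rw [h1, ← sum_add_distrib, S]
  refine sum_congr rfl fun m _ => ?_
  rw [Nat.choose_succ_succ]
  push_cast
  ring

theorem S_step (f : ℕ → ℚ) (n : ℕ) : S f (n + 1) = S f n +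
    1 / ((n : ℚ) + 1) * S (fun m => ((m : ℚ) + 1) * f m) (n + 1) := by
  rw [S_step0]
  congr 1
  rw [S, mul_sum]
  refine sum_congr rfl fun m _ => ?_
  have h := choose_absorb n m
  have h0 : (n : ℚ) + 1 ≠ 0 := by positivity
  field_simp
  linear_combination (f m) * h

theorem S_one (n : ℕ) : S (fun _ => 1) (n + 1) = -1 := by
  have h := Int.alternating_sum_range_choose (n := n + 1)
  rw [if_neg (by omega), sum_range_succ'] at h
  have h2 : (∑ m ∈ range (n + 1), (-1 : ℚ) ^ (m + 1) * ((n + 1).choose (m + 1) : ℚ)) + 1 = 0 := by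
    have := congrArg (Int.cast : ℤ → ℚ) h
    push_cast at this
    simpa using this
  rw [S]
  simp only [mul_one]
  linarith

theorem S_congr {f g : ℕ → ℚ} (h : ∀ m, f m = g m) (n : ℕ) : S f n = S g n := by
  unfold S; exact sum_congr rfl fun m _ => by rw [h m]

theorem S_f1 (n : ℕ) : S (fun m => 1 / ((m : ℚ) + 1)) n = - H n 1 := by
  induction n with
  | zero => simp [S, H]
  | succ n ih =>
    rw [S_step, ih, S_congr (g := fun _ => 1) (fun m => by
      have : (m : ℚ) + 1 ≠ 0 := by positivity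
      field_simp), S_one, H_succ]
    ring

theorem S_f2 (n : ℕ) : S (fun m => 1 / ((m : ℚ) + 1) ^ 2) n = - ((H n 1) ^ 2 + H n 2) / 2 := by
  induction n with
  | zero => simp [S, H]
  | succ n ih =>
    rw [S_step, ih, S_congr (g := fun m => 1 / ((m : ℚ) + 1)) (fun m => by
      have : (m : ℚ) + 1 ≠ 0 := by positivity
      field_simp), S_f1, H_succ, H_succ]
    have : (n : ℚ) + 1 ≠ 0 := by positivity
    field_simp
    ring

theorem g_sum (n : ℕ) : ∑ m ∈ range (n + 1 + 1), (-1) ^ m * ((n + 1).choose m : ℚ) * H m 2 =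
    - H (n + 1) 1 / ((n : ℚ) + 1) := by
  have h1 : ∑ m ∈ range (n + 1 + 1), (-1) ^ m * ((n + 1).choose m : ℚ) * H m 2 =
      ∑ m ∈ range (n + 1), (-1) ^ (m + 1) * (n.choose m : ℚ) * (1 / ((m : ℚ) + 1) ^ 2) := by
    rw [sum_range_succ']
    simp only [Nat.choose_zero_right, H_zero, mul_zero, add_zero]
    have h2 : ∑ m ∈ range (n + 1), (-1) ^ (m + 1) * ((n + 1).choose (m + 1) : ℚ) * H (m + 1) 2 =
        ∑ m ∈ range (n + 1), (-1) ^ (m + 1) * (n.choose m : ℚ) * H (m + 1) 2 +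
        ∑ m ∈ range (n + 1), (-1) ^ (m + 1) * (n.choose (m + 1) : ℚ) * H (m + 1) 2 := by
      rw [← sum_add_distrib]
      refine sum_congr rfl fun m _ => ?_
      rw [Nat.choose_succ_succ]
      push_cast
      ring
    have h3 : ∑ m ∈ range (n + 1), (-1) ^ (m + 1) * (n.choose (m + 1) : ℚ) * H (m + 1) 2 =
        ∑ m ∈ range (n + 1), (-1) ^ m * (n.choose m : ℚ) * H m 2 := by
      rw [sum_range_succ, Nat.choose_succ_self, sum_range_succ' (fun m => (-1) ^ m *
        (n.choose m : ℚ) * H m 2)]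
      simp [H_zero]
    rw [h2, h3, ← sum_add_distrib]
    refine sum_congr rfl fun m _ => ?_
    rw [H_succ]
    ring
  rw [h1]
  have h4 := S_f1 (n + 1)
  have h5 : ∑ m ∈ range (n + 1), (-1) ^ (m + 1) * (n.choose m : ℚ) * (1 / ((m : ℚ) + 1) ^ 2) =
      1 / ((n : ℚ) + 1) * S (fun m => 1 / ((m : ℚ) + 1)) (n + 1) := by
    rw [S, mul_sum]
    refine sum_congr rfl fun m _ => ?_
    have h := choose_absorb n m
    have h0 : (n : ℚ) + 1 ≠ 0 := by positivity
    have h0' : (m : ℚ) + 1 ≠ 0 := by positivity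
    field_simp
    linear_combination h
  rw [h5, h4]
  ring

theorem S_U (n : ℕ) : S (fun m => H m 2) (n + 1) = ((H n 1) ^ 2 + H n 2) / 2 := by
  induction n with
  | zero => simp [S, H]
  | succ n ih =>
    rw [S_step0, ih]
    have h := g_sum n
    have h2 : ∑ m ∈ range (n + 1 + 1), (-1) ^ (m + 1) * ((n + 1).choose m : ℚ) * H m 2 =
        - ∑ m ∈ range (n + 1 + 1), (-1) ^ m * ((n + 1).choose m : ℚ) * H m 2 := by
      rw [← sum_neg_distrib]
      refine sum_congr rfl fun m _ => ?_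
      ring
    rw [h2, h, H_succ, H_succ]
    have : (n : ℚ) + 1 ≠ 0 := by positivity
    field_simp
    ring

/-- `∑_{m ≤ n} H_{m-1}^{(2)}/m` -/
def Z21 (n : ℕ) : ℚ := ∑ m ∈ range n, H m 2 / ((m : ℚ) + 1)

/-- `∑_{m ≤ n} H_{m-1}/m²` -/
def Z12 (n : ℕ) : ℚ := ∑ m ∈ range n, H m 1 / ((m : ℚ) + 1) ^ 2

theorem S_T (n : ℕ) : S (fun m => H m 2 / ((m : ℚ) + 1)) n =
    ((H n 1) ^ 3 - 3 * H n 1 * H n 2 + 2 * H n 3) / 6 + Z21 n := by
  induction n with
  | zero => simp [S, H, Z21]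
  | succ n ih =>
    rw [S_step, ih, S_congr (g := fun m => H m 2) (fun m => by
      have : (m : ℚ) + 1 ≠ 0 := by positivity
      field_simp), S_U, H_succ, H_succ, H_succ, Z21, Z21, sum_range_succ]
    have : (n : ℚ) + 1 ≠ 0 := by positivity
    field_simp
    ring

theorem Z_add (n : ℕ) : Z21 n + Z12 n = H n 1 * H n 2 - H n 3 := by
  induction n with
  | zero => simp [H, Z21, Z12]
  | succ n ih =>
    rw [Z21, Z12, sum_range_succ, sum_range_succ, H_succ, H_succ, H_succ]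
    rw [Z21, Z12] at ih
    have : (n : ℚ) + 1 ≠ 0 := by positivity
    have e : ∑ m ∈ range n, H m 2 / ((m : ℚ) + 1) =
      H n 1 * H n 2 - H n 3 - ∑ m ∈ range n, H m 1 / ((m : ℚ) + 1) ^ 2 := by linarith
    rw [e]
    field_simp
    ring

/-- `∑_{m ≤ n} (-1)^m/m²` -/
def A2 (n : ℕ) : ℚ := ∑ m ∈ range n, (-1) ^ (m + 1) / ((m : ℚ) + 1) ^ 2

/-- `∑_{x ≤ n} (-1)^x/(x² C(n,x))` -/
def R (n : ℕ) : ℚ := ∑ x ∈ range n, (-1) ^ (x + 1) / (((x : ℚ) + 1) ^ 2 * (n.choose (x + 1) : ℚ))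

theorem choose_ne {n x : ℕ} (h : x ≤ n) : (n.choose x : ℚ) ≠ 0 := by
  exact_mod_cast (Nat.choose_pos h).ne'

theorem choose_right {n x : ℕ} (h : x ≤ n) : (n.choose (x + 1) : ℚ) * ((x : ℚ) + 1) =
    (n.choose x : ℚ) * ((n : ℚ) - x) := by
  have := Nat.choose_succ_right_eq n x
  have e : ((n - x : ℕ) : ℚ) = (n : ℚ) - x := by rw [Nat.cast_sub h]
  rw [← e]
  exact_mod_cast this

theorem R_tele (n : ℕ) : ∑ x ∈ range n, (-1) ^ (x + 1) / (((x : ℚ) + 1) * (n.choose (x + 1) : ℚ)) =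
    ((-1) ^ n - 1) / ((n : ℚ) + 1) := by
  have h1 : ∀ x ∈ range n, (-1 : ℚ) ^ (x + 1) / (((x : ℚ) + 1) * (n.choose (x + 1) : ℚ)) =
      1 / ((n : ℚ) + 1) * ((-1) ^ (x + 1) / (n.choose (x + 1) : ℚ) - (-1) ^ x / (n.choose x : ℚ)) := by
    intro x hx
    have hx' := mem_range.1 hx
    have c1 := choose_ne (n := n) (x := x) hx'.le
    have c2 := choose_ne (n := n) (x := x + 1) hx'
    have h := choose_right (n := n) (x := x) hx'.le
    have h0 : (n : ℚ) + 1 ≠ 0 := by positivity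
    have h0' : (x : ℚ) + 1 ≠ 0 := by positivity
    field_simp
    rw [pow_succ]
    linear_combination ((-1) ^ x) * h
  rw [sum_congr rfl h1, ← mul_sum, sum_range_sub (fun x => (-1 : ℚ) ^ x / (n.choose x : ℚ))]
  simp
  ring

theorem R_eq (n : ℕ) : R n = H n 2 + 2 * A2 n := by
  induction n with
  | zero => simp [R, H, A2]
  | succ n ih =>
    have h1 : R (n + 1) = R n - 1 / ((n : ℚ) + 1) *
        ∑ x ∈ range n, (-1) ^ (x + 1) / (((x : ℚ) + 1) * (n.choose (x + 1) : ℚ)) +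
        (-1) ^ (n + 1) / ((n : ℚ) + 1) ^ 2 := by
      rw [R, sum_range_succ, Nat.choose_self, Nat.cast_one, mul_one, R, mul_sum, ← sum_sub_distrib]
      congr 1
      refine sum_congr rfl fun x hx => ?_
      have hx' := mem_range.1 hx
      have c2 := choose_ne (n := n) (x := x + 1) hx'
      have c3 := choose_ne (n := n + 1) (x := x + 1) (by omega)
      have h := Nat.choose_mul_succ_eq n (x + 1)
      have e : ((n + 1 - (x + 1) : ℕ) : ℚ) = (n : ℚ) - x := by
        rw [Nat.cast_sub (by omega)]; push_cast; ring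
      have h' : (n.choose (x + 1) : ℚ) * ((n : ℚ) + 1) = ((n + 1).choose (x + 1) : ℚ) * ((n : ℚ) - x) := by
        rw [← e]; exact_mod_cast h
      have h0 : (n : ℚ) + 1 ≠ 0 := by positivity
      have h0' : (x : ℚ) + 1 ≠ 0 := by positivity
      field_simp
      linear_combination h'
    rw [h1, ih, R_tele, H_succ, A2, A2, sum_range_succ, pow_succ]
    have h0 : (n : ℚ) + 1 ≠ 0 := by positivity
    field_simp
    ring

end Pool.Agent.H547
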