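import Pool.Agent.H547.Q48

set_option autoImplicit false
set_option linter.unusedSectionVars false

/-!
The two supercongruences modulo `p^8` for `p > 5`.
-/

namespace Pool.Agent.H547

open Finset Pool.Agent.R439.PL
open Pool.Agent.R440.D518 (T t)
open Pool.Agent.R440.D518.Gou renaming U → UU
open scoped Nat

variable {p : ℕ} [hp : Fact p.Prime]

section rel

variable {y : ℕ} (hy : p = 2 * y + 1)
include hy

theorem H3_II (h5 : 5 < p) : I p 2 (H (2 * y) 3) := by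
  have h3 : 3 < p := by omega
  have h := (relC3 hy).sub (((I_p (p := p)).mul (H4e hy h5)).mulL (x := 3) (nm 3))
  exact icg (h.mulL (x := 1 / 2) (m23 h3 1 1 0 (by norm_num))) (by ring)

theorem O3_II (h5 : 5 < p) : I p 2 (∑ k ∈ range y, 1 / (2 * (k : ℚ) + 1) ^ 3 + 1 / 8 * H y 3) := by
  rw [odd_sum hy]
  exact icg (H3_II hy h5) (by ring)

theorem O4_I (h5 : 5 < p) : I p 1 (∑ k ∈ range y, 1 / (2 * (k : ℚ) + 1) ^ 4) := by
  have h3 : 3 < p := by omega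
  rw [odd_sum hy]
  exact icg ((H4e hy h5).sub ((h4e hy h5).mulL (x := 1 / 16) (m23 h3 1 4 0 (by norm_num)))) (by ring)

theorem c_L2 (h3 : 3 < p) : L2 p ((Nat.centralBinom p : ℚ) / 2) 0 := by
  have h := c_LE hy h3
  have e : (-(p ^ 2 * H (2 * y) 2) - 1 / 2 * p ^ 4 * H (2 * y) 4 : ℚ) =
      p * (-(p * H (2 * y) 2) - 1 / 2 * p ^ 3 * H (2 * y) 4) := by ring
  rw [e] at h
  have m : (-H (2 * y) 2 - 1 / 2 * p ^ 2 * H (2 * y) 4 : ℚ) ∈ Zp p :=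
    sub_mem (neg_mem (H_mem (by omega) 2)) (mul_mem (mul_mem (m23 h3 1 1 0 (by norm_num))
      (pow_mem p_mem 2)) (H_mem (by omega) 4))
  have k := (I_p (p := p)).mulR m
  have k2 : I p 1 (-(p * H (2 * y) 2) - 1 / 2 * p ^ 3 * H (2 * y) 4 : ℚ) := icg k (by ring)
  exact (L2.of_LE h3 h k2.mem).congr (icg k2 (by ring))

theorem mu_L2 (h3 : 3 < p) : L2 p ((Nat.centralBinom y : ℚ) ^ 2 / ((4 : ℚ) ^ (p - 1)) ^ 2) 0 := by
  have h := mu_LE hy h3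
  have e : (1 / 2 * p ^ 2 * H y 2 + 1 / 2 * p ^ 3 * H y 3 + 7 / 16 * p ^ 4 * H y 4 : ℚ) =
      p * (p * (1 / 2 * H y 2 + 1 / 2 * p * H y 3 + 7 / 16 * p ^ 2 * H y 4)) := by ring
  rw [e] at h
  have m : (1 / 2 * H y 2 + 1 / 2 * p * H y 3 + 7 / 16 * p ^ 2 * H y 4 : ℚ) ∈ Zp p :=
    add_mem (add_mem (mul_mem (m23 h3 1 1 0 (by norm_num)) (H_mem (by omega) 2))
      (mul_mem (mul_mem (m23 h3 1 1 0 (by norm_num)) p_mem) (H_mem (by omega) 3)))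
      (mul_mem (mul_mem (m23 h3 7 4 0 (by norm_num)) (pow_mem p_mem 2)) (H_mem (by omega) 4))
  have k := (I_p (p := p)).mulR m
  exact (L2.of_LE h3 h k.mem).congr (icg k (by ring))

theorem X_L2 (h3 : 3 < p) : L2 p ((4 : ℚ) ^ (p - 1)) (-H y 1) := by
  refine ⟨neg_mem (H_mem (by omega) 1), icg (X_I hy h3) (by ring)⟩

theorem Bq_L2 (h3 : 3 < p) {k : ℕ} (hk : k < y) : L2 p (Bq p k)
    (2 * H (2 * k) 1 - 2 * H k 1 + 1 / (2 * (k : ℚ) + 1)) := by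
  have m1 : (-1 : ℚ) ∈ Zp p := neg_mem (one_mem _)
  have h := (((L2.of_Pr (p := p) (nm 2) (n := 2 * k) (by omega)).mul
    (L2.of_Pr (p := p) m1 (n := k) (by omega))).mul
    (L2.of_Pr (p := p) m1 (n := 2 * k) (by omega))).div
    (((L2.of_Pr (p := p) (neg_mem (nm 2)) (n := 2 * k + 1) (by omega)).mul
    (L2.of_Pr (p := p) (one_mem _) (n := k) (by omega))).mul
    (L2.of_Pr (p := p) (one_mem _) (n := 2 * k + 1) (by omega)))
  refine (congrArg (L2 p _) ?_).mp h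
  rw [H_succ]
  push_cast
  ring

theorem Dq_L2 (h3 : 3 < p) {k : ℕ} (hk : k < y) : L2 p (Dq p y k)
    (H (2 * k) 1 - H (y - k - 1) 1 + 1 / 2 * (1 / (2 * (k : ℚ) + 1))) := by
  have m1 : (-1 : ℚ) ∈ Zp p := neg_mem (one_mem _)
  have h := ((L2.of_Pr (p := p) (m23 h3 1 1 0 (by norm_num) : (1 / 2 : ℚ) ∈ Zp p)
      (n := 2 * k) (by omega)).mul
    (L2.of_Pr (p := p) m1 (n := y - k - 1) (by omega))).div
    (L2.of_Pr (p := p) (m23 h3 (-1) 1 0 (by norm_num) : (-1 / 2 : ℚ) ∈ Zp p)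
      (n := 2 * k + 1) (by omega))
  refine (congrArg (L2 p _) ?_).mp h
  rw [H_succ]
  push_cast
  ring

/-- the first correction -/
theorem SI (h5 : 5 < p) : I p 2 (∑ k ∈ range y, 4 * (((Nat.centralBinom p : ℚ) / 2) ^ 4 * Bq p k ^ 2) /
    (2 * (k : ℚ) + 1) ^ 3 - (-(1 / 2) * H y 3 + 2 * p * (H y 1 * H y 3))) := by
  have h3 : 3 < p := by omega
  have h1 : I p 2 (∑ k ∈ range y, 4 * (((Nat.centralBinom p : ℚ) / 2) ^ 4 * Bq p k ^ 2) /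
      (2 * (k : ℚ) + 1) ^ 3 - (4 * ∑ k ∈ range y, 1 / (2 * (k : ℚ) + 1) ^ 3 +
        16 * p * ∑ k ∈ range y, (H (2 * k) 1 - H k 1) / (2 * (k : ℚ) + 1) ^ 3 +
        8 * p * ∑ k ∈ range y, 1 / (2 * (k : ℚ) + 1) ^ 4)) := by
    refine Isum_sub (g := fun k => 4 / (2 * (k : ℚ) + 1) ^ 3 * (1 + p *
      (2 * (2 * H (2 * k) 1 - 2 * H k 1 + 1 / (2 * (k : ℚ) + 1))))) (fun k hk => ?_) rfl ?_
    · have hk' := mem_range.1 hk
      have hu : U p (2 * (k : ℚ) + 1) := by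
        have := uNat (p := p) (k := 2 * k + 1) (by omega) (by omega)
        push_cast at this
        exact this
      have h := (((c_L2 hy h3).pow 4).mul ((Bq_L2 hy h3 hk').pow 2)).2
      have h' := h.mulL (x := 4 / (2 * (k : ℚ) + 1) ^ 3) (dmem (nm 4) (hu.pow 3))
      exact icg h' (by push_cast; ring)
    · rw [mul_sum, mul_sum, mul_sum, ← sum_add_distrib, ← sum_add_distrib]
      refine sum_congr rfl fun k _ => ?_
      have : 2 * (k : ℚ) + 1 ≠ 0 := by positivity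
      field_simp
      ring
  have k1 := (O3_II hy h5).mulL (x := 4) (nm 4)
  have k2 := ((I_p (p := p)).mul (WI hy h5)).mulL (x := 16) (nm 16)
  have k3 := ((I_p (p := p)).mul (O4_I hy h5)).mulL (x := 8) (nm 8)
  exact icg (((h1.add k1).add k2).add k3) (by ring)

/-- the second correction -/
theorem SII (h5 : 5 < p) : I p 2 (∑ k ∈ range y,
    ((Nat.centralBinom y : ℚ) ^ 2 / ((4 : ℚ) ^ (p - 1)) ^ 2 * Dq p y k ^ 2) /
      ((2 * (k : ℚ) + 1) * ((p : ℚ) - (2 * (k : ℚ) + 1)) ^ 2) + 1 / 8 * H y 3) := by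
  have h3 : 3 < p := by omega
  have h1 : I p 2 (∑ k ∈ range y,
      ((Nat.centralBinom y : ℚ) ^ 2 / ((4 : ℚ) ^ (p - 1)) ^ 2 * Dq p y k ^ 2) /
      ((2 * (k : ℚ) + 1) * ((p : ℚ) - (2 * (k : ℚ) + 1)) ^ 2) -
      (∑ k ∈ range y, 1 / (2 * (k : ℚ) + 1) ^ 3 +
        2 * p * ∑ k ∈ range y, (H (2 * k) 1 - H (y - k - 1) 1) / (2 * (k : ℚ) + 1) ^ 3 +
        3 * p * ∑ k ∈ range y, 1 / (2 * (k : ℚ) + 1) ^ 4)) := by
    refine Isum_sub (g := fun k => 1 / (2 * (k : ℚ) + 1) ^ 3 + p *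
      (2 * (H (2 * k) 1 - H (y - k - 1) 1 + 1 / 2 * (1 / (2 * (k : ℚ) + 1))) *
        (1 / (2 * (k : ℚ) + 1) ^ 3) + 2 * (1 / (2 * (k : ℚ) + 1) ^ 4))) (fun k hk => ?_) rfl ?_
    · have hk' := mem_range.1 hk
      have hu : U p (2 * (k : ℚ) + 1) := by
        have := uNat (p := p) (k := 2 * k + 1) (by omega) (by omega)
        push_cast at this
        exact this
      have hv := psub hu
      have h := (((mu_L2 hy h3)).mul ((Dq_L2 hy h3 hk').pow 2)).2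
      have e2 := (ex2 hu).mono (by norm_num : 2 ≤ 3)
      obtain ⟨u, eu⟩ : ∃ u : ℚ, u = 2 * (k : ℚ) + 1 := ⟨_, rfl⟩
      rw [← eu] at hu hv h e2 ⊢
      obtain ⟨l, el⟩ : ∃ l : ℚ, l = H (2 * k) 1 - H (y - k - 1) 1 + 1 / 2 * (1 / u) := ⟨_, rfl⟩
      rw [← el] at h ⊢
      have hl : l ∈ Zp p := by
        rw [el]
        exact add_mem (sub_mem (H_mem (by omega) 1) (H_mem (by omega) 1))
          (mul_mem (m23 h3 1 1 0 (by norm_num)) (dmem (one_mem _) hu))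
      have h' := h.mulL (x := 1 / (u * ((p : ℚ) - u) ^ 2)) (dmem (one_mem _) (hu.mul (hv.pow 2)))
      have e3 := e2.mulL (x := 1 / u * (1 + p * (2 * l))) (mul_mem (dmem (one_mem _) hu)
        (add_mem (one_mem _) (mul_mem p_mem (mul_mem (nm 2) hl))))
      have e4 : I p 2 (p ^ 2 * (2 * l * (1 / u) * (2 * (1 / u ^ 3) + 3 * p * (1 / u ^ 4)) +
          3 * (1 / u ^ 5))) :=
        ⟨_, add_mem (mul_mem (mul_mem (mul_mem (nm 2) hl) (dmem (one_mem _) hu))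
          (add_mem (mul_mem (nm 2) (dmem (one_mem _) (hu.pow 3)))
            (mul_mem (mul_mem (nm 3) p_mem) (dmem (one_mem _) (hu.pow 4)))))
          (mul_mem (nm 3) (dmem (one_mem _) (hu.pow 5))), rfl⟩
      refine icg ((h'.add e3).add e4) ?_
      have g1 := hu.1
      have g2 := hv.1
      obtain ⟨v, ev⟩ : ∃ v : ℚ, v = (p : ℚ) - u := ⟨_, rfl⟩
      rw [← ev] at g2 ⊢
      push_cast
      field_simp
      ring
    · rw [mul_sum, mul_sum, ← sum_add_distrib, ← sum_add_distrib]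
      refine sum_congr rfl fun k _ => ?_
      have : 2 * (k : ℚ) + 1 ≠ 0 := by positivity
      field_simp
      ring
  have k2 := ((I_p (p := p)).mul (WII hy h5)).mulL (x := 2) (nm 2)
  have k3 := ((I_p (p := p)).mul (O4_I hy h5)).mulL (x := 3) (nm 3)
  exact icg (((h1.add (O3_II hy h5)).add k2).add k3) (by ring)

/-- the main term of the first sum -/
theorem MI (h5 : 5 < p) : I p 5 (((Nat.centralBinom p : ℚ) / 2) ^ 3 / ((4 : ℚ) ^ (p - 1)) ^ 4 *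
    (p * T y 0) ^ 2 - (1 + 1 / 2 * p ^ 3 * H y 3)) := by
  have h3 : 3 < p := by omega
  have m1 : (-1 : ℚ) ∈ Zp p := neg_mem (one_mem _)
  have h1 := Pr_LE h3 (n := y) (by omega) m1
  have h2 := Pr_LE h3 (n := 2 * y) (by omega) (c := 2) (nm 2)
  have h4 := Pr_LE h3 (n := y) (by omega) (c := 1) (one_mem _)
  have e : (p * T y 0) ^ 2 = (Pr p (-1) y * Pr p 2 (2 * y) / Pr p 1 y) ^ 2 := by
    rw [T_top hy h3, cb_half hy]
    have : ((-1 : ℚ) ^ y) ^ 2 = 1 := by rw [← pow_mul, mul_comm, pow_mul]; norm_num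
    calc ((-1 : ℚ) ^ y * Pr p (-1) y * Pr p 2 (2 * y) / Pr p 1 y) ^ 2 = ((-1 : ℚ) ^ y) ^ 2 *
        (Pr p (-1) y * Pr p 2 (2 * y) / Pr p 1 y) ^ 2 := by ring
      _ = _ := by rw [this, one_mul]
  rw [e]
  have hL := (((c_LE hy h3).pow h3 3).div h3 ((X_LE hy h3).pow h3 4)).mul h3
    (((h1.mul h3 h2).div h3 h4).pow h3 2)
  have r1 := ((I_p (p := p)).mul (relC1 hy)).mulL (x := 2) (nm 2)
  have r3 := ((Ipow (I_p (p := p)) 3).mul (relC3 hy)).mulL (x := 5 / 3) (m23 h3 5 0 1 (by norm_num))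
  have r2 := ((Ipow (I_p (p := p)) 2).mul (h2e hy h3)).mulL (x := 3) (nm 3)
  have r4 := ((Ipow (I_p (p := p)) 2).mul (H2e hy h3)).mulL (x := 9) (nm 9)
  have r5 := ((Ipow (I_p (p := p)) 4).mul (h4e hy h5)).mulL (x := 3)
    (nm 3)
  have r6 := ((Ipow (I_p (p := p)) 4).mul (H4e hy h5)).mulL (x := 33 / 2)
    (m23 h3 33 1 0 (by norm_num))
  have hL2 : LE p (((Nat.centralBinom p : ℚ) / 2) ^ 3 / ((4 : ℚ) ^ (p - 1)) ^ 4 *
      (Pr p (-1) y * Pr p 2 (2 * y) / Pr p 1 y) ^ 2) (1 / 2 * p ^ 3 * H y 3) := by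
    refine hL.congr h3 (icg (((((r1.add r3).add r2).sub r4).add r5).sub r6) ?_)
    push_cast
    ring
  have hl : I p 3 (1 / 2 * p ^ 3 * H y 3 : ℚ) :=
    ⟨1 / 2 * H y 3, mul_mem (m23 h3 1 1 0 (by norm_num)) (H_mem (by omega) 3), by ring⟩
  exact hL2.small h3 hl

/-- the main term of the second sum -/
theorem MII (h5 : 5 < p) : I p 5 ((Pr p (-1) y / (4 : ℚ) ^ (p - 1)) ^ 3 *
    (((Nat.centralBinom y : ℚ) ^ 2 / ((4 : ℚ) ^ (p - 1)) ^ 2) *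
      (Pr p (1 / 2) (2 * y) / Pr p (-1 / 2) (2 * y)) ^ 2) - (1 + 1 / 8 * p ^ 3 * H y 3)) := by
  have h3 : 3 < p := by omega
  have m1 : (-1 : ℚ) ∈ Zp p := neg_mem (one_mem _)
  have h1 := Pr_LE h3 (n := y) (by omega) m1
  have h2 := Pr_LE h3 (n := 2 * y) (by omega) (c := 1 / 2) (m23 h3 1 1 0 (by norm_num))
  have h4 := Pr_LE h3 (n := 2 * y) (by omega) (c := -1 / 2) (m23 h3 (-1) 1 0 (by norm_num))
  have hL := ((h1.div h3 (X_LE hy h3)).pow h3 3).mul h3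
    ((mu_LE hy h3).mul h3 ((h2.div h3 h4).pow h3 2))
  have r1 := ((I_p (p := p)).mul (relC1 hy))
  have r3 := ((Ipow (I_p (p := p)) 3).mul (relC3 hy)).mulL (x := 5 / 12) (m23 h3 5 2 1 (by norm_num))
  have r2 := ((Ipow (I_p (p := p)) 2).mul (h2e hy h3)).mulL (x := 5 / 4) (m23 h3 5 2 0 (by norm_num))
  have r4 := ((Ipow (I_p (p := p)) 2).mul (H2e hy h3))
  have r5 := ((Ipow (I_p (p := p)) 4).mul (h4e hy h5)).mulL (x := 1 / 2)
    (m23 h3 1 1 0 (by norm_num))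
  have r6 := ((Ipow (I_p (p := p)) 4).mul (H4e hy h5)).mulL (x := 1 / 4)
    (m23 h3 1 2 0 (by norm_num))
  have hL2 : LE p ((Pr p (-1) y / (4 : ℚ) ^ (p - 1)) ^ 3 *
    (((Nat.centralBinom y : ℚ) ^ 2 / ((4 : ℚ) ^ (p - 1)) ^ 2) *
      (Pr p (1 / 2) (2 * y) / Pr p (-1 / 2) (2 * y)) ^ 2)) (1 / 8 * p ^ 3 * H y 3) := by
    refine hL.congr h3 (icg (((((r1.sub r3).add r2).sub r4).sub r5).add r6) ?_)
    push_cast
    ring
  have hl : I p 3 (1 / 8 * p ^ 3 * H y 3 : ℚ) :=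
    ⟨1 / 8 * H y 3, mul_mem (m23 h3 1 3 0 (by norm_num)) (H_mem (by omega) 3), by ring⟩
  exact hL2.small h3 hl

/-- the first congruence -/
theorem main48I (h5 : 5 < p) : I p 8 (2 * ∑ j ∈ range p, Pool.Agent.R440.D518.s j - p ^ 3) := by
  have h3 : 3 < p := by omega
  have h := sumI p y hy
  have hM := MI hy h5
  have hS := SI hy h5
  have hX0 : (4 : ℚ) ^ (p - 1) ≠ 0 := by positivity
  have hq := ((((c_L2 hy h3).pow 3).div ((X_L2 hy h3).pow 4)).2)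
  have hqm := (((c_L2 hy h3).pow 3).div ((X_L2 hy h3).pow 4)).mem
  have hh1 : H y 1 ∈ Zp p := H_mem (by omega) 1
  have hh3 : H y 3 ∈ Zp p := H_mem (by omega) 3
  have e0 : (256 : ℚ) ^ (p - 1) = (4 ^ (p - 1)) ^ 4 := by
    rw [← pow_mul, mul_comm (p - 1) 4, pow_mul]; norm_num
  have e1 : ∑ k ∈ range y, t k (2 * y - 2 * k) = p ^ 3 / 16 * ∑ k ∈ range y,
      4 * (((Nat.centralBinom p : ℚ) / 2) ^ 4 * Bq p k ^ 2) / (2 * (k : ℚ) + 1) ^ 3 := by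
    rw [mul_sum]
    refine sum_congr rfl fun k hk => ?_
    have hk' := mem_range.1 hk
    have e : 2 * k + 1 + (2 * y - 2 * k) = p := by omega
    have sk2 : ((-1 : ℚ) ^ k) ^ 2 = 1 := by rw [← pow_mul, mul_comm, pow_mul]; norm_num
    unfold t
    rw [e, T_val hy h3 hk']
    have hk0 : 2 * (k : ℚ) + 1 ≠ 0 := by positivity
    push_cast
    generalize Bq p k = B at *
    generalize (Nat.centralBinom p : ℚ) = C at *
    generalize (2 * (k : ℚ) + 1) = u at *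
    have : (p : ℚ) * u * (-((-1) ^ k * (2 * p * (C / 2) ^ 2 / u ^ 2) * B)) ^ 2 / 16 =
        ((-1 : ℚ) ^ k) ^ 2 * (p * u * (2 * p * (C / 2) ^ 2 / u ^ 2 * B) ^ 2 / 16) := by ring
    rw [this, sk2]
    field_simp
    ring
  have e2 : t y 0 = (p * T y 0) ^ 2 / 16 := by
    unfold t
    have : 2 * y + 1 + 0 = p := by omega
    rw [this]
    ring
  rw [e0, e1, e2] at h
  obtain ⟨X, eX⟩ : ∃ X : ℚ, X = 4 ^ (p - 1) := ⟨_, rfl⟩
  rw [← eX] at h hM hX0 hq hqm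
  obtain ⟨c, ec⟩ : ∃ c : ℚ, c = (Nat.centralBinom p : ℚ) / 2 := ⟨_, rfl⟩
  have ec' : (Nat.centralBinom p : ℚ) = 2 * c := by rw [ec]; ring
  rw [← ec] at h hM hS hq hqm
  rw [ec'] at h
  obtain ⟨W, eW⟩ : ∃ s : ℚ, s = ∑ k ∈ range y, 4 * (c ^ 4 * Bq p k ^ 2) / (2 * (k : ℚ) + 1) ^ 3 :=
    ⟨_, rfl⟩
  rw [← eW] at h hS
  have hSm : W ∈ Zp p := by
    have := add_mem hS.mem (add_mem (mul_mem (neg_mem (m23 h3 1 1 0 (by norm_num) :
      (1 / 2 : ℚ) ∈ Zp p)) hh3) (mul_mem (mul_mem (nm 2) (p_mem (p := p))) (mul_mem hh1 hh3)))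
    rwa [sub_add_cancel] at this
  have e3 : 2 * ∑ j ∈ range p, Pool.Agent.R440.D518.s j =
      p ^ 3 * (c ^ 3 / X ^ 4 * (p * T y 0) ^ 2 + p ^ 3 * (c ^ 3 / X ^ 4 * W)) := by
    have hX4 : X ^ 4 ≠ 0 := pow_ne_zero _ hX0
    have : X ^ 4 * (2 * ∑ j ∈ range p, Pool.Agent.R440.D518.s j) =
      X ^ 4 * (p ^ 3 * (c ^ 3 / X ^ 4 * (p * T y 0) ^ 2 + p ^ 3 * (c ^ 3 / X ^ 4 * W))) := by
      field_simp
      linear_combination 2 * h
    exact mul_left_cancel₀ hX4 this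
  rw [e3]
  obtain ⟨q, eq⟩ : ∃ q : ℚ, q = c ^ 3 / X ^ 4 := ⟨_, rfl⟩
  rw [← eq] at hM hq hqm ⊢
  have k1 := hS.mulL (x := q) hqm
  have k2 := hq.mulR (y := -(1 / 2) * H y 3 + 2 * p * (H y 1 * H y 3)) (add_mem (mul_mem
    (neg_mem (m23 h3 1 1 0 (by norm_num))) hh3) (mul_mem (mul_mem (nm 2) p_mem) (mul_mem hh1 hh3)))
  have k3 : I p 2 (p ^ 2 * (8 * (H y 1) ^ 2 * H y 3)) :=
    ⟨_, mul_mem (mul_mem (nm 8) (pow_mem hh1 2)) hh3, rfl⟩
  have k4 : I p 2 (q * W + 1 / 2 * H y 3) := icg ((k1.add k2).add k3) (by push_cast; ring)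
  have k5 := (Ipow (I_p (p := p)) 3).mul k4
  have k6 := (Ipow (I_p (p := p)) 3).mul (hM.add k5)
  exact icg k6 (by ring)

/-- the second congruence -/
theorem main48II (h5 : 5 < p) : I p 8 (512 * ∑ j ∈ range (y + 1), Pool.Agent.R440.D518.Gou.s j -
    (-1) ^ y * p ^ 3) := by
  have h3 : 3 < p := by omega
  have h := sumII hy
  have hM := MII hy h5
  have hS := SII hy h5
  have hX0 : (4 : ℚ) ^ (p - 1) ≠ 0 := by positivity
  have m1 : (-1 : ℚ) ∈ Zp p := neg_mem (one_mem _)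
  have hρ := ((L2.of_Pr (p := p) m1 (n := y) (by omega)).div (X_L2 hy h3)).pow 3
  have hh3 : H y 3 ∈ Zp p := H_mem (by omega) 3
  have e1 : ∑ k ∈ range y, (p : ℚ) * ((2 * (k : ℚ) + 1) * UU k (y - k) ^ 2) =
      (p : ℚ) ^ 3 * ∑ k ∈ range y,
      ((Nat.centralBinom y : ℚ) ^ 2 / ((4 : ℚ) ^ (p - 1)) ^ 2 * Dq p y k ^ 2) /
      ((2 * (k : ℚ) + 1) * ((p : ℚ) - (2 * (k : ℚ) + 1)) ^ 2) := by
    rw [mul_sum]
    refine sum_congr rfl fun k hk => ?_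
    have hk' := mem_range.1 hk
    rw [U_val hy h3 hk']
    have hu : U p (2 * (k : ℚ) + 1) := by
      have := uNat (p := p) (k := 2 * k + 1) (by omega) (by omega)
      push_cast at this
      exact this
    have hv := psub hu
    have g1 := hu.1
    have g2 := hv.1
    clear h hM hS hρ hu hv
    generalize (2 * (k : ℚ) + 1) = u at *
    generalize (p : ℚ) - u = v at *
    generalize Dq p y k = B at *
    generalize (4 : ℚ) ^ (p - 1) = A at *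
    field_simp
  rw [U_top hy h3, e1] at h
  have e4 : ((Nat.centralBinom y : ℚ) / 4 ^ (p - 1)) ^ 3 =
      (-1) ^ y * (Pr p (-1) y / (4 : ℚ) ^ (p - 1)) ^ 3 := by
    rw [cb_half hy]
    have : ((-1 : ℚ) ^ y) ^ 2 = 1 := by rw [← pow_mul, mul_comm, pow_mul]; norm_num
    calc ((-1 : ℚ) ^ y * Pr p (-1) y / 4 ^ (p - 1)) ^ 3 = ((-1 : ℚ) ^ y) ^ 2 *
        ((-1 : ℚ) ^ y * (Pr p (-1) y / (4 : ℚ) ^ (p - 1)) ^ 3) := by ring
      _ = _ := by rw [this, one_mul]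
  rw [e4] at h
  obtain ⟨μ, eμ⟩ : ∃ μ : ℚ, μ = (Nat.centralBinom y : ℚ) ^ 2 / ((4 : ℚ) ^ (p - 1)) ^ 2 := ⟨_, rfl⟩
  rw [← eμ] at h hM hS
  obtain ⟨ρ, eρ⟩ : ∃ ρ : ℚ, ρ = (Pr p (-1) y / (4 : ℚ) ^ (p - 1)) ^ 3 := ⟨_, rfl⟩
  rw [← eρ] at h hM hρ
  obtain ⟨W, eW⟩ : ∃ s : ℚ, s = ∑ k ∈ range y, (μ * Dq p y k ^ 2) /
      ((2 * (k : ℚ) + 1) * ((p : ℚ) - (2 * (k : ℚ) + 1)) ^ 2) := ⟨_, rfl⟩
  rw [← eW] at h hS
  rw [h]
  have hWm : W ∈ Zp p := by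
    have := sub_mem hS.mem (mul_mem (m23 h3 1 3 0 (by norm_num) : (1 / 8 : ℚ) ∈ Zp p) hh3)
    rwa [add_sub_cancel_right] at this
  have k1 := hρ.2.mulR hWm
  have k2 : I p 2 (ρ * W + 1 / 8 * H y 3) := icg (k1.add hS) (by push_cast; ring)
  have k5 := (Ipow (I_p (p := p)) 3).mul k2
  have k6 := ((Ipow (I_p (p := p)) 3).mul (hM.add k5)).mulL (x := (-1) ^ y) (pow_mem m1 _)
  exact icg k6 (by ring)

end rel

end Pool.Agent.H547
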