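import Pool.Agent.H547.Dbl
import Pool.Graph.R_seed8.R440.D518.G
import Pool.Graph.R_seed8.R440.D518.A

set_option autoImplicit false
set_option linter.unusedSectionVars false

/-!
The terms of the transformed sums for `C(2k,k)^7` at `N = p` and `N = (p+1)/2`.
-/

namespace Pool.Agent.H547

open Finset Pool.Agent.R439.PL
open Pool.Agent.R440 (hg hg_step hg_nat)
open Pool.Agent.R440.D518 (T t)
open scoped Nat

variable {p : ℕ} [hp : Fact p.Prime]

/-- `x ≡ 1 + p l` modulo `p²` -/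
def L2 (p : ℕ) [Fact p.Prime] (x l : ℚ) : Prop := l ∈ Zp p ∧ I p 2 (x - (1 + p * l))

theorem L2.mem {x l : ℚ} (h : L2 p x l) : x ∈ Zp p := by
  have := add_mem h.2.mem (add_mem (one_mem _) (mul_mem p_mem h.1))
  rwa [sub_add_cancel] at this

theorem L2.mul {x y l m : ℚ} (hx : L2 p x l) (hy : L2 p y m) : L2 p (x * y) (l + m) := by
  refine ⟨add_mem hx.1 hy.1, ?_⟩
  have h1 := hx.2.mulR hy.mem
  have h2 := hy.2.mulL (add_mem (one_mem _) (mul_mem (p_mem (p := p)) hx.1))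
  have h3 : I p 2 (p ^ 2 * (l * m)) := Ip2 (mul_mem hx.1 hy.1)
  exact icg ((h1.add h2).add h3) (by ring)
where
  Ip2 {w : ℚ} (hw : w ∈ Zp p) : I p 2 (p ^ 2 * w) := ⟨w, hw, rfl⟩

theorem L2.unit {x l : ℚ} (h : L2 p x l) : U p x := by
  apply U_of_not_I h.mem
  intro hx
  apply not_I_one (p := p)
  exact icg ((hx.sub (h.2.mono (by norm_num : 1 ≤ 2))).sub ((I_p (p := p)).mulR h.1)) (by ring)

theorem L2.inv {x l : ℚ} (h : L2 p x l) : L2 p x⁻¹ (-l) := by
  refine ⟨neg_mem h.1, ?_⟩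
  have hu := h.unit
  have h1 := (h.2.mulR (y := x⁻¹ * (1 - p * l)) (mul_mem hu.2.2 (sub_mem (one_mem _)
    (mul_mem p_mem h.1)))).neg
  have h3 : I p 2 (p ^ 2 * (l ^ 2 * x⁻¹)) := ⟨_, mul_mem (pow_mem h.1 2) hu.2.2, rfl⟩
  have := hu.1
  refine icg (h1.add h3) ?_
  field_simp
  ring

theorem L2.div {x y l m : ℚ} (hx : L2 p x l) (hy : L2 p y m) : L2 p (x / y) (l - m) := by
  rw [div_eq_mul_inv, sub_eq_add_neg]
  exact hx.mul hy.inv

theorem L2.one : L2 p 1 0 := ⟨zero_mem _, icg I.zero (by ring)⟩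

theorem L2.pow {x l : ℚ} (h : L2 p x l) (n : ℕ) : L2 p (x ^ n) (n * l) := by
  induction n with
  | zero => simpa using L2.one
  | succ n ih =>
    rw [pow_succ]
    have := ih.mul h
    have e : (n : ℚ) * l + l = ((n + 1 : ℕ) : ℚ) * l := by push_cast; ring
    rwa [e] at this

theorem L2.of_Pr {c : ℚ} (hc : c ∈ Zp p) {n : ℕ} (hn : n < p) : L2 p (Pr p c n) (c * H n 1) :=
  ⟨mul_mem hc (H_mem hn 1), icg (Pr_mod c hc n hn) (by ring)⟩

theorem L2.congr {x l m : ℚ} (h : L2 p x l) (hl : I p 1 (l - m)) : L2 p x m := by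
  have hm : m ∈ Zp p := by
    have := sub_mem h.1 hl.mem
    rwa [sub_sub_cancel] at this
  exact ⟨hm, icg (h.2.add ((I_p (p := p)).mul hl)) (by ring)⟩

theorem L2.of_LE (h3 : 3 < p) {x l : ℚ} (h : LE p x (p * l)) (hl : l ∈ Zp p) : L2 p x l := by
  have k2 : (1 / 2 : ℚ) ∈ Zp p := m23 h3 1 1 0 (by norm_num)
  have k6 : (1 / 6 : ℚ) ∈ Zp p := m23 h3 1 1 1 (by norm_num)
  have k24 : (1 / 24 : ℚ) ∈ Zp p := m23 h3 1 3 1 (by norm_num)
  have a := h.1.mem
  have q : (1 / 2 + p * l * (1 / 6) + (p * l) ^ 2 * (1 / 24) : ℚ) ∈ Zp p :=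
    add_mem (add_mem k2 (mul_mem a k6)) (mul_mem (pow_mem a 2) k24)
  have h6 : I p 2 (p * l * (p * l)) := h.1.mul h.1
  refine ⟨hl, icg ((h.2.mono (by norm_num : 2 ≤ 5)).add (h6.mulR q)) ?_⟩
  unfold e4
  ring

omit hp in
theorem Pr_two (c : ℚ) (n : ℕ) : Pr (2 * p) c n = Pr p (2 * c) n := by
  unfold Pr
  refine prod_congr rfl fun i _ => ?_
  push_cast
  ring

omit hp in
theorem fac_a (n : ℕ) : ((p + n)! : ℚ) = (p ! : ℚ) * (n ! : ℚ) * Pr p 1 n := by
  rw [← choose_add]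
  have := Nat.add_choose_mul_factorial_mul_factorial p n
  have h : ((p + n)! : ℚ) = ((p + n).choose n : ℚ) * (p ! : ℚ) * (n ! : ℚ) := by
    exact_mod_cast this.symm
  rw [h]
  ring

omit hp in
theorem fac_b (n : ℕ) : ((2 * p + n)! : ℚ) = ((2 * p)! : ℚ) * (n ! : ℚ) * Pr p 2 n := by
  rw [fac_a, Pr_two, mul_one]

omit hp in
theorem fac_c (h0 : 0 < p) {n : ℕ} (hn : n < p) :
    ((p - 1)! : ℚ) = ((p - 1 - n)! : ℚ) * (n ! : ℚ) * ((-1) ^ n * Pr p (-1) n) := by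
  rw [← choose_pred h0 n hn]
  have := Nat.choose_mul_factorial_mul_factorial (n := p - 1) (k := n) (by omega)
  have h : ((p - 1)! : ℚ) = ((p - 1).choose n : ℚ) * (n ! : ℚ) * ((p - 1 - n)! : ℚ) := by
    exact_mod_cast this.symm
  rw [h]
  ring

omit hp in
theorem fac_d (h0 : 0 < p) {n : ℕ} (hn : n < 2 * p) :
    ((2 * p - 1)! : ℚ) = ((2 * p - 1 - n)! : ℚ) * (n ! : ℚ) * ((-1) ^ n * Pr p (-2) n) := by
  have h := fac_c (p := 2 * p) (by omega) hn
  rw [Pr_two] at h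
  rw [h]
  norm_num

/-- the quotient of products in `T` -/
def Bq (p k : ℕ) : ℚ := Pr p 2 (2 * k) * Pr p (-1) k * Pr p (-1) (2 * k) /
  (Pr p (-2) (2 * k + 1) * Pr p 1 k * Pr p 1 (2 * k + 1))

section rel

variable {y : ℕ} (hy : p = 2 * y + 1)
include hy

theorem T_val (h3 : 3 < p) {k : ℕ} (hk : k < y) : T k (2 * y - 2 * k) =
    -((-1) ^ k * (2 * p * ((Nat.centralBinom p : ℚ) / 2) ^ 2 / (2 * (k : ℚ) + 1) ^ 2) * Bq p k) := by
  have e1 : 6 * k + 2 * (2 * y - 2 * k) + 2 = 2 * p + 2 * k := by omega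
  have e2 : 2 * k + 2 * (2 * y - 2 * k) = 2 * p - 1 - (2 * k + 1) := by omega
  have e3 : 3 * k + (2 * y - 2 * k) + 1 = p + k := by omega
  have e4 : k + (2 * y - 2 * k) = p - 1 - k := by omega
  have e5 : 4 * k + (2 * y - 2 * k) + 2 = p + (2 * k + 1) := by omega
  have e6 : 2 * y - 2 * k = p - 1 - 2 * k := by omega
  unfold T
  rw [e1, e2, e3, e4, e5, e6, fac_b, fac_a, fac_a]
  have f1 := fac_c (p := p) (by omega) (n := k) (by omega)
  have f2 := fac_c (p := p) (by omega) (n := 2 * k) (by omega)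
  have f3 := fac_d (p := p) (by omega) (n := 2 * k + 1) (by omega)
  have m1 : (-1 : ℚ) ∈ Zp p := neg_mem (one_mem _)
  have u1 := (L2.of_Pr (p := p) (c := 1) (one_mem _) (n := k) (by omega)).unit.1
  have u2' := (L2.of_Pr (p := p) (c := -1) m1 (n := k) (by omega)).unit.1
  have u3' := (L2.of_Pr (p := p) (c := -1) m1 (n := 2 * k) (by omega)).unit.1
  have u4 := (L2.of_Pr (p := p) (c := -2) (neg_mem (nm 2)) (n := 2 * k + 1) (by omega)).unit.1
  have u5 := (L2.of_Pr (p := p) (c := 1) (one_mem _) (n := 2 * k + 1) (by omega)).unit.1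
  have s2 : (-1 : ℚ) ^ (2 * k) = 1 := by rw [pow_mul]; norm_num
  have s3 : (-1 : ℚ) ^ (2 * k + 1) = -1 := by rw [pow_succ, s2]; norm_num
  have sk : (-1 : ℚ) ^ k ≠ 0 := pow_ne_zero _ (by norm_num)
  have sk2 : ((-1 : ℚ) ^ k) ^ 2 = 1 := by rw [← pow_mul, mul_comm, pow_mul]; norm_num
  rw [s2, one_mul] at f2
  rw [s3] at f3
  have z1 : ((p - 1)! : ℚ) ≠ 0 := by positivity
  have z2 : (k ! : ℚ) ≠ 0 := by positivity
  have z3 : ((2 * k)! : ℚ) ≠ 0 := by positivity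
  have z4 : ((2 * k + 1)! : ℚ) = (2 * (k : ℚ) + 1) * ((2 * k)! : ℚ) := by
    rw [Nat.factorial_succ]; push_cast; ring
  have hk0 : 2 * (k : ℚ) + 1 ≠ 0 := by positivity
  have z5 : ((2 * p)! : ℚ) = 2 * p * ((2 * p - 1)! : ℚ) := by
    have : 2 * p = (2 * p - 1) + 1 := by omega
    rw [this, Nat.factorial_succ, ← this]
    push_cast
    ring
  have z6 : (p ! : ℚ) = p * ((p - 1)! : ℚ) := by
    have : p = (p - 1) + 1 := by omega
    nth_rw 1 [this]
    rw [Nat.factorial_succ, ← this]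
    push_cast
    ring
  have hp0 := p_ne (p := p)
  have z7 : (Nat.centralBinom p : ℚ) = 2 * p * ((2 * p - 1)! : ℚ) / (p * ((p - 1)! : ℚ)) ^ 2 := by
    rw [Nat.centralBinom_eq_two_mul_choose, Pool.Agent.R440.choose_two_mul, z5, z6]
    ring
  have g1 : ((p - 1 - k)! : ℚ) = ((p - 1)! : ℚ) / ((k ! : ℚ) * ((-1) ^ k * Pr p (-1) k)) := by
    rw [f1]; field_simp
  have g2 : ((p - 1 - 2 * k)! : ℚ) = ((p - 1)! : ℚ) / (((2 * k)! : ℚ) * Pr p (-1) (2 * k)) := by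
    rw [f2]; field_simp
  have g3 : ((2 * p - 1 - (2 * k + 1))! : ℚ) = -((2 * p - 1)! : ℚ) /
      (((2 * k + 1)! : ℚ) * Pr p (-2) (2 * k + 1)) := by
    rw [f3]; rw [z4]; field_simp
  rw [g1, g2, g3, z7, z5, z6, z4]
  unfold Bq
  generalize ((2 * p - 1)! : ℚ) = A1 at *
  generalize ((p - 1)! : ℚ) = A2 at *
  generalize (k ! : ℚ) = A3 at *
  generalize ((2 * k)! : ℚ) = A4 at *
  generalize Pr p 2 (2 * k) = B1 at *
  generalize Pr p (-1) k = B2 at *
  generalize Pr p (-1) (2 * k) = B3 at *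
  generalize Pr p (-2) (2 * k + 1) = B4 at *
  generalize Pr p 1 k = B5 at *
  generalize Pr p 1 (2 * k + 1) = B6 at *
  field_simp

theorem T_top (h3 : 3 < p) : (p : ℚ) * T y 0 =
    (Nat.centralBinom y : ℚ) * Pr p 2 (2 * y) / Pr p 1 y := by
  have e1 : 6 * y + 2 * 0 + 2 = 2 * p + 2 * y := by omega
  have e3 : 3 * y + 0 + 1 = p + y := by omega
  have e5 : 4 * y + 0 + 2 = 2 * p := by omega
  have e2 : 2 * y + 2 * 0 = 2 * y := by omega
  have e4 : y + 0 = y := by omega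
  unfold T
  rw [e1, e2, e3, e4, e5, fac_b, fac_a]
  have u1 := (L2.of_Pr (p := p) (c := 1) (one_mem _) (n := y) (by omega)).unit.1
  have hp0 := p_ne (p := p)
  have z6 : (p ! : ℚ) = p * ((2 * y)! : ℚ) := by
    rw [hy, Nat.factorial_succ]
    push_cast
    ring
  rw [z6, Nat.centralBinom_eq_two_mul_choose, Pool.Agent.R440.choose_two_mul]
  have z1 : ((2 * y)! : ℚ) ≠ 0 := by positivity
  have z2 : (y ! : ℚ) ≠ 0 := by positivity
  have z3 : ((2 * p)! : ℚ) ≠ 0 := by positivity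
  simp only [Nat.factorial_zero, Nat.cast_one]
  generalize ((2 * p)! : ℚ) = A1 at *
  generalize ((2 * y)! : ℚ) = A2 at *
  generalize (y ! : ℚ) = A3 at *
  generalize Pr p 2 (2 * y) = B1 at *
  generalize Pr p 1 y = B2 at *
  field_simp

omit hp hy in
/-- the closed form of the first sum, doubled -/
theorem sumI (p y : ℕ) (hy : p = 2 * y + 1) : 256 ^ (p - 1) * ∑ j ∈ range p,
    Pool.Agent.R440.D518.s j = (p : ℚ) ^ 3 * (Nat.centralBinom p : ℚ) ^ 3 *
      (∑ k ∈ range y, t k (2 * y - 2 * k) + t y 0) := by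
  rw [Pool.Agent.R440.D518.sum_s]
  have h1 : ∑ k ∈ range p, Pool.Agent.R440.D518.F p k =
      ∑ k ∈ range (y + 1), Pool.Agent.R440.D518.F p k := by
    symm
    refine Finset.sum_subset ?_ ?_
    · intro x hx
      rw [Finset.mem_range] at hx ⊢
      omega
    · intro x _ hx
      rw [Finset.mem_range] at hx
      exact Pool.Agent.R440.D518.F_high _ _ (by omega)
  have h2 : ∀ k ∈ range (y + 1), 256 ^ (p - 1) * Pool.Agent.R440.D518.F p k =
      (p : ℚ) ^ 3 * (Nat.centralBinom p : ℚ) ^ 3 * t k (2 * y - 2 * k) := by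
    intro k hk
    have hk' := mem_range.1 hk
    have h := Pool.Agent.R440.D518.F_eq k (2 * y - 2 * k)
    have e1 : 2 * k + (2 * y - 2 * k) = p - 1 := by omega
    have e2 : 2 * k + 1 + (2 * y - 2 * k) = p := by omega
    rw [e1, e2] at h
    rw [h, Nat.centralBinom_eq_two_mul_choose]
  rw [h1, mul_sum, sum_congr rfl h2, sum_range_succ, mul_add, mul_sum, Nat.sub_self]

end rel

end Pool.Agent.H547
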