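import Pool.Agent.H547.WZ

set_option autoImplicit false
set_option linter.unusedSectionVars false

/-!
The products attached to `C(2y,y)`, `C(2p,p)` and their truncated logarithms, `p = 2y+1`.
-/

namespace Pool.Agent.H547

open Finset Pool.Agent.R439.PL

/-- `∏_{i ≤ n} (1 + c p/i)` -/
def Pr (p : ℕ) (c : ℚ) (n : ℕ) : ℚ := ∏ i ∈ range n, (1 + c * p / ((i : ℚ) + 1))

theorem Pr_succ (p : ℕ) (c : ℚ) (n : ℕ) : Pr p c (n + 1) = Pr p c n * (1 + c * p / ((n : ℚ) + 1)) := by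
  rw [Pr, prod_range_succ]; rfl

theorem Pr_zero (p : ℕ) (c : ℚ) : Pr p c 0 = 1 := by simp [Pr]

/-- `C(p-1,m)` -/
theorem choose_pred {p : ℕ} (hp : 0 < p) (m : ℕ) (hm : m < p) :
    ((p - 1).choose m : ℚ) = (-1) ^ m * Pr p (-1) m := by
  induction m with
  | zero => simp [Pr_zero]
  | succ m ih =>
    have ih := ih (by omega)
    have h := choose_right (n := p - 1) (x := m) (by omega)
    rw [Nat.cast_sub hp] at h
    have h0 : (m : ℚ) + 1 ≠ 0 := by positivity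
    rw [Pr_succ, pow_succ]
    have h2 : ((p - 1).choose (m + 1) : ℚ) = ((p - 1).choose m : ℚ) * (((p : ℚ) - 1) - m) / (m + 1) := by
      rw [eq_div_iff h0]
      exact_mod_cast h
    rw [h2, ih]
    field_simp
    ring

/-- `C(p+m,m)` -/
theorem choose_add (p m : ℕ) : ((p + m).choose m : ℚ) = Pr p 1 m := by
  induction m with
  | zero => simp [Pr_zero]
  | succ m ih =>
    rw [Pr_succ, ← ih]
    have h := choose_absorb (p + m) m
    have h0 : (m : ℚ) + 1 ≠ 0 := by positivity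
    have h1 : ((p + (m + 1)).choose (m + 1) : ℚ) = ((p + m + 1).choose (m + 1) : ℚ) := rfl
    rw [h1]
    push_cast at h
    field_simp
    linear_combination (-1 : ℚ) * h

theorem z_prod (y : ℕ) : z y = ∏ i ∈ range y, ((2 * (i : ℚ) + 1) / (2 * ((i : ℚ) + 1))) := by
  induction y with
  | zero => simp [z_zero]
  | succ y ih => rw [z_succ, ih, prod_range_succ]

theorem z_half {p y : ℕ} (hy : p = 2 * y + 1) : z y = (-1) ^ y * Pr p (-1 / 2) y := by
  rw [z_prod, Pr, prod_div_distrib, ← prod_range_reflect]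
  have h1 : (-1 : ℚ) ^ y = ∏ i ∈ range y, (-1 : ℚ) := by simp
  rw [h1, ← prod_mul_distrib, ← prod_div_distrib]
  refine prod_congr rfl fun i hi => ?_
  have hi' := mem_range.1 hi
  have e : 2 * ((y - 1 - i : ℕ) : ℚ) + 1 = (p : ℚ) - 2 * ((i : ℚ) + 1) := by
    have : 2 * ((y - 1 - i : ℕ) : ℚ) + 1 + 2 * ((i : ℚ) + 1) = (p : ℚ) := by
      have h2 : 2 * (y - 1 - i) + 1 + 2 * (i + 1) = p := by omega
      exact_mod_cast h2
    linarith
  rw [e]
  have h0 : (i : ℚ) + 1 ≠ 0 := by positivity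
  field_simp
  ring

theorem cb_half {p y : ℕ} (hy : p = 2 * y + 1) :
    (Nat.centralBinom y : ℚ) = (-1) ^ y * Pr p (-1) y := by
  rw [Nat.centralBinom_eq_two_mul_choose]
  have h := choose_pred (p := p) (by omega) y (by omega)
  rw [show p - 1 = 2 * y by omega] at h
  exact h

theorem cb_p {p y : ℕ} (hy : p = 2 * y + 1) : (Nat.centralBinom p : ℚ) = 2 * Pr p 1 (2 * y) := by
  rw [Nat.centralBinom_eq_two_mul_choose, ← choose_add]
  have h := choose_absorb (p + 2 * y) (2 * y)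
  have e1 : 2 * p = p + 2 * y + 1 := by omega
  have e2 : p = 2 * y + 1 := hy
  have h3 : ((2 * p).choose p : ℚ) = ((p + 2 * y + 1).choose (2 * y + 1) : ℚ) := by
    rw [e1]
    congr 1
    rw [← e2]
  rw [h3]
  have h4 : (2 * (y : ℚ)) + 1 = p := by rw [hy]; push_cast; ring
  have h5 : (p : ℚ) ≠ 0 := by rw [← h4]; positivity
  push_cast at h
  rw [h4] at h
  apply mul_right_cancel₀ h5
  have h6 : (p : ℚ) + 2 * y + 1 = 2 * p := by linear_combination h4
  rw [h6] at h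
  linear_combination (-1 : ℚ) * h

/-- `4^{p-1} = (C(2y,y)/z_y)^2` -/
theorem X_eq {p y : ℕ} (hy : p = 2 * y + 1) :
    (4 : ℚ) ^ (p - 1) = (Pr p (-1) y / Pr p (-1 / 2) y) ^ 2 := by
  have h1 : (4 : ℚ) ^ y = (Nat.centralBinom y : ℚ) / z y := by
    unfold z
    have : (Nat.centralBinom y : ℚ) ≠ 0 := by exact_mod_cast (Nat.centralBinom_pos y).ne'
    field_simp
  have e : p - 1 = y * 2 := by omega
  rw [e, pow_mul, h1, cb_half hy, z_half hy, mul_div_mul_left _ _ (pow_ne_zero _ (by norm_num))]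

theorem zp_eq {p y : ℕ} (hy : p = 2 * y + 1) :
    z p = Pr p 1 (2 * y) / (2 * 4 ^ (p - 1)) := by
  unfold z
  rw [cb_p hy]
  have e : (4 : ℚ) ^ p = 4 ^ (p - 1) * 4 := by
    rw [← pow_succ]; congr 1; omega
  rw [e]
  field_simp
  ring

variable {p : ℕ} [hp : Fact p.Prime]

theorem Pr_LE (h3 : 3 < p) {n : ℕ} (hn : n < p) {c : ℚ} (hc : c ∈ Zp p) :
    LE p (Pr p c n) (c * p * H n 1 - (c * p) ^ 2 / 2 * H n 2 + (c * p) ^ 3 / 3 * H n 3 -
        (c * p) ^ 4 / 4 * H n 4) := LE.prodH h3 hn hc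

section rel

variable {y : ℕ} (hy : p = 2 * y + 1)
include hy

/-- the logarithm of `4^{p-1}` -/
theorem X_LE (h3 : 3 < p) : LE p ((4 : ℚ) ^ (p - 1)) (-(p * H y 1) - 3 / 4 * p ^ 2 * H y 2 -
    7 / 12 * p ^ 3 * H y 3 - 15 / 32 * p ^ 4 * H y 4) := by
  have hh : (-1 / 2 : ℚ) ∈ Zp p := m23 h3 (-1) 1 0 (by norm_num)
  have h1 := Pr_LE h3 (n := y) (by omega) (c := -1) (neg_mem (one_mem _))
  have h2 := Pr_LE h3 (n := y) (by omega) (c := -1 / 2) hh
  have h := (h1.div h3 h2).pow h3 2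
  rw [← X_eq hy] at h
  refine (congrArg (LE p _) ?_).mp h
  push_cast
  ring

/-- the logarithm of `C(2y,y)²/16^{2y}` -/
theorem mu_LE (h3 : 3 < p) : LE p ((Nat.centralBinom y : ℚ) ^ 2 / ((4 : ℚ) ^ (p - 1)) ^ 2)
    (1 / 2 * p ^ 2 * H y 2 + 1 / 2 * p ^ 3 * H y 3 + 7 / 16 * p ^ 4 * H y 4) := by
  have h1 := Pr_LE h3 (n := y) (by omega) (c := -1) (neg_mem (one_mem _))
  have h := (h1.pow h3 2).div h3 ((X_LE hy h3).pow h3 2)
  have e : (Nat.centralBinom y : ℚ) ^ 2 = Pr p (-1) y ^ 2 := by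
    rw [cb_half hy, mul_pow, ← pow_mul, mul_comm y 2, pow_mul]; norm_num
  rw [e]
  refine (congrArg (LE p _) ?_).mp h
  push_cast
  ring

/-- the logarithm of `C(2p,p)/2` -/
theorem c_LE (h3 : 3 < p) : LE p ((Nat.centralBinom p : ℚ) / 2)
    (-(p ^ 2 * H (2 * y) 2) - 1 / 2 * p ^ 4 * H (2 * y) 4) := by
  have h1 := Pr_LE h3 (n := 2 * y) (by omega) (c := 1) (one_mem _)
  have e : (Nat.centralBinom p : ℚ) / 2 = Pr p 1 (2 * y) := by rw [cb_p hy]; ring
  rw [e]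
  have r1 := ((I_p (p := p)).mul (relC1 hy)).mulL (x := 1 / 2) (m23 h3 1 1 0 (by norm_num))
  have r3 := ((Ipow (I_p (p := p)) 3).mul (relC3 hy)).mulL (x := 1 / 12) (m23 h3 1 2 1 (by norm_num))
  refine h1.congr h3 (icg (r1.sub r3) ?_)
  ring

end rel

end Pool.Agent.H547
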