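import Pool.Agent.H547.Prod

set_option autoImplicit false
set_option linter.unusedSectionVars false

/-!
Relations modulo `p` for the sums that occur, `p = 2y+1`.
-/

namespace Pool.Agent.H547

open Finset Pool.Agent.R439.PL

variable {p : ℕ} [hp : Fact p.Prime]

theorem Pr_mod (c : ℚ) (hc : c ∈ Zp p) (n : ℕ) (hn : n < p) : I p 2 (Pr p c n - (1 + c * p * H n 1)) := by
  induction n with
  | zero => rw [Pr_zero, H_zero]; exact icg I.zero (by ring)
  | succ n ih =>
    have ih := ih (by omega)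
    have hu := uSucc (p := p) (Nat.lt_succ_self n) hn
    rw [Pr_succ, H_succ]
    have hq : 1 + c * p / ((n : ℚ) + 1) ∈ Zp p :=
      add_mem (one_mem _) (dmem (mul_mem hc p_mem) hu)
    have h2 : I p 2 (p ^ 2 * (c ^ 2 * H n 1 / ((n : ℚ) + 1))) :=
      I_of_mem 2 (dmem (mul_mem (pow_mem hc 2) (H_mem (by omega) 1)) hu) rfl
    refine icg ((ih.mulR hq).add h2) ?_
    have := hu.1
    field_simp
    ring

section rel

variable {y : ℕ} (hy : p = 2 * y + 1)
include hy

theorem h2e (h3 : 3 < p) : I p 3 (H y 2 + 7 / 6 * p * H y 3 + 15 / 8 * p ^ 2 * H y 4) := by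
  have h := ((relB2 hy).sub (relA2 hy)).mulL (x := 2 / 3) (m23 h3 2 0 1 (by norm_num))
  exact icg h (by ring)

theorem H2e (h3 : 3 < p) : I p 3 (H (2 * y) 2 + 1 / 3 * p * H y 3 + 3 / 4 * p ^ 2 * H y 4) := by
  have h := (relA2 hy).add ((h2e hy h3).mulL (x := 2) (nm 2))
  exact icg h (by ring)

theorem h4e (h5 : 5 < p) : I p 1 (H y 4) := by
  have h := (relA4 hy).sub (relB4 hy)
  have h2 := h.mulL (x := -8) (neg_mem (nm 8))
  have u15 : U p (15 : ℚ) := by
    have h3 := u3 (p := p) (by omega)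
    have h5 := uNat (p := p) (k := 5) (by omega) (by omega)
    have := h3.mul h5
    norm_num at this
    exact this
  exact u15.cancel (icg h2 (by ring))

theorem H4e (h5 : 5 < p) : I p 1 (H (2 * y) 4) := by
  have h := (relA4 hy).add ((h4e hy h5).mulL (x := 2) (nm 2))
  exact icg h (by ring)

theorem h2_I (h3 : 3 < p) : I p 1 (H y 2) := by
  have h := (h2e hy h3).mono (by norm_num : 1 ≤ 3)
  have k1 : I p 1 (p * (7 / 6 * H y 3)) := (I_p (p := p)).mulR
    (mul_mem (m23 h3 7 1 1 (by norm_num)) (H_mem (by omega) 3))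
  have k2 : I p 1 (p * (15 / 8 * p * H y 4)) := (I_p (p := p)).mulR
    (mul_mem (mul_mem (m23 h3 15 3 0 (by norm_num)) p_mem) (H_mem (by omega) 4))
  exact icg ((h.sub k1).sub k2) (by ring)

theorem H2_I (h3 : 3 < p) : I p 1 (H (2 * y) 2) := by
  have h := (H2e hy h3).mono (by norm_num : 1 ≤ 3)
  have k1 : I p 1 (p * (1 / 3 * H y 3)) := (I_p (p := p)).mulR
    (mul_mem (m23 h3 1 0 1 (by norm_num)) (H_mem (by omega) 3))
  have k2 : I p 1 (p * (3 / 4 * p * H y 4)) := (I_p (p := p)).mulR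
    (mul_mem (mul_mem (m23 h3 3 2 0 (by norm_num)) p_mem) (H_mem (by omega) 4))
  exact icg ((h.sub k1).sub k2) (by ring)

theorem h2_II (h3 : 3 < p) : I p 2 (H y 2 + 7 / 6 * p * H y 3) := by
  have h := (h2e hy h3).mono (by norm_num : 2 ≤ 3)
  have k2 : I p 2 (p ^ 2 * (15 / 8 * H y 4)) := I_of_mem 2
    (mul_mem (m23 h3 15 3 0 (by norm_num)) (H_mem (by omega) 4)) rfl
  exact icg (h.sub k2) (by ring)

theorem H2_II (h3 : 3 < p) : I p 2 (H (2 * y) 2 + 1 / 3 * p * H y 3) := by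
  have h := (H2e hy h3).mono (by norm_num : 2 ≤ 3)
  have k2 : I p 2 (p ^ 2 * (3 / 4 * H y 4)) := I_of_mem 2
    (mul_mem (m23 h3 3 2 0 (by norm_num)) (H_mem (by omega) 4)) rfl
  exact icg (h.sub k2) (by ring)

theorem H1_I (h3 : 3 < p) : I p 1 (H (2 * y) 1) := by
  have h := ((relC1 hy).mono (by norm_num : 1 ≤ 4)).mulL (x := 1 / 2) (m23 h3 1 1 0 (by norm_num))
  have k1 : I p 1 (p * (1 / 2 * H (2 * y) 2)) := (I_p (p := p)).mulR
    (mul_mem (m23 h3 1 1 0 (by norm_num)) (H_mem (by omega) 2))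
  have k2 : I p 1 (p * (1 / 2 * p * H (2 * y) 3)) := (I_p (p := p)).mulR
    (mul_mem (mul_mem (m23 h3 1 1 0 (by norm_num)) p_mem) (H_mem (by omega) 3))
  have k3 : I p 1 (p * (1 / 2 * p ^ 2 * H (2 * y) 4)) := (I_p (p := p)).mulR
    (mul_mem (mul_mem (m23 h3 1 1 0 (by norm_num)) (pow_mem p_mem 2)) (H_mem (by omega) 4))
  exact icg (((h.sub k1).sub k2).sub k3) (by ring)

theorem H_refl (i : ℕ) (hi : i ≤ 2 * y) (h3 : 3 < p) : I p 1 (H (2 * y - i) 1 - H i 1) := by
  induction i with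
  | zero => rw [H_zero]; exact icg (H1_I hy h3) (by simp)
  | succ i ih =>
    have ih := ih (by omega)
    have hu := uSucc (p := p) (Nat.lt_succ_self i) (by omega)
    have e1 : 2 * y - i = (2 * y - (i + 1)) + 1 := by omega
    rw [e1, H_succ] at ih
    have e2 : ((2 * y - (i + 1) : ℕ) : ℚ) + 1 = (p : ℚ) - ((i : ℚ) + 1) := by
      have : ((2 * y - (i + 1) : ℕ) : ℚ) + 1 + ((i : ℚ) + 1) = (p : ℚ) := by
        have h2 : 2 * y - (i + 1) + 1 + (i + 1) = p := by omega
        exact_mod_cast h2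
      linarith
    rw [e2] at ih
    rw [H_succ]
    have h2 := psub hu
    have k : I p 1 (p * (1 / (((i : ℚ) + 1) * ((p : ℚ) - ((i : ℚ) + 1))))) :=
      (I_p (p := p)).mulR (dmem (one_mem _) (hu.mul h2))
    refine icg (ih.sub k) ?_
    have e3 := hu.1
    have e4 := h2.1
    simp only [pow_one]
    field_simp
    ring

/-- `∑_{m<p/2} H_{m-1}/m²` modulo `p` -/
theorem Z12_I (h3 : 3 < p) : I p 1 (Z12 y + 3 / 4 * H y 3) := by
  have h1 := S_f2 (2 * y)
  obtain ⟨G, hG⟩ : ∃ G, G = ∑ m ∈ range (2 * y), H (m + 1) 1 / ((m : ℚ) + 1) ^ 2 := ⟨_, rfl⟩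
  have h2 : I p 2 (S (fun m => 1 / ((m : ℚ) + 1) ^ 2) (2 * y) - (H (2 * y) 2 - p * G)) := by
    refine Isum_sub (f := fun m => (-1) ^ (m + 1) * ((2 * y).choose (m + 1) : ℚ) *
      (1 / ((m : ℚ) + 1) ^ 2)) (g := fun m => (1 - p * H (m + 1) 1) * (1 / ((m : ℚ) + 1) ^ 2)) ?_ rfl ?_
    · intro m hm
      have hm' := mem_range.1 hm
      have hc := choose_pred (p := p) (by omega) (m + 1) (by omega)
      rw [show p - 1 = 2 * y by omega] at hc
      have hu := uSucc (p := p) (Nat.lt_succ_self m) (by omega)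
      have hc2 : (-1 : ℚ) ^ (m + 1) * ((2 * y).choose (m + 1) : ℚ) = Pr p (-1) (m + 1) := by
        rw [hc, ← mul_assoc, ← mul_pow]; norm_num
      rw [hc2]
      have h4 := (Pr_mod (p := p) (-1) (neg_mem (one_mem _)) (m + 1) (by omega)).mulR
        (y := 1 / ((m : ℚ) + 1) ^ 2) (dmem (one_mem _) (hu.pow 2))
      exact icg h4 (by ring)
    · rw [hG, H, mul_sum, ← sum_sub_distrib]
      exact sum_congr rfl fun m _ => by ring
  rw [h1] at h2
  have h3' := (H1_I hy h3).mul (H1_I hy h3)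
  have h4 : I p 2 (p * G - 3 / 2 * H (2 * y) 2) := by
    have k := (h3'.mulL (x := 1 / 2) (m23 h3 1 1 0 (by norm_num))).add h2
    exact icg k (by ring)
  have h5 : I p 1 (G + 1 / 2 * H y 3) := by
    have k := h4.add ((H2_II hy h3).mulL (x := 3 / 2) (m23 h3 3 1 0 (by norm_num)))
    apply I_p_mul_iff.1
    exact icg k (by ring)
  -- the reflection
  have h6 : I p 1 (G - (2 * Z12 y + H y 3)) := by
    have e1 : G = ∑ m ∈ range y, H (m + 1) 1 / ((m : ℚ) + 1) ^ 2 +
        ∑ m ∈ range y, H (2 * y - m) 1 / ((p : ℚ) - ((m : ℚ) + 1)) ^ 2 := by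
      rw [hG, two_mul, sum_range_add]
      congr 1
      rw [← sum_range_reflect]
      refine sum_congr rfl fun i hi => ?_
      have hi' := mem_range.1 hi
      have e : ((y + (y - 1 - i) : ℕ) : ℚ) + 1 = (p : ℚ) - ((i : ℚ) + 1) := by
        have : ((y + (y - 1 - i) : ℕ) : ℚ) + 1 + ((i : ℚ) + 1) = (p : ℚ) := by
          have h2 : y + (y - 1 - i) + 1 + (i + 1) = p := by omega
          exact_mod_cast h2
        linarith
      rw [← e, show y + (y - 1 - i) + 1 = y + y - i by omega]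
    have e2 : ∑ m ∈ range y, H (m + 1) 1 / ((m : ℚ) + 1) ^ 2 = Z12 y + H y 3 := by
      rw [Z12, H, ← sum_add_distrib]
      refine sum_congr rfl fun m _ => ?_
      rw [H_succ]
      have : (m : ℚ) + 1 ≠ 0 := by positivity
      field_simp
    have e3 : I p 1 (∑ m ∈ range y, H (2 * y - m) 1 / ((p : ℚ) - ((m : ℚ) + 1)) ^ 2 - Z12 y) := by
      refine Isum_sub (fun m hm => ?_) rfl rfl
      have hm' := mem_range.1 hm
      have hu := uSucc (p := p) (Nat.lt_succ_self m) (by omega)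
      have hv := psub hu
      have k1 := (H_refl hy m (by omega) h3).mulR (y := 1 / ((p : ℚ) - ((m : ℚ) + 1)) ^ 2)
        (dmem (one_mem _) (hv.pow 2))
      have k2 := ((ex2 hu).mono (by norm_num : 1 ≤ 3)).mulL (x := H m 1) (H_mem (by omega) 1)
      have k3 : I p 1 (p * (H m 1 * (2 * (1 / ((m : ℚ) + 1) ^ 3) + 3 * p * (1 / ((m : ℚ) + 1) ^ 4)))) :=
        (I_p (p := p)).mulR (mul_mem (H_mem (by omega) 1) (add_mem
          (mul_mem (nm 2) (dmem (one_mem _) (hu.pow 3)))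
          (mul_mem (mul_mem (nm 3) p_mem) (dmem (one_mem _) (hu.pow 4)))))
      exact icg ((k1.add k2).add k3) (by ring)
    rw [e1, e2]
    exact icg e3 (by ring)
  have h7 := (h5.sub h6).mulL (x := 1 / 2) (m23 h3 1 1 0 (by norm_num))
  exact icg h7 (by ring)

theorem Z21_I (h3 : 3 < p) : I p 1 (Z21 y + 1 / 4 * H y 3) := by
  have h1 := Z_add y
  have h2 := (h2_I hy h3).mulL (x := H y 1) (H_mem (by omega) 1)
  have h3' := Z12_I hy h3
  refine icg (h2.sub h3') ?_
  linear_combination (-1 : ℚ) * h1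

/-- `z_j` modulo `p` -/
theorem z_mod (h3 : 3 < p) (j : ℕ) (hj : j < p) :
    z j ∈ Zp p ∧ I p 1 (z j - (-1) ^ j * (y.choose j : ℚ)) := by
  induction j with
  | zero => rw [z_zero]; exact ⟨one_mem _, icg I.zero (by simp)⟩
  | succ j ih =>
    obtain ⟨i1, i2⟩ := ih (by omega)
    have hu := uSucc (p := p) (Nat.lt_succ_self j) hj
    have hh : (1 / 2 : ℚ) ∈ Zp p := m23 h3 1 1 0 (by norm_num)
    have hq : (2 * (j : ℚ) + 1) / (2 * ((j : ℚ) + 1)) ∈ Zp p :=
      dmem (add_mem (mul_mem (nm 2) (nat_mem j)) (one_mem _)) ((u2 (by omega)).mul hu)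
    refine ⟨?_, ?_⟩
    · rw [z_succ]; exact mul_mem i1 hq
    · rw [z_succ]
      have h1 : (y.choose (j + 1) : ℚ) = (y.choose j : ℚ) * ((y : ℚ) - j) / ((j : ℚ) + 1) := by
        rw [eq_div_iff hu.1]
        rcases Nat.lt_or_ge y j with h | h
        · rw [Nat.choose_eq_zero_of_lt h, Nat.choose_eq_zero_of_lt (by omega)]
          simp
        · exact choose_right h
      rw [h1]
      have hs : ((-1 : ℚ) ^ j * (y.choose j : ℚ)) ∈ Zp p :=
        mul_mem (pow_mem (neg_mem (one_mem _)) _) (nat_mem _)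
      have k2 : I p 1 (p * (1 / 2 * ((-1 : ℚ) ^ j * (y.choose j : ℚ)) / ((j : ℚ) + 1))) :=
        (I_p (p := p)).mulR (dmem (mul_mem hh hs) hu)
      refine icg ((i2.mulR hq).add k2) ?_
      have e : (p : ℚ) = 2 * y + 1 := by exact_mod_cast hy
      rw [e, pow_succ]
      have := hu.1
      field_simp
      ring

/-- the cubic coefficient -/
def A3 (y : ℕ) : ℚ := ∑ j ∈ range (2 * y), z (j + 1) * (H j 2 / ((j : ℚ) + 1))

omit hy in
theorem A3_mem (hy : p = 2 * y + 1) (h3 : 3 < p) : A3 y ∈ Zp p :=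
  sum_mem fun j hj => by
    have hj' := mem_range.1 hj
    have hu := uSucc (p := p) (Nat.lt_succ_self j) (by omega)
    exact mul_mem (z_mod hy h3 (j + 1) (by omega)).1 (dmem (H_mem (by omega) 2) hu)

theorem A3_I (h3 : 3 < p) : I p 1 (A3 y - ((H y 1) ^ 3 / 6 + 1 / 12 * H y 3)) := by
  have h1 := S_T y
  have h2 : I p 1 (A3 y - S (fun m => H m 2 / ((m : ℚ) + 1)) y) := by
    have e : S (fun m => H m 2 / ((m : ℚ) + 1)) y = ∑ m ∈ range (2 * y),
        (-1) ^ (m + 1) * (y.choose (m + 1) : ℚ) * (H m 2 / ((m : ℚ) + 1)) := by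
      rw [two_mul, sum_range_add, S]
      symm
      apply add_eq_left.2
      refine sum_eq_zero fun m _ => ?_
      rw [Nat.choose_eq_zero_of_lt (by omega)]
      simp
    refine Isum_sub (fun m hm => ?_) rfl e
    have hm' := mem_range.1 hm
    have hu := uSucc (p := p) (Nat.lt_succ_self m) (by omega)
    have k := ((z_mod hy h3 (m + 1) (by omega)).2).mulR (y := H m 2 / ((m : ℚ) + 1))
      (dmem (H_mem (by omega) 2) hu)
    exact icg k (by ring)
  rw [h1] at h2
  have k1 := (h2_I hy h3).mulL (x := 1 / 2 * H y 1) (mul_mem (m23 h3 1 1 0 (by norm_num))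
    (H_mem (by omega) 1))
  have k2 := Z21_I hy h3
  exact icg ((h2.sub k1).add k2) (by ring)

end rel

end Pool.Agent.H547
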