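import Pool.Agent.H547.Iden

set_option autoImplicit false
set_option linter.unusedSectionVars false

/-!
A telescoping pair for `∑ b(N,j) z_j`, where `b(N,j) = (1-N)_j (N)_j/j!²`, `z_j = C(2j,j)/4^j`.
-/

namespace Pool.Agent.H547

open Finset

/-- `C(2j,j)/4^j` -/
def z (j : ℕ) : ℚ := (Nat.centralBinom j : ℚ) / 4 ^ j

theorem z_zero : z 0 = 1 := by simp [z]

theorem z_succ (j : ℕ) : z (j + 1) = z j * ((2 * j + 1) / (2 * (j + 1))) := by
  have h := Nat.succ_mul_centralBinom_succ j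
  have h' : ((j : ℚ) + 1) * (Nat.centralBinom (j + 1) : ℚ) =
      2 * (2 * j + 1) * (Nat.centralBinom j : ℚ) := by exact_mod_cast h
  have h0 : (j : ℚ) + 1 ≠ 0 := by positivity
  unfold z
  rw [pow_succ]
  field_simp
  linear_combination 2 * h'

theorem z_pos (j : ℕ) : 0 < z j := by
  unfold z
  have : 0 < (Nat.centralBinom j : ℚ) := by exact_mod_cast Nat.centralBinom_pos j
  positivity

/-- `(1-N)_j (N)_j/j!²` -/
def b (N : ℚ) : ℕ → ℚ
  | 0 => 1
  | j + 1 => b N j * ((j + 1 - N) * (N + j) / (j + 1) ^ 2)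

theorem b_zero (N : ℚ) : b N 0 = 1 := rfl

theorem b_succ (N : ℚ) (j : ℕ) : b N (j + 1) = b N j * ((j + 1 - N) * (N + j) / (j + 1) ^ 2) := rfl

theorem b_two (N : ℚ) (j : ℕ) : b (N + 2) j * ((N - j) * (N + 1 - j)) =
    b N j * ((N + j) * (N + j + 1)) := by
  induction j with
  | zero => simp [b_zero]
  | succ j ih =>
    rw [b_succ, b_succ]
    have h0 : (j : ℚ) + 1 ≠ 0 := by positivity
    push_cast
    field_simp
    linear_combination ((j + 1 - N) * (N + j + 2)) * ih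

theorem b_symm (N : ℚ) (j : ℕ) : b (1 - N) j = b N j := by
  induction j with
  | zero => rfl
  | succ j ih =>
    rw [b_succ, b_succ, ih]
    ring

theorem b_nat (N j : ℕ) : b ((N : ℚ) + 1) j = (-1) ^ j * (N.choose j : ℚ) * ((N + j).choose j : ℚ) := by
  induction j with
  | zero => simp [b_zero]
  | succ j ih =>
    rw [b_succ, ih, pow_succ]
    have h1 : (N.choose (j + 1) : ℚ) * ((j : ℚ) + 1) = (N.choose j : ℚ) * ((N : ℚ) - j) := by
      rcases Nat.lt_or_ge N j with h | h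
      · rw [Nat.choose_eq_zero_of_lt h, Nat.choose_eq_zero_of_lt (by omega)]
        simp
      · exact choose_right h
    have h2 : ((N : ℚ) + j + 1) * ((N + j).choose j : ℚ) =
        ((N + (j + 1)).choose (j + 1) : ℚ) * ((j : ℚ) + 1) := by
      have := Nat.add_one_mul_choose_eq (N + j) j
      exact_mod_cast this
    have h0 : (j : ℚ) + 1 ≠ 0 := by positivity
    field_simp
    linear_combination (-((-1) ^ j) * (N.choose j : ℚ) * ((N : ℚ) - j)) * h2 +
      ((-1) ^ j * ((N + (j + 1)).choose (j + 1) : ℚ) * ((j : ℚ) + 1)) * h1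

theorem b_top (N j : ℕ) (h : N ≤ j) : b ((N : ℚ) + 1) (j + 1) = 0 := by
  rw [b_nat, Nat.choose_eq_zero_of_lt (by omega)]
  simp

/-- the certificate -/
def V (N : ℚ) (j : ℕ) : ℚ :=
  -2 * j ^ 3 * (2 * N + 1) * z j * b (N + 2) j / ((N + j) * (N + j + 1))

theorem V_zero (N : ℚ) : V N 0 = 0 := by simp [V]

theorem wz (N : ℚ) (hN : 0 < N) (j : ℕ) :
    (N + 1) ^ 2 * (b (N + 2) j * z j) - N ^ 2 * (b N j * z j) = V N (j + 1) - V N j := by
  have h1 := b_two N j
  have e1 : N + j ≠ 0 := by positivity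
  have e2 : N + j + 1 ≠ 0 := by positivity
  have e3 : N + j + 2 ≠ 0 := by positivity
  have h0 : (j : ℚ) + 1 ≠ 0 := by positivity
  have h2 : b N j = b (N + 2) j * ((N - j) * (N + 1 - j)) / ((N + j) * (N + j + 1)) := by
    rw [h1]; field_simp
  unfold V
  rw [h2, z_succ, b_succ]
  have e4 : N + ((j : ℚ) + 1) ≠ 0 := by positivity
  have e5 : N + ((j : ℚ) + 1) + 1 ≠ 0 := by positivity
  push_cast
  field_simp
  ring

theorem wz_sum (N : ℚ) (hN : 0 < N) (K : ℕ) :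
    (N + 1) ^ 2 * ∑ j ∈ range K, b (N + 2) j * z j - N ^ 2 * ∑ j ∈ range K, b N j * z j = V N K := by
  induction K with
  | zero => simp [V_zero]
  | succ K ih =>
    rw [sum_range_succ, sum_range_succ]
    linear_combination ih + wz N hN K

/-- `∑_j C(M,j) C(M+j,j) (-1)^j z_j` -/
def u (M : ℕ) : ℚ := ∑ j ∈ range (M + 1), b ((M : ℚ) + 1) j * z j

theorem u_ext (M K : ℕ) : ∑ j ∈ range (M + 1 + K), b ((M : ℚ) + 1) j * z j = u M := by
  induction K with
  | zero => rfl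
  | succ K ih =>
    rw [← Nat.add_assoc, sum_range_succ, ih, show M + 1 + K = M + K + 1 by omega,
      b_top M (M + K) (by omega)]
    simp

theorem u_step (M : ℕ) : ((M : ℚ) + 2) ^ 2 * u (M + 2) = ((M : ℚ) + 1) ^ 2 * u M := by
  have h := wz_sum ((M : ℚ) + 1) (by positivity) (M + 3)
  have h1 : ∑ j ∈ range (M + 3), b ((M : ℚ) + 1) j * z j = u M := u_ext M 2
  have h2 : ∑ j ∈ range (M + 3), b ((M : ℚ) + 1 + 2) j * z j = u (M + 2) := by
    unfold u
    push_cast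
    refine sum_congr rfl fun j _ => ?_
    congr 2
    ring
  have h3 : V ((M : ℚ) + 1) (M + 3) = 0 := by
    have : b ((M : ℚ) + 1 + 2) (M + 3) = 0 := by
      have := b_top (M + 2) (M + 2) le_rfl
      push_cast at this
      rw [show (M : ℚ) + 1 + 2 = M + 2 + 1 by ring]
      exact this
    unfold V
    rw [this]
    simp
  rw [h1, h2, h3] at h
  linear_combination h

theorem u_even (n : ℕ) : u (2 * n) = z n ^ 2 := by
  induction n with
  | zero => simp [u, b_zero, z_zero]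
  | succ n ih =>
    have h := u_step (2 * n)
    rw [ih] at h
    rw [z_succ]
    have h0 : (n : ℚ) + 1 ≠ 0 := by positivity
    have h1 : (2 * (n + 1)) = 2 * n + 2 := by ring
    rw [h1]
    push_cast at h
    field_simp
    linear_combination h

theorem u_odd (n : ℕ) : u (2 * n + 1) = 0 := by
  induction n with
  | zero =>
    simp only [u, sum_range_succ, b_succ, b_zero, z_succ, z_zero]
    norm_num
  | succ n ih =>
    have h := u_step (2 * n + 1)
    rw [ih, mul_zero] at h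
    have h0 : ((2 * n + 1 : ℕ) : ℚ) + 2 ≠ 0 := by positivity
    have h1 : (2 * (n + 1) + 1) = 2 * n + 1 + 2 := by ring
    rw [h1]
    rcases mul_eq_zero.1 h with h | h
    · exact absurd h (pow_ne_zero _ h0)
    · exact h

/-- the summand of the problem -/
def aT (k : ℕ) : ℚ := (28 * (k : ℚ) ^ 2 + 18 * k + 3) * ((2 * k).choose k : ℚ) ^ 4 *
  ((3 * k).choose k : ℚ) / (-64) ^ k

theorem b_diag (n : ℕ) : b (2 * ((n : ℚ) + 1)) (n + 1) =
    (-1) ^ (n + 1) * ((3 * (n + 1)).choose (n + 1) : ℚ) * (Nat.centralBinom (n + 1) : ℚ) / 3 := by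
  have h := b_nat (2 * n + 1) (n + 1)
  have e : ((2 * n + 1 : ℕ) : ℚ) + 1 = 2 * ((n : ℚ) + 1) := by push_cast; ring
  rw [e] at h
  rw [h]
  have h1 : ((2 * n + 1).choose (n + 1) : ℚ) * 2 = (Nat.centralBinom (n + 1) : ℚ) := by
    have h2 := Nat.choose_symm_half n
    have h3 : Nat.centralBinom (n + 1) = (2 * n + 1).choose n + (2 * n + 1).choose (n + 1) := by
      rw [Nat.centralBinom_eq_two_mul_choose, show 2 * (n + 1) = 2 * n + 1 + 1 by ring,
        Nat.choose_succ_succ]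
    rw [h3, ← h2]
    push_cast
    ring
  have h4 : ((2 * n + 1 + (n + 1)).choose (n + 1) : ℚ) * 3 = ((3 * (n + 1)).choose (n + 1) : ℚ) * 2 := by
    have h5 := Nat.choose_mul_succ_eq (2 * n + 1 + (n + 1)) (n + 1)
    have e1 : 2 * n + 1 + (n + 1) + 1 = 3 * (n + 1) := by ring
    have e2 : 3 * (n + 1) - (n + 1) = 2 * (n + 1) := by omega
    rw [e1, e2] at h5
    have h6 : ((2 * n + 1 + (n + 1)).choose (n + 1) : ℚ) * (3 * ((n : ℚ) + 1)) =
      ((3 * (n + 1)).choose (n + 1) : ℚ) * (2 * ((n : ℚ) + 1)) := by exact_mod_cast h5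
    have h0 : (n : ℚ) + 1 ≠ 0 := by positivity
    apply mul_right_cancel₀ h0
    linear_combination h6
  rw [← h1]
  linear_combination ((-1) ^ (n + 1) * ((2 * n + 1).choose (n + 1) : ℚ) / 3) * h4

theorem sum_aT (n : ℕ) : ∑ k ∈ range n, aT k =
    12 * (n : ℚ) ^ 2 * z n ^ 2 * ∑ j ∈ range n, b (2 * n) j * z j := by
  induction n with
  | zero => simp
  | succ n ih =>
    rw [sum_range_succ, ih]
    rcases Nat.eq_zero_or_pos n with h | h
    · subst h
      simp [aT, z_succ, z_zero, b_zero]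
      norm_num
    obtain ⟨m, rfl⟩ : ∃ m, n = m + 1 := ⟨n - 1, by omega⟩
    have hN : (0 : ℚ) < 2 * ((m + 1 : ℕ) : ℚ) := by positivity
    have h1 := wz_sum (2 * ((m + 1 : ℕ) : ℚ)) hN (m + 1)
    rw [sum_range_succ (n := m + 1), z_succ (m + 1)]
    have h2 := b_two (2 * ((m + 1 : ℕ) : ℚ)) (m + 1)
    have h3 := b_diag m
    have e1 : 2 * (((m + 1 + 1 : ℕ) : ℕ) : ℚ) = 2 * ((m + 1 : ℕ) : ℚ) + 2 := by push_cast; ring
    rw [e1]
    have e2 : 2 * ((m : ℚ) + 1) = 2 * ((m + 1 : ℕ) : ℚ) := by push_cast; ring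
    rw [e2] at h3
    have h4 : aT (m + 1) = 3 * (28 * ((m : ℚ) + 1) ^ 2 + 18 * (m + 1) + 3) * z (m + 1) ^ 3 *
        b (2 * ((m + 1 : ℕ) : ℚ)) (m + 1) := by
      rw [h3]
      unfold aT z
      rw [Nat.centralBinom_eq_two_mul_choose]
      have e3 : (-64 : ℚ) ^ (m + 1) = (-1) ^ (m + 1) * (4 ^ (m + 1)) ^ 3 := by
        rw [← pow_mul, mul_comm (m + 1) 3, pow_mul, ← mul_pow]; norm_num
      rw [e3]
      have e4 : ((-1 : ℚ) ^ (m + 1)) * ((-1) ^ (m + 1)) = 1 := by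
        rw [← mul_pow]; norm_num
      have e5 : ((-1 : ℚ) ^ (m + 1)) ≠ 0 := pow_ne_zero _ (by norm_num)
      have e6 : ((-1 : ℚ) ^ (m + 1)) ^ 2 = 1 := by rw [sq]; exact e4
      push_cast
      field_simp
      rw [e6]
      ring
    rw [h4]
    unfold V at h1
    obtain ⟨s1, hs1⟩ : ∃ s, s = ∑ j ∈ range (m + 1), b (2 * ((m + 1 : ℕ) : ℚ)) j * z j := ⟨_, rfl⟩
    obtain ⟨s2, hs2⟩ : ∃ s, s = ∑ j ∈ range (m + 1), b (2 * ((m + 1 : ℕ) : ℚ) + 2) j * z j := ⟨_, rfl⟩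
    rw [← hs1, ← hs2] at h1
    rw [← hs1, ← hs2]
    obtain ⟨b1, hb1⟩ : ∃ s, s = b (2 * ((m + 1 : ℕ) : ℚ)) (m + 1) := ⟨_, rfl⟩
    obtain ⟨b2, hb2⟩ : ∃ s, s = b (2 * ((m + 1 : ℕ) : ℚ) + 2) (m + 1) := ⟨_, rfl⟩
    rw [← hb2] at h1
    rw [← hb1, ← hb2] at h2
    rw [← hb1, ← hb2]
    push_cast at h1 h2 ⊢
    obtain ⟨q, hq⟩ : ∃ q : ℚ, q = m := ⟨_, rfl⟩
    have hq0 : (0 : ℚ) ≤ q := by rw [hq]; positivity
    rw [← hq] at h1 h2 ⊢
    have f1 : q + 1 ≠ 0 := by positivity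
    have f2 : q + 1 + 1 ≠ 0 := by positivity
    have f3 : 2 * (q + 1) + (q + 1) ≠ 0 := by positivity
    have f4 : 2 * (q + 1) + (q + 1) + 1 ≠ 0 := by positivity
    have h5 : b2 = b1 * (3 * (3 * q + 4)) / (q + 2) := by
      have f5 : q + 2 ≠ 0 := by positivity
      rw [eq_div_iff f5]
      apply mul_left_cancel₀ f1
      linear_combination h2
    have h6 : s2 = ((2 * (q + 1)) ^ 2 * s1 + -2 * (q + 1) ^ 3 * (2 * (2 * (q + 1)) + 1) * z (m + 1) *
        b2 / ((2 * (q + 1) + (q + 1)) * (2 * (q + 1) + (q + 1) + 1))) / (2 * (q + 1) + 1) ^ 2 := by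
      have f6 : (2 * (q + 1) + 1) ^ 2 ≠ 0 := by positivity
      rw [eq_div_iff f6]
      linear_combination h1
    rw [h6, h5]
    have f7 : q + 2 ≠ 0 := by positivity
    have f8 : 2 * (q + 1) + 1 ≠ 0 := by positivity
    field_simp
    ring

end Pool.Agent.H547
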