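import Mathlib

set_option autoImplicit false

/-!
# The recurrences of the Franel numbers and of `C(2n,n) f_n`
-/

namespace Pool.Agent.H547

open Finset

/-- the Franel numbers -/
def fr (n : ℕ) : ℕ := ∑ k ∈ range (n + 1), (n.choose k) ^ 3

theorem fr_ext (n N : ℕ) (h : n + 1 ≤ N) : ∑ k ∈ range N, (n.choose k) ^ 3 = fr n := by
  unfold fr
  symm
  refine sum_subset (fun k hk => ?_) (fun k _ hk => ?_)
  · rw [mem_range] at hk ⊢
    omega
  · rw [mem_range, not_lt] at hk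
    rw [Nat.choose_eq_zero_of_lt (by omega)]
    norm_num

/-- the polynomial of the certificate -/
def frP (n k : ℚ) : ℚ := (n + 1) ^ 2 * (4 * k ^ 3 - (18 * n + 30) * k ^ 2 + (27 * n ^ 2 + 93 * n + 78) * k -
  (14 * n ^ 3 + 74 * n ^ 2 + 128 * n + 72))

theorem ch1 (n k : ℕ) : ((n + 1).choose (k + 1) : ℚ) * (k + 1) = (n + 1 - k) * ((n + 1).choose k : ℚ) := by
  rcases Nat.lt_or_ge (n + 1) k with h | h
  · rw [Nat.choose_eq_zero_of_lt h, Nat.choose_eq_zero_of_lt (by omega)]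
    simp
  · have h1 := Nat.choose_succ_right_eq (n + 1) k
    have h2 : ((n + 1 - k : ℕ) : ℚ) = n + 1 - k := by
      rw [Nat.cast_sub h]; push_cast; ring
    have h3 := congrArg (Nat.cast : ℕ → ℚ) h1
    push_cast at h3
    rw [h2] at h3
    linear_combination h3

theorem ch2 (n k : ℕ) : ((n + 2).choose (k + 1) : ℚ) * (k + 1) = (n + 2) * ((n + 1).choose k : ℚ) := by
  have h1 := Nat.add_one_mul_choose_eq (n + 1) k
  have h3 := congrArg (Nat.cast : ℕ → ℚ) h1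
  push_cast at h3
  linear_combination -h3

theorem ch0 (n k : ℕ) : (n.choose (k + 1) : ℚ) * ((n + 1) * (k + 1)) =
    (n - k) * (n + 1 - k) * ((n + 1).choose k : ℚ) := by
  have h1 := ch1 n k
  have h2 : ((n + 1).choose (k + 1) : ℚ) * (n - k) = (n + 1) * (n.choose (k + 1) : ℚ) := by
    rcases Nat.lt_or_ge n k with h | h
    · rw [Nat.choose_eq_zero_of_lt (show n + 1 < k + 1 by omega), Nat.choose_eq_zero_of_lt (by omega)]
      simp
    · have h3 := Nat.choose_mul_succ_eq n (k + 1)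
      have h4 : ((n + 1 - (k + 1) : ℕ) : ℚ) = n - k := by
        rw [Nat.cast_sub (by omega)]; push_cast; ring
      have h5 := congrArg (Nat.cast : ℕ → ℚ) h3
      push_cast at h5
      push_cast at h4
      rw [h4] at h5
      linear_combination -h5
  linear_combination (n - k : ℚ) * h1 - (k + 1 : ℚ) * h2

/-- **Franel's recurrence.** -/
theorem fr_rec (n : ℕ) : ((n : ℚ) + 2) ^ 2 * (fr (n + 2) : ℚ) =
    (7 * (n : ℚ) ^ 2 + 21 * n + 16) * (fr (n + 1) : ℚ) + 8 * ((n : ℚ) + 1) ^ 2 * (fr n : ℚ) := by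
  have e2 := congrArg (Nat.cast : ℕ → ℚ) (fr_ext (n + 2) (n + 4) (by omega))
  have e1 := congrArg (Nat.cast : ℕ → ℚ) (fr_ext (n + 1) (n + 4) (by omega))
  have e0 := congrArg (Nat.cast : ℕ → ℚ) (fr_ext n (n + 4) (by omega))
  push_cast at e2 e1 e0
  have hn : ((n : ℚ) + 1) ^ 3 ≠ 0 := by positivity
  apply mul_left_cancel₀ hn
  have key : ∀ k ∈ range (n + 3), ((n : ℚ) + 1) ^ 3 * (((n : ℚ) + 2) ^ 2 * ((n + 2).choose (k + 1) : ℚ) ^ 3 -
      (7 * (n : ℚ) ^ 2 + 21 * n + 16) * ((n + 1).choose (k + 1) : ℚ) ^ 3 -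
      8 * ((n : ℚ) + 1) ^ 2 * (n.choose (k + 1) : ℚ) ^ 3) =
      ((n + 1).choose (k + 1) : ℚ) ^ 3 * frP n ((k + 1 : ℕ) + 1) - ((n + 1).choose k : ℚ) ^ 3 * frP n ((k : ℕ) + 1) := by
    intro k _
    have h1 := ch1 n k
    have h2 := ch2 n k
    have h0 := ch0 n k
    have hk : ((k : ℚ) + 1) ^ 3 ≠ 0 := by positivity
    apply mul_left_cancel₀ hk
    set b := ((n + 1).choose k : ℚ)
    have c1 : ((n + 1).choose (k + 1) : ℚ) ^ 3 * ((k : ℚ) + 1) ^ 3 = ((n + 1 - k) * b) ^ 3 := by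
      rw [← mul_pow, h1]
    have c2 : ((n + 2).choose (k + 1) : ℚ) ^ 3 * ((k : ℚ) + 1) ^ 3 = ((n + 2) * b) ^ 3 := by
      rw [← mul_pow, h2]
    have c0 : (n.choose (k + 1) : ℚ) ^ 3 * (((n : ℚ) + 1) ^ 3 * ((k : ℚ) + 1) ^ 3) = ((n - k) * (n + 1 - k) * b) ^ 3 := by
      rw [← mul_pow, ← mul_pow, h0]
    unfold frP
    push_cast
    linear_combination (((n : ℚ) + 1) ^ 3 * ((n : ℚ) + 2) ^ 2) * c2 -
      (((n : ℚ) + 1) ^ 3 * (7 * (n : ℚ) ^ 2 + 21 * n + 16) + (n + 1) ^ 2 * (4 * (k + 2 : ℚ) ^ 3 -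
        (18 * n + 30) * (k + 2) ^ 2 + (27 * n ^ 2 + 93 * n + 78) * (k + 2) -
        (14 * n ^ 3 + 74 * n ^ 2 + 128 * n + 72))) * c1 - (8 * ((n : ℚ) + 1) ^ 2) * c0
  have hs := sum_congr rfl key
  rw [← mul_sum, sum_range_sub (fun k => ((n + 1).choose k : ℚ) ^ 3 * frP n ((k : ℕ) + 1)),
    sum_sub_distrib, sum_sub_distrib, ← mul_sum, ← mul_sum, ← mul_sum] at hs
  rw [sum_range_succ'] at e2 e1 e0
  rw [Nat.choose_eq_zero_of_lt (show n + 1 < n + 3 by omega)] at hs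
  simp only [Nat.choose_zero_right, Nat.cast_one, one_pow, Nat.cast_zero, zero_add] at e2 e1 e0 hs
  unfold frP at hs
  linear_combination hs - ((n : ℚ) + 1) ^ 3 * ((n : ℚ) + 2) ^ 2 * e2 +
    ((n : ℚ) + 1) ^ 3 * (7 * (n : ℚ) ^ 2 + 21 * n + 16) * e1 + ((n : ℚ) + 1) ^ 3 * (8 * ((n : ℚ) + 1) ^ 2) * e0

/-- the sequence `C(2n,n) f_n` -/
def An (n : ℕ) : ℕ := n.centralBinom * fr n

theorem cb_succ (n : ℕ) : ((n : ℚ) + 1) * ((n + 1).centralBinom : ℚ) = 2 * (2 * n + 1) * (n.centralBinom : ℚ) := by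
  have := congrArg (Nat.cast : ℕ → ℚ) (Nat.succ_mul_centralBinom_succ n)
  push_cast at this
  linear_combination this

theorem An_rec (n : ℕ) : ((n : ℚ) + 2) ^ 3 * (An (n + 2) : ℚ) =
    2 * (2 * n + 3) * (7 * ((n : ℚ) + 1) ^ 2 + 7 * (n + 1) + 2) * (An (n + 1) : ℚ) +
    32 * ((n : ℚ) + 1) * (4 * ((n : ℚ) + 1) ^ 2 - 1) * (An n : ℚ) := by
  have h := fr_rec n
  have h1 := cb_succ n
  have h2 := cb_succ (n + 1)
  unfold An
  push_cast at h2 ⊢
  have c1 : ((n : ℚ) + 2) * ((n + 2).centralBinom : ℚ) = 2 * (2 * n + 3) * ((n + 1).centralBinom : ℚ) := by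
    linear_combination h2
  linear_combination ((n : ℚ) + 2) ^ 2 * (fr (n + 2) : ℚ) * c1 +
    2 * (2 * n + 3) * ((n + 1).centralBinom : ℚ) * h +
    16 * (2 * (n : ℚ) + 3) * (n + 1) * (fr n : ℚ) * h1

end Pool.Agent.H547
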