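import Pool.Agent.H547.ZA

set_option autoImplicit false

/-!
# Three expansions of one function of level six
-/

namespace Pool.Agent.H547

open Finset

/-- the sequence `C(2k,k)² C(3k,k)` -/
def ak (k : ℕ) : ℕ := k.centralBinom * ((2 * k).choose k * (3 * k).choose k)

theorem u_fact (k : ℕ) : ((2 * k).choose k * (3 * k).choose k) * k.factorial ^ 3 = (3 * k).factorial := by
  have h1 := Nat.choose_mul_factorial_mul_factorial (show k ≤ 2 * k by omega)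
  have h2 := Nat.choose_mul_factorial_mul_factorial (show k ≤ 3 * k by omega)
  rw [show 2 * k - k = k by omega] at h1
  rw [show 3 * k - k = 2 * k by omega] at h2
  rw [← h2, ← h1]
  ring

theorem u_succ (k : ℕ) : ((k : ℚ) + 1) ^ 2 * (((2 * (k + 1)).choose (k + 1) * (3 * (k + 1)).choose (k + 1) : ℕ) : ℚ) =
    3 * (3 * k + 1) * (3 * k + 2) * (((2 * k).choose k * (3 * k).choose k : ℕ) : ℚ) := by
  have h1 := congrArg (Nat.cast : ℕ → ℚ) (u_fact k)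
  have h2 := congrArg (Nat.cast : ℕ → ℚ) (u_fact (k + 1))
  have e : (3 * (k + 1)).factorial = (3 * k + 3) * ((3 * k + 2) * ((3 * k + 1) * (3 * k).factorial)) := by
    rw [show 3 * (k + 1) = 3 * k + 2 + 1 by ring, Nat.factorial_succ, Nat.factorial_succ, Nat.factorial_succ]
  rw [e, Nat.factorial_succ k] at h2
  set U := ((2 * (k + 1)).choose (k + 1) * (3 * (k + 1)).choose (k + 1) : ℕ)
  set V := ((2 * k).choose k * (3 * k).choose k : ℕ)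
  push_cast at h1 h2
  have hf : ((k.factorial : ℚ)) ^ 3 * ((k : ℚ) + 1) ≠ 0 := by positivity
  apply mul_right_cancel₀ hf
  linear_combination h2 - 3 * (3 * (k : ℚ) + 1) * (3 * k + 2) * (k + 1) * h1

theorem ak_succ (k : ℕ) : ((k : ℚ) + 1) ^ 3 * (ak (k + 1) : ℚ) =
    6 * (2 * k + 1) * (3 * k + 1) * (3 * k + 2) * (ak k : ℚ) := by
  have h1 := cb_succ k
  have h2 := u_succ k
  unfold ak
  push_cast at h2 ⊢
  linear_combination ((k : ℚ) + 1) ^ 2 * (((2 * (k + 1)).choose (k + 1) : ℚ) * ((3 * (k + 1)).choose (k + 1) : ℚ)) * h1 +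
    2 * (2 * k + 1) * (k.centralBinom : ℚ) * h2

theorem chR (n m : ℕ) : (n.choose (m + 1) : ℚ) * (m + 1) = (n.choose m : ℚ) * (n - m) := by
  rcases Nat.lt_or_ge n m with h | h
  · rw [Nat.choose_eq_zero_of_lt h, Nat.choose_eq_zero_of_lt (by omega)]
    simp
  · have h1 := Nat.choose_succ_right_eq n m
    have h2 : ((n - m : ℕ) : ℚ) = n - m := by rw [Nat.cast_sub h]
    have h3 := congrArg (Nat.cast : ℕ → ℚ) h1
    push_cast at h3
    rw [h2] at h3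
    exact h3

theorem chU (n m : ℕ) : ((n + 1).choose (m + 1) : ℚ) * (m + 1) = (n + 1) * (n.choose m : ℚ) := by
  have h3 := congrArg (Nat.cast : ℕ → ℚ) (Nat.add_one_mul_choose_eq n m)
  push_cast at h3
  linear_combination -h3

/-- the coefficients of the recurrence -/
def P0 (j : ℚ) : ℚ := 64 * (j + 1) ^ 3
def P1 (j : ℚ) : ℚ := 2 * (2 * j + 3) * (5 * (j + 2) ^ 2 - 5 * (j + 2) + 2)
def P2 (j : ℚ) : ℚ := (j + 2) ^ 3

/-- the kernels -/
def ca' (j k : ℕ) : ℚ := ((j + k).choose (3 * k) : ℚ) * (-4) ^ ((j : ℤ) - 2 * k)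
def cb' (j k : ℕ) : ℚ := ((j + 2 * k).choose (3 * k) : ℚ) * (-16) ^ ((j : ℤ) - k)
def cc' (j n : ℕ) : ℚ := ((j + n).choose (2 * n) : ℚ) * (-8) ^ ((j : ℤ) - n)

/-- the certificates -/
def Ga' (j k : ℕ) : ℚ := 24 * (3 * j + 4) * (2 * k + 1) * (j + k + 1) * ca' j k * ak k
def Gb' (j k : ℕ) : ℚ := 6 * (2 * k + 1) * (3 * j + 5) * (j + 2 * k + 2) * cb' (j + 1) k * ak k

theorem a_step (j k : ℕ) : (P0 j * ca' j (k + 1) + P1 j * ca' (j + 1) (k + 1) + P2 j * ca' (j + 2) (k + 1)) *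
    ak (k + 1) = Ga' j k - Ga' j (k + 1) := by
  have ha := ak_succ k
  set z : ℚ := (-4) ^ ((j : ℤ) - 2 * k - 2) with hz
  have z0 : (-4 : ℚ) ^ ((j : ℤ) - 2 * k) = 16 * z := by
    rw [hz, show (j : ℤ) - 2 * k = ((j : ℤ) - 2 * k - 2) + 2 by ring, zpow_add₀ (by norm_num)]
    norm_num
    ring
  have z1 : (-4 : ℚ) ^ ((j : ℤ) - 2 * (k + 1 : ℕ)) = z := by
    rw [hz]; congr 1; push_cast; ring
  have z2 : (-4 : ℚ) ^ (((j + 1 : ℕ) : ℤ) - 2 * (k + 1 : ℕ)) = -4 * z := by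
    rw [hz, show ((j + 1 : ℕ) : ℤ) - 2 * (k + 1 : ℕ) = ((j : ℤ) - 2 * k - 2) + 1 by push_cast; ring,
      zpow_add₀ (by norm_num)]
    norm_num
    ring
  have z3 : (-4 : ℚ) ^ (((j + 2 : ℕ) : ℤ) - 2 * (k + 1 : ℕ)) = 16 * z := by
    rw [hz, show ((j + 2 : ℕ) : ℤ) - 2 * (k + 1 : ℕ) = ((j : ℤ) - 2 * k - 2) + 2 by push_cast; ring,
      zpow_add₀ (by norm_num)]
    norm_num
    ring
  set B := ((j + k).choose (3 * k) : ℚ) with hB
  have r1 := chU (j + k) (3 * k)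
  have r2 := chR (j + k + 1) (3 * k + 1)
  have r3 := chR (j + k + 1) (3 * k + 2)
  have r4 := chU (j + k + 1) (3 * k + 1)
  have r5 := chR (j + k + 2) (3 * k + 2)
  have r6 := chU (j + k + 2) (3 * k + 2)
  rw [← hB] at r1
  push_cast at r1 r2 r3 r4 r5 r6
  have s1 : ((j + k + 1).choose (3 * k + 3) : ℚ) * ((3 * k + 1) * (3 * k + 2) * (3 * k + 3)) =
      B * ((j + k + 1) * (j - 2 * k) * (j - 2 * k - 1)) := by
    linear_combination (3 * k + 1 : ℚ) * (3 * k + 2) * r3 + (3 * k + 1 : ℚ) * (j - 2 * k - 1) * r2 +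
      (j - 2 * k : ℚ) * (j - 2 * k - 1) * r1
  have s2 : ((j + k + 2).choose (3 * k + 3) : ℚ) * ((3 * k + 1) * (3 * k + 2) * (3 * k + 3)) =
      B * ((j + k + 2) * (j + k + 1) * (j - 2 * k)) := by
    linear_combination (3 * k + 1 : ℚ) * (3 * k + 2) * r5 + (3 * k + 1 : ℚ) * (j - 2 * k) * r4 +
      (j + k + 2 : ℚ) * (j - 2 * k) * r1
  have s3 : ((j + k + 3).choose (3 * k + 3) : ℚ) * ((3 * k + 1) * (3 * k + 2) * (3 * k + 3)) =
      B * ((j + k + 3) * (j + k + 2) * (j + k + 1)) := by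
    linear_combination (3 * k + 1 : ℚ) * (3 * k + 2) * r6 + (3 * k + 1 : ℚ) * (j + k + 3) * r4 +
      (j + k + 3 : ℚ) * (j + k + 2) * r1
  unfold Ga' ca' P0 P1 P2
  rw [z0, z1, z2, z3]
  have e1 : (j + (k + 1)).choose (3 * (k + 1)) = (j + k + 1).choose (3 * k + 3) := by ring_nf
  have e2 : (j + 1 + (k + 1)).choose (3 * (k + 1)) = (j + k + 2).choose (3 * k + 3) := by ring_nf
  have e3 : (j + 2 + (k + 1)).choose (3 * (k + 1)) = (j + k + 3).choose (3 * k + 3) := by ring_nf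
  rw [e1, e2, e3]
  push_cast
  have hD : ((k : ℚ) + 1) ^ 3 * ((3 * k + 1) * (3 * k + 2) * (3 * k + 3)) ≠ 0 := by positivity
  apply mul_right_cancel₀ hD
  rw [← hB]
  set W := (ak (k + 1) : ℚ)
  set V := (ak k : ℚ)
  set C1 := ((j + k + 1).choose (3 * k + 3) : ℚ)
  set C2 := ((j + k + 2).choose (3 * k + 3) : ℚ)
  set C3 := ((j + k + 3).choose (3 * k + 3) : ℚ)
  linear_combination (((k : ℚ) + 1) ^ 3 * W * z * (64 * (j + 1) ^ 3 + 24 * (3 * j + 4) * (2 * k + 3) * (j + k + 2))) * s1 +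
    (((k : ℚ) + 1) ^ 3 * W * (-4 * z) * (2 * (2 * j + 3) * (5 * (j + 2) ^ 2 - 5 * (j + 2) + 2))) * s2 +
    (((k : ℚ) + 1) ^ 3 * W * (16 * z) * (j + 2) ^ 3) * s3 +
    (z * B * (64 * (j + 1 : ℚ) ^ 3 * ((j + k + 1) * (j - 2 * k) * (j - 2 * k - 1)) -
      4 * (2 * (2 * j + 3) * (5 * (j + 2) ^ 2 - 5 * (j + 2) + 2)) * ((j + k + 2) * (j + k + 1) * (j - 2 * k)) +
      16 * (j + 2) ^ 3 * ((j + k + 3) * (j + k + 2) * (j + k + 1)) +
      24 * (3 * j + 4) * (2 * k + 3) * (j + k + 2) * ((j + k + 1) * (j - 2 * k) * (j - 2 * k - 1)))) * ha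

theorem b_step (j k : ℕ) : (P0 j * cb' j (k + 1) + P1 j * cb' (j + 1) (k + 1) + P2 j * cb' (j + 2) (k + 1)) *
    ak (k + 1) = Gb' j k - Gb' j (k + 1) := by
  have ha := ak_succ k
  set z : ℚ := (-16) ^ ((j : ℤ) - k - 1) with hz
  have z0 : (-16 : ℚ) ^ (((j + 1 : ℕ) : ℤ) - k) = 256 * z := by
    rw [hz, show ((j + 1 : ℕ) : ℤ) - k = ((j : ℤ) - k - 1) + 2 by push_cast; ring, zpow_add₀ (by norm_num)]
    norm_num
    ring
  have z1 : (-16 : ℚ) ^ ((j : ℤ) - (k + 1 : ℕ)) = z := by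
    rw [hz]; congr 1; push_cast; ring
  have z2 : (-16 : ℚ) ^ (((j + 1 : ℕ) : ℤ) - (k + 1 : ℕ)) = -16 * z := by
    rw [hz, show ((j + 1 : ℕ) : ℤ) - (k + 1 : ℕ) = ((j : ℤ) - k - 1) + 1 by push_cast; ring,
      zpow_add₀ (by norm_num)]
    norm_num
    ring
  have z3 : (-16 : ℚ) ^ (((j + 2 : ℕ) : ℤ) - (k + 1 : ℕ)) = 256 * z := by
    rw [hz, show ((j + 2 : ℕ) : ℤ) - (k + 1 : ℕ) = ((j : ℤ) - k - 1) + 2 by push_cast; ring,
      zpow_add₀ (by norm_num)]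
    norm_num
    ring
  set B := ((j + 2 * k + 1).choose (3 * k) : ℚ) with hB
  have r1 := chU (j + 2 * k + 1) (3 * k)
  have r2 := chR (j + 2 * k + 2) (3 * k + 1)
  have r3 := chR (j + 2 * k + 2) (3 * k + 2)
  have r4 := chU (j + 2 * k + 2) (3 * k + 2)
  have r5 := chU (j + 2 * k + 2) (3 * k + 1)
  have r6 := chU (j + 2 * k + 3) (3 * k + 2)
  rw [← hB] at r1
  push_cast at r1 r2 r3 r4 r5 r6
  have s1 : ((j + 2 * k + 2).choose (3 * k + 3) : ℚ) * ((3 * k + 1) * (3 * k + 2) * (3 * k + 3)) =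
      B * ((j + 2 * k + 2) * (j - k + 1) * (j - k)) := by
    linear_combination (3 * k + 1 : ℚ) * (3 * k + 2) * r3 + (3 * k + 1 : ℚ) * (j - k) * r2 +
      (j - k : ℚ) * (j - k + 1) * r1
  have s2 : ((j + 2 * k + 3).choose (3 * k + 3) : ℚ) * ((3 * k + 1) * (3 * k + 2) * (3 * k + 3)) =
      B * ((j + 2 * k + 3) * (j + 2 * k + 2) * (j - k + 1)) := by
    linear_combination (3 * k + 1 : ℚ) * (3 * k + 2) * r4 + (3 * k + 1 : ℚ) * (j + 2 * k + 3) * r2 +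
      (j + 2 * k + 3 : ℚ) * (j - k + 1) * r1
  have s3 : ((j + 2 * k + 4).choose (3 * k + 3) : ℚ) * ((3 * k + 1) * (3 * k + 2) * (3 * k + 3)) =
      B * ((j + 2 * k + 4) * (j + 2 * k + 3) * (j + 2 * k + 2)) := by
    linear_combination (3 * k + 1 : ℚ) * (3 * k + 2) * r6 + (3 * k + 1 : ℚ) * (j + 2 * k + 4) * r5 +
      (j + 2 * k + 4 : ℚ) * (j + 2 * k + 3) * r1
  unfold Gb' cb' P0 P1 P2
  rw [z0, z1, z2, z3]
  have e0 : (j + 1 + 2 * k).choose (3 * k) = (j + 2 * k + 1).choose (3 * k) := by ring_nf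
  have e1 : (j + 2 * (k + 1)).choose (3 * (k + 1)) = (j + 2 * k + 2).choose (3 * k + 3) := by ring_nf
  have e2 : (j + 1 + 2 * (k + 1)).choose (3 * (k + 1)) = (j + 2 * k + 3).choose (3 * k + 3) := by ring_nf
  have e3 : (j + 2 + 2 * (k + 1)).choose (3 * (k + 1)) = (j + 2 * k + 4).choose (3 * k + 3) := by ring_nf
  rw [e0, e1, e2, e3]
  push_cast
  have hD : ((k : ℚ) + 1) ^ 3 * ((3 * k + 1) * (3 * k + 2) * (3 * k + 3)) ≠ 0 := by positivity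
  apply mul_right_cancel₀ hD
  rw [← hB]
  set W := (ak (k + 1) : ℚ)
  set V := (ak k : ℚ)
  set C1 := ((j + 2 * k + 2).choose (3 * k + 3) : ℚ)
  set C2 := ((j + 2 * k + 3).choose (3 * k + 3) : ℚ)
  set C3 := ((j + 2 * k + 4).choose (3 * k + 3) : ℚ)
  linear_combination (((k : ℚ) + 1) ^ 3 * W * z * (64 * (j + 1) ^ 3)) * s1 +
    (((k : ℚ) + 1) ^ 3 * W * (-16 * z) * (2 * (2 * j + 3) * (5 * (j + 2) ^ 2 - 5 * (j + 2) + 2) +
      6 * (2 * k + 3) * (3 * j + 5) * (j + 2 * k + 4))) * s2 +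
    (((k : ℚ) + 1) ^ 3 * W * (256 * z) * (j + 2) ^ 3) * s3 +
    (z * B * (64 * (j + 1 : ℚ) ^ 3 * ((j + 2 * k + 2) * (j - k + 1) * (j - k)) -
      16 * (2 * (2 * j + 3) * (5 * (j + 2) ^ 2 - 5 * (j + 2) + 2) +
      6 * (2 * k + 3) * (3 * j + 5) * (j + 2 * k + 4)) * ((j + 2 * k + 3) * (j + 2 * k + 2) * (j - k + 1)) +
      256 * (j + 2) ^ 3 * ((j + 2 * k + 4) * (j + 2 * k + 3) * (j + 2 * k + 2)))) * ha

end Pool.Agent.H547
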