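import Pool.Agent.H547.ZB

set_option autoImplicit false

/-!
# Three expansions of one function of level six: the recurrences
-/

namespace Pool.Agent.H547

open Finset

/-- the certificate of the third expansion -/
def Uc' (j n : ℕ) : ℚ := (2 * j + 3) * (((n : ℚ) + 1) ^ 3 * cc' (j + 1) n * An (n + 1) / (2 * n + 1) +
  32 * (n + 1) * (2 * n + 1) * cc' (j + 1) (n + 1) * An n)

theorem c_step (j n : ℕ) : (P0 j * cc' j (n + 1) + P1 j * cc' (j + 1) (n + 1) + P2 j * cc' (j + 2) (n + 1)) *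
    An (n + 1) = Uc' j n - Uc' j (n + 1) := by
  have ha := An_rec n
  set z : ℚ := (-8) ^ ((j : ℤ) - n - 1) with hz
  have z0 : (-8 : ℚ) ^ (((j + 1 : ℕ) : ℤ) - n) = 64 * z := by
    rw [hz, show ((j + 1 : ℕ) : ℤ) - n = ((j : ℤ) - n - 1) + 2 by push_cast; ring, zpow_add₀ (by norm_num)]
    norm_num
    ring
  have z1 : (-8 : ℚ) ^ ((j : ℤ) - (n + 1 : ℕ)) = z := by
    rw [hz]; congr 1; push_cast; ring
  have z2 : (-8 : ℚ) ^ (((j + 1 : ℕ) : ℤ) - (n + 1 : ℕ)) = -8 * z := by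
    rw [hz, show ((j + 1 : ℕ) : ℤ) - (n + 1 : ℕ) = ((j : ℤ) - n - 1) + 1 by push_cast; ring,
      zpow_add₀ (by norm_num)]
    norm_num
    ring
  have z3 : (-8 : ℚ) ^ (((j + 2 : ℕ) : ℤ) - (n + 1 : ℕ)) = 64 * z := by
    rw [hz, show ((j + 2 : ℕ) : ℤ) - (n + 1 : ℕ) = ((j : ℤ) - n - 1) + 2 by push_cast; ring,
      zpow_add₀ (by norm_num)]
    norm_num
    ring
  have z4 : (-8 : ℚ) ^ (((j + 1 : ℕ) : ℤ) - (n + 1 + 1 : ℕ)) = z := by
    rw [hz]; congr 1; push_cast; ring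
  set B := ((j + n + 1).choose (2 * n) : ℚ) with hB
  have r1 := chR (j + n + 1) (2 * n)
  have r2 := chR (j + n + 1) (2 * n + 1)
  have r3 := chU (j + n + 1) (2 * n + 1)
  have r4 := chU (j + n + 1) (2 * n)
  have r5 := chU (j + n + 2) (2 * n + 1)
  have r6 := chR (j + n + 3) (2 * n + 2)
  have r7 := chR (j + n + 3) (2 * n + 3)
  rw [← hB] at r1 r4
  push_cast at r1 r2 r3 r4 r5 r6 r7
  have s1 : ((j + n + 1).choose (2 * n + 2) : ℚ) * ((2 * n + 1) * (2 * n + 2)) =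
      B * ((j + 1 - n) * (j - n)) := by
    linear_combination (2 * n + 1 : ℚ) * r2 + (j - n : ℚ) * r1
  have s2 : ((j + n + 2).choose (2 * n + 2) : ℚ) * ((2 * n + 1) * (2 * n + 2)) =
      B * ((j + n + 2) * (j + 1 - n)) := by
    linear_combination (2 * n + 1 : ℚ) * r3 + (j + n + 2 : ℚ) * r1
  have s3 : ((j + n + 3).choose (2 * n + 2) : ℚ) * ((2 * n + 1) * (2 * n + 2)) =
      B * ((j + n + 3) * (j + n + 2)) := by
    linear_combination (2 * n + 1 : ℚ) * r5 + (j + n + 3 : ℚ) * r4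
  have s4 : ((j + n + 3).choose (2 * n + 4) : ℚ) * ((2 * n + 3) * (2 * n + 4)) =
      ((j + n + 3).choose (2 * n + 2) : ℚ) * ((j - n) * (j + 1 - n)) := by
    linear_combination (2 * n + 3 : ℚ) * r7 + (j - n : ℚ) * r6
  unfold Uc' cc' P0 P1 P2
  rw [z0, z1, z2, z3, z4]
  have e0 : (j + 1 + n).choose (2 * n) = (j + n + 1).choose (2 * n) := by ring_nf
  have e1 : (j + (n + 1)).choose (2 * (n + 1)) = (j + n + 1).choose (2 * n + 2) := by ring_nf
  have e2 : (j + 1 + (n + 1)).choose (2 * (n + 1)) = (j + n + 2).choose (2 * n + 2) := by ring_nf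
  have e3 : (j + 2 + (n + 1)).choose (2 * (n + 1)) = (j + n + 3).choose (2 * n + 2) := by ring_nf
  have e4 : (j + 1 + (n + 1 + 1)).choose (2 * (n + 1 + 1)) = (j + n + 3).choose (2 * n + 4) := by ring_nf
  rw [e0, e1, e2, e3, e4, ← hB]
  push_cast
  set W := (An (n + 1) : ℚ)
  set V := (An n : ℚ)
  set T := (An (n + 1 + 1) : ℚ)
  set C1 := ((j + n + 1).choose (2 * n + 2) : ℚ)
  set C2 := ((j + n + 2).choose (2 * n + 2) : ℚ)
  set C3 := ((j + n + 3).choose (2 * n + 2) : ℚ)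
  set C4 := ((j + n + 3).choose (2 * n + 4) : ℚ)
  have h1 : (2 * (n : ℚ) + 1) ≠ 0 := by positivity
  have h3 : (2 * ((n : ℚ) + 1) + 1) ≠ 0 := by positivity
  have hC2 : C2 = B * ((j + n + 2) * (j + 1 - n)) / ((2 * n + 1) * (2 * n + 2)) := by
    rw [eq_div_iff (by positivity)]; exact s2
  have hC1 : C1 = B * ((j + 1 - n) * (j - n)) / ((2 * n + 1) * (2 * n + 2)) := by
    rw [eq_div_iff (by positivity)]; exact s1
  have hC3 : C3 = B * ((j + n + 3) * (j + n + 2)) / ((2 * n + 1) * (2 * n + 2)) := by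
    rw [eq_div_iff (by positivity)]; exact s3
  have hC4 : C4 = C3 * ((j - n) * (j + 1 - n)) / ((2 * n + 3) * (2 * n + 4)) := by
    rw [eq_div_iff (by positivity)]; exact s4
  have hT : T = (2 * (2 * n + 3) * (7 * ((n : ℚ) + 1) ^ 2 + 7 * (n + 1) + 2) * W +
    32 * ((n : ℚ) + 1) * (4 * ((n : ℚ) + 1) ^ 2 - 1) * V) / ((n : ℚ) + 2) ^ 3 := by
    rw [eq_div_iff (by positivity)]
    linear_combination ha
  have hn1 : ((n : ℚ) + 1) ≠ 0 := by positivity
  have hn2 : ((n : ℚ) + 2) ≠ 0 := by positivity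
  have hn3 : (2 * (n : ℚ) + 3) ≠ 0 := by positivity
  have hn4 : (2 * (n : ℚ) + 4) ≠ 0 := by positivity
  have hn5 : (2 * (n : ℚ) + 2) ≠ 0 := by positivity
  rw [hC4, hC1, hC2, hC3, hT]
  field_simp
  ring

section tail

theorem ca_zero {j k : ℕ} (h : j < 2 * k) : ca' j k = 0 := by
  unfold ca'
  rw [Nat.choose_eq_zero_of_lt (by omega)]
  simp

theorem cb_zero {j k : ℕ} (h : j < k) : cb' j k = 0 := by
  unfold cb'
  rw [Nat.choose_eq_zero_of_lt (by omega)]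
  simp

theorem cc_zero {j k : ℕ} (h : j < k) : cc' j k = 0 := by
  unfold cc'
  rw [Nat.choose_eq_zero_of_lt (by omega)]
  simp

end tail

/-- the three expansions -/
def ga (j : ℕ) : ℚ := ∑ k ∈ range (j + 1), ca' j k * ak k
def gb (j : ℕ) : ℚ := ∑ k ∈ range (j + 1), cb' j k * ak k
def gc (j : ℕ) : ℚ := ∑ k ∈ range (j + 1), cc' j k * An k

theorem sum_ext' (f : ℕ → ℚ) (n N : ℕ) (h : n ≤ N) (h0 : ∀ k, n ≤ k → f k = 0) :
    ∑ k ∈ range N, f k = ∑ k ∈ range n, f k := by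
  symm
  refine sum_subset (fun k hk => ?_) (fun k _ hk => ?_)
  · rw [mem_range] at hk ⊢
    omega
  · rw [mem_range, not_lt] at hk
    exact h0 k hk

theorem ga_ext (j N : ℕ) (h : j + 1 ≤ N) : ∑ k ∈ range N, ca' j k * ak k = ga j :=
  sum_ext' _ _ _ h fun k hk => by rw [ca_zero (by omega), zero_mul]

theorem gb_ext (j N : ℕ) (h : j + 1 ≤ N) : ∑ k ∈ range N, cb' j k * ak k = gb j :=
  sum_ext' _ _ _ h fun k hk => by rw [cb_zero (by omega), zero_mul]

theorem gc_ext (j N : ℕ) (h : j + 1 ≤ N) : ∑ k ∈ range N, cc' j k * An k = gc j :=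
  sum_ext' _ _ _ h fun k hk => by rw [cc_zero (by omega), zero_mul]

theorem ga_rec (j : ℕ) : P0 j * ga j + P1 j * ga (j + 1) + P2 j * ga (j + 2) = 0 := by
  rw [← ga_ext j (j + 4) (by omega), ← ga_ext (j + 1) (j + 4) (by omega), ← ga_ext (j + 2) (j + 4) (by omega),
    mul_sum, mul_sum, mul_sum, ← sum_add_distrib, ← sum_add_distrib]
  have e : ∀ k ∈ range (j + 4), P0 j * (ca' j k * ak k) + P1 j * (ca' (j + 1) k * ak k) +
      P2 j * (ca' (j + 2) k * ak k) = (P0 j * ca' j k + P1 j * ca' (j + 1) k + P2 j * ca' (j + 2) k) * ak k := by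
    intro k _; ring
  rw [sum_congr rfl e, sum_range_succ']
  rw [sum_congr rfl fun k _ => a_step j k, sum_range_sub' (fun k => Ga' j k)]
  have h1 : Ga' j (j + 3) = 0 := by
    unfold Ga'
    rw [ca_zero (by omega)]; ring
  rw [h1]
  unfold Ga' ca' P0 P1 P2
  have z2 : (-4 : ℚ) ^ (((j + 1 : ℕ) : ℤ) - 2 * (0 : ℕ)) = -4 * (-4 : ℚ) ^ (j : ℤ) := by
    rw [show ((j + 1 : ℕ) : ℤ) - 2 * (0 : ℕ) = (j : ℤ) + 1 by push_cast; ring, zpow_add₀ (by norm_num)]
    norm_num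
    ring
  have z3 : (-4 : ℚ) ^ (((j + 2 : ℕ) : ℤ) - 2 * (0 : ℕ)) = 16 * (-4 : ℚ) ^ (j : ℤ) := by
    rw [show ((j + 2 : ℕ) : ℤ) - 2 * (0 : ℕ) = (j : ℤ) + 2 by push_cast; ring, zpow_add₀ (by norm_num)]
    norm_num
    ring
  have z1 : (-4 : ℚ) ^ ((j : ℤ) - 2 * (0 : ℕ)) = (-4 : ℚ) ^ (j : ℤ) := by
    norm_num
  rw [z1, z2, z3]
  simp [ak]
  ring

theorem gb_rec (j : ℕ) : P0 j * gb j + P1 j * gb (j + 1) + P2 j * gb (j + 2) = 0 := by
  rw [← gb_ext j (j + 4) (by omega), ← gb_ext (j + 1) (j + 4) (by omega), ← gb_ext (j + 2) (j + 4) (by omega),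
    mul_sum, mul_sum, mul_sum, ← sum_add_distrib, ← sum_add_distrib]
  have e : ∀ k ∈ range (j + 4), P0 j * (cb' j k * ak k) + P1 j * (cb' (j + 1) k * ak k) +
      P2 j * (cb' (j + 2) k * ak k) = (P0 j * cb' j k + P1 j * cb' (j + 1) k + P2 j * cb' (j + 2) k) * ak k := by
    intro k _; ring
  rw [sum_congr rfl e, sum_range_succ']
  rw [sum_congr rfl fun k _ => b_step j k, sum_range_sub' (fun k => Gb' j k)]
  have h1 : Gb' j (j + 3) = 0 := by
    unfold Gb'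
    rw [cb_zero (by omega)]; ring
  rw [h1]
  unfold Gb' cb' P0 P1 P2
  have z2 : (-16 : ℚ) ^ (((j + 1 : ℕ) : ℤ) - (0 : ℕ)) = -16 * (-16 : ℚ) ^ (j : ℤ) := by
    rw [show ((j + 1 : ℕ) : ℤ) - (0 : ℕ) = (j : ℤ) + 1 by push_cast; ring, zpow_add₀ (by norm_num)]
    norm_num
    ring
  have z3 : (-16 : ℚ) ^ (((j + 2 : ℕ) : ℤ) - (0 : ℕ)) = 256 * (-16 : ℚ) ^ (j : ℤ) := by
    rw [show ((j + 2 : ℕ) : ℤ) - (0 : ℕ) = (j : ℤ) + 2 by push_cast; ring, zpow_add₀ (by norm_num)]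
    norm_num
    ring
  have z1 : (-16 : ℚ) ^ ((j : ℤ) - (0 : ℕ)) = (-16 : ℚ) ^ (j : ℤ) := by
    norm_num
  rw [z1, z2, z3]
  simp [ak]
  ring

theorem An_zero : An 0 = 1 := by decide
theorem An_one : An 1 = 4 := by decide

theorem gc_rec (j : ℕ) : P0 j * gc j + P1 j * gc (j + 1) + P2 j * gc (j + 2) = 0 := by
  rw [← gc_ext j (j + 4) (by omega), ← gc_ext (j + 1) (j + 4) (by omega), ← gc_ext (j + 2) (j + 4) (by omega),
    mul_sum, mul_sum, mul_sum, ← sum_add_distrib, ← sum_add_distrib]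
  have e : ∀ k ∈ range (j + 4), P0 j * (cc' j k * An k) + P1 j * (cc' (j + 1) k * An k) +
      P2 j * (cc' (j + 2) k * An k) = (P0 j * cc' j k + P1 j * cc' (j + 1) k + P2 j * cc' (j + 2) k) * An k := by
    intro k _; ring
  rw [sum_congr rfl e, sum_range_succ']
  rw [sum_congr rfl fun k _ => c_step j k, sum_range_sub' (fun k => Uc' j k)]
  have h1 : Uc' j (j + 3) = 0 := by
    unfold Uc'
    rw [cc_zero (by omega), cc_zero (by omega)]; ring
  rw [h1]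
  unfold Uc' cc' P0 P1 P2
  have z2 : (-8 : ℚ) ^ (((j + 1 : ℕ) : ℤ) - (0 : ℕ)) = -8 * (-8 : ℚ) ^ (j : ℤ) := by
    rw [show ((j + 1 : ℕ) : ℤ) - (0 : ℕ) = (j : ℤ) + 1 by push_cast; ring, zpow_add₀ (by norm_num)]
    norm_num
    ring
  have z3 : (-8 : ℚ) ^ (((j + 2 : ℕ) : ℤ) - (0 : ℕ)) = 64 * (-8 : ℚ) ^ (j : ℤ) := by
    rw [show ((j + 2 : ℕ) : ℤ) - (0 : ℕ) = (j : ℤ) + 2 by push_cast; ring, zpow_add₀ (by norm_num)]
    norm_num
    ring
  have z1 : (-8 : ℚ) ^ ((j : ℤ) - (0 : ℕ)) = (-8 : ℚ) ^ (j : ℤ) := by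
    norm_num
  have z4 : (-8 : ℚ) ^ (((j + 1 : ℕ) : ℤ) - (0 + 1 : ℕ)) = (-8 : ℚ) ^ (j : ℤ) := by
    congr 1; push_cast; ring
  rw [z1, z2, z3, z4]
  have r1 := chR (j + 2) 1
  have hc : ((j + 2).choose 2 : ℚ) * 2 = (j + 2) * (j + 1) := by
    rw [Nat.choose_one_right] at r1
    push_cast at r1
    linear_combination r1
  have e5 : (j + 1 + (0 + 1)).choose (2 * (0 + 1)) = (j + 2).choose 2 := by ring_nf
  rw [e5]
  simp only [Nat.choose_zero_right, An_zero, An_one, zero_add, mul_zero, Nat.cast_zero, Nat.cast_one]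
  push_cast
  linear_combination (16 * (2 * (j : ℚ) + 3) * (-8 : ℚ) ^ (j : ℤ)) * hc

theorem three_eq (j : ℕ) : ga j = gc j ∧ gb j = gc j := by
  induction j using Nat.strong_induction_on with
  | _ j ih =>
    rcases j with _ | _ | j
    · simp [ga, gb, gc, ca', cb', cc', ak, An_zero]
    · constructor
      · simp only [ga, gc, ca', cc', sum_range_succ, sum_range_zero, An_zero, An_one, ak]
        norm_num
      · simp only [gb, gc, cb', cc', sum_range_succ, sum_range_zero, An_zero, An_one, ak]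
        norm_num [Nat.centralBinom, Nat.choose]
    · have h2 : P2 j ≠ 0 := by unfold P2; positivity
      obtain ⟨a0, b0⟩ := ih j (by omega)
      obtain ⟨a1, b1⟩ := ih (j + 1) (by omega)
      have ra := ga_rec j
      have rb := gb_rec j
      have rc := gc_rec j
      constructor
      · apply mul_left_cancel₀ h2
        rw [a0, a1] at ra
        linear_combination ra - rc
      · apply mul_left_cancel₀ h2
        rw [b0, b1] at rb
        linear_combination rb - rc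

end Pool.Agent.H547
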