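import Pool.Agent.H547.ZD

set_option autoImplicit false

/-!
# The reflection of polynomials of bounded degree
-/

namespace Pool.Agent.H547

open Finset Polynomial

section W

variable {R : Type*} [CommRing R]

/-- the operation `B ↦ X^N B(u/X)` -/
noncomputable def W (u : R) (N : ℕ) (B : R[X]) : R[X] := reflect N (B.comp (C u * X))

theorem W_add (u : R) (N : ℕ) (B B' : R[X]) : W u N (B + B') = W u N B + W u N B' := by
  unfold W; rw [add_comp, reflect_add]

theorem W_sub (u : R) (N : ℕ) (B B' : R[X]) : W u N (B - B') = W u N B - W u N B' := by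
  unfold W; rw [sub_comp, reflect_sub]

theorem W_Cmul (u : R) (N : ℕ) (c : R) (B : R[X]) : W u N (C c * B) = C c * W u N B := by
  unfold W; rw [mul_comp, C_comp, reflect_C_mul]

theorem W_sum (u : R) (N : ℕ) {ι : Type*} (s : Finset ι) (f : ι → R[X]) :
    W u N (∑ i ∈ s, f i) = ∑ i ∈ s, W u N (f i) := by
  classical
  induction s using Finset.induction_on with
  | empty => simp [W]
  | insert a s ha ih => rw [sum_insert ha, sum_insert ha, W_add, ih]

theorem comp_deg {u : R} {N : ℕ} {B : R[X]} (h : B.natDegree ≤ N) : (B.comp (C u * X)).natDegree ≤ N := by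
  refine natDegree_comp_le.trans ?_
  calc B.natDegree * (C u * X : R[X]).natDegree ≤ N * 1 := Nat.mul_le_mul h (by compute_degree)
    _ = N := mul_one N

theorem W_mul (u : R) {N M : ℕ} {B B' : R[X]} (h : B.natDegree ≤ N) (h' : B'.natDegree ≤ M) :
    W u (N + M) (B * B') = W u N B * W u M B' := by
  unfold W
  rw [mul_comp, reflect_mul _ _ (comp_deg h) (comp_deg h')]

theorem W_coeff (u : R) {N j : ℕ} (h : j ≤ N) (B : R[X]) : (W u N B).coeff (N - j) = B.coeff j * u ^ j := by
  unfold W
  rw [coeff_reflect, revAt_le (by omega), comp_C_mul_X_coeff, show N - (N - j) = j by omega]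

theorem W_pow (u : R) {d : ℕ} {B : R[X]} (h : B.natDegree ≤ d) (n : ℕ) : W u (n * d) (B ^ n) = (W u d B) ^ n := by
  induction n with
  | zero => simp [W]
  | succ n ih =>
    have hd : (B ^ n).natDegree ≤ n * d := natDegree_pow_le.trans (Nat.mul_le_mul le_rfl h)
    rw [pow_succ, pow_succ, Nat.succ_mul, W_mul u hd h, ih]

theorem lin_deg (c : R) : (1 + C c * X : R[X]).natDegree ≤ 1 := by compute_degree

theorem lin_pow_deg (c : R) (n : ℕ) : ((1 + C c * X : R[X]) ^ n).natDegree ≤ n := by
  refine natDegree_pow_le.trans ?_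
  calc n * (1 + C c * X : R[X]).natDegree ≤ n * 1 := Nat.mul_le_mul le_rfl (lin_deg c)
    _ = n := mul_one n

theorem W_lin {u c v c' : R} (h1 : c * u = v) (h2 : v * c' = 1) : W u 1 (1 + C c * X) = C v * (1 + C c' * X) := by
  unfold W
  have e : (1 + C c * X : R[X]).comp (C u * X) = 1 + C v * X := by
    rw [add_comp, one_comp, mul_comp, C_comp, X_comp, ← h1, C_mul]; ring
  rw [e, reflect_add, reflect_one, reflect_C_mul, reflect_one_X, pow_one, mul_add, ← mul_assoc, ← C_mul, h2, C_1]
  ring

theorem W_lin_pow {u c v c' : R} (h1 : c * u = v) (h2 : v * c' = 1) (n : ℕ) :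
    W u n ((1 + C c * X) ^ n) = C (v ^ n) * (1 + C c' * X) ^ n := by
  have h := W_pow u (lin_deg c) n
  rw [mul_one, W_lin h1 h2, mul_pow, ← C_pow] at h
  exact h

theorem W_X_pow (u : R) {N j : ℕ} (h : j ≤ N) : W u N (X ^ j) = C (u ^ j) * X ^ (N - j) := by
  unfold W
  rw [X_pow_comp, mul_pow, ← C_pow, reflect_C_mul_X_pow, revAt_le h]

/-- one term of the families -/
theorem W_term {u c v c' : R} (h1 : c * u = v) (h2 : v * c' = 1) {a b k m : ℕ} (h : (a + b) * k ≤ m)
    (hu : u ^ a = v ^ (a + b)) :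
    W u m (X ^ (a * k) * (1 + C c * X) ^ (m - (a + b) * k)) =
      C (v ^ m) * (X ^ (b * k) * (1 + C c' * X) ^ (m - (a + b) * k)) := by
  have hm : m = (a + b) * k + (m - (a + b) * k) := by omega
  have hd : (X ^ (a * k) : R[X]).natDegree ≤ (a + b) * k := by
    refine (natDegree_X_pow_le _).trans ?_
    nlinarith
  have hle : a * k ≤ (a + b) * k := by nlinarith
  conv_lhs => rw [hm, show (a + b) * k + (m - (a + b) * k) - (a + b) * k = m - (a + b) * k by omega]
  rw [W_mul u hd (lin_pow_deg c _), W_X_pow u hle, W_lin_pow h1 h2,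
    show (a + b) * k - a * k = b * k by rw [add_mul]; omega]
  have e : u ^ (a * k) * v ^ (m - (a + b) * k) = v ^ m := by
    rw [pow_mul, hu, ← pow_mul, ← pow_add]
    congr 1
    omega
  rw [← e, C_mul]
  ring

end W

end Pool.Agent.H547
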