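import Pool.Agent.H547.ZE

set_option autoImplicit false

/-!
# The three families of polynomials
-/

namespace Pool.Agent.H547

open Finset Polynomial

section fam

variable {R : Type*} [CommRing R]

noncomputable def PA (K m : ℕ) : R[X] := ∑ k ∈ range K, C ((ak k : ℕ) : R) * (X ^ (2 * k) * (1 + C 4 * X) ^ (m - 3 * k))
noncomputable def PB (K m : ℕ) : R[X] := ∑ k ∈ range K, C ((ak k : ℕ) : R) * (X ^ k * (1 + C 16 * X) ^ (m - 3 * k))
noncomputable def PC (K m : ℕ) : R[X] := ∑ k ∈ range K, C ((An k : ℕ) : R) * (X ^ k * (1 + C 8 * X) ^ (m - 2 * k))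

theorem PA_deg {K m : ℕ} (h : ∀ k < K, 3 * k ≤ m) : (PA K m : R[X]).natDegree ≤ m := by
  unfold PA
  refine natDegree_sum_le_of_forall_le _ _ fun k hk => ?_
  have := h k (mem_range.mp hk)
  refine (natDegree_C_mul_le _ _).trans ?_
  refine natDegree_mul_le.trans ?_
  have h1 := natDegree_X_pow_le (R := R) (2 * k)
  have h2 := lin_pow_deg (4 : R) (m - 3 * k)
  omega

theorem PB_deg {K m : ℕ} (h : ∀ k < K, 3 * k ≤ m) : (PB K m : R[X]).natDegree ≤ m := by
  unfold PB
  refine natDegree_sum_le_of_forall_le _ _ fun k hk => ?_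
  have := h k (mem_range.mp hk)
  refine (natDegree_C_mul_le _ _).trans ?_
  refine natDegree_mul_le.trans ?_
  have h1 := natDegree_X_pow_le (R := R) k
  have h2 := lin_pow_deg (16 : R) (m - 3 * k)
  omega

theorem PC_deg {K m : ℕ} (h : ∀ k < K, 2 * k ≤ m) : (PC K m : R[X]).natDegree ≤ m := by
  unfold PC
  refine natDegree_sum_le_of_forall_le _ _ fun k hk => ?_
  have := h k (mem_range.mp hk)
  refine (natDegree_C_mul_le _ _).trans ?_
  refine natDegree_mul_le.trans ?_
  have h1 := natDegree_X_pow_le (R := R) k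
  have h2 := lin_pow_deg (8 : R) (m - 2 * k)
  omega

theorem W_PA {h : R} (hh : 2 * h = 1) {K m : ℕ} (hK : ∀ k < K, 3 * k ≤ m) :
    W (h ^ 6) m (PA K m) = C ((h ^ 4) ^ m) * PB K m := by
  unfold PA PB
  rw [W_sum, mul_sum]
  refine sum_congr rfl fun k hk => ?_
  have h1 : (4 : R) * h ^ 6 = h ^ 4 := by linear_combination h ^ 4 * (2 * h + 1) * hh
  have h2 : h ^ 4 * (16 : R) = 1 := by linear_combination (8 * h ^ 3 + 4 * h ^ 2 + 2 * h + 1) * hh
  have := W_term (u := h ^ 6) h1 h2 (a := 2) (b := 1) (k := k) (m := m) (hK k (mem_range.mp hk)) (by ring)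
  rw [W_Cmul, this, one_mul]
  ring

theorem W_PB {h : R} (hh : 2 * h = 1) {K m : ℕ} (hK : ∀ k < K, 3 * k ≤ m) :
    W (h ^ 6) m (PB K m) = C ((h ^ 2) ^ m) * PA K m := by
  unfold PA PB
  rw [W_sum, mul_sum]
  refine sum_congr rfl fun k hk => ?_
  have h1 : (16 : R) * h ^ 6 = h ^ 2 := by
    linear_combination h ^ 2 * (8 * h ^ 3 + 4 * h ^ 2 + 2 * h + 1) * hh
  have h2 : h ^ 2 * (4 : R) = 1 := by linear_combination (2 * h + 1) * hh
  have := W_term (u := h ^ 6) h1 h2 (a := 1) (b := 2) (k := k) (m := m) (hK k (mem_range.mp hk)) (by ring)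
  rw [one_mul] at this
  rw [W_Cmul, this]
  ring

theorem W_PC {h : R} (hh : 2 * h = 1) {K m : ℕ} (hK : ∀ k < K, 2 * k ≤ m) :
    W (h ^ 6) m (PC K m) = C ((h ^ 3) ^ m) * PC K m := by
  unfold PC
  rw [W_sum, mul_sum]
  refine sum_congr rfl fun k hk => ?_
  have h1 : (8 : R) * h ^ 6 = h ^ 3 := by
    linear_combination h ^ 3 * (4 * h ^ 2 + 2 * h + 1) * hh
  have h2 : h ^ 3 * (8 : R) = 1 := by linear_combination (4 * h ^ 2 + 2 * h + 1) * hh
  have := W_term (u := h ^ 6) h1 h2 (a := 1) (b := 1) (k := k) (m := m) (hK k (mem_range.mp hk)) (by ring)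
  rw [one_mul] at this
  rw [W_Cmul, this]
  ring

/-- passage to power series -/
theorem PA_ps {K m : ℕ} (hK : ∀ k < K, 3 * k + 1 ≤ m) : ((PA K (m - 1) : R[X]) : PowerSeries R) =
    (((1 + C 4 * X) ^ m : R[X]) : PowerSeries R) * Sa K := by
  unfold PA Sa
  rw [mul_sum, ← coeToPowerSeries.ringHom_apply, map_sum]
  refine sum_congr rfl fun k hk => ?_
  have hk' := hK k (mem_range.mp hk)
  have hi := ic_mul (4 : R)
  have e : (1 + PowerSeries.C (4 : R) * PowerSeries.X) ^ m * ic (4 : R) ^ (3 * k + 1) =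
      (1 + PowerSeries.C (4 : R) * PowerSeries.X) ^ (m - 1 - 3 * k) := by
    have : m = (m - 1 - 3 * k) + (3 * k + 1) := by omega
    conv_lhs => rw [this]
    rw [pow_add, mul_assoc, ← mul_pow, hi, one_pow, mul_one]
  simp only [map_mul, map_pow, coeToPowerSeries.ringHom_apply, Polynomial.coe_C, Polynomial.coe_X, Polynomial.coe_pow, Polynomial.coe_add, Polynomial.coe_one, Polynomial.coe_mul, map_add,
    map_one]
  rw [← e]
  ring

theorem PB_ps {K m : ℕ} (hK : ∀ k < K, 3 * k + 1 ≤ m) : ((PB K (m - 1) : R[X]) : PowerSeries R) =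
    (((1 + C 16 * X) ^ m : R[X]) : PowerSeries R) * Sb K := by
  unfold PB Sb
  rw [mul_sum, ← coeToPowerSeries.ringHom_apply, map_sum]
  refine sum_congr rfl fun k hk => ?_
  have hk' := hK k (mem_range.mp hk)
  have hi := ic_mul (16 : R)
  have e : (1 + PowerSeries.C (16 : R) * PowerSeries.X) ^ m * ic (16 : R) ^ (3 * k + 1) =
      (1 + PowerSeries.C (16 : R) * PowerSeries.X) ^ (m - 1 - 3 * k) := by
    have : m = (m - 1 - 3 * k) + (3 * k + 1) := by omega
    conv_lhs => rw [this]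
    rw [pow_add, mul_assoc, ← mul_pow, hi, one_pow, mul_one]
  simp only [map_mul, map_pow, coeToPowerSeries.ringHom_apply, Polynomial.coe_C, Polynomial.coe_X, Polynomial.coe_pow, Polynomial.coe_add, Polynomial.coe_one, Polynomial.coe_mul, map_add,
    map_one]
  rw [← e]
  ring

theorem PC_ps {K m : ℕ} (hK : ∀ k < K, 2 * k + 1 ≤ m) : ((PC K (m - 1) : R[X]) : PowerSeries R) =
    (((1 + C 8 * X) ^ m : R[X]) : PowerSeries R) * Sc K := by
  unfold PC Sc
  rw [mul_sum, ← coeToPowerSeries.ringHom_apply, map_sum]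
  refine sum_congr rfl fun k hk => ?_
  have hk' := hK k (mem_range.mp hk)
  have hi := ic_mul (8 : R)
  have e : (1 + PowerSeries.C (8 : R) * PowerSeries.X) ^ m * ic (8 : R) ^ (2 * k + 1) =
      (1 + PowerSeries.C (8 : R) * PowerSeries.X) ^ (m - 1 - 2 * k) := by
    have : m = (m - 1 - 2 * k) + (2 * k + 1) := by omega
    conv_lhs => rw [this]
    rw [pow_add, mul_assoc, ← mul_pow, hi, one_pow, mul_one]
  simp only [map_mul, map_pow, coeToPowerSeries.ringHom_apply, Polynomial.coe_C, Polynomial.coe_X, Polynomial.coe_pow, Polynomial.coe_add, Polynomial.coe_one, Polynomial.coe_mul, map_add,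
    map_one]
  rw [← e]
  ring

end fam

section prime

variable {p : ℕ} [hp : Fact p.Prime]

theorem dvd_cb {k : ℕ} (h1 : p ≤ 2 * k) (h2 : k < p) : p ∣ k.centralBinom := by
  rw [Nat.centralBinom]
  exact hp.out.dvd_choose h2 (by omega) h1

theorem dvd_An {k : ℕ} (h1 : p ≤ 2 * k) (h2 : k < p) : p ∣ An k := (dvd_cb h1 h2).mul_right _

theorem dvd_ak2 {k : ℕ} (h1 : p ≤ 2 * k) (h2 : k < p) : p ^ 2 ∣ ak k := by
  have h := dvd_cb h1 h2
  unfold ak
  rw [sq]
  refine mul_dvd_mul h ?_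
  rw [Nat.centralBinom] at h
  exact h.mul_right _

theorem dvd_ak {k : ℕ} (h1 : p ≤ 3 * k) (h2 : k < p) : p ∣ ak k := by
  rcases Nat.lt_or_ge (2 * k) p with h | h
  · have : p ∣ (3 * k).choose k := hp.out.dvd_choose h2 (by omega) h1
    unfold ak
    exact (this.mul_left _).mul_left _
  · exact (dvd_pow_self p two_ne_zero).trans (dvd_ak2 h h2)

end prime

end Pool.Agent.H547
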