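import Pool.Agent.H547.ZF

set_option autoImplicit false

/-!
# The relation between the three families
-/

set_option linter.unusedSectionVars false

namespace Pool.Agent.H547

open Finset Polynomial

section main

variable {R : Type*} [CommRing R] {p : ℕ} [hp : Fact p.Prime]

theorem cast_dvd_zero (hp2 : (p : R) ^ 2 = 0) {n : ℕ} (h : p ^ 2 ∣ n) : (n : R) = 0 := by
  obtain ⟨m, rfl⟩ := h
  push_cast
  rw [hp2, zero_mul]

theorem cast_dvd_one (hp2 : (p : R) ^ 2 = 0) {n : ℕ} (h : p ∣ n) : (p : R) * (n : R) = 0 := by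
  obtain ⟨m, rfl⟩ := h
  push_cast
  linear_combination (m : R) * hp2

/-- the Frobenius difference is divisible by `p` -/
theorem ML_dvd (c : ℕ) {S : Type*} [CommRing S] (s : S) : ∃ r : S, (1 + (c : S) * s ^ p) - (1 + (c : S) * s) ^ p = (p : S) * r := by
  obtain ⟨r, hr⟩ := exists_add_pow_prime_eq hp.out (1 : S) ((c : S) * s)
  have h2 : ∃ q : ℤ, (c : ℤ) ^ p - c = p * q := by
    have h1 : ((((c : ℤ) ^ p - c : ℤ)) : ZMod p) = 0 := by
      push_cast
      rw [ZMod.pow_card, sub_self]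
    exact (ZMod.intCast_zmod_eq_zero_iff_dvd _ p).mp (by exact_mod_cast h1)
  obtain ⟨q, hq⟩ := h2
  have hq' : (c : S) ^ p - c = p * q := by
    have := congrArg (Int.cast : ℤ → S) hq
    push_cast at this
    exact this
  refine ⟨-(q : S) * s ^ p - (c : S) * s * r, ?_⟩
  rw [hr, mul_pow, one_pow]
  linear_combination -(s ^ p) * hq'

theorem h_pow {h : R} (hh : 2 * h = 1) (hp3 : 3 < p) : ∃ f : R, h ^ (p - 1) = 1 + p * f := by
  have h2 : ∃ q : ℤ, (2 : ℤ) ^ (p - 1) - 1 = p * q := by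
    have h1 : ((((2 : ℤ) ^ (p - 1) - 1 : ℤ)) : ZMod p) = 0 := by
      push_cast
      have : (2 : ZMod p) ≠ 0 := by
        intro h0
        have : ((2 : ℕ) : ZMod p) = 0 := by exact_mod_cast h0
        rw [ZMod.natCast_eq_zero_iff] at this
        have := Nat.le_of_dvd (by norm_num) this
        omega
      rw [ZMod.pow_card_sub_one_eq_one this, sub_self]
    exact (ZMod.intCast_zmod_eq_zero_iff_dvd _ p).mp (by exact_mod_cast h1)
  obtain ⟨q, hq⟩ := h2
  have hq' : (2 : R) ^ (p - 1) - 1 = p * q := by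
    have := congrArg (Int.cast : ℤ → R) hq
    push_cast at this
    exact this
  have hm : (2 : R) ^ (p - 1) * h ^ (p - 1) = 1 := by rw [← mul_pow, hh, one_pow]
  exact ⟨-(q : R) * h ^ (p - 1), by linear_combination -(h ^ (p - 1)) * hq' + hm⟩

end main

section BB

variable {R : Type*} [CommRing R] (p : ℕ)

noncomputable def BA : R[X] := PA ((p + 1) / 2) (2 * p - 1) +
  2 * PA (p / 3 + 1) (p - 1) * ((1 + C 4 * X ^ p) - (1 + C 4 * X) ^ p)
noncomputable def BB : R[X] := PB ((p + 1) / 2) (2 * p - 1) +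
  2 * PB (p / 3 + 1) (p - 1) * ((1 + C 16 * X ^ p) - (1 + C 16 * X) ^ p)
noncomputable def BC : R[X] := PC p (2 * p - 1) +
  2 * PC ((p + 1) / 2) (p - 1) * ((1 + C 8 * X ^ p) - (1 + C 8 * X) ^ p)

end BB

section deg

variable {R : Type*} [CommRing R] {p : ℕ} [hp : Fact p.Prime]

theorem ML_deg (c : R) : ((1 + C c * X ^ p : R[X]) - (1 + C c * X) ^ p).natDegree ≤ p := by
  refine (natDegree_sub_le _ _).trans (max_le ?_ (lin_pow_deg c p))
  compute_degree

theorem k13 (hp3 : 3 < p) {k : ℕ} (hk : k < p / 3 + 1) : 3 * k ≤ p - 1 := by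
  have h3 : ¬ p % 3 = 0 := by
    intro h
    have := (Nat.prime_dvd_prime_iff_eq Nat.prime_three hp.out).mp (Nat.dvd_of_mod_eq_zero h)
    omega
  omega

theorem odd_p (hp3 : 3 < p) : p % 2 = 1 := by
  rcases hp.out.eq_two_or_odd with h | h
  · omega
  · exact h

theorem two_mul_deg (P : R[X]) : (2 * P).natDegree ≤ P.natDegree := by
  have : (2 : R[X]) = C 2 := (map_ofNat C 2).symm
  rw [this]
  exact natDegree_C_mul_le _ _

theorem BA_deg (hp3 : 3 < p) : (BA p : R[X]).natDegree ≤ 2 * p - 1 := by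
  have ho := odd_p hp3
  unfold BA
  refine (natDegree_add_le _ _).trans (max_le (PA_deg fun k hk => by omega) ?_)
  refine natDegree_mul_le.trans ?_
  have h1 := ML_deg (R := R) (p := p) 4
  have h2 := (two_mul_deg (PA (p / 3 + 1) (p - 1) : R[X])).trans (PA_deg fun k hk => k13 hp3 hk)
  omega

theorem BB_deg (hp3 : 3 < p) : (BB p : R[X]).natDegree ≤ 2 * p - 1 := by
  have ho := odd_p hp3
  unfold BB
  refine (natDegree_add_le _ _).trans (max_le (PB_deg fun k hk => by omega) ?_)
  refine natDegree_mul_le.trans ?_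
  have h1 := ML_deg (R := R) (p := p) 16
  have h2 := (two_mul_deg (PB (p / 3 + 1) (p - 1) : R[X])).trans (PB_deg fun k hk => k13 hp3 hk)
  omega

theorem BC_deg (hp3 : 3 < p) : (BC p : R[X]).natDegree ≤ 2 * p - 1 := by
  have ho := odd_p hp3
  unfold BC
  refine (natDegree_add_le _ _).trans (max_le (PC_deg fun k hk => by omega) ?_)
  refine natDegree_mul_le.trans ?_
  have h1 := ML_deg (R := R) (p := p) 8
  have h2 := (two_mul_deg (PC ((p + 1) / 2) (p - 1) : R[X])).trans (PC_deg fun k hk => by omega)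
  omega

end deg

section abs

/-- abstract form of the computation modulo `X ^ p` -/
theorem abs1 {S : Type*} [CommRing S] {L M r G SK Sp S1 P T c : S} (hM : M = 1 + c * T) (hML : M - L = P * r)
    (hP : P ^ 2 = 0) (hSK : SK = Sp) (hS1 : P * S1 = P * Sp) (hG : T ∣ Sp - G) :
    T ∣ (L ^ 2 * SK + 2 * (L * S1) * (M - L)) - G := by
  obtain ⟨g, hg⟩ := hG
  refine ⟨M ^ 2 * g + (2 * c + c ^ 2 * T) * G, ?_⟩
  subst hSK
  have e1 : S1 * (M - L) = SK * (M - L) := by rw [hML]; linear_combination r * hS1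
  have e2 : (M - L) ^ 2 = 0 := by rw [hML, mul_pow, hP, zero_mul]
  have e3 : M ^ 2 - 1 = T * (2 * c + c ^ 2 * T) := by rw [hM]; ring
  linear_combination 2 * L * e1 - SK * e2 + M ^ 2 * hg + G * e3

theorem abs2 {S : Type*} [CommRing S] {L M r G Sp S1 P T c : S} (hM : M = 1 + c * T) (hML : M - L = P * r)
    (hP : P ^ 2 = 0) (hS1 : P * S1 = P * Sp) (hG : T ∣ Sp - G) :
    T ∣ P * (L * S1) - P * G := by
  obtain ⟨g, hg⟩ := hG
  refine ⟨P * g * M + P * G * c, ?_⟩
  have e1 : P * L = P * M := by linear_combination -P * hML - r * hP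
  linear_combination L * hS1 + Sp * e1 + P * M * hg + P * G * hM

end abs

section ser

open PowerSeries in
/-- the facts on the series used below -/
structure SerData {R : Type*} [CommRing R] (p : ℕ) (SK S1 : PowerSeries R) : Prop where
  dK : (X : PowerSeries R) ^ p ∣ SK - Gs
  d1 : PowerSeries.C (p : R) * S1 = PowerSeries.C (p : R) * SK

variable {R : Type*} [CommRing R] {p : ℕ} [hp : Fact p.Prime]

theorem SaKp (hp2 : (p : R) ^ 2 = 0) (hp3 : 3 < p) : SerData p (Sa ((p + 1) / 2) : PowerSeries R) (Sa (p / 3 + 1)) := by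
  have e1 : (Sa p : PowerSeries R) = Sa ((p + 1) / 2) := by
    unfold Sa
    refine sum_ext'' _ _ _ (by omega) fun k hk hk' => ?_
    rw [cast_dvd_zero (p := p) hp2 (dvd_ak2 (by omega) hk'), map_zero, zero_mul]
  constructor
  · rw [← e1]; exact Sa_dvd p
  · rw [← e1]
    unfold Sa
    rw [mul_sum, mul_sum]
    symm
    refine sum_ext'' _ _ _ (by omega) fun k hk hk' => ?_
    rw [← mul_assoc, ← map_mul, cast_dvd_one (p := p) hp2 (dvd_ak (by omega) hk'), map_zero, zero_mul]

theorem SbKp (hp2 : (p : R) ^ 2 = 0) (hp3 : 3 < p) : SerData p (Sb ((p + 1) / 2) : PowerSeries R) (Sb (p / 3 + 1)) := by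
  have e1 : (Sb p : PowerSeries R) = Sb ((p + 1) / 2) := by
    unfold Sb
    refine sum_ext'' _ _ _ (by omega) fun k hk hk' => ?_
    rw [cast_dvd_zero (p := p) hp2 (dvd_ak2 (by omega) hk'), map_zero, zero_mul]
  constructor
  · rw [← e1]; exact Sb_dvd p
  · rw [← e1]
    unfold Sb
    rw [mul_sum, mul_sum]
    symm
    refine sum_ext'' _ _ _ (by omega) fun k hk hk' => ?_
    rw [← mul_assoc, ← map_mul, cast_dvd_one (p := p) hp2 (dvd_ak (by omega) hk'), map_zero, zero_mul]

theorem ScKp (hp2 : (p : R) ^ 2 = 0) (hp3 : 3 < p) : SerData p (Sc p : PowerSeries R) (Sc ((p + 1) / 2)) := by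
  constructor
  · exact Sc_dvd p
  · unfold Sc
    rw [mul_sum, mul_sum]
    symm
    refine sum_ext'' _ _ _ (by omega) fun k hk hk' => ?_
    rw [← mul_assoc, ← map_mul, cast_dvd_one (p := p) hp2 (dvd_An (by omega) hk'), map_zero, zero_mul]

theorem cphi (P : R[X]) : (P : PowerSeries R) = coeToPowerSeries.ringHom P := rfl
theorem phiC (a : R) : coeToPowerSeries.ringHom (C a) = PowerSeries.C a := Polynomial.coe_C a
theorem phiX : coeToPowerSeries.ringHom (X : R[X]) = PowerSeries.X := Polynomial.coe_X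

/-- expansion of the `B` polynomials -/
theorem B_low (hp2 : (p : R) ^ 2 = 0) (c : ℕ) {PK P1 : R[X]} {SK S1 : PowerSeries R} (hs : SerData p SK S1)
    (hK : (PK : PowerSeries R) = (((1 + C (c : R) * X) ^ (2 * p) : R[X]) : PowerSeries R) * SK)
    (h1 : (P1 : PowerSeries R) = (((1 + C (c : R) * X) ^ p : R[X]) : PowerSeries R) * S1) :
    (PowerSeries.X : PowerSeries R) ^ p ∣
      ((PK + 2 * P1 * ((1 + C (c : R) * X ^ p) - (1 + C (c : R) * X) ^ p) : R[X]) : PowerSeries R) - Gs ∧
    (PowerSeries.X : PowerSeries R) ^ p ∣ ((C (p : R) * P1 : R[X]) : PowerSeries R) - PowerSeries.C (p : R) * Gs := by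
  obtain ⟨r, hr⟩ := ML_dvd (p := p) c (X : R[X])
  have hP : (PowerSeries.C (p : R)) ^ 2 = 0 := by rw [← map_pow, hp2, map_zero]
  simp only [cphi] at hK h1 ⊢
  have hML : (1 + PowerSeries.C (c : R) * PowerSeries.X ^ p : PowerSeries R) -
      coeToPowerSeries.ringHom ((1 + C (c : R) * X) ^ p : R[X]) = PowerSeries.C (p : R) * coeToPowerSeries.ringHom r := by
    have := congrArg (coeToPowerSeries.ringHom (R := R)) hr
    simp only [map_sub, map_mul, map_add, map_one, map_pow, phiC, phiX, map_natCast] at this ⊢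
    exact this
  constructor
  · have h := abs1 (T := PowerSeries.X ^ p) (c := PowerSeries.C (c : R)) rfl hML hP rfl hs.d1 hs.dK
    convert h using 2
    rw [map_add, map_mul, map_mul, map_ofNat, hK, h1]
    simp only [map_sub, map_mul, map_add, map_one, map_pow, phiC, phiX, map_natCast]
    ring
  · have h := abs2 (T := PowerSeries.X ^ p) (c := PowerSeries.C (c : R)) rfl hML hP hs.d1 hs.dK
    convert h using 2
    rw [map_mul, phiC, h1]

end ser

end Pool.Agent.H547
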