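import Pool.Agent.H547.ZG

set_option autoImplicit false
set_option linter.unusedSectionVars false

/-!
# The polynomial identity
-/

namespace Pool.Agent.H547

open Finset Polynomial

section low

variable {R : Type*} [CommRing R] {p : ℕ} [hp : Fact p.Prime]

theorem BA_low (hp2 : (p : R) ^ 2 = 0) (hp3 : 3 < p) :
    (PowerSeries.X : PowerSeries R) ^ p ∣ ((BA p : R[X]) : PowerSeries R) - Gs ∧
    (PowerSeries.X : PowerSeries R) ^ p ∣ ((C (p : R) * PA (p / 3 + 1) (p - 1) : R[X]) : PowerSeries R) -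
      PowerSeries.C (p : R) * Gs := by
  have ho := odd_p (p := p) hp3
  have h := B_low (p := p) hp2 4 (SaKp hp2 hp3) (PK := PA ((p + 1) / 2) (2 * p - 1)) (P1 := PA (p / 3 + 1) (p - 1))
    (by rw [Nat.cast_ofNat]; exact PA_ps fun k hk => by omega)
    (by rw [Nat.cast_ofNat]; exact PA_ps fun k hk => by have := k13 hp3 hk; omega)
  rw [Nat.cast_ofNat] at h
  exact h

theorem BB_low (hp2 : (p : R) ^ 2 = 0) (hp3 : 3 < p) :
    (PowerSeries.X : PowerSeries R) ^ p ∣ ((BB p : R[X]) : PowerSeries R) - Gs ∧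
    (PowerSeries.X : PowerSeries R) ^ p ∣ ((C (p : R) * PB (p / 3 + 1) (p - 1) : R[X]) : PowerSeries R) -
      PowerSeries.C (p : R) * Gs := by
  have ho := odd_p (p := p) hp3
  have h := B_low (p := p) hp2 16 (SbKp hp2 hp3) (PK := PB ((p + 1) / 2) (2 * p - 1)) (P1 := PB (p / 3 + 1) (p - 1))
    (by rw [Nat.cast_ofNat]; exact PB_ps fun k hk => by omega)
    (by rw [Nat.cast_ofNat]; exact PB_ps fun k hk => by have := k13 hp3 hk; omega)
  rw [Nat.cast_ofNat] at h
  exact h

theorem BC_low (hp2 : (p : R) ^ 2 = 0) (hp3 : 3 < p) :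
    (PowerSeries.X : PowerSeries R) ^ p ∣ ((BC p : R[X]) : PowerSeries R) - Gs ∧
    (PowerSeries.X : PowerSeries R) ^ p ∣ ((C (p : R) * PC ((p + 1) / 2) (p - 1) : R[X]) : PowerSeries R) -
      PowerSeries.C (p : R) * Gs := by
  have ho := odd_p (p := p) hp3
  have h := B_low (p := p) hp2 8 (ScKp hp2 hp3) (PK := PC p (2 * p - 1)) (P1 := PC ((p + 1) / 2) (p - 1))
    (by rw [Nat.cast_ofNat]; exact PC_ps fun k hk => by omega)
    (by rw [Nat.cast_ofNat]; exact PC_ps fun k hk => by omega)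
  rw [Nat.cast_ofNat] at h
  exact h

theorem eq_of_deg {P Q : R[X]} {G : PowerSeries R} (hP : P.natDegree ≤ p - 1) (hQ : Q.natDegree ≤ p - 1)
    (h1 : (PowerSeries.X : PowerSeries R) ^ p ∣ (P : PowerSeries R) - G)
    (h2 : (PowerSeries.X : PowerSeries R) ^ p ∣ (Q : PowerSeries R) - G) : P = Q := by
  ext n
  have hpp := hp.out.pos
  rcases Nat.lt_or_ge n p with h | h
  · have e1 := PowerSeries.X_pow_dvd_iff.mp h1 n h
    have e2 := PowerSeries.X_pow_dvd_iff.mp h2 n h
    rw [map_sub, Polynomial.coeff_coe] at e1 e2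
    linear_combination e1 - e2
  · rw [coeff_eq_zero_of_natDegree_lt (by omega), coeff_eq_zero_of_natDegree_lt (by omega)]

theorem pG_AB (hp2 : (p : R) ^ 2 = 0) (hp3 : 3 < p) :
    C (p : R) * PA (p / 3 + 1) (p - 1) = C (p : R) * PB (p / 3 + 1) (p - 1) := by
  refine eq_of_deg (p := p) ?_ ?_ (BA_low hp2 hp3).2 (BB_low hp2 hp3).2
  · exact (natDegree_C_mul_le _ _).trans (PA_deg fun k hk => k13 hp3 hk)
  · exact (natDegree_C_mul_le _ _).trans (PB_deg fun k hk => k13 hp3 hk)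

theorem pG_AC (hp2 : (p : R) ^ 2 = 0) (hp3 : 3 < p) :
    C (p : R) * PA (p / 3 + 1) (p - 1) = C (p : R) * PC ((p + 1) / 2) (p - 1) := by
  refine eq_of_deg (p := p) ?_ ?_ (BA_low hp2 hp3).2 (BC_low hp2 hp3).2
  · exact (natDegree_C_mul_le _ _).trans (PA_deg fun k hk => k13 hp3 hk)
  · exact (natDegree_C_mul_le _ _).trans (PC_deg fun k hk => by omega)

/-- `p` times the large polynomial -/
theorem pP {c : R} {PK P1 : R[X]} {SK S1 : PowerSeries R} (hs : SerData p SK S1)
    (hK : (PK : PowerSeries R) = (((1 + C c * X) ^ (2 * p) : R[X]) : PowerSeries R) * SK)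
    (h1 : (P1 : PowerSeries R) = (((1 + C c * X) ^ p : R[X]) : PowerSeries R) * S1) :
    C (p : R) * PK = C (p : R) * P1 * (1 + C c * X) ^ p := by
  apply Polynomial.coe_injective
  rw [cphi, cphi]
  rw [cphi, cphi] at hK h1
  rw [map_mul, map_mul, map_mul, hK, h1, phiC, two_mul, pow_add, map_mul]
  linear_combination -(coeToPowerSeries.ringHom ((1 + C c * X) ^ p : R[X])) ^ 2 * hs.d1

end low

section WW

variable {R : Type*} [CommRing R] {p : ℕ} [hp : Fact p.Prime]

theorem W_one (u : R) (N : ℕ) : W u N (1 : R[X]) = X ^ N := by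
  have := W_X_pow u (N := N) (j := 0) (Nat.zero_le N)
  simpa using this

theorem W_M (u c : R) (N : ℕ) : W u N (1 + C c * X ^ N) = X ^ N + C (c * u ^ N) := by
  rw [W_add, W_one, W_Cmul, W_X_pow u le_rfl, Nat.sub_self, pow_zero, mul_one, ← C_mul]

/-- abstract form of the action of the reflection -/
theorem absW {S : Type*} [CommRing S] {E V PB GB L T M c a : S} (hE : E ^ 2 = 0) (hM : M = 1 + c * T)
    (hV : V * c = 1) (hEM : E * M = E * L) (hEP : E * PB = E * GB * L) :
    V * (1 + 2 * a * E) * PB + 2 * ((1 + a * E) * GB) * (T + V * (1 + 6 * E) - V * (1 + a * E) * L) =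
      V * (PB + 2 * GB * (M - L) + 12 * E * GB) := by
  subst hM
  linear_combination (2 * a * V) * hEP + (2 * a * V * GB) * hEM + (12 * a - 2 * a ^ 2 * L) * GB * V * hE +
    (-2 * GB * T * (1 + a * E)) * hV

theorem one_add_pow' {S : Type*} [CommRing S] {e : S} (he : e ^ 2 = 0) (a : ℕ) : (1 + e) ^ a = 1 + a * e := by
  induction a with
  | zero => simp
  | succ n ih =>
    rw [pow_succ, ih]
    push_cast
    linear_combination (n : S) * he

theorem W_B (hp2 : (p : R) ^ 2 = 0) {h f : R} (hf : h ^ (p - 1) = 1 + p * f) {PK P1 PK' P1' : R[X]}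
    {c' v : R} {c a : ℕ} (c2 : ℕ) (hcc : (c2 : R) = c') (hcu : (c : R) * h ^ 6 = v) (hv : v * c' = 1) (hva : v = h ^ a)
    (hPK : W (h ^ 6) (2 * p - 1) PK = C (v ^ (2 * p - 1)) * PK')
    (hP1 : W (h ^ 6) (p - 1) P1 = C (v ^ (p - 1)) * P1') (hd : P1.natDegree ≤ p - 1)
    (hpP : C (p : R) * PK' = C (p : R) * P1' * (1 + C c' * X) ^ p) :
    W (h ^ 6) (2 * p - 1) (PK + 2 * P1 * ((1 + C (c : R) * X ^ p) - (1 + C (c : R) * X) ^ p)) =
      C v * (PK' + 2 * P1' * ((1 + C c' * X ^ p) - (1 + C c' * X) ^ p) + 12 * C (p * f) * P1') := by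
  have hpp := hp.out.pos
  have he : ((p : R) * f) ^ 2 = 0 := by rw [mul_pow, hp2, zero_mul]
  have v1 : v ^ (p - 1) = 1 + a * (p * f) := by
    rw [hva, ← pow_mul, mul_comm, pow_mul, hf, one_add_pow' he]
  have vp : v ^ p = v * (1 + a * (p * f)) := by
    have : p = (p - 1) + 1 := by omega
    conv_lhs => rw [this]
    rw [pow_succ, v1]; ring
  have v2 : v ^ (2 * p - 1) = v * (1 + 2 * a * (p * f)) := by
    have : 2 * p - 1 = p + (p - 1) := by omega
    rw [this, pow_add, v1, vp]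
    linear_combination (v * (a : R) ^ 2) * he
  have up : (c : R) * (h ^ 6) ^ p = v * (1 + 6 * (p * f)) := by
    have h1 : (h ^ 6) ^ p = h ^ 6 * (1 + 6 * (p * f)) := by
      have : p = (p - 1) + 1 := by omega
      conv_lhs => rw [this]
      rw [pow_succ, ← pow_mul, mul_comm 6, pow_mul, hf, one_add_pow' he]
      push_cast
      ring
    rw [h1, ← mul_assoc, hcu]
  have hN : 2 * p - 1 = (p - 1) + p := by omega
  have hT : W (h ^ 6) (2 * p - 1) (P1 * ((1 + C (c : R) * X ^ p) - (1 + C (c : R) * X) ^ p)) =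
      (C (v ^ (p - 1)) * P1') * ((X ^ p + C ((c : R) * (h ^ 6) ^ p)) - C (v ^ p) * (1 + C c' * X) ^ p) := by
    rw [hN, W_mul _ hd (ML_deg _), hP1, W_sub, W_M, W_lin_pow hcu hv]
  have e2 : (PK + 2 * P1 * ((1 + C (c : R) * X ^ p) - (1 + C (c : R) * X) ^ p)) =
      PK + (P1 * ((1 + C (c : R) * X ^ p) - (1 + C (c : R) * X) ^ p) +
        P1 * ((1 + C (c : R) * X ^ p) - (1 + C (c : R) * X) ^ p)) := by ring
  rw [e2, W_add, W_add, hT, hPK, v1, v2, vp, up]
  obtain ⟨r, hr⟩ := ML_dvd (p := p) c2 (X : R[X])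
  have hcc' : (c2 : R[X]) = C c' := by rw [← hcc, C_eq_natCast]
  rw [hcc'] at hr
  have hE : (C ((p : R) * f)) ^ 2 = 0 := by rw [← map_pow, he, map_zero]
  have hEM : C ((p : R) * f) * (1 + C c' * X ^ p) = C ((p : R) * f) * (1 + C c' * X) ^ p := by
    have h0 : C ((p : R) * f) * (p : R[X]) = 0 := by
      rw [← C_eq_natCast, ← C_mul]
      have : (p : R) * f * p = 0 := by linear_combination f * hp2
      rw [this, C_0]
    linear_combination C ((p : R) * f) * hr + r * h0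
  have hEP : C ((p : R) * f) * PK' = C ((p : R) * f) * P1' * (1 + C c' * X) ^ p := by
    rw [C_mul]
    linear_combination C f * hpP
  have hVc : C v * C c' = (1 : R[X]) := by rw [← C_mul, hv, C_1]
  have := absW (a := (a : R[X])) hE rfl hVc hEM hEP
  simp only [map_mul, map_add, map_one, map_natCast, map_ofNat] at this ⊢
  linear_combination this

theorem theta (hp2 : (p : R) ^ 2 = 0) (hp3 : 3 < p) {h : R} (hh : 2 * h = 1) :
    2 * (BA p : R[X]) + BB p = 3 * BC p := by
  obtain ⟨f, hf⟩ := h_pow (p := p) hh hp3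
  have ho := odd_p (p := p) hp3
  have h6 : (64 : R) * h ^ 6 = 1 := by
    linear_combination (32 * h ^ 5 + 16 * h ^ 4 + 8 * h ^ 3 + 4 * h ^ 2 + 2 * h + 1) * hh
  -- the three reflections
  have wa : W (h ^ 6) (2 * p - 1) (BA p) = C (h ^ 4) * (BB p + 12 * C (p * f) * PB (p / 3 + 1) (p - 1)) := by
    have := W_B (p := p) hp2 hf (c := 4) (c' := 16) (v := h ^ 4) (a := 4) 16 (by norm_num)
      (by push_cast; linear_combination h ^ 4 * (2 * h + 1) * hh)
      (by linear_combination (8 * h ^ 3 + 4 * h ^ 2 + 2 * h + 1) * hh) rfl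
      (W_PA hh (K := (p + 1) / 2) fun k hk => by omega) (W_PA hh (K := p / 3 + 1) fun k hk => k13 hp3 hk)
      (PA_deg fun k hk => k13 hp3 hk)
      (pP (SbKp hp2 hp3) (PB_ps fun k hk => by omega) (PB_ps fun k hk => by have := k13 hp3 hk; omega))
    rw [Nat.cast_ofNat] at this
    exact this
  have wb : W (h ^ 6) (2 * p - 1) (BB p) = C (h ^ 2) * (BA p + 12 * C (p * f) * PA (p / 3 + 1) (p - 1)) := by
    have := W_B (p := p) hp2 hf (c := 16) (c' := 4) (v := h ^ 2) (a := 2) 4 (by norm_num)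
      (by push_cast; linear_combination h ^ 2 * (8 * h ^ 3 + 4 * h ^ 2 + 2 * h + 1) * hh)
      (by linear_combination (2 * h + 1) * hh) rfl
      (W_PB hh (K := (p + 1) / 2) fun k hk => by omega) (W_PB hh (K := p / 3 + 1) fun k hk => k13 hp3 hk)
      (PB_deg fun k hk => k13 hp3 hk)
      (pP (SaKp hp2 hp3) (PA_ps fun k hk => by omega) (PA_ps fun k hk => by have := k13 hp3 hk; omega))
    rw [Nat.cast_ofNat] at this
    exact this
  have wc : W (h ^ 6) (2 * p - 1) (BC p) = C (h ^ 3) * (BC p + 12 * C (p * f) * PC ((p + 1) / 2) (p - 1)) := by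
    have := W_B (p := p) hp2 hf (c := 8) (c' := 8) (v := h ^ 3) (a := 3) 8 (by norm_num)
      (by push_cast; linear_combination h ^ 3 * (4 * h ^ 2 + 2 * h + 1) * hh)
      (by linear_combination (4 * h ^ 2 + 2 * h + 1) * hh) rfl
      (W_PC hh (K := p) fun k hk => by omega) (W_PC hh (K := (p + 1) / 2) fun k hk => by omega)
      (PC_deg fun k hk => by omega)
      (pP (ScKp hp2 hp3) (PC_ps fun k hk => by omega) (PC_ps fun k hk => by omega))
    rw [Nat.cast_ofNat] at this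
    exact this
  set Θ : R[X] := 2 * BA p + BB p - 3 * BC p with hΘ
  have hW : Θ = 8 * W (h ^ 6) (2 * p - 1) Θ := by
    have e1 : W (h ^ 6) (2 * p - 1) Θ = 2 * W (h ^ 6) (2 * p - 1) (BA p) + W (h ^ 6) (2 * p - 1) (BB p) -
        3 * W (h ^ 6) (2 * p - 1) (BC p) := by
      have e2 : Θ = C 2 * BA p + BB p - C 3 * BC p := by rw [hΘ, map_ofNat, map_ofNat]
      rw [e2, W_sub, W_add, W_Cmul, W_Cmul, map_ofNat, map_ofNat]
    rw [e1, wa, wb, wc]
    have g1 : (16 : R[X]) * C (h ^ 4) = 1 := by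
      have : (16 : R) * h ^ 4 = 1 := by linear_combination (8 * h ^ 3 + 4 * h ^ 2 + 2 * h + 1) * hh
      rw [← map_ofNat C 16, ← C_mul, this, C_1]
    have g2 : (8 : R[X]) * C (h ^ 2) = 2 := by
      have : (8 : R) * h ^ 2 = 2 := by linear_combination (4 * h + 2) * hh
      rw [← map_ofNat C 8, ← C_mul, this, map_ofNat]
    have g3 : (8 : R[X]) * C (h ^ 3) = 1 := by
      have : (8 : R) * h ^ 3 = 1 := by linear_combination (4 * h ^ 2 + 2 * h + 1) * hh
      rw [← map_ofNat C 8, ← C_mul, this, C_1]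
    have k1 := pG_AB (R := R) (p := p) hp2 hp3
    have k2 := pG_AC (R := R) (p := p) hp2 hp3
    rw [C_mul (a := (p : R)) (b := f), hΘ]
    linear_combination (-(BB p) - 12 * C (p : R) * C f * PB (p / 3 + 1) (p - 1)) * g1 +
      (-(BA p) - 12 * C (p : R) * C f * PA (p / 3 + 1) (p - 1)) * g2 +
      (3 * BC p + 36 * C (p : R) * C f * PC ((p + 1) / 2) (p - 1)) * g3 + 12 * C f * k1 - 36 * C f * k2
  have hdeg : Θ.natDegree ≤ 2 * p - 1 := by
    rw [hΘ]
    refine (natDegree_sub_le _ _).trans (max_le ((natDegree_add_le _ _).trans (max_le ?_ (BB_deg hp3))) ?_)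
    · exact (two_mul_deg _).trans (BA_deg hp3)
    · have : (3 : R[X]) = C 3 := (map_ofNat C 3).symm
      rw [this]
      exact (natDegree_C_mul_le _ _).trans (BC_deg hp3)
  have hlow : ∀ j, j < p → Θ.coeff j = 0 := by
    intro j hj
    have c1 := PowerSeries.X_pow_dvd_iff.mp (BA_low (R := R) hp2 hp3).1 j hj
    have c2 := PowerSeries.X_pow_dvd_iff.mp (BB_low (R := R) hp2 hp3).1 j hj
    have c3 := PowerSeries.X_pow_dvd_iff.mp (BC_low (R := R) hp2 hp3).1 j hj
    rw [map_sub, Polynomial.coeff_coe] at c1 c2 c3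
    have e2 : Θ = C 2 * BA p + BB p - C 3 * BC p := by rw [hΘ, map_ofNat, map_ofNat]
    rw [e2, coeff_sub, coeff_add, coeff_C_mul, coeff_C_mul]
    linear_combination 2 * c1 + c2 - 3 * c3
  have h0 : Θ = 0 := by
    ext n
    rw [coeff_zero]
    rcases Nat.lt_or_ge n p with hn | hn
    · exact hlow n hn
    · rcases Nat.lt_or_ge (2 * p - 1) n with hn2 | hn2
      · exact coeff_eq_zero_of_natDegree_lt (by omega)
      · have := W_coeff (h ^ 6) (N := 2 * p - 1) (j := 2 * p - 1 - n) (by omega) Θ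
        rw [hlow _ (by omega), zero_mul, show 2 * p - 1 - (2 * p - 1 - n) = n by omega] at this
        rw [hW, ← map_ofNat C 8, coeff_C_mul, this, mul_zero]
  linear_combination h0

end WW

end Pool.Agent.H547
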