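import Pool.Agent.H547.ZH

set_option autoImplicit false
set_option linter.unusedSectionVars false

/-!
# The relation between the sums
-/

namespace Pool.Agent.H547

open Finset Polynomial

section club

variable {A : Type*} [CommRing A] {p : ℕ} [hp : Fact p.Prime]

/-- the two sums -/
def SS (p : ℕ) (Y : A) : A := ∑ k ∈ range p, ((ak k : ℕ) : A) * Y ^ k
def AA (p : ℕ) (X : A) : A := ∑ k ∈ range p, ((An k : ℕ) : A) * X ^ k

theorem pow_inv_mul {u i : A} (hu : u * i = 1) {a m : ℕ} (h : a ≤ m) : u ^ (m - a) = u ^ m * i ^ a := by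
  have : m = (m - a) + a := by omega
  conv_rhs => rw [this]
  rw [pow_add, mul_assoc, ← mul_pow, hu, one_pow, mul_one]

theorem evA {s i : A} (hi : (1 + 4 * s) * i = 1) {K m : ℕ} (hK : ∀ k < K, 3 * k ≤ m) :
    (PA K m : A[X]).eval s = (1 + 4 * s) ^ m * ∑ k ∈ range K, ((ak k : ℕ) : A) * (s ^ 2 * i ^ 3) ^ k := by
  unfold PA
  rw [eval_finset_sum, mul_sum]
  refine sum_congr rfl fun k hk => ?_
  simp only [eval_mul, eval_pow, eval_add, eval_one, eval_C, eval_X]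
  rw [pow_inv_mul hi (hK k (mem_range.mp hk))]
  ring

theorem evB {s i : A} (hi : (1 + 16 * s) * i = 1) {K m : ℕ} (hK : ∀ k < K, 3 * k ≤ m) :
    (PB K m : A[X]).eval s = (1 + 16 * s) ^ m * ∑ k ∈ range K, ((ak k : ℕ) : A) * (s * i ^ 3) ^ k := by
  unfold PB
  rw [eval_finset_sum, mul_sum]
  refine sum_congr rfl fun k hk => ?_
  simp only [eval_mul, eval_pow, eval_add, eval_one, eval_C, eval_X]
  rw [pow_inv_mul hi (hK k (mem_range.mp hk))]
  ring

theorem evC {s i : A} (hi : (1 + 8 * s) * i = 1) {K m : ℕ} (hK : ∀ k < K, 2 * k ≤ m) :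
    (PC K m : A[X]).eval s = (1 + 8 * s) ^ m * ∑ k ∈ range K, ((An k : ℕ) : A) * (s * i ^ 2) ^ k := by
  unfold PC
  rw [eval_finset_sum, mul_sum]
  refine sum_congr rfl fun k hk => ?_
  simp only [eval_mul, eval_pow, eval_add, eval_one, eval_C, eval_X]
  rw [pow_inv_mul hi (hK k (mem_range.mp hk))]
  ring

theorem SS_K (hp2 : (p : A) ^ 2 = 0) (Y : A) : ∑ k ∈ range ((p + 1) / 2), ((ak k : ℕ) : A) * Y ^ k = SS p Y := by
  unfold SS
  symm
  refine sum_ext'' _ _ _ (by have := hp.out.pos; omega) fun k hk hk' => ?_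
  rw [cast_dvd_zero (p := p) hp2 (dvd_ak2 (by omega) hk'), zero_mul]

theorem SS_1 (hp2 : (p : A) ^ 2 = 0) (Y : A) :
    (p : A) * ∑ k ∈ range (p / 3 + 1), ((ak k : ℕ) : A) * Y ^ k = p * SS p Y := by
  unfold SS
  rw [mul_sum, mul_sum]
  symm
  refine sum_ext'' _ _ _ (by have := hp.out.two_le; omega) fun k hk hk' => ?_
  rw [← mul_assoc, cast_dvd_one (p := p) hp2 (dvd_ak (by omega) hk'), zero_mul]

theorem AA_K (hp2 : (p : A) ^ 2 = 0) (Y : A) :
    (p : A) * ∑ k ∈ range ((p + 1) / 2), ((An k : ℕ) : A) * Y ^ k = p * AA p Y := by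
  unfold AA
  rw [mul_sum, mul_sum]
  symm
  refine sum_ext'' _ _ _ (by have := hp.out.pos; omega) fun k hk hk' => ?_
  rw [← mul_assoc, cast_dvd_one (p := p) hp2 (dvd_An (by omega) hk'), zero_mul]

theorem absE {S S1 L M r i P : A} (hP : P ^ 2 = 0) (hML : M - L = P * r) (hS : P * S1 = P * S) :
    L * L * i * S + 2 * (L * i * S1) * (M - L) = i * M ^ 2 * S := by
  have h1 : (M - L) * S1 = (M - L) * S := by rw [hML]; linear_combination r * hS
  have h2 : (M - L) ^ 2 = 0 := by rw [hML, mul_pow, hP, zero_mul]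
  linear_combination 2 * L * i * h1 - i * S * h2

/-- **The relation.** -/
theorem club (hp2 : (p : A) ^ 2 = 0) (hp3 : 3 < p) {s i4 i8 i16 : A} (h4 : (1 + 4 * s) * i4 = 1)
    (h8 : (1 + 8 * s) * i8 = 1) (h16 : (1 + 16 * s) * i16 = 1) :
    2 * (i4 * (1 + 4 * s ^ p) ^ 2 * SS p (s ^ 2 * i4 ^ 3)) + i16 * (1 + 16 * s ^ p) ^ 2 * SS p (s * i16 ^ 3) =
      3 * (i8 * (1 + 8 * s ^ p) ^ 2 * AA p (s * i8 ^ 2)) := by
  have ho := odd_p (p := p) hp3
  obtain ⟨q, hq⟩ : ∃ q : ℕ, p = 2 * q + 1 := ⟨p / 2, by omega⟩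
  have hh : 2 * (-(2 * (q : A) ^ 2 + 2 * q)) = 1 := by
    have : (p : A) = 2 * q + 1 := by rw [hq]; push_cast; ring
    rw [this] at hp2
    linear_combination -hp2
  have ht := theta (p := p) hp2 hp3 hh
  have ht2 := congrArg (Polynomial.eval s) ht
  unfold BA BB BC at ht2
  have hpp := hp.out.pos
  have m1 : ∀ u i : A, u * i = 1 → u ^ (2 * p - 1) = u ^ p * u ^ p * i := by
    intro u i hu
    rw [pow_inv_mul hu (a := 1) (by omega), two_mul, pow_add, pow_one]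
  have m2 : ∀ u i : A, u * i = 1 → u ^ (p - 1) = u ^ p * i := by
    intro u i hu
    rw [pow_inv_mul hu (a := 1) (by omega), pow_one]
  have a1 := evA h4 (K := (p + 1) / 2) (m := 2 * p - 1) fun k hk => by omega
  have a2 := evA h4 (K := p / 3 + 1) (m := p - 1) fun k hk => k13 hp3 hk
  have b1 := evB h16 (K := (p + 1) / 2) (m := 2 * p - 1) fun k hk => by omega
  have b2 := evB h16 (K := p / 3 + 1) (m := p - 1) fun k hk => k13 hp3 hk
  have c1 := evC h8 (K := p) (m := 2 * p - 1) fun k hk => by omega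
  have c2 := evC h8 (K := (p + 1) / 2) (m := p - 1) fun k hk => by omega
  rw [SS_K hp2, m1 _ _ h4] at a1
  rw [m2 _ _ h4] at a2
  rw [SS_K hp2, m1 _ _ h16] at b1
  rw [m2 _ _ h16] at b2
  rw [m1 _ _ h8] at c1
  rw [m2 _ _ h8] at c2
  simp only [eval_add, eval_mul, eval_sub, eval_pow, eval_one, eval_C, eval_X, eval_ofNat] at ht2
  rw [a1, a2, b1, b2, c1, c2] at ht2
  obtain ⟨r4, hr4⟩ := ML_dvd (p := p) 4 s
  obtain ⟨r8, hr8⟩ := ML_dvd (p := p) 8 s
  obtain ⟨r16, hr16⟩ := ML_dvd (p := p) 16 s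
  rw [Nat.cast_ofNat] at hr4 hr8 hr16
  have e4 := absE (i := i4) hp2 hr4 (SS_1 hp2 (s ^ 2 * i4 ^ 3))
  have e16 := absE (i := i16) hp2 hr16 (SS_1 hp2 (s * i16 ^ 3))
  have e8 := absE (i := i8) hp2 hr8 (AA_K hp2 (s * i8 ^ 2))
  unfold AA at e8 ⊢
  linear_combination ht2 - 2 * e4 - e16 + 3 * e8

end club

end Pool.Agent.H547
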